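import Pool.Agent.Lib.MP_4a0cc8_ntC.LocDefs
import Pool.Agent.Lib.FMK60.TwistToolsK

/-!
MP_4a0cc8_nt: congruences and twists.
-/

set_option autoImplicit false

namespace Pool.Agent.Lib.MP_4a0cc8_ntC

open NumberField Module
open Pool.Agent.Lib.FMK60 (InBox Del Hle curK)
open Pool.Agent.Lib.FM60 (Congruent)

private lemma ct_mem {A : Type*} [AddCommGroup A] {n : ℕ} (P : A) :
    P ∈ Submodule.torsionBy ℤ A (n : ℤ) ↔ n • P = 0 := by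
  rw [Submodule.mem_torsionBy_iff, natCast_zsmul]

/-- restriction of an isomorphism to the torsion -/
private def ctRes {A B : Type*} [AddCommGroup A] [AddCommGroup B] (ι : A ≃+ B) (n : ℕ) :
    Submodule.torsionBy ℤ A (n : ℤ) ≃+ Submodule.torsionBy ℤ B (n : ℤ) where
  toFun P := ⟨ι P.1, by rw [ct_mem, ← map_nsmul, (ct_mem _).1 P.2, map_zero]⟩
  invFun P := ⟨ι.symm P.1, by rw [ct_mem, ← map_nsmul, (ct_mem _).1 P.2, map_zero]⟩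
  left_inv P := Subtype.ext (ι.symm_apply_apply P.1)
  right_inv P := Subtype.ext (ι.apply_symm_apply P.1)
  map_add' P Q := Subtype.ext (map_add ι P.1 Q.1)

/-- Congruences are compatible with simultaneous quadratic twists.

Proof. `twist_tools` (FMK60/TwistToolsK.lean) for `W₁, W₁'` and for `W₂, W₂'`, with the same `t`: it
gives `s₁, ι₁` and `s₂, ι₂` with `s₁² = s₂² = t`, so `s₂ = ± s₁` and every `g ∈ Gal` with `g s₁ = s₁` has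
`g s₂ = s₂`, and `g s₁ = -s₁` implies `g s₂ = - s₂` (`sign_of_sq`). Let `φ' = ι₂ ∘ φ ∘ ι₁⁻¹` on the
`n`-torsion (`ι` are additive equivalences, so they preserve `n`-torsion: `mem_tors_iff`). It commutes
with `g`: for `g s = s` clear, for `g s = -s` both `ι₁` and `ι₂` anticommute with `g`:
`φ' (g P) = ι₂ φ (ι₁⁻¹ (g P)) = ι₂ φ (- g ι₁⁻¹ P) = - ι₂ g φ ι₁⁻¹ P = g ι₂ φ ι₁⁻¹ P`. (`act` is
`WeierstrassCurve.Affine.Point.map`, see `gactW` in TwistToolsK.lean.) -/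
theorem tc_congruent_twist {K : Type*} [Field K] [NumberField K] {Ω : Type*} [Field Ω]
    [DecidableEq Ω] [CharZero Ω] [Algebra K Ω] [IsAlgClosed Ω]
    {W₁ W₂ W₁' W₂' : WeierstrassCurve K} [W₁.IsShortNF] [W₂.IsShortNF] [W₁'.IsShortNF]
    [W₂'.IsShortNF] {t : K} (ht : t ≠ 0) (h1 : W₁'.a₄ = t ^ 2 * W₁.a₄)
    (h2 : W₁'.a₆ = t ^ 3 * W₁.a₆) (h3 : W₂'.a₄ = t ^ 2 * W₂.a₄) (h4 : W₂'.a₆ = t ^ 3 * W₂.a₆)
    {n : ℕ} (h : Congruent Ω n W₁ W₂) : Congruent Ω n W₁' W₂' := by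
  obtain ⟨s₁, ι₁, hs₁, p₁, m₁⟩ := Pool.Agent.Lib.FMK60.twist_tools (Ω := Ω) (W := W₁) (W' := W₁')
    ht h1 h2
  obtain ⟨s₂, ι₂, hs₂, p₂, m₂⟩ := Pool.Agent.Lib.FMK60.twist_tools (Ω := Ω) (W := W₂) (W' := W₂')
    ht h3 h4
  obtain ⟨φ, hφ⟩ := h
  have hss : s₂ = s₁ ∨ s₂ = -s₁ := sq_eq_sq_iff_eq_or_eq_neg.1 (hs₂.trans hs₁.symm)
  refine ⟨(ctRes ι₁ n).symm.trans (φ.trans (ctRes ι₂ n)), fun g P Q hQ => ?_⟩
  obtain ⟨P₀, hP₀⟩ := (ctRes ι₁ n).surjective P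
  obtain ⟨Q₀, hQ₀⟩ := (ctRes ι₁ n).surjective Q
  subst hP₀
  subst hQ₀
  have hQ' : ι₁ Q₀.1 = Pool.Agent.Lib.EC60.act g (ι₁ P₀.1) := hQ
  have e1 : ∀ R, ((ctRes ι₁ n).symm.trans (φ.trans (ctRes ι₂ n))) (ctRes ι₁ n R) =
      ctRes ι₂ n (φ R) := by
    intro R
    change ctRes ι₂ n (φ ((ctRes ι₁ n).symm (ctRes ι₁ n R))) = ctRes ι₂ n (φ R)
    rw [AddEquiv.symm_apply_apply]
  rw [e1, e1]
  change ι₂ (φ Q₀).1 = Pool.Agent.Lib.EC60.act g (ι₂ (φ P₀).1)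
  rcases Pool.Agent.Lib.FMK60.sign_of_sq (Ω := Ω) hs₁ g with hg | hg
  · have hg2 : g s₂ = s₂ := by
      rcases hss with h5 | h5
      · rw [h5, hg]
      · rw [h5, map_neg, hg]
    have h6 : Q₀.1 = Pool.Agent.Lib.EC60.act g P₀.1 := by
      apply ι₁.injective
      rw [hQ', p₁ g hg]
    have h7 : (φ Q₀).1 = Pool.Agent.Lib.EC60.act g (φ P₀).1 := hφ g P₀ Q₀ h6
    rw [h7, p₂ g hg2]
  · have hg2 : g s₂ = -s₂ := by
      rcases hss with h5 | h5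
      · rw [h5, hg]
      · rw [h5, map_neg, hg]
    have h6 : Q₀.1 = Pool.Agent.Lib.EC60.act g (-P₀).1 := by
      apply ι₁.injective
      change ι₁ Q₀.1 = ι₁ (Pool.Agent.Lib.EC60.act g (-P₀.1))
      rw [hQ', Pool.Agent.Lib.EC60.act_neg, map_neg, m₁ g hg, neg_neg]
    have h7 : (φ Q₀).1 = Pool.Agent.Lib.EC60.act g (φ (-P₀)).1 := hφ g (-P₀) Q₀ h6
    rw [h7, map_neg]
    change ι₂ (Pool.Agent.Lib.EC60.act g (-(φ P₀).1)) = Pool.Agent.Lib.EC60.act g (ι₂ (φ P₀).1)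
    rw [Pool.Agent.Lib.EC60.act_neg, map_neg, m₂ g hg2, neg_neg]

/-- Congruence of isomorphic curves.

Proof. `twist_tools` with `t = ρ²`: `s² = ρ²`, so `s = ± ρ` is fixed by every `g`, and the
isomorphism `ι` commutes with `g`; restrict to the `n`-torsion as above. -/
theorem tc_congruent_iso {K : Type*} [Field K] [NumberField K] {Ω : Type*} [Field Ω]
    [DecidableEq Ω] [CharZero Ω] [Algebra K Ω] [IsAlgClosed Ω]
    {W₁ W₁' W₂ : WeierstrassCurve K} [W₁.IsShortNF] [W₁'.IsShortNF] [W₂.IsShortNF]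
    {ρ : K} (hρ : ρ ≠ 0) (h1 : W₁.a₄ = ρ ^ 4 * W₁'.a₄)
    (h2 : W₁.a₆ = ρ ^ 6 * W₁'.a₆) {n : ℕ} (h : Congruent Ω n W₁ W₂) : Congruent Ω n W₁' W₂ := by
  obtain ⟨s, ι, hs, hplus, -⟩ := Pool.Agent.Lib.FMK60.twist_tools (Ω := Ω) (W := W₁') (W' := W₁)
    (t := ρ ^ 2) (pow_ne_zero 2 hρ) (by rw [h1]; ring) (by rw [h2]; ring)
  obtain ⟨φ, hφ⟩ := h
  have hss : s = algebraMap K Ω ρ ∨ s = -algebraMap K Ω ρ :=
    sq_eq_sq_iff_eq_or_eq_neg.1 (by rw [hs, map_pow])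
  refine ⟨(ctRes ι n).trans φ, fun g P Q hQ => ?_⟩
  have hg : g s = s := by
    rcases hss with h5 | h5
    · rw [h5, g.commutes]
    · rw [h5, map_neg, g.commutes]
  have hQ' : Q.1 = Pool.Agent.Lib.EC60.act g P.1 := hQ
  have h6 : (ctRes ι n Q).1 = Pool.Agent.Lib.EC60.act g (ctRes ι n P).1 := by
    change ι Q.1 = Pool.Agent.Lib.EC60.act g (ι P.1)
    rw [hQ', hplus g hg]
  exact hφ g (ctRes ι n P) (ctRes ι n Q) h6

/-- **The form used in the final assembly.** If `E[n] ≅ E₀ᵗ[n]` and `Eᵗ ≅ E'` then `E'[n] ≅ E₀[n]`.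

Proof. `tc_congruent_twist` with `t`: `(t² A, t³ B)` is congruent to `(t⁴ A₀, t⁶ B₀)`. By
`tc_congruent_iso` (`ρ`) `E'` is congruent to `(t⁴ A₀, t⁶ B₀)`, and by `Congruent.symm` and
`tc_congruent_iso` with `ρ = t` to `(A₀, B₀)`. -/
theorem tc_congruent_final {K : Type*} [Field K] [NumberField K] {Ω : Type*} [Field Ω]
    [DecidableEq Ω] [CharZero Ω] [Algebra K Ω] [IsAlgClosed Ω] {z z' w : 𝓞 K × 𝓞 K} {t ρ : K}
    (ht : t ≠ 0) (hρ : ρ ≠ 0) (h1 : t ^ 2 * (z.1 : K) = ρ ^ 4 * (z'.1 : K))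
    (h2 : t ^ 3 * (z.2 : K) = ρ ^ 6 * (z'.2 : K)) {n : ℕ}
    (h : Congruent Ω n (curK z.1 z.2) ⟨0, 0, 0, t ^ 2 * (w.1 : K), t ^ 3 * (w.2 : K)⟩) :
    Congruent Ω n (curK z'.1 z'.2) (curK w.1 w.2) := by
  have a1 : Congruent Ω n (⟨0, 0, 0, t ^ 2 * (z.1 : K), t ^ 3 * (z.2 : K)⟩ : WeierstrassCurve K)
      ⟨0, 0, 0, t ^ 4 * (w.1 : K), t ^ 6 * (w.2 : K)⟩ :=
    tc_congruent_twist (W₁ := curK z.1 z.2) (t := t) ht rfl rfl
      (W₂ := ⟨0, 0, 0, t ^ 2 * (w.1 : K), t ^ 3 * (w.2 : K)⟩)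
      (show t ^ 4 * (w.1 : K) = t ^ 2 * (t ^ 2 * (w.1 : K)) by ring)
      (show t ^ 6 * (w.2 : K) = t ^ 3 * (t ^ 3 * (w.2 : K)) by ring) h
  have a2 : Congruent Ω n (curK z'.1 z'.2)
      (⟨0, 0, 0, t ^ 4 * (w.1 : K), t ^ 6 * (w.2 : K)⟩ : WeierstrassCurve K) :=
    tc_congruent_iso (W₁' := curK z'.1 z'.2) (ρ := ρ) hρ h1 h2 a1
  exact (tc_congruent_iso (W₁' := curK w.1 w.2) (ρ := t) ht rfl rfl a2.symm).symm

end Pool.Agent.Lib.MP_4a0cc8_ntC
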