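import Mathlib
import Pool.Agent.Lib.FMK60.Defs

/-!
MP_4a0cc8_nt, T^ε theorem, counting part (C): definitions.

Plan of (C). `K` a number field, `f = X³ + A X + B`, `D = 4A³ + 27B²`. We count the pairs `(A, B)` in a
box such that all prime ideals dividing `D` divide a given ideal `r` (and `(A, B)` is nearly minimal):
there are at most `C N(r)^C T^ε` of them.
1. (Loc, Glob) there are an ideal `s` and `a` with `f(a) ∈ s²`, `f'(a) ∈ s`, `N(D) ≤ N(r)^C N(s)²`.
2. (Norm3, Cond, Disc) if `f` is irreducible with root `θ`, `L = K(θ)`, then the norms of the elements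
   of the conductor of `𝓞_K[θ]` are in `s²`, so `|disc L| ≤ |disc K|³ N(D) / N(s)² ≤ C N(r)^C`.
3. (Prim, RootSet, Fields) there are at most `C Z^C` such fields `L` with `|disc L| ≤ Z` inside a fixed
   extension field of `K`.
4. (Rankin, SU) in a number field `L` there are at most `C N(r)^C H^ε` integers `γ` supported on `r` with
   all conjugates at most `H`, uniformly in the fields of bounded degree.
5. (Irr, Red) `γ = f'(θ) = 3θ² + A` determines `A` (trace) and `D` (norm), so `(A, ±B)`.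
-/

set_option autoImplicit false

namespace Pool.Agent.Lib.MP_4a0cc8_ntC

open NumberField Module

/-- `x ≠ 0` and every prime ideal containing `x` divides `r` -/
def Supp {L : Type*} [Field L] (r : Ideal (𝓞 L)) (x : 𝓞 L) : Prop :=
  x ≠ 0 ∧ ∀ P : Ideal (𝓞 L), P.IsPrime → x ∈ P → r ≤ P

/-- no nonzero prime ideal `P` has `A ∈ P ^ k` and `B ∈ P ^ k` -/
def KMin {L : Type*} [Field L] (k : ℕ) (z : 𝓞 L × 𝓞 L) : Prop :=
  ∀ P : Ideal (𝓞 L), P.IsPrime → P ≠ ⊥ → ¬ (z.1 ∈ P ^ k ∧ z.2 ∈ P ^ k)

end Pool.Agent.Lib.MP_4a0cc8_ntC
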