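import Pool.Agent.Lib.MP_4a0cc8_ntC.Defs
import Pool.Agent.Lib.FMK60.CurveK
import Pool.Agent.Lib.FM60.Congr

/-!
MP_4a0cc8_nt: the local statements LOC1, LOC2 (proved in MP_4a0cc8_ntL).
-/

set_option autoImplicit false

namespace Pool.Agent.Lib.MP_4a0cc8_ntC

open NumberField Module
open Pool.Agent.Lib.FMK60 (InBox Del Hle curK)
open Pool.Agent.Lib.FM60 (Congruent)

/-- LOC1 (tame): `q = p ^ k ≥ 5`, `P` not over `p`, `2`, `3`, unramified over `ℚ`, `E₀` has good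
reduction at `P`, `E` is minimal at `P`, `E[q] ≅ E₀[q]`, bad reduction of `E` at `P`: then it is
multiplicative and the order of the discriminant is at least `q`. -/
def Loc1 (K : Type*) [Field K] [NumberField K] (Ω : Type*) [Field Ω] [DecidableEq Ω]
    [Algebra K Ω] : Prop :=
  ∀ (p k : ℕ), p.Prime → 5 ≤ p ^ k → ∀ A B A₀ B₀ : 𝓞 K,
    4 * A ^ 3 + 27 * B ^ 2 ≠ 0 → 4 * A₀ ^ 3 + 27 * B₀ ^ 2 ≠ 0 → ∀ P : Ideal (𝓞 K), P.IsPrime →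
    P ≠ ⊥ → (p : 𝓞 K) ∉ P → (6 : 𝓞 K) ∉ P →
    (∀ l : ℕ, l.Prime → (l : 𝓞 K) ∈ P → (l : 𝓞 K) ∉ P ^ 2) → 4 * A₀ ^ 3 + 27 * B₀ ^ 2 ∉ P →
    ¬ (A ∈ P ^ 4 ∧ B ∈ P ^ 6) → Congruent Ω (p ^ k) (curK A B) (curK A₀ B₀) →
    4 * A ^ 3 + 27 * B ^ 2 ∈ P → A ∉ P ∧ 4 * A ^ 3 + 27 * B ^ 2 ∈ P ^ (p ^ k)

/-- LOC2 (wild): the same at the primes `P` over `p ≥ 17`, unramified, for `E[p] ≅ E₀[p]`. -/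
def Loc2 (K : Type*) [Field K] [NumberField K] (Ω : Type*) [Field Ω] [DecidableEq Ω]
    [Algebra K Ω] : Prop :=
  ∀ p : ℕ, p.Prime → 17 ≤ p → ∀ A B A₀ B₀ : 𝓞 K,
    4 * A ^ 3 + 27 * B ^ 2 ≠ 0 → 4 * A₀ ^ 3 + 27 * B₀ ^ 2 ≠ 0 → ∀ P : Ideal (𝓞 K), P.IsPrime →
    P ≠ ⊥ → (p : 𝓞 K) ∈ P → (p : 𝓞 K) ∉ P ^ 2 → 4 * A₀ ^ 3 + 27 * B₀ ^ 2 ∉ P →
    ¬ (A ∈ P ^ 4 ∧ B ∈ P ^ 6) → Congruent Ω p (curK A B) (curK A₀ B₀) →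
    4 * A ^ 3 + 27 * B ^ 2 ∈ P → A ∉ P ∧ 4 * A ^ 3 + 27 * B ^ 2 ∈ P ^ p

end Pool.Agent.Lib.MP_4a0cc8_ntC
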