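import Mathlib
import Pool.Agent.Lib.MP_4a0cc8_ntC.Defs
import Pool.Agent.Lib.FMK60.DivHouse

section

/-!
MP_4a0cc8_nt (C): Rankin's trick.
-/

set_option autoImplicit false

namespace Pool.Agent.Lib.MP_4a0cc8_ntC

/-- Rankin's trick. The number of functions `f : ι → ℕ` with `∑ f i ≤ M` is at most
`x ^ (-M) * (1 - x) ^ (-card ι)`, for `0 < x < 1`.

Proof. All such `f` are in `Fintype.piFinset (fun _ => Finset.range (M + 1))`; for each of them
`1 ≤ x ^ (∑ f i) * x⁻¹ ^ M = x⁻¹ ^ M * ∏ i, x ^ f i`. So `S.card ≤ x⁻¹ ^ M * ∑_{f ∈ piFinset} ∏ i, x ^ f i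
= x⁻¹ ^ M * ∏ i, ∑_{j ∈ range (M + 1)} x ^ j` (`Finset.prod_univ_sum`) and
`∑_{j < M + 1} x ^ j ≤ (1 - x)⁻¹` (`geom_sum`, `geom_sum_eq` or `Summable.sum_le_tsum` with
`tsum_geometric_of_lt_one`). -/
theorem tc_rankin_fun {ι : Type*} [Fintype ι] [DecidableEq ι] {x : ℝ} (hx0 : 0 < x) (hx1 : x < 1)
    (M : ℕ) (S : Finset (ι → ℕ)) (hS : ∀ f ∈ S, ∑ i, f i ≤ M) :
    (S.card : ℝ) ≤ x⁻¹ ^ M * (1 - x)⁻¹ ^ Fintype.card ι := by
  have h1 : (S.card : ℝ) = ∑ _f ∈ S, (1 : ℝ) := by simp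
  have h2 : ∀ f ∈ S, (1 : ℝ) ≤ x⁻¹ ^ M * ∏ i, x ^ f i := by
    intro f hf
    rw [Finset.prod_pow_eq_pow_sum, inv_pow, ← div_eq_inv_mul, one_le_div (pow_pos hx0 M)]
    exact pow_le_pow_of_le_one hx0.le hx1.le (hS f hf)
  have hsub : S ⊆ Fintype.piFinset (fun _ : ι => Finset.range (M + 1)) := by
    intro f hf
    rw [Fintype.mem_piFinset]
    intro i
    rw [Finset.mem_range]
    have h3 := Finset.single_le_sum (f := f) (fun _ _ => Nat.zero_le _) (Finset.mem_univ i)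
    have h4 := hS f hf
    omega
  have h3 : ∑ j ∈ Finset.range (M + 1), x ^ j ≤ (1 - x)⁻¹ := by
    rw [← tsum_geometric_of_lt_one hx0.le hx1]
    exact (summable_geometric_of_lt_one hx0.le hx1).sum_le_tsum _ (fun _ _ => by positivity)
  have h0 : (0 : ℝ) ≤ x⁻¹ ^ M := by positivity
  calc (S.card : ℝ) = ∑ _f ∈ S, (1 : ℝ) := h1
    _ ≤ ∑ f ∈ S, x⁻¹ ^ M * ∏ i, x ^ f i := Finset.sum_le_sum h2
    _ ≤ ∑ f ∈ Fintype.piFinset (fun _ : ι => Finset.range (M + 1)), x⁻¹ ^ M * ∏ i, x ^ f i :=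
        Finset.sum_le_sum_of_subset_of_nonneg hsub (fun _ _ _ => by positivity)
    _ = x⁻¹ ^ M * ∏ _i : ι, ∑ j ∈ Finset.range (M + 1), x ^ j := by
        rw [← Finset.mul_sum, Finset.prod_univ_sum]
    _ ≤ x⁻¹ ^ M * ∏ _i : ι, (1 - x)⁻¹ := by
        refine mul_le_mul_of_nonneg_left ?_ h0
        exact Finset.prod_le_prod (fun _ _ => by positivity) (fun _ _ => h3)
    _ = x⁻¹ ^ M * (1 - x)⁻¹ ^ Fintype.card ι := by
        rw [Finset.prod_const, Finset.card_univ]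

end Pool.Agent.Lib.MP_4a0cc8_ntC
end

section

/-!
MP_4a0cc8_nt (C): the number of ideals supported on a given ideal.
-/

set_option autoImplicit false

namespace Pool.Agent.Lib.MP_4a0cc8_ntC

open NumberField Module

private lemma rankin_two_pow {L : Type*} [Field L] [NumberField L] (s : Multiset (Ideal (𝓞 L)))
    (hs : ∀ P ∈ s, 2 ≤ Ideal.absNorm P) : 2 ^ s.card ≤ Ideal.absNorm s.prod := by
  induction s using Multiset.induction_on with
  | empty => simp
  | cons P s ih =>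
    rw [Multiset.card_cons, Multiset.prod_cons, map_mul, pow_succ']
    exact Nat.mul_le_mul (hs P (Multiset.mem_cons_self P s))
      (ih fun Q hQ => hs Q (Multiset.mem_cons_of_mem hQ))

private lemma rankin_norm_ge {L : Type*} [Field L] [NumberField L] {I : Ideal (𝓞 L)} (hI : I ≠ ⊥) :
    2 ^ (UniqueFactorizationMonoid.normalizedFactors I).card ≤ Ideal.absNorm I := by
  have h1 := rankin_two_pow (UniqueFactorizationMonoid.normalizedFactors I) (by
    intro P hP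
    have hP' := (Ideal.mem_normalizedFactors_iff hI).1 hP
    have hP0 : P ≠ ⊥ := fun h => hI (le_bot_iff.1 (h ▸ hP'.2))
    have h0 : Ideal.absNorm P ≠ 0 := fun h => hP0 (Ideal.absNorm_eq_zero_iff.1 h)
    have h1 : Ideal.absNorm P ≠ 1 := fun h => hP'.1.ne_top (Ideal.absNorm_eq_one_iff.1 h)
    omega)
  rwa [Ideal.prod_normalizedFactors_eq_self hI] at h1

/-- The number of ideals `I ≠ 0` with `N(I) ≤ Y` all of whose prime divisors divide `r` is at most
`N(r) ^ C * Y ^ ε`, with `C` depending only on `ε`.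

Proof. Let `x = 2 ^ (-ε) ∈ (0, 1)` and `C = Real.logb 2 ((1 - x)⁻¹) > 0`. Let `F` be the finite set of
the prime divisors of `r` (`(UniqueFactorizationMonoid.normalizedFactors r).toFinset`), `k` its number
of elements. `2 ^ k ≤ N(r)`: the product of the elements of `F` divides `r` (the product of the
`toFinset` divides the product of the multiset) and each has norm `≥ 2` (`Ideal.absNorm` is
multiplicative, a prime ideal is not `⊤`; `Ideal.absNorm_dvd_absNorm_of_le`, `r ≠ ⊥`). For `I ∈ S` let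
`f I : F → ℕ` be the multiplicity of `P` in `normalizedFactors I` (`Multiset.count`). All elements of
`normalizedFactors I` are in `F` (they are prime ideals `P` with `I ≤ P`, so `r ≤ P`, i.e. `P ∣ r`), so
`I = ∏_{P ∈ F} P ^ f I P`; so `f` is injective on `S`, and with `M = ⌊Real.logb 2 Y⌋₊`:
`2 ^ (∑ f I) ≤ N(I) ≤ Y` so `∑ f I ≤ M`. By `tc_rankin_fun`
`S.card ≤ x⁻¹ ^ M * (1 - x)⁻¹ ^ k`, `x⁻¹ ^ M = (2 ^ M) ^ ε ≤ Y ^ ε` and
`(1 - x)⁻¹ ^ k = (2 ^ k) ^ C ≤ N(r) ^ C`. -/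
theorem tc_card_ideal_supp_le.{u} (ε : ℝ) (hε : 0 < ε) :
    ∃ C : ℝ, 0 < C ∧ ∀ (L : Type u) [Field L] [NumberField L] (r : Ideal (𝓞 L)), r ≠ ⊥ →
      ∀ Y : ℝ, 1 ≤ Y → ∀ S : Finset (Ideal (𝓞 L)),
        (∀ I ∈ S, I ≠ ⊥ ∧ (Ideal.absNorm I : ℝ) ≤ Y ∧
          ∀ P : Ideal (𝓞 L), P.IsPrime → I ≤ P → r ≤ P) →
        (S.card : ℝ) ≤ (Ideal.absNorm r : ℝ) ^ C * Y ^ ε := by
  classical
  obtain ⟨x, hx⟩ : ∃ x : ℝ, x = (2 : ℝ) ^ (-ε) := ⟨_, rfl⟩
  have hx0 : 0 < x := by rw [hx]; positivity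
  have hx1 : x < 1 := by
    rw [hx]
    exact Real.rpow_lt_one_of_one_lt_of_neg (by norm_num) (by linarith)
  have hxinv : x⁻¹ = (2 : ℝ) ^ ε := by rw [hx, Real.rpow_neg (by norm_num), inv_inv]
  have h1x : 1 < (1 - x)⁻¹ := by
    rw [one_lt_inv₀ (by linarith)]
    linarith
  refine ⟨Real.logb 2 ((1 - x)⁻¹), Real.logb_pos (by norm_num) h1x, ?_⟩
  have hC : (2 : ℝ) ^ Real.logb 2 ((1 - x)⁻¹) = (1 - x)⁻¹ :=
    Real.rpow_logb (by norm_num) (by norm_num) (by linarith)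
  obtain ⟨C, hCdef⟩ : ∃ C : ℝ, C = Real.logb 2 ((1 - x)⁻¹) := ⟨_, rfl⟩
  have hCpos : 0 < C := by rw [hCdef]; exact Real.logb_pos (by norm_num) h1x
  rw [← hCdef] at hC ⊢
  intro L _ _ r hr Y hY S hS
  obtain ⟨F, hF⟩ : ∃ F, F = (UniqueFactorizationMonoid.normalizedFactors r).toFinset := ⟨_, rfl⟩
  have hsub : ∀ I ∈ S, ∀ P ∈ UniqueFactorizationMonoid.normalizedFactors I, P ∈ F := by
    intro I hI P hP
    obtain ⟨hI0, _, hI2⟩ := hS I hI
    have hP' := (Ideal.mem_normalizedFactors_iff hI0).1 hP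
    rw [hF, Multiset.mem_toFinset, Ideal.mem_normalizedFactors_iff hr]
    exact ⟨hP'.1, hI2 P hP'.1 hP'.2⟩
  let f : Ideal (𝓞 L) → (F → ℕ) := fun I P =>
    Multiset.count P.1 (UniqueFactorizationMonoid.normalizedFactors I)
  have hinj : Set.InjOn f S := by
    intro I hI J hJ hIJ
    have h1 : UniqueFactorizationMonoid.normalizedFactors I =
        UniqueFactorizationMonoid.normalizedFactors J := by
      ext P
      by_cases hP : P ∈ F
      · exact congrFun hIJ ⟨P, hP⟩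
      · rw [Multiset.count_eq_zero_of_notMem fun h => hP (hsub I hI P h),
          Multiset.count_eq_zero_of_notMem fun h => hP (hsub J hJ P h)]
    rw [← Ideal.prod_normalizedFactors_eq_self (hS I hI).1,
      ← Ideal.prod_normalizedFactors_eq_self (hS J hJ).1, h1]
  have hsum : ∀ I ∈ S, ∑ P, f I P =
      (UniqueFactorizationMonoid.normalizedFactors I).card := by
    intro I hI
    rw [← Multiset.sum_count_eq_card (hsub I hI)]
    exact Finset.sum_coe_sort F fun P =>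
      Multiset.count P (UniqueFactorizationMonoid.normalizedFactors I)
  have hY0 : 0 < Y := by linarith
  have hM : ∀ g ∈ S.image f, ∑ P, g P ≤ ⌊Real.logb 2 Y⌋₊ := by
    intro g hg
    obtain ⟨I, hI, rfl⟩ := Finset.mem_image.1 hg
    rw [hsum I hI]
    apply Nat.le_floor
    rw [Real.le_logb_iff_rpow_le (by norm_num) hY0, Real.rpow_natCast]
    refine le_trans ?_ (hS I hI).2.1
    exact_mod_cast rankin_norm_ge (hS I hI).1
  have h2 := tc_rankin_fun hx0 hx1 _ (S.image f) hM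
  rw [Finset.card_image_of_injOn hinj, Fintype.card_coe, hxinv] at h2
  have hMY : (2 : ℝ) ^ ⌊Real.logb 2 Y⌋₊ ≤ Y := by
    rw [← Real.rpow_natCast, ← Real.le_logb_iff_rpow_le (by norm_num) hY0]
    exact Nat.floor_le (Real.logb_nonneg (by norm_num) hY)
  have h3 : ((2 : ℝ) ^ ε) ^ ⌊Real.logb 2 Y⌋₊ ≤ Y ^ ε := by
    have h4 : ((2 : ℝ) ^ ε) ^ ⌊Real.logb 2 Y⌋₊ = ((2 : ℝ) ^ ⌊Real.logb 2 Y⌋₊) ^ ε := by
      rw [← Real.rpow_natCast, ← Real.rpow_mul (by norm_num), ← Real.rpow_natCast,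
        ← Real.rpow_mul (by norm_num), mul_comm]
    rw [h4]
    exact Real.rpow_le_rpow (by positivity) hMY hε.le
  have h5 : (2 : ℝ) ^ F.card ≤ (Ideal.absNorm r : ℝ) := by
    have h6 : F.card ≤ (UniqueFactorizationMonoid.normalizedFactors r).card := by
      rw [hF]
      exact Multiset.toFinset_card_le _
    have h7 : 2 ^ F.card ≤ Ideal.absNorm r :=
      (Nat.pow_le_pow_right (by norm_num) h6).trans (rankin_norm_ge hr)
    exact_mod_cast h7
  have h8 : (1 - x)⁻¹ ^ F.card ≤ (Ideal.absNorm r : ℝ) ^ C := by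
    rw [← hC]
    have h4 : ((2 : ℝ) ^ C) ^ F.card = ((2 : ℝ) ^ F.card) ^ C := by
      rw [← Real.rpow_natCast, ← Real.rpow_mul (by norm_num), ← Real.rpow_natCast,
        ← Real.rpow_mul (by norm_num), mul_comm]
    rw [h4]
    exact Real.rpow_le_rpow (by positivity) h5 hCpos.le
  calc (S.card : ℝ) ≤ ((2 : ℝ) ^ ε) ^ ⌊Real.logb 2 Y⌋₊ * (1 - x)⁻¹ ^ F.card := h2
    _ ≤ Y ^ ε * (Ideal.absNorm r : ℝ) ^ C :=
        mul_le_mul h3 h8 (by have := h1x; positivity) (by positivity)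
    _ = (Ideal.absNorm r : ℝ) ^ C * Y ^ ε := mul_comm _ _

end Pool.Agent.Lib.MP_4a0cc8_ntC
end

section

/-!
MP_4a0cc8_nt (C): the number of algebraic integers supported on a given ideal, with bounded conjugates.
-/

set_option autoImplicit false

namespace Pool.Agent.Lib.MP_4a0cc8_ntC

open NumberField Module
open Pool.Agent.Lib.FMK60

/-- The number of algebraic integers of `L` supported on `r` with all conjugates at most `H`, uniformly
in the number fields `L` of degree at most `n`.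

Proof. Let `x ↦ Ideal.span {x}` on `S` (use `Finset.card_le_mul_card_image` or
`Pool.Agent.Lib.FMK60.SmallNorm.card_le_image_mul` in FMK60/SmallNorm.lean, or
`Finset.card_eq_sum_card_image`). The image consists of ideals `I ≠ ⊥` with `N(I) ≤ H ^ n`
(`Hle.absNorm_le`, and `H ^ finrank ≤ H ^ n`) whose prime divisors divide `r`: by
`tc_card_ideal_supp_le` with `ε / (2 * (n + 1))` in place of `ε`, it has at most
`N(r) ^ C₁ * (H ^ n) ^ (ε / (2 (n + 1))) ≤ N(r) ^ C₁ * H ^ (ε / 2)` elements. Each fibre: fix one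
element `x'` of it; the others are `x = x' * u`, `u` a unit (`Ideal.span_singleton_eq_span_singleton`,
`Associated`), with `Hle u (H ^ finrank)` (`Hle.unit` in FMK60/DivHouse.lean), so
`Hle u (2 * H ^ n)`; the number of the units is at most `C₂ * Real.log (2 * H ^ n) ^ n`
(`card_units_le n`, FMK60/UnitsK.lean), which is at most `C₃ * H ^ (ε / 2)` (for instance
`Real.log y ≤ y ^ δ / δ`, `Real.log_le_rpow_div`, with `δ = ε / (2 (n + 1) ^ 2)`:
`(2 * H ^ n) ^ (δ * n) ≤ 2 ^ (δ n) * H ^ (ε / 2)`). Take `C = max C₁ C₃` (note `1 ≤ N(r)`); in the case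
that `C₁ < C` use `N(r) ^ C₁ ≤ N(r) ^ C`. See the proof of `card_dvd_house_le` in FMK60/DivHouse.lean,
which is nearly the same. -/
theorem tc_card_supp_le.{u} (n : ℕ) (ε : ℝ) (hε : 0 < ε) :
    ∃ C : ℝ, 0 < C ∧ ∀ (L : Type u) [Field L] [NumberField L], finrank ℚ L ≤ n →
      ∀ r : Ideal (𝓞 L), r ≠ ⊥ → ∀ H : ℝ, 1 ≤ H → ∀ S : Finset (𝓞 L),
        (∀ x ∈ S, Supp r x ∧ Hle (x : L) H) →
        (S.card : ℝ) ≤ C * (Ideal.absNorm r : ℝ) ^ C * H ^ ε := by
  classical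
  rcases Nat.eq_zero_or_pos n with hn | hn
  · refine ⟨1, one_pos, ?_⟩
    intro M _ _ hM
    exfalso
    have : 0 < finrank ℚ M := finrank_pos
    omega
  have hn' : (0 : ℝ) < n := by exact_mod_cast hn
  set δ : ℝ := ε / (2 * n) with hδ
  have hδ0 : 0 < δ := by positivity
  have hδn : δ * n = ε / 2 := by rw [hδ]; field_simp
  obtain ⟨C1, hC1, h1⟩ := tc_card_ideal_supp_le.{u} δ hδ0
  obtain ⟨C2, hC2, h2⟩ := card_units_le.{u} n
  obtain ⟨C3, hC3⟩ : ∃ C3 : ℝ, C3 = C2 * ((n / δ) ^ n * 2 ^ (ε / 2)) := ⟨_, rfl⟩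
  have hC30 : 0 < C3 := by rw [hC3]; positivity
  refine ⟨max C1 C3, lt_max_of_lt_left hC1, ?_⟩
  intro M _ _ hM r hr H hH S hS
  have hH0 : 0 < H := by linarith
  set B : ℝ := C2 * Real.log ((2 * H) ^ n) ^ n with hB
  have hlog : Real.log ((2 * H) ^ n) ^ n ≤ (n / δ) ^ n * 2 ^ (ε / 2) * H ^ (ε / 2) := by
    rw [Real.log_pow]
    have hl0 : 0 ≤ Real.log (2 * H) := Real.log_nonneg (by linarith)
    have h3 : Real.log (2 * H) ≤ (2 * H) ^ δ / δ := Real.log_le_rpow_div (by positivity) hδ0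
    calc ((n : ℝ) * Real.log (2 * H)) ^ n ≤ ((n : ℝ) * ((2 * H) ^ δ / δ)) ^ n :=
          pow_le_pow_left₀ (by positivity) (mul_le_mul_of_nonneg_left h3 hn'.le) n
      _ = (n / δ) ^ n * ((2 * H) ^ δ) ^ n := by rw [← mul_pow]; congr 1; ring
      _ = (n / δ) ^ n * 2 ^ (ε / 2) * H ^ (ε / 2) := by
          rw [← Real.rpow_natCast ((2 * H) ^ δ) n, ← Real.rpow_mul (by positivity), hδn,
            Real.mul_rpow (by norm_num) hH0.le]
          ring
  have hB0 : 0 ≤ B := by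
    have hl0 : 0 ≤ Real.log ((2 * H) ^ n) := Real.log_nonneg (one_le_pow₀ (by linarith))
    positivity
  have hB3 : B ≤ C3 * H ^ (ε / 2) := by
    rw [hB, hC3, mul_assoc C2]
    exact mul_le_mul_of_nonneg_left hlog hC2.le
  let f : 𝓞 M → Ideal (𝓞 M) := fun x => Ideal.span {x}
  -- every element of `S` is nonzero
  have hS0 : ∀ x ∈ S, x ≠ 0 := fun x hx => (hS x hx).1.1
  -- the size of a fibre
  have hfib : ∀ a ∈ S.image f, ((S.filter fun x => f x = a).card : ℝ) ≤ B := by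
    intro a ha
    obtain ⟨x', hx', rfl⟩ := Finset.mem_image.mp ha
    have hass : ∀ x : 𝓞 M, f x = f x' → ∃ u : (𝓞 M)ˣ, x' * (u : 𝓞 M) = x := by
      intro x hx
      exact (Ideal.span_singleton_eq_span_singleton.mp hx.symm)
    let g : 𝓞 M → (𝓞 M)ˣ := fun x => if h : f x = f x' then (hass x h).choose else 1
    have hg : ∀ x, f x = f x' → x' * (g x : 𝓞 M) = x := by
      intro x hx
      simp only [g, dif_pos hx]
      exact (hass x hx).choose_spec
    have hinj : Set.InjOn g (S.filter fun x => f x = f x') := by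
      intro x hx y hy hxy
      have hx2 := (Finset.mem_filter.mp hx).2
      have hy2 := (Finset.mem_filter.mp hy).2
      rw [← hg x hx2, ← hg y hy2, hxy]
    have hcard := Finset.card_image_of_injOn hinj
    have h3 := h2 M hM ((2 * H) ^ n) (by
      calc (2 : ℝ) ≤ 2 * H := by linarith
        _ = (2 * H) ^ 1 := (pow_one _).symm
        _ ≤ (2 * H) ^ n := pow_le_pow_right₀ (by linarith) hn)
      ((S.filter fun x => f x = f x').image g) (by
        intro u hu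
        obtain ⟨x, hx, rfl⟩ := Finset.mem_image.mp hu
        have hx1 := (Finset.mem_filter.mp hx).1
        have hx2 := (Finset.mem_filter.mp hx).2
        have h4 := Hle.unit hH (hS0 x' hx') (hS x hx1).2 (hS x' hx').2 (g x) (hg x hx2)
        refine h4.mono ?_
        calc H ^ finrank ℚ M ≤ H ^ n := pow_le_pow_right₀ hH hM
          _ ≤ (2 * H) ^ n := pow_le_pow_left₀ hH0.le (by linarith) n)
    rw [hcard] at h3
    exact h3
  have himg : ((S.image f).card : ℝ) ≤ (Ideal.absNorm r : ℝ) ^ C1 * H ^ (ε / 2) := by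
    have h3 := h1 M r hr (H ^ n) (one_le_pow₀ hH) (S.image f) (by
      intro I hI
      obtain ⟨x, hx, rfl⟩ := Finset.mem_image.mp hI
      refine ⟨?_, ?_, ?_⟩
      · simpa [f] using hS0 x hx
      · exact ((hS x hx).2.absNorm_le).trans (pow_le_pow_right₀ hH hM)
      · intro P hP hIP
        exact (hS x hx).1.2 P hP ((Ideal.span_singleton_le_iff_mem P).1 hIP))
    have h4 : (H ^ n) ^ δ = H ^ (ε / 2) := by
      rw [← Real.rpow_natCast, ← Real.rpow_mul hH0.le]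
      congr 1
      rw [← hδn]; ring
    rwa [h4] at h3
  have hsum : (S.card : ℝ) ≤ ((S.image f).card : ℝ) * B := by
    rw [Finset.card_eq_sum_card_image f S]
    push_cast
    calc ∑ a ∈ S.image f, ((S.filter fun x => f x = a).card : ℝ) ≤ ∑ _a ∈ S.image f, B :=
          Finset.sum_le_sum hfib
      _ = ((S.image f).card : ℝ) * B := by rw [Finset.sum_const, nsmul_eq_mul]
  have hr1 : (1 : ℝ) ≤ (Ideal.absNorm r : ℝ) := by
    have h0 : Ideal.absNorm r ≠ 0 := fun h => hr (Ideal.absNorm_eq_zero_iff.1 h)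
    have h0' : 1 ≤ Ideal.absNorm r := by omega
    exact_mod_cast h0'
  have hHε : H ^ (ε / 2) * H ^ (ε / 2) = H ^ ε := by
    rw [← Real.rpow_add hH0]
    congr 1
    ring
  have hP : (0 : ℝ) ≤ (Ideal.absNorm r : ℝ) ^ C1 * H ^ (ε / 2) := by positivity
  have hrC : (Ideal.absNorm r : ℝ) ^ C1 ≤ (Ideal.absNorm r : ℝ) ^ max C1 C3 :=
    Real.rpow_le_rpow_of_exponent_le hr1 (le_max_left _ _)
  calc (S.card : ℝ) ≤ ((S.image f).card : ℝ) * B := hsum
    _ ≤ ((Ideal.absNorm r : ℝ) ^ C1 * H ^ (ε / 2)) * B := mul_le_mul_of_nonneg_right himg hB0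
    _ ≤ ((Ideal.absNorm r : ℝ) ^ C1 * H ^ (ε / 2)) * (C3 * H ^ (ε / 2)) :=
        mul_le_mul_of_nonneg_left hB3 hP
    _ = C3 * (Ideal.absNorm r : ℝ) ^ C1 * (H ^ (ε / 2) * H ^ (ε / 2)) := by ring
    _ = C3 * (Ideal.absNorm r : ℝ) ^ C1 * H ^ ε := by rw [hHε]
    _ ≤ max C1 C3 * (Ideal.absNorm r : ℝ) ^ max C1 C3 * H ^ ε := by
        refine mul_le_mul_of_nonneg_right ?_ (by positivity)
        exact mul_le_mul (le_max_right _ _) hrC (by positivity)
          (hC1.le.trans (le_max_left _ _))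

end Pool.Agent.Lib.MP_4a0cc8_ntC
end
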