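import Mathlib
import Pool.Agent.Lib.MP_4a0cc8_ntC.SU

section

/-!
MP_4a0cc8_nt: two elementary facts used in the final assembly.
-/

set_option autoImplicit false

namespace Pool.Agent.Lib.MP_4a0cc8_ntC

/-- A large integer is divisible by a large prime power.

Proof. `n₀ = N ^ N + 1`. If all prime powers dividing `n ≠ 0` are less than `N`, then
`n = ∏_{p ∈ n.primeFactors} p ^ (n.factorization p)` (`Nat.factorization_prod_pow_eq_self`), all the
factors are `< N` and the primes are `< N`, so there are at most `N` of them and `n ≤ N ^ N`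
(`Finset.prod_le_pow_card`). -/
theorem tc_exists_prime_pow (N : ℕ) : ∃ n₀ : ℕ, 0 < n₀ ∧ ∀ n : ℕ, n₀ ≤ n →
    ∃ p k : ℕ, p.Prime ∧ 0 < k ∧ N ≤ p ^ k ∧ p ^ k ∣ n := by
  refine ⟨N ^ N + 1, by omega, fun n hn => ?_⟩
  by_contra hcon
  push Not at hcon
  have hn0 : n ≠ 0 := by omega
  have h1 : ∀ p ∈ n.primeFactors, p ^ n.factorization p < N := by
    intro p hp
    by_contra h
    push Not at h
    have hpp := Nat.prime_of_mem_primeFactors hp
    have hk : 0 < n.factorization p := hpp.factorization_pos_of_dvd hn0 (Nat.dvd_of_mem_primeFactors hp)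
    exact hcon p _ hpp hk h (Nat.ordProj_dvd n p)
  have h2 : n.primeFactors ⊆ Finset.range N := by
    intro p hp
    rw [Finset.mem_range]
    have hpp := Nat.prime_of_mem_primeFactors hp
    have hk : 0 < n.factorization p := hpp.factorization_pos_of_dvd hn0 (Nat.dvd_of_mem_primeFactors hp)
    exact lt_of_le_of_lt (Nat.le_self_pow hk.ne' p) (h1 p hp)
  have h3 : n = ∏ p ∈ n.primeFactors, p ^ n.factorization p := by
    conv_lhs => rw [← Nat.prod_factorization_pow_eq_self hn0]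
    rfl
  have hN : 0 < N ∨ n = 1 := by
    rcases Nat.eq_zero_or_pos N with h | h
    · right
      subst h
      have : n.primeFactors = ∅ := by simpa using h2
      rw [this] at h3
      simpa using h3
    · exact Or.inl h
  have h4 : n ≤ N ^ N := by
    rcases hN with hN | hN
    · calc n = ∏ p ∈ n.primeFactors, p ^ n.factorization p := h3
        _ ≤ ∏ p ∈ n.primeFactors, N := Finset.prod_le_prod' (fun p hp => (h1 p hp).le)
        _ = N ^ n.primeFactors.card := by rw [Finset.prod_const]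
        _ ≤ N ^ N := by
            apply Nat.pow_le_pow_right hN
            simpa using Finset.card_le_card h2
    · rw [hN]
      exact Nat.one_le_iff_ne_zero.2 (by
        intro h
        rw [Nat.pow_eq_zero] at h
        omega)
  omega

/-- The numerical estimate of the final assembly.

Proof. `log T ≤ T ^ δ / δ` and `log B ≤ B ^ δ / δ` (`Real.log_le_rpow_div`), so
`X ≤ A (1 + 2 / δ) (T B) ^ δ =: A' (T B) ^ δ`. The left side is
`C₁ ^ (ε/2) C₂ X ^ (1 + d (C₂ + ε/2)) B ^ (C₂ + ε/2) T ^ (ε/2)`; take `δ = ε / (2 (1 + d (C₂ + ε/2)))`;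
then `X ^ (1 + d (C₂ + ε/2)) ≤ A' ^ (1 + d (C₂ + ε/2)) (T B) ^ (ε/2)`. So the bound is
`C₃ B ^ (C₂ + ε) T ^ ε` and `C = max C₃ (C₂ + ε)` (`1 ≤ B`). -/
theorem tc_numeric (d : ℕ) (A C₁ C₂ ε : ℝ) (hA : 1 ≤ A) (h1 : 1 ≤ C₁) (h2 : 0 < C₂) (hε : 0 < ε) :
    ∃ C : ℝ, 0 < C ∧ ∀ T B X : ℝ, 1 ≤ T → 1 ≤ B → 1 ≤ X →
      X ≤ A * (1 + Real.log T + Real.log B) →
      X * (C₂ * (B * X ^ d) ^ C₂ * (C₁ * T * (B * X ^ d)) ^ (ε / 2)) ≤ C * B ^ C * T ^ ε := by
  -- exponent of `X`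
  set e : ℝ := 1 + d * (C₂ + ε / 2) with he
  have he0 : 0 < e := by positivity
  set δ : ℝ := ε / (2 * e) with hδ
  have hδ0 : 0 < δ := by positivity
  set A' : ℝ := A * (1 + 2 / δ) with hA'
  have hA'0 : 0 < A' := by positivity
  set C₃ : ℝ := C₁ ^ (ε / 2) * C₂ * A' ^ e with hC₃
  have hC₁0 : 0 < C₁ := by linarith
  have hC₃0 : 0 < C₃ := by positivity
  refine ⟨max C₃ (C₂ + ε), lt_max_of_lt_left hC₃0, ?_⟩
  intro T B X hT hB hX hXA
  have hT0 : 0 < T := by linarith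
  have hB0 : 0 < B := by linarith
  have hX0 : 0 < X := by linarith
  have hXT : X ≤ A' * (T * B) ^ δ := by
    have hTB : 1 ≤ T * B := by nlinarith
    have hTδ : T ^ δ ≤ (T * B) ^ δ := Real.rpow_le_rpow hT0.le (by nlinarith) hδ0.le
    have hBδ : B ^ δ ≤ (T * B) ^ δ := Real.rpow_le_rpow hB0.le (by nlinarith) hδ0.le
    have h1δ : 1 ≤ (T * B) ^ δ := Real.one_le_rpow hTB hδ0.le
    have hlT : Real.log T ≤ T ^ δ / δ := Real.log_le_rpow_div hT0.le hδ0
    have hlB : Real.log B ≤ B ^ δ / δ := Real.log_le_rpow_div hB0.le hδ0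
    have hlT' : Real.log T ≤ (T * B) ^ δ / δ := hlT.trans (div_le_div_of_nonneg_right hTδ hδ0.le)
    have hlB' : Real.log B ≤ (T * B) ^ δ / δ := hlB.trans (div_le_div_of_nonneg_right hBδ hδ0.le)
    calc X ≤ A * (1 + Real.log T + Real.log B) := hXA
      _ ≤ A * ((T * B) ^ δ + (T * B) ^ δ / δ + (T * B) ^ δ / δ) := by
          apply mul_le_mul_of_nonneg_left _ (by linarith)
          linarith
      _ = A' * (T * B) ^ δ := by rw [hA']; ring
  have key : X * (C₂ * (B * X ^ d) ^ C₂ * (C₁ * T * (B * X ^ d)) ^ (ε / 2)) =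
      C₁ ^ (ε / 2) * C₂ * X ^ e * B ^ (C₂ + ε / 2) * T ^ (ε / 2) := by
    have hXd : 0 < X ^ d := by positivity
    rw [Real.mul_rpow hB0.le hXd.le, Real.mul_rpow (by positivity) (by positivity),
      Real.mul_rpow hC₁0.le hT0.le, Real.mul_rpow hB0.le hXd.le]
    have e1 : (X ^ d) ^ C₂ = X ^ ((d : ℝ) * C₂) := by
      rw [← Real.rpow_natCast X d, ← Real.rpow_mul hX0.le]
    have e2 : (X ^ d) ^ (ε / 2) = X ^ ((d : ℝ) * (ε / 2)) := by
      rw [← Real.rpow_natCast X d, ← Real.rpow_mul hX0.le]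
    have e3 : X ^ e = X * X ^ ((d : ℝ) * C₂) * X ^ ((d : ℝ) * (ε / 2)) := by
      rw [he, show (1 : ℝ) + d * (C₂ + ε / 2) = 1 + d * C₂ + d * (ε / 2) by ring,
        Real.rpow_add hX0, Real.rpow_add hX0, Real.rpow_one]
    rw [e1, e2, e3, Real.rpow_add hB0]
    ring
  rw [key]
  have h3 : X ^ e ≤ A' ^ e * (T * B) ^ (ε / 2) := by
    calc X ^ e ≤ (A' * (T * B) ^ δ) ^ e := Real.rpow_le_rpow hX0.le hXT he0.le
      _ = A' ^ e * (T * B) ^ (ε / 2) := by
          rw [Real.mul_rpow hA'0.le (by positivity), ← Real.rpow_mul (by positivity)]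
          congr 2
          rw [hδ]
          field_simp
  have h4 : (T * B) ^ (ε / 2) = T ^ (ε / 2) * B ^ (ε / 2) := Real.mul_rpow hT0.le hB0.le
  have h5 : T ^ ε = T ^ (ε / 2) * T ^ (ε / 2) := by rw [← Real.rpow_add hT0]; ring_nf
  have h6 : B ^ (C₂ + ε) = B ^ (C₂ + ε / 2) * B ^ (ε / 2) := by
    rw [← Real.rpow_add hB0]; ring_nf
  calc C₁ ^ (ε / 2) * C₂ * X ^ e * B ^ (C₂ + ε / 2) * T ^ (ε / 2)
      ≤ C₁ ^ (ε / 2) * C₂ * (A' ^ e * (T * B) ^ (ε / 2)) * B ^ (C₂ + ε / 2) * T ^ (ε / 2) := by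
        gcongr
    _ = C₃ * B ^ (C₂ + ε) * T ^ ε := by rw [h4, h5, h6, hC₃]; ring
    _ ≤ max C₃ (C₂ + ε) * B ^ (max C₃ (C₂ + ε)) * T ^ ε := by
        gcongr
        · exact le_max_left _ _
        · exact le_max_right _ _

end Pool.Agent.Lib.MP_4a0cc8_ntC
end

section

/-!
MP_4a0cc8_nt (C): the number of pairs with `f` reducible.
-/

set_option autoImplicit false

namespace Pool.Agent.Lib.MP_4a0cc8_ntC

open NumberField Module
open Pool.Agent.Lib.FMK60 (InBox Del Hle)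

/-- a root of `X³ + A X + B` is an algebraic integer -/
lemma tc_red_int {K : Type*} [Field K] [NumberField K] {A B : 𝓞 K} {x : K}
    (h : x ^ 3 + (A : K) * x + (B : K) = 0) : ∃ y : 𝓞 K, y ^ 3 + A * y + B = 0 := by
  have hx : IsIntegral (𝓞 K) x := by
    refine ⟨Polynomial.X ^ 3 + (Polynomial.C A * Polynomial.X + Polynomial.C B), ?_, ?_⟩
    · apply Polynomial.monic_X_pow_add
      refine lt_of_le_of_lt Polynomial.degree_linear_le ?_
      norm_num
    · simp only [Polynomial.eval₂_add, Polynomial.eval₂_pow, Polynomial.eval₂_X,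
        Polynomial.eval₂_mul, Polynomial.eval₂_C]
      rw [← add_assoc]
      exact h
  obtain ⟨y, hy⟩ := (IsIntegrallyClosed.isIntegral_iff (R := 𝓞 K) (K := K)).mp hx
  refine ⟨y, ?_⟩
  apply FaithfulSMul.algebraMap_injective (𝓞 K) K
  rw [map_add, map_add, map_pow, map_mul, hy, map_zero]
  exact h

lemma tc_red_real {t T : ℝ} (ht : 0 ≤ t) (hT : 1 ≤ T) (h : t ^ 3 ≤ T ^ 4 * t + T ^ 6) :
    t ≤ 2 * T ^ 2 := by
  by_contra hlt
  push Not at hlt
  have hT2 : 0 < T ^ 2 := by positivity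
  have h1 : (2 * T ^ 2) ^ 2 < t ^ 2 := pow_lt_pow_left₀ hlt (by positivity) (by norm_num)
  have ht0 : 0 < t := by linarith
  have h2 : (2 * T ^ 2) ^ 2 * t < t ^ 2 * t := mul_lt_mul_of_pos_right h1 ht0
  have h3 : T ^ 4 * (2 * T ^ 2) < T ^ 4 * t := mul_lt_mul_of_pos_left hlt (by positivity)
  nlinarith [pow_pos (by linarith : (0 : ℝ) < T) 6]

lemma tc_red_size {K : Type*} [Field K] {A B y : K} {T : ℝ} (hT : 1 ≤ T)
    (hA : Hle A (T ^ 4)) (hB : Hle B (T ^ 6)) (h : y ^ 3 + A * y + B = 0) :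
    Hle y (2 * T ^ 2) := by
  intro σ
  apply tc_red_real (norm_nonneg _) hT
  have h1 : (σ y) ^ 3 = -(σ A * σ y + σ B) := by
    have h2 := congrArg σ h
    rw [map_add, map_add, map_pow, map_mul, map_zero] at h2
    linear_combination h2
  rw [← norm_pow, h1, norm_neg]
  refine (norm_add_le _ _).trans ?_
  rw [norm_mul]
  exact add_le_add (mul_le_mul_of_nonneg_right (hA σ) (norm_nonneg _)) (hB σ)

lemma tc_red_size_g {K : Type*} [Field K] {A y : K} {T : ℝ}
    (hA : Hle A (T ^ 4)) (hy : Hle y (2 * T ^ 2)) :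
    Hle (3 * y ^ 2 + A) (16 * T ^ 4) ∧ Hle (-4 * A - 3 * y ^ 2) (16 * T ^ 4) := by
  have hy2 : ∀ σ : K →+* ℂ, ‖σ y‖ ^ 2 ≤ 4 * T ^ 4 := by
    intro σ
    have := pow_le_pow_left₀ (norm_nonneg _) (hy σ) 2
    calc ‖σ y‖ ^ 2 ≤ (2 * T ^ 2) ^ 2 := this
      _ = 4 * T ^ 4 := by ring
  have e3 : ∀ σ : K →+* ℂ, ‖σ (3 * y ^ 2)‖ = 3 * ‖σ y‖ ^ 2 := by
    intro σ
    rw [map_mul, map_pow, norm_mul, norm_pow, map_ofNat]
    norm_num
  have e4 : ∀ σ : K →+* ℂ, ‖σ (-4 * A)‖ = 4 * ‖σ A‖ := by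
    intro σ
    rw [neg_mul, map_neg, norm_neg, map_mul, norm_mul, map_ofNat]
    norm_num
  have hT4 : 0 ≤ T ^ 4 := by positivity
  constructor
  · intro σ
    rw [map_add]
    refine (norm_add_le _ _).trans ?_
    rw [e3 σ]
    have h1 := hy2 σ
    have h2 := hA σ
    linarith
  · intro σ
    rw [map_sub]
    refine (norm_sub_le _ _).trans ?_
    rw [e3 σ, e4 σ]
    have h1 := hy2 σ
    have h2 := hA σ
    linarith

/-- **The pairs with `f` reducible.**

Proof. For `z = (A, B) ∈ S` let `x ∈ K` be a root of `f = X³ + A X + B`. It is an algebraic integer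
(root of a monic polynomial over `𝓞 K`), `x : 𝓞 K`. Let `γ = 3 x² + A`, `δ = -4A - 3x²`. Then
`4A³ + 27B² = -δ γ²` (with `B = -x³ - A x`, `ring`), so `γ` and `δ` are nonzero and every prime ideal
containing one of them contains `D`: `Supp r γ`, `Supp r δ`. The conjugates of `x` are at most `2 T²`
(if `‖y‖ > 2T²` then `‖y‖³ > 4T⁴‖y‖ > T⁴‖y‖ + T⁶`), so those of `γ`, `δ` are at most `16 T⁴`. By
`tc_card_supp_le` (`n = finrank ℚ K`, `ε / 8`, `H = 16 T⁴`) the image of `z ↦ (γ, δ)` has at most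
`(C₁ N(r)^C₁ (16 T⁴)^(ε/8))²` elements. The fibres have at most two elements: `4 γ + δ = 9 x²`, so `x²`
is determined, `x` up to sign, `A = γ - 3x²`, `B = -x³ - A x`: for given `(γ, δ)`, `A` is determined and
`B` up to sign. -/
theorem tc_card_red_le (K : Type*) [Field K] [NumberField K] (ε : ℝ) (hε : 0 < ε) :
    ∃ C : ℝ, 0 < C ∧ ∀ T : ℝ, 1 ≤ T → ∀ r : Ideal (𝓞 K), r ≠ ⊥ → ∀ S : Finset (𝓞 K × 𝓞 K),
      (∀ z ∈ S, InBox T z ∧ Supp r (Del z) ∧
        ∃ x : K, x ^ 3 + (z.1 : K) * x + (z.2 : K) = 0) →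
      (S.card : ℝ) ≤ C * (Ideal.absNorm r : ℝ) ^ C * T ^ ε := by
  classical
  obtain ⟨C1, hC1, h1⟩ := tc_card_supp_le (finrank ℚ K) (ε / 8) (by positivity)
  set c : ℝ := 2 * C1 ^ 2 * 16 ^ (ε / 4) with hc
  have hc0 : 0 < c := by positivity
  refine ⟨max c (2 * C1), lt_max_of_lt_left hc0, ?_⟩
  intro T hT r hr S hS
  have hT0 : 0 < T := by linarith
  have hroot : ∀ z ∈ S, ∃ y : 𝓞 K, y ^ 3 + z.1 * y + z.2 = 0 := by
    intro z hz
    obtain ⟨x, hx⟩ := (hS z hz).2.2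
    exact tc_red_int hx
  choose! y hy using hroot
  set γ : 𝓞 K × 𝓞 K → 𝓞 K := fun z => 3 * y z ^ 2 + z.1 with hγ
  set δ : 𝓞 K × 𝓞 K → 𝓞 K := fun z => -4 * z.1 - 3 * y z ^ 2 with hδ
  have hdel : ∀ z ∈ S, Del z = -(δ z * γ z ^ 2) := by
    intro z hz
    have h2 : z.2 = -(y z ^ 3 + z.1 * y z) := by linear_combination hy z hz
    simp only [hγ, hδ, Pool.Agent.Lib.FMK60.Del]
    rw [h2]
    ring
  have hsγ : ∀ z ∈ S, Supp r (γ z) := by
    intro z hz
    obtain ⟨-, ⟨h0, hP⟩, -⟩ := hS z hz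
    refine ⟨fun h => h0 ?_, fun P hPp hm => hP P hPp ?_⟩
    · rw [hdel z hz, h]; ring
    · rw [hdel z hz, pow_two, ← mul_assoc]
      exact P.neg_mem (P.mul_mem_left _ hm)
  have hsδ : ∀ z ∈ S, Supp r (δ z) := by
    intro z hz
    obtain ⟨-, ⟨h0, hP⟩, -⟩ := hS z hz
    refine ⟨fun h => h0 ?_, fun P hPp hm => hP P hPp ?_⟩
    · rw [hdel z hz, h]; ring
    · rw [hdel z hz]
      exact P.neg_mem (P.mul_mem_right _ hm)
  have hsize : ∀ z ∈ S, Hle ((γ z : 𝓞 K) : K) (16 * T ^ 4) ∧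
      Hle ((δ z : 𝓞 K) : K) (16 * T ^ 4) := by
    intro z hz
    obtain ⟨⟨hA, hB⟩, -, -⟩ := hS z hz
    have h2 : ((y z : 𝓞 K) : K) ^ 3 + (z.1 : K) * ((y z : 𝓞 K) : K) + (z.2 : K) = 0 := by
      have h3 := congrArg (algebraMap (𝓞 K) K) (hy z hz)
      rw [map_add, map_add, map_pow, map_mul, map_zero] at h3
      exact h3
    have h4 := tc_red_size hT hA hB h2
    have h5 := tc_red_size_g hA h4
    have e1 : ((γ z : 𝓞 K) : K) = 3 * ((y z : 𝓞 K) : K) ^ 2 + (z.1 : K) := by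
      show algebraMap (𝓞 K) K (3 * y z ^ 2 + z.1) = _
      rw [map_add, map_mul, map_pow, map_ofNat]
    have e2 : ((δ z : 𝓞 K) : K) = -4 * (z.1 : K) - 3 * ((y z : 𝓞 K) : K) ^ 2 := by
      show algebraMap (𝓞 K) K (-4 * z.1 - 3 * y z ^ 2) = _
      rw [map_sub, map_mul, map_mul, map_pow, map_neg, map_ofNat, map_ofNat]
    rw [e1, e2]
    exact h5
  have hH1 : (1 : ℝ) ≤ 16 * T ^ 4 := by
    have : (1 : ℝ) ≤ T ^ 4 := one_le_pow₀ hT
    linarith
  have hG := h1 K le_rfl r hr (16 * T ^ 4) hH1 (S.image γ) (by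
    intro x hx
    obtain ⟨z, hz, rfl⟩ := Finset.mem_image.mp hx
    exact ⟨hsγ z hz, (hsize z hz).1⟩)
  have hD := h1 K le_rfl r hr (16 * T ^ 4) hH1 (S.image δ) (by
    intro x hx
    obtain ⟨z, hz, rfl⟩ := Finset.mem_image.mp hx
    exact ⟨hsδ z hz, (hsize z hz).2⟩)
  have hfib : S.card ≤ 2 * (S.image fun z => (γ z, δ z)).card := by
    refine Finset.card_le_mul_card_image S 2 ?_
    intro b hb
    obtain ⟨z0, hz0, rfl⟩ := Finset.mem_image.mp hb
    refine le_trans (Finset.card_le_card (t := {z0, (z0.1, -z0.2)}) ?_) Finset.card_le_two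
    intro z hz
    obtain ⟨hzS, hze⟩ := Finset.mem_filter.mp hz
    simp only [Prod.mk.injEq, hγ, hδ] at hze
    obtain ⟨e1, e2⟩ := hze
    have h9 : (9 : 𝓞 K) * (y z ^ 2 - y z0 ^ 2) = 0 := by linear_combination 4 * e1 + e2
    have h90 : (9 : 𝓞 K) ≠ 0 := by norm_num
    have h10 : y z ^ 2 - y z0 ^ 2 = 0 := (mul_eq_zero.mp h9).resolve_left h90
    have hA : z.1 = z0.1 := by linear_combination e1 - 3 * h10
    have h11 : (y z - y z0) * (y z + y z0) = 0 := by linear_combination h10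
    rw [Finset.mem_insert, Finset.mem_singleton]
    rcases mul_eq_zero.mp h11 with h12 | h12
    · left
      have h13 : y z = y z0 := sub_eq_zero.mp h12
      have h14 := hy z hzS
      have h15 := hy z0 hz0
      rw [h13, hA] at h14
      exact Prod.ext hA (by linear_combination h14 - h15)
    · right
      have h13 : y z = - y z0 := by linear_combination h12
      have h14 := hy z hzS
      have h15 := hy z0 hz0
      rw [h13, hA] at h14
      exact Prod.ext hA (by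
        show z.2 = -z0.2
        linear_combination h14 + h15)
  have himg : (S.image fun z => (γ z, δ z)).card ≤ (S.image γ).card * (S.image δ).card := by
    rw [← Finset.card_product]
    refine Finset.card_le_card ?_
    intro b hb
    obtain ⟨z, hz, rfl⟩ := Finset.mem_image.mp hb
    exact Finset.mem_product.mpr ⟨Finset.mem_image_of_mem _ hz, Finset.mem_image_of_mem _ hz⟩
  have hcard : (S.card : ℝ) ≤ 2 * ((S.image γ).card * (S.image δ).card) := by
    exact_mod_cast hfib.trans (Nat.mul_le_mul_left 2 himg)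
  have hr1 : (1 : ℝ) ≤ (Ideal.absNorm r : ℝ) := by
    have h0 : Ideal.absNorm r ≠ 0 := fun h => hr (Ideal.absNorm_eq_zero_iff.1 h)
    have h0' : 1 ≤ Ideal.absNorm r := by omega
    exact_mod_cast h0'
  set N : ℝ := (Ideal.absNorm r : ℝ) with hN
  have hN0 : 0 < N := by linarith
  set U : ℝ := C1 * N ^ C1 * (16 * T ^ 4) ^ (ε / 8) with hU
  have hU0 : 0 ≤ U := by positivity
  have hUU : 2 * (U * U) = c * N ^ (2 * C1) * T ^ ε := by
    have e1 : N ^ (2 * C1) = N ^ C1 * N ^ C1 := by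
      rw [← Real.rpow_add hN0]; congr 1; ring
    have e2 : (16 * T ^ 4) ^ (ε / 8) * (16 * T ^ 4) ^ (ε / 8) = 16 ^ (ε / 4) * T ^ ε := by
      rw [← Real.rpow_add (by positivity), Real.mul_rpow (by norm_num) (by positivity)]
      have e3 : (T ^ 4 : ℝ) = T ^ (4 : ℝ) := by
        rw [← Real.rpow_natCast]; norm_num
      rw [e3, ← Real.rpow_mul hT0.le]
      congr 2 <;> ring
    calc 2 * (U * U) = 2 * C1 ^ 2 * (N ^ C1 * N ^ C1) *
          ((16 * T ^ 4) ^ (ε / 8) * (16 * T ^ 4) ^ (ε / 8)) := by rw [hU]; ring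
      _ = c * N ^ (2 * C1) * T ^ ε := by rw [← e1, e2, hc]; ring
  have hNC : N ^ (2 * C1) ≤ N ^ max c (2 * C1) :=
    Real.rpow_le_rpow_of_exponent_le hr1 (le_max_right _ _)
  calc (S.card : ℝ) ≤ 2 * ((S.image γ).card * (S.image δ).card) := hcard
    _ ≤ 2 * (U * U) := by
      refine mul_le_mul_of_nonneg_left ?_ (by norm_num)
      exact mul_le_mul hG hD (Nat.cast_nonneg _) hU0
    _ = c * N ^ (2 * C1) * T ^ ε := hUU
    _ ≤ max c (2 * C1) * N ^ max c (2 * C1) * T ^ ε := by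
      refine mul_le_mul_of_nonneg_right ?_ (by positivity)
      exact mul_le_mul (le_max_left _ _) hNC (by positivity) (hc0.le.trans (le_max_left _ _))

end Pool.Agent.Lib.MP_4a0cc8_ntC
end
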