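import Pool.Agent.Lib.MP_4a0cc8_ntC.Defs

/-!
MP_4a0cc8_nt (C): the order at a prime ideal.
-/

set_option autoImplicit false

namespace Pool.Agent.Lib.MP_4a0cc8_ntC

open NumberField Module

section
variable {K : Type*} [Field K] [NumberField K]

open scoped Classical in
/-- the order of `x` at `P` -/
noncomputable def ordP (P : Ideal (𝓞 K)) (x : 𝓞 K) : ℕ :=
  (UniqueFactorizationMonoid.normalizedFactors (Ideal.span {x})).count P

/-- Proof. `P ^ n ∣ span {x}` iff `n ≤ count` (`UniqueFactorizationMonoid.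
le_emultiplicity_iff_replicate_le_normalizedFactors`, `pow_dvd_iff_le_emultiplicity`,
`Multiset.le_count_iff_replicate_le`, `P` is irreducible since it is a nonzero prime ideal and
`normalize P = P`), `Ideal.dvd_span_singleton`. -/
theorem tc_mem_pow_iff {P : Ideal (𝓞 K)} (hP : P.IsPrime) (hP0 : P ≠ ⊥) {x : 𝓞 K} (hx : x ≠ 0)
    (n : ℕ) : x ∈ P ^ n ↔ n ≤ ordP P x := by
  classical
  have hx' : Ideal.span {x} ≠ (0 : Ideal (𝓞 K)) := by
    rw [Ideal.zero_eq_bot, Ne, Ideal.span_singleton_eq_bot]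
    exact hx
  have hirr : Irreducible P := (Ideal.prime_of_isPrime hP0 hP).irreducible
  rw [← Ideal.dvd_span_singleton, pow_dvd_iff_le_emultiplicity,
    UniqueFactorizationMonoid.le_emultiplicity_iff_replicate_le_normalizedFactors hirr hx',
    normalize_eq, ← Multiset.le_count_iff_replicate_le]
  exact Iff.rfl

/-- Proof. `Ideal.span_singleton_mul_span_singleton`,
`UniqueFactorizationMonoid.normalizedFactors_mul`, `Multiset.count_add`. -/
theorem tc_ordP_mul (P : Ideal (𝓞 K)) {x y : 𝓞 K} (hx : x ≠ 0) (hy : y ≠ 0) :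
    ordP P (x * y) = ordP P x + ordP P y := by
  have hx' : Ideal.span {x} ≠ (0 : Ideal (𝓞 K)) := by
    rw [Ideal.zero_eq_bot, Ne, Ideal.span_singleton_eq_bot]
    exact hx
  have hy' : Ideal.span {y} ≠ (0 : Ideal (𝓞 K)) := by
    rw [Ideal.zero_eq_bot, Ne, Ideal.span_singleton_eq_bot]
    exact hy
  unfold ordP
  rw [← Ideal.span_singleton_mul_span_singleton,
    UniqueFactorizationMonoid.normalizedFactors_mul hx' hy', Multiset.count_add]

/-- Proof. Induction with `tc_ordP_mul`. -/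
theorem tc_ordP_pow (P : Ideal (𝓞 K)) {x : 𝓞 K} (hx : x ≠ 0) (n : ℕ) :
    ordP P (x ^ n) = n * ordP P x := by
  induction n with
  | zero =>
    unfold ordP
    rw [pow_zero, Ideal.span_singleton_one, ← Ideal.one_eq_top,
      UniqueFactorizationMonoid.normalizedFactors_one, Multiset.count_zero, zero_mul]
  | succ n ih =>
    rw [pow_succ, tc_ordP_mul P (pow_ne_zero _ hx) hx, ih]
    ring

/-- Solving `x a ≡ y` modulo `P ^ w`.

Proof. It suffices that `y ∈ span {x} ⊔ P ^ w`. If `w ≤ ordP P x` then `y ∈ P ^ (ordP P x) ≤ P ^ w`.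
Otherwise `span {x} ⊔ P ^ w`, the greatest common divisor, divides `P ^ w`, so it is `P ^ j`, `j ≤ w`
(`(Ideal.prime_of_isPrime hP0 hP)`, `dvd_prime_pow`), `x ∈ P ^ j` gives `j ≤ ordP P x`, and
`y ∈ P ^ (ordP P x) ≤ P ^ j`. -/
theorem tc_solve {P : Ideal (𝓞 K)} (hP : P.IsPrime) (hP0 : P ≠ ⊥) {x y : 𝓞 K} (hx : x ≠ 0)
    (hy : y ∈ P ^ ordP P x) (w : ℕ) : ∃ a : 𝓞 K, x * a - y ∈ P ^ w := by
  have h1 : y ∈ Ideal.span {x} ⊔ P ^ w := by
    have h2 : Ideal.span {x} ⊔ P ^ w ∣ P ^ w := Ideal.dvd_iff_le.2 le_sup_right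
    obtain ⟨j, -, hj⟩ := (dvd_prime_pow (Ideal.prime_of_isPrime hP0 hP) w).1 h2
    rw [associated_iff_eq] at hj
    rw [hj]
    have h3 : x ∈ P ^ j := by
      rw [← hj]
      exact Ideal.mem_sup_left (Ideal.mem_span_singleton_self x)
    exact Ideal.pow_le_pow_right ((tc_mem_pow_iff hP hP0 hx j).1 h3) hy
  obtain ⟨y₁, hy₁, y₂, hy₂, hyy⟩ := Submodule.mem_sup.1 h1
  obtain ⟨a, rfl⟩ := Ideal.mem_span_singleton.1 hy₁
  refine ⟨a, ?_⟩
  have h4 : x * a - y = -y₂ := by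
    rw [← hyy]
    ring
  rw [h4]
  exact neg_mem hy₂

end

/-- The orders of `6` are bounded.

Proof. `6 ∈ P ^ v` gives `P ^ v ∣ span {6}`, so `2 ^ v ≤ N(P) ^ v ≤ N(span {6})`
(`Ideal.absNorm_dvd_absNorm_of_le`, `N(P) ≥ 2` since `P ≠ ⊤, ⊥`); take `v = N(span {6})`,
`Nat.lt_two_pow_self`. -/
theorem tc_six (K : Type*) [Field K] [NumberField K] :
    ∃ e : ℕ, ∀ P : Ideal (𝓞 K), P.IsPrime → P ≠ ⊥ → (6 : 𝓞 K) ∉ P ^ e := by
  refine ⟨Ideal.absNorm (Ideal.span {(6 : 𝓞 K)}), fun P hP hP0 h6 => ?_⟩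
  set N := Ideal.absNorm (Ideal.span {(6 : 𝓞 K)}) with hN
  have hN0 : N ≠ 0 := by
    rw [hN, Ne, Ideal.absNorm_eq_zero_iff, Ideal.span_singleton_eq_bot]
    norm_num
  have h1 : Ideal.span {(6 : 𝓞 K)} ≤ P ^ N := by
    rw [Ideal.span_le, Set.singleton_subset_iff]
    exact h6
  have h2 := Nat.le_of_dvd (Nat.pos_of_ne_zero hN0) (Ideal.absNorm_dvd_absNorm_of_le h1)
  rw [map_pow] at h2
  have h3 : 2 ≤ Ideal.absNorm P := by
    have h4 : Ideal.absNorm P ≠ 0 := by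
      rw [Ne, Ideal.absNorm_eq_zero_iff]
      exact hP0
    have h5 : Ideal.absNorm P ≠ 1 := by
      rw [Ne, Ideal.absNorm_eq_one_iff]
      exact hP.ne_top
    omega
  have h6 := Nat.pow_le_pow_left h3 N
  have h7 : N < 2 ^ N := Nat.lt_two_pow_self
  omega

end Pool.Agent.Lib.MP_4a0cc8_ntC
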