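import Pool.Agent.Lib.MP_4a0cc8_ntC.SmallAn
import Pool.Agent.Lib.MP_4a0cc8_ntC.Defs
import Pool.Agent.Lib.FMK60.DivHouse
import Pool.Agent.Lib.MP_4a0cc8_ntC.Ord

section

/-!
MP_4a0cc8_nt (C): small elements of a square class.
-/

set_option autoImplicit false

namespace Pool.Agent.Lib.MP_4a0cc8_ntC

open NumberField Module
open Pool.Agent.Lib.FMK60 (InBox Del Hle)

private theorem tc_te_mul {K : Type*} [Field K] [NumberField K] {α β : K}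
    {a b a' b' : Ideal (𝓞 K)} (h1 : ∀ u ∈ a, ∃ v ∈ a', (v : K) = α * (u : K))
    (h2 : ∀ u ∈ b, ∃ v ∈ b', (v : K) = β * (u : K)) :
    ∀ u ∈ a * b, ∃ v ∈ a' * b', (v : K) = α * β * (u : K) := by
  intro u hu
  refine Submodule.mul_induction_on hu ?_ ?_
  · intro m hm n hn
    obtain ⟨v, hv, hv'⟩ := h1 m hm
    obtain ⟨w, hw, hw'⟩ := h2 n hn
    refine ⟨v * w, Ideal.mul_mem_mul hv hw, ?_⟩
    have e1 : ((v * w : 𝓞 K) : K) = (v : K) * (w : K) := rfl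
    have e2 : ((m * n : 𝓞 K) : K) = (m : K) * (n : K) := rfl
    rw [e1, e2, hv', hw']
    ring
  · rintro m n ⟨v, hv, hv'⟩ ⟨w, hw, hw'⟩
    refine ⟨v + w, Ideal.add_mem _ hv hw, ?_⟩
    have e1 : ((v + w : 𝓞 K) : K) = (v : K) + (w : K) := rfl
    have e2 : ((m + n : 𝓞 K) : K) = (m : K) + (n : K) := rfl
    rw [e1, e2, hv', hw']
    ring

private theorem tc_te_prod (K : Type*) [Field K] [NumberField K] {u : 𝓞 K} {j l : Ideal (𝓞 K)}
    (hul : Ideal.span {u} = j ^ 2 * l) (hj : j ≠ ⊥) (hl : l ≠ ⊥) :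
    (∏ w : InfinitePlace K, ((w (u : K)) ^ (-(1 / 2 : ℝ)) *
      (Ideal.absNorm l : ℝ) ^ (1 / (2 * (finrank ℚ K : ℝ)))) ^ w.mult) *
      (Ideal.absNorm j : ℝ) = 1 := by
  have hd : 0 < (finrank ℚ K : ℝ) := by exact_mod_cast finrank_pos (R := ℚ) (M := K)
  have hj0 : 0 < (Ideal.absNorm j : ℝ) := by
    exact_mod_cast Nat.pos_of_ne_zero (fun h => hj (Ideal.absNorm_eq_zero_iff.1 h))
  have hl0 : 0 < (Ideal.absNorm l : ℝ) := by
    exact_mod_cast Nat.pos_of_ne_zero (fun h => hl (Ideal.absNorm_eq_zero_iff.1 h))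
  have hw0 : ∀ w : InfinitePlace K, 0 ≤ w (u : K) := fun w => apply_nonneg w _
  have h1 : ∀ w : InfinitePlace K, ((w (u : K)) ^ (-(1 / 2 : ℝ)) *
      (Ideal.absNorm l : ℝ) ^ (1 / (2 * (finrank ℚ K : ℝ)))) ^ w.mult =
      ((w (u : K)) ^ w.mult) ^ (-(1 / 2 : ℝ)) *
        ((Ideal.absNorm l : ℝ) ^ (1 / (2 * (finrank ℚ K : ℝ)))) ^ w.mult := by
    intro w
    rw [mul_pow, ← Real.rpow_natCast, ← Real.rpow_natCast (w (u : K)), ← Real.rpow_mul (hw0 w),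
      ← Real.rpow_mul (hw0 w), mul_comm (-(1 / 2 : ℝ))]
  rw [Finset.prod_congr rfl fun w _ => h1 w, Finset.prod_mul_distrib,
    Real.finsetProd_rpow _ _ (fun w _ => pow_nonneg (hw0 w) _),
    InfinitePlace.prod_eq_abs_norm, Finset.prod_pow_eq_pow_sum, InfinitePlace.sum_mult_eq]
  have h2 : ((|Algebra.norm ℚ (u : K)| : ℚ) : ℝ) = (Ideal.absNorm j : ℝ) ^ 2 * (Ideal.absNorm l : ℝ) := by
    have h3 : Ideal.absNorm (Ideal.span {u}) = Ideal.absNorm j ^ 2 * Ideal.absNorm l := by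
      rw [hul, map_mul, map_pow]
    rw [Ideal.absNorm_span_singleton] at h3
    have h4 : Algebra.norm ℚ (u : K) = ((Algebra.norm ℤ u : ℤ) : ℚ) := by
      rw [← Algebra.coe_norm_int]
    rw [h4]
    have h5 : ((|((Algebra.norm ℤ u : ℤ) : ℚ)| : ℚ) : ℝ) = (((Algebra.norm ℤ u).natAbs : ℕ) : ℝ) := by
      rw [Nat.cast_natAbs]
      push_cast
      rfl
    rw [h5, h3]
    push_cast
    rfl
  rw [h2, ← Real.rpow_natCast ((Ideal.absNorm l : ℝ) ^ (1 / (2 * (finrank ℚ K : ℝ)))),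
    ← Real.rpow_mul hl0.le, Real.mul_rpow (by positivity) hl0.le, ← Real.rpow_natCast
    (Ideal.absNorm j : ℝ) 2, ← Real.rpow_mul hj0.le]
  have e1 : 1 / (2 * (finrank ℚ K : ℝ)) * (finrank ℚ K : ℝ) = 1 / 2 := by
    field_simp
  have e2 : ((2 : ℕ) : ℝ) * (-(1 / 2)) = -1 := by norm_num
  rw [e1, e2, Real.rpow_neg_one, mul_assoc ((Ideal.absNorm j : ℝ)⁻¹), ← Real.rpow_add hl0]
  rw [show (-(1 / 2 : ℝ)) + 1 / 2 = 0 by norm_num, Real.rpow_zero, mul_one,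
    inv_mul_cancel₀ hj0.ne']

/-- The integral twist by an element `u` of `𝓞 K`, `(A', B')` given, with `span {u} = j ^ 2 * l`: an element
`y ≠ 0` of `K` such that `u'' = u y²` is integral, small, with `span {u''} = c ^ 2 * l`, `N(c) ≤ C`.

Proof. `tc_exists_small_aniso` with `m = j`, `h w = (w u)^(-1/2) * N(l)^(1/(2d))`: since
`∏ (w u) ^ mult w = |Norm u| = N(j)² N(l)`, `∏ h w ^ mult w = N(j)⁻¹` (`∑ mult w = d`). It gives `y` and
`c = y j`. Then `w (u y²) ≤ C² N(l)^(1/d) ≤ C² N(l)`, and `u y² ∈ 𝓞 K`, `span {u y²} = y² j² l = c² l`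
(as fractional ideals, or: `u = ∑ a b e` with `a, b ∈ j`, `e ∈ l`, so `u y² = ∑ (y a)(y b) e ∈ c² l`;
conversely every product `(y a) (y b) e` with `a, b ∈ j`, `e ∈ l` is `y² (a b e)`, and
`a b e ∈ j² l = span {u}`). -/
theorem tc_twist_element (K : Type*) [Field K] [NumberField K] :
    ∃ C : ℝ, 1 ≤ C ∧ ∀ (u : 𝓞 K) (j l : Ideal (𝓞 K)), u ≠ 0 → Ideal.span {u} = j ^ 2 * l →
      ∃ (y : K) (u' : 𝓞 K) (c : Ideal (𝓞 K)), y ≠ 0 ∧ (u' : K) = (u : K) * y ^ 2 ∧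
        Hle (u' : K) (C * (Ideal.absNorm l : ℝ)) ∧ c ≠ ⊥ ∧ (Ideal.absNorm c : ℝ) ≤ C ∧
        Ideal.span {u'} = c ^ 2 * l := by
  obtain ⟨C, hC, H⟩ := tc_exists_small_aniso K
  refine ⟨C ^ 2, one_le_pow₀ hC, ?_⟩
  intro u j l hu hul
  have hspan : Ideal.span {u} ≠ (⊥ : Ideal (𝓞 K)) := by
    rw [Ne, Ideal.span_singleton_eq_bot]
    exact hu
  have hj : j ≠ ⊥ := by
    rintro rfl
    apply hspan
    rw [hul, pow_two, Ideal.bot_mul, Ideal.bot_mul]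
  have hl : l ≠ ⊥ := by
    rintro rfl
    apply hspan
    rw [hul, Ideal.mul_bot]
  have hd : 0 < (finrank ℚ K : ℝ) := by exact_mod_cast finrank_pos (R := ℚ) (M := K)
  have hl0 : 0 < (Ideal.absNorm l : ℝ) := by
    exact_mod_cast Nat.pos_of_ne_zero (fun h => hl (Ideal.absNorm_eq_zero_iff.1 h))
  have hl1 : 1 ≤ (Ideal.absNorm l : ℝ) := by
    exact_mod_cast Nat.one_le_iff_ne_zero.2 (fun h => hl (Ideal.absNorm_eq_zero_iff.1 h))
  have huK : (u : K) ≠ 0 := by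
    rw [Ne, RingOfIntegers.coe_eq_zero_iff]
    exact hu
  have hw0 : ∀ w : InfinitePlace K, 0 < w (u : K) := fun w => by
    rw [InfinitePlace.pos_iff]
    exact huK
  obtain ⟨y, c, hy, hyw, hc, hcC, hjc, hcj⟩ := H j hj
    (fun w => (w (u : K)) ^ (-(1 / 2 : ℝ)) * (Ideal.absNorm l : ℝ) ^ (1 / (2 * (finrank ℚ K : ℝ))))
    (fun w => mul_pos (Real.rpow_pos_of_pos (hw0 w) _) (Real.rpow_pos_of_pos hl0 _))
    (tc_te_prod K hul hj hl)
  have hid : ∀ v ∈ l, ∃ v' ∈ l, (v' : K) = 1 * (v : K) := fun v hv => ⟨v, hv, (one_mul _).symm⟩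
  have hcj' : ∀ v ∈ c, ∃ u ∈ j, (u : K) = y⁻¹ * (v : K) := by
    intro v hv
    obtain ⟨t, ht, ht'⟩ := hcj v hv
    refine ⟨t, ht, ?_⟩
    rw [ht', inv_mul_cancel_left₀ hy]
  have A := tc_te_mul (tc_te_mul hjc hjc) hid
  have B := tc_te_mul (tc_te_mul hcj' hcj') hid
  rw [← pow_two, ← pow_two] at A B
  obtain ⟨u', hu', hu'K⟩ := A u (by rw [← hul]; exact Ideal.mem_span_singleton_self u)
  refine ⟨y, u', c, hy, ?_, ?_, hc, ?_, ?_⟩
  · rw [hu'K]; ring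
  · intro σ
    have h1 : ‖σ (u' : K)‖ = (InfinitePlace.mk σ) (u' : K) := (InfinitePlace.apply σ _).symm
    rw [h1, hu'K]
    set w := InfinitePlace.mk σ
    have h2 : w (y * y * 1 * (u : K)) = w y * w y * w (u : K) := by
      rw [mul_one, map_mul, map_mul]
    rw [h2]
    have h3 : w y * w y ≤ (C * ((w (u : K)) ^ (-(1 / 2 : ℝ)) *
        (Ideal.absNorm l : ℝ) ^ (1 / (2 * (finrank ℚ K : ℝ))))) *
        (C * ((w (u : K)) ^ (-(1 / 2 : ℝ)) *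
        (Ideal.absNorm l : ℝ) ^ (1 / (2 * (finrank ℚ K : ℝ))))) :=
      mul_le_mul (hyw w) (hyw w) (apply_nonneg w _) (le_trans (apply_nonneg w _) (hyw w))
    have h4 : (w (u : K)) ^ (-(1 / 2 : ℝ)) * (w (u : K)) ^ (-(1 / 2 : ℝ)) = (w (u : K))⁻¹ := by
      rw [← Real.rpow_add (hw0 w), ← Real.rpow_neg_one]
      norm_num
    have h5 : (Ideal.absNorm l : ℝ) ^ (1 / (2 * (finrank ℚ K : ℝ))) *
        (Ideal.absNorm l : ℝ) ^ (1 / (2 * (finrank ℚ K : ℝ))) ≤ (Ideal.absNorm l : ℝ) := by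
      rw [← Real.rpow_add hl0]
      calc _ ≤ (Ideal.absNorm l : ℝ) ^ (1 : ℝ) := by
            apply Real.rpow_le_rpow_of_exponent_le hl1
            have h6 : 1 / (2 * (finrank ℚ K : ℝ)) + 1 / (2 * (finrank ℚ K : ℝ)) =
                1 / (finrank ℚ K : ℝ) := by field_simp; norm_num
            rw [h6, div_le_one hd]
            exact_mod_cast finrank_pos (R := ℚ) (M := K)
        _ = _ := Real.rpow_one _
    calc w y * w y * w (u : K) ≤ _ := mul_le_mul_of_nonneg_right h3 (hw0 w).le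
      _ = C ^ 2 * (((w (u : K)) ^ (-(1 / 2 : ℝ)) * (w (u : K)) ^ (-(1 / 2 : ℝ))) * w (u : K)) *
          ((Ideal.absNorm l : ℝ) ^ (1 / (2 * (finrank ℚ K : ℝ))) *
          (Ideal.absNorm l : ℝ) ^ (1 / (2 * (finrank ℚ K : ℝ)))) := by ring
      _ = C ^ 2 * ((Ideal.absNorm l : ℝ) ^ (1 / (2 * (finrank ℚ K : ℝ))) *
          (Ideal.absNorm l : ℝ) ^ (1 / (2 * (finrank ℚ K : ℝ)))) := by
            rw [h4, inv_mul_cancel₀ (hw0 w).ne', mul_one]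
      _ ≤ C ^ 2 * (Ideal.absNorm l : ℝ) := mul_le_mul_of_nonneg_left h5 (by positivity)
  · calc (Ideal.absNorm c : ℝ) ≤ C := hcC
      _ ≤ C ^ 2 := by nlinarith
  · apply le_antisymm
    · rw [Ideal.span_singleton_le_iff_mem]
      exact hu'
    · intro s hs
      obtain ⟨t, ht, htK⟩ := B s hs
      rw [← hul, Ideal.mem_span_singleton'] at ht
      obtain ⟨a, ha⟩ := ht
      rw [Ideal.mem_span_singleton']
      refine ⟨a, ?_⟩
      have h1 : (s : K) = y * y * (t : K) := by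
        rw [htK]; field_simp
      have h2 : ((a * u' : 𝓞 K) : K) = (s : K) := by
        have e1 : ((a * u' : 𝓞 K) : K) = (a : K) * (u' : K) := rfl
        have e2 : ((a * u : 𝓞 K) : K) = (a : K) * (u : K) := rfl
        rw [h1, ← ha, e1, e2, hu'K]
        ring
      exact RingOfIntegers.coe_injective h2

end Pool.Agent.Lib.MP_4a0cc8_ntC
end

section

/-!
MP_4a0cc8_nt (C): a small element of the inverse of an ideal.
-/

set_option autoImplicit false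

namespace Pool.Agent.Lib.MP_4a0cc8_ntC

open NumberField Module
open Pool.Agent.Lib.FMK60 (InBox Del Hle)

/-- a small nonzero element of an ideal (pigeonhole) -/
lemma tc_small_mem (K : Type*) [Field K] [NumberField K] :
    ∃ C : ℝ, 1 ≤ C ∧ ∀ J : Ideal (𝓞 K), J ≠ ⊥ → ∃ y ∈ J, y ≠ 0 ∧
      Hle (y : K) (C * (Ideal.absNorm J : ℝ) ^ ((1 : ℝ) / finrank ℚ K)) := by
  classical
  obtain ⟨β, C, hC, -, hβ⟩ := Pool.Agent.Lib.FMK60.exists_coord K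
  have hd0 : 0 < finrank ℚ K := finrank_pos
  refine ⟨max C 1, le_max_right _ _, fun J hJ => ?_⟩
  have hJ0 : Ideal.absNorm J ≠ 0 := by rwa [Ne, Ideal.absNorm_eq_zero_iff]
  have hN0 : (0 : ℝ) < (Ideal.absNorm J : ℝ) := by exact_mod_cast Nat.pos_of_ne_zero hJ0
  set t : ℝ := (Ideal.absNorm J : ℝ) ^ ((1 : ℝ) / finrank ℚ K) with ht
  have ht0 : 0 < t := Real.rpow_pos_of_pos hN0 _
  have htd : t ^ finrank ℚ K = (Ideal.absNorm J : ℝ) := by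
    rw [ht, ← Real.rpow_natCast, ← Real.rpow_mul hN0.le, one_div, inv_mul_cancel₀, Real.rpow_one]
    exact_mod_cast hd0.ne'
  set q : ℕ := ⌊t⌋₊ with hq
  have hqt : (q : ℝ) ≤ t := Nat.floor_le ht0.le
  have hqt' : t < q + 1 := Nat.lt_floor_add_one t
  have hlt : Ideal.absNorm J < (q + 1) ^ finrank ℚ K := by
    have h1 : t ^ finrank ℚ K < ((q : ℝ) + 1) ^ finrank ℚ K :=
      pow_lt_pow_left₀ hqt' ht0.le hd0.ne'
    rw [htd] at h1
    exact_mod_cast h1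
  have hfin : Finite (𝓞 K ⧸ J) := Ideal.finiteQuotientOfFreeOfNeBot J hJ
  have := Fintype.ofFinite (𝓞 K ⧸ J)
  have hcard : Fintype.card (𝓞 K ⧸ J) < Fintype.card (Fin (finrank ℚ K) → Fin (q + 1)) := by
    have h1 : Fintype.card (𝓞 K ⧸ J) = Ideal.absNorm J := by
      rw [← Nat.card_eq_fintype_card, Ideal.absNorm_apply, Submodule.cardQuot_apply]
    rw [h1, Fintype.card_pi_const, Fintype.card_fin]
    exact hlt
  obtain ⟨c, c', hcc, hf⟩ := Fintype.exists_ne_map_eq_of_card_lt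
    (fun c : Fin (finrank ℚ K) → Fin (q + 1) =>
      Ideal.Quotient.mk J (∑ i, ((c i : ℕ) : ℤ) • β i)) hcard
  have hrepr : ∀ e : Fin (finrank ℚ K) → ℤ, ∀ i, β.repr (∑ i, e i • β i) i = e i := by
    intro e i
    rw [Basis.repr_sum_self]
  set y : 𝓞 K := ∑ i, (((c i : ℕ) : ℤ) - ((c' i : ℕ) : ℤ)) • β i with hy
  have hyJ : y ∈ J := by
    have h1 := Ideal.Quotient.eq.mp hf
    have h2 : y = (∑ i, ((c i : ℕ) : ℤ) • β i) - ∑ i, ((c' i : ℕ) : ℤ) • β i := by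
      rw [hy, ← Finset.sum_sub_distrib]
      exact Finset.sum_congr rfl fun i _ => sub_smul _ _ _
    rw [h2]
    exact h1
  have hyr : ∀ i, β.repr y i = ((c i : ℕ) : ℤ) - ((c' i : ℕ) : ℤ) := fun i =>
    hrepr (fun i => ((c i : ℕ) : ℤ) - ((c' i : ℕ) : ℤ)) i
  refine ⟨y, hyJ, ?_, ?_⟩
  · intro hy0
    apply hcc
    funext i
    have h1 := hyr i
    rw [hy0, map_zero, Finsupp.zero_apply] at h1
    apply Fin.ext
    omega
  · have h1 : Hle (y : K) (C * t) := by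
      refine hβ y t ht0.le fun i => ?_
      rw [hyr i]
      have h2 : |((((c i : ℕ) : ℤ) - ((c' i : ℕ) : ℤ) : ℤ) : ℝ)| ≤ (q : ℝ) := by
        have h3 : |((c i : ℕ) : ℤ) - ((c' i : ℕ) : ℤ)| ≤ (q : ℤ) := by
          rw [abs_le]
          have h4 := (c i).2
          have h5 := (c' i).2
          constructor <;> omega
        rw [← Int.cast_abs]
        exact_mod_cast h3
      exact h2.trans hqt
    refine h1.mono ?_
    gcongr
    exact le_max_left _ _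

/-- A small element of the inverse of an ideal: there are `x ≠ 0` in `K` and an ideal `c` of norm at most
`C` with `x m = c` as ideals, and all conjugates of `x` are at most `C` (even `C N(m)^(-1/d)`).

Proof. Minkowski for the fractional ideal `m⁻¹` (`NumberField.mixedEmbedding.
exists_ne_zero_mem_ideal_lt` with all bounds equal, the volume from `convexBodyLT_volume` and
`minkowskiBound`), or elementary: `m` contains the positive integer `n = N(m)`, so `m⁻¹` contains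
`n⁻¹ 𝓞_K`; let `J = n m⁻¹` = the integral ideal with `J m = (n)`, `N(J) = n ^ d / n = n ^ (d - 1)`. The
elements `∑ cᵢ bᵢ` (integral basis `b`) with `0 ≤ cᵢ ≤ q`, `q = ⌊N(J) ^ (1/d)⌋`, are `(q + 1) ^ d > N(J)`
in number, so two of them are congruent modulo `J`: there is `0 ≠ y ∈ J` with conjugates
`≤ C₁ q ≤ C₁ N(J) ^ (1/d) ≤ C₁ n ^ ((d - 1)/d) ≤ C₁ n` (`exists_coord` in FMK60/Coord.lean). Let
`x = y / n`: conjugates `≤ C₁ n ^ (-1/d) ≤ C₁`, `x m = (y) m / n = (y) J⁻¹ =: c` integral, and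
`N(c) = N(y) / N(J) ≤ C₁ ^ d`. -/
theorem tc_exists_small (K : Type*) [Field K] [NumberField K] :
    ∃ C : ℝ, 1 ≤ C ∧ ∀ m : Ideal (𝓞 K), m ≠ ⊥ → ∃ (x : K) (c : Ideal (𝓞 K)), x ≠ 0 ∧ Hle x C ∧
      c ≠ ⊥ ∧ (Ideal.absNorm c : ℝ) ≤ C ∧ (∀ u ∈ m, ∃ v ∈ c, (v : K) = x * (u : K)) ∧
      (∀ v ∈ c, ∃ u ∈ m, (v : K) = x * (u : K)) := by
  classical
  obtain ⟨C₁, hC₁, hsm⟩ := tc_small_mem K
  have hd0 : 0 < finrank ℚ K := finrank_pos
  have hC₁0 : 0 < C₁ := by linarith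
  have hC₁d : C₁ ≤ C₁ ^ finrank ℚ K := le_self_pow₀ hC₁ hd0.ne'
  refine ⟨C₁ ^ finrank ℚ K, one_le_pow₀ hC₁, fun m hm => ?_⟩
  have hn0 : Ideal.absNorm m ≠ 0 := by rwa [Ne, Ideal.absNorm_eq_zero_iff]
  set n : ℕ := Ideal.absNorm m with hn
  have hn0' : (0 : ℝ) < (n : ℝ) := by exact_mod_cast Nat.pos_of_ne_zero hn0
  have hnm : ((n : ℕ) : 𝓞 K) ∈ m := Ideal.absNorm_mem m
  have hnK : ((n : ℕ) : K) ≠ 0 := by exact_mod_cast hn0
  have hnO : ((n : ℕ) : 𝓞 K) ≠ 0 := by exact_mod_cast hn0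
  obtain ⟨J, hJ⟩ : m ∣ Ideal.span {((n : ℕ) : 𝓞 K)} :=
    Ideal.dvd_iff_le.mpr ((Ideal.span_singleton_le_iff_mem m).mpr hnm)
  have hspan0 : Ideal.span {((n : ℕ) : 𝓞 K)} ≠ ⊥ := by
    rw [Ne, Ideal.span_singleton_eq_bot]
    exact hnO
  have hJ0 : J ≠ ⊥ := by
    rintro rfl
    apply hspan0
    rw [hJ, Ideal.mul_bot]
  have hNJ0 : Ideal.absNorm J ≠ 0 := by rwa [Ne, Ideal.absNorm_eq_zero_iff]
  have hNJ0' : (0 : ℝ) < (Ideal.absNorm J : ℝ) := by exact_mod_cast Nat.pos_of_ne_zero hNJ0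
  -- the norm of `J`
  have hNJ : (Ideal.absNorm J : ℝ) ≤ (n : ℝ) ^ finrank ℚ K := by
    have h1 : (Ideal.absNorm (Ideal.span {((n : ℕ) : 𝓞 K)}) : ℝ) ≤ (n : ℝ) ^ finrank ℚ K := by
      refine Pool.Agent.Lib.FMK60.Hle.absNorm_le ?_
      have h2 : (((n : ℕ) : 𝓞 K) : K) = (n : K) := by simp
      rw [h2]
      exact Pool.Agent.Lib.FMK60.Hle.natCast n
    refine le_trans ?_ h1
    have h3 : Ideal.absNorm J ∣ Ideal.absNorm (Ideal.span {((n : ℕ) : 𝓞 K)}) := by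
      rw [hJ, map_mul]
      exact Dvd.intro_left _ rfl
    have h4 : Ideal.absNorm (Ideal.span {((n : ℕ) : 𝓞 K)}) ≠ 0 := by
      rwa [Ne, Ideal.absNorm_eq_zero_iff]
    exact_mod_cast Nat.le_of_dvd (Nat.pos_of_ne_zero h4) h3
  have hroot : (Ideal.absNorm J : ℝ) ^ ((1 : ℝ) / finrank ℚ K) ≤ (n : ℝ) := by
    calc (Ideal.absNorm J : ℝ) ^ ((1 : ℝ) / finrank ℚ K)
        ≤ ((n : ℝ) ^ finrank ℚ K) ^ ((1 : ℝ) / finrank ℚ K) :=
          Real.rpow_le_rpow hNJ0'.le hNJ (by positivity)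
      _ = (n : ℝ) := by
        rw [← Real.rpow_natCast, ← Real.rpow_mul hn0'.le, mul_one_div_cancel, Real.rpow_one]
        exact_mod_cast hd0.ne'
  obtain ⟨y, hyJ, hy0, hyH⟩ := hsm J hJ0
  have hyK : (y : K) ≠ 0 := by
    have := NumberField.RingOfIntegers.coe_ne_zero_iff.mpr hy0
    exact this
  obtain ⟨c, hc⟩ : J ∣ Ideal.span {y} :=
    Ideal.dvd_iff_le.mpr ((Ideal.span_singleton_le_iff_mem J).mpr hyJ)
  have hspany : Ideal.span {y} ≠ ⊥ := by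
    rw [Ne, Ideal.span_singleton_eq_bot]
    exact hy0
  have hc0 : c ≠ ⊥ := by
    rintro rfl
    apply hspany
    rw [hc, Ideal.mul_bot]
  have hkey : Ideal.span {y} * m = Ideal.span {((n : ℕ) : 𝓞 K)} * c := by
    rw [hc, hJ]
    ring
  refine ⟨(y : K) / (n : K), c, div_ne_zero hyK hnK, ?_, hc0, ?_, ?_, ?_⟩
  · intro σ
    have h1 := hyH σ
    rw [map_div₀, norm_div, map_natCast]
    have h2 : ‖((n : ℕ) : ℂ)‖ = (n : ℝ) := by simp
    rw [h2, div_le_iff₀ hn0']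
    refine h1.trans ?_
    calc C₁ * (Ideal.absNorm J : ℝ) ^ ((1 : ℝ) / finrank ℚ K) ≤ C₁ * n := by gcongr
      _ ≤ C₁ ^ finrank ℚ K * n := by gcongr
  · have h1 := Pool.Agent.Lib.FMK60.Hle.absNorm_le hyH
    rw [hc, map_mul, mul_pow, ← Real.rpow_natCast
      ((Ideal.absNorm J : ℝ) ^ ((1 : ℝ) / finrank ℚ K)), ← Real.rpow_mul hNJ0'.le,
      one_div_mul_cancel (by exact_mod_cast hd0.ne'), Real.rpow_one] at h1
    push_cast at h1
    have h2 : (Ideal.absNorm J : ℝ) * (Ideal.absNorm c : ℝ) ≤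
        (Ideal.absNorm J : ℝ) * C₁ ^ finrank ℚ K := by linarith
    exact le_of_mul_le_mul_left h2 hNJ0'
  · intro u hu
    have h1 : y * u ∈ Ideal.span {((n : ℕ) : 𝓞 K)} * c := by
      rw [← hkey]
      exact Ideal.mul_mem_mul (Ideal.mem_span_singleton_self y) hu
    obtain ⟨v, hv, hvy⟩ := Ideal.mem_span_singleton_mul.mp h1
    refine ⟨v, hv, ?_⟩
    have h2 := congrArg (algebraMap (𝓞 K) K) hvy
    rw [map_mul, map_mul, map_natCast] at h2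
    rw [div_mul_eq_mul_div, eq_div_iff hnK, mul_comm]
    exact h2
  · intro v hv
    have h1 : ((n : ℕ) : 𝓞 K) * v ∈ Ideal.span {y} * m := by
      rw [hkey]
      exact Ideal.mul_mem_mul (Ideal.mem_span_singleton_self _) hv
    obtain ⟨u, hu, huy⟩ := Ideal.mem_span_singleton_mul.mp h1
    refine ⟨u, hu, ?_⟩
    have h2 := congrArg (algebraMap (𝓞 K) K) huy
    rw [map_mul, map_mul, map_natCast] at h2
    rw [div_mul_eq_mul_div, eq_div_iff hnK, mul_comm]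
    exact h2.symm

end Pool.Agent.Lib.MP_4a0cc8_ntC
end

section

/-!
MP_4a0cc8_nt (C): every curve has a quadratic twist nearly minimal among its twists, in a slightly
larger box.
-/

set_option autoImplicit false

namespace Pool.Agent.Lib.MP_4a0cc8_ntC

open NumberField Module
open Pool.Agent.Lib.FMK60 (InBox Del Hle)

section aux
variable {K : Type*} [Field K] [NumberField K]

/-- `x m = c` as fractional ideals -/
private def tcRel (x : K) (m c : Ideal (𝓞 K)) : Prop :=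
  (∀ u ∈ m, ∃ v ∈ c, algebraMap (𝓞 K) K v = x * algebraMap (𝓞 K) K u) ∧
    (∀ v ∈ c, ∃ u ∈ m, algebraMap (𝓞 K) K v = x * algebraMap (𝓞 K) K u)

omit [NumberField K] in
private lemma tcRel_one (m : Ideal (𝓞 K)) : tcRel (1 : K) m m :=
  ⟨fun u hu => ⟨u, hu, by simp⟩, fun u hu => ⟨u, hu, by simp⟩⟩

omit [NumberField K] in
private lemma tcRel_mul_aux {x y : K} {m c m' c' : Ideal (𝓞 K)}
    (h : ∀ u ∈ m, ∃ v ∈ c, algebraMap (𝓞 K) K v = x * algebraMap (𝓞 K) K u)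
    (h' : ∀ u ∈ m', ∃ v ∈ c', algebraMap (𝓞 K) K v = y * algebraMap (𝓞 K) K u) :
    ∀ u ∈ m * m', ∃ v ∈ c * c', algebraMap (𝓞 K) K v = (x * y) * algebraMap (𝓞 K) K u := by
  intro u hu
  refine Submodule.mul_induction_on hu ?_ ?_
  · intro a ha b hb
    obtain ⟨v, hv, hve⟩ := h a ha
    obtain ⟨w, hw, hwe⟩ := h' b hb
    refine ⟨v * w, Ideal.mul_mem_mul hv hw, ?_⟩
    rw [map_mul, hve, hwe, map_mul]
    ring
  · intro a b ha hb
    obtain ⟨v, hv, hve⟩ := ha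
    obtain ⟨w, hw, hwe⟩ := hb
    refine ⟨v + w, Ideal.add_mem _ hv hw, ?_⟩
    rw [map_add, hve, hwe, map_add]
    ring

omit [NumberField K] in
private lemma tcRel_mul_aux' {x y : K} {m c m' c' : Ideal (𝓞 K)}
    (h : ∀ v ∈ c, ∃ u ∈ m, algebraMap (𝓞 K) K v = x * algebraMap (𝓞 K) K u)
    (h' : ∀ v ∈ c', ∃ u ∈ m', algebraMap (𝓞 K) K v = y * algebraMap (𝓞 K) K u) :
    ∀ v ∈ c * c', ∃ u ∈ m * m', algebraMap (𝓞 K) K v = (x * y) * algebraMap (𝓞 K) K u := by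
  intro u hu
  refine Submodule.mul_induction_on hu ?_ ?_
  · intro a ha b hb
    obtain ⟨v, hv, hve⟩ := h a ha
    obtain ⟨w, hw, hwe⟩ := h' b hb
    refine ⟨v * w, Ideal.mul_mem_mul hv hw, ?_⟩
    rw [map_mul, map_mul, hve, hwe]
    ring
  · intro a b ha hb
    obtain ⟨v, hv, hve⟩ := ha
    obtain ⟨w, hw, hwe⟩ := hb
    refine ⟨v + w, Ideal.add_mem _ hv hw, ?_⟩
    rw [map_add, hve, hwe, map_add]
    ring

omit [NumberField K] in
private lemma tcRel_mul {x y : K} {m c m' c' : Ideal (𝓞 K)} (h : tcRel x m c)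
    (h' : tcRel y m' c') : tcRel (x * y) (m * m') (c * c') :=
  ⟨tcRel_mul_aux h.1 h'.1, tcRel_mul_aux' h.2 h'.2⟩

omit [NumberField K] in
private lemma tcRel_pow {x : K} {m c : Ideal (𝓞 K)} (h : tcRel x m c) (n : ℕ) :
    tcRel (x ^ n) (m ^ n) (c ^ n) := by
  induction n with
  | zero => simpa using tcRel_one (1 : Ideal (𝓞 K))
  | succ n ih => rw [pow_succ, pow_succ, pow_succ]; exact tcRel_mul ih h

private lemma two_le_absNorm {P : Ideal (𝓞 K)} (hP : P.IsPrime) (hP0 : P ≠ ⊥) :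
    2 ≤ Ideal.absNorm P := by
  have h0 : Ideal.absNorm P ≠ 0 := by
    rw [Ne, Ideal.absNorm_eq_zero_iff]; exact hP0
  have h1 : Ideal.absNorm P ≠ 1 := by
    rw [Ne, Ideal.absNorm_eq_one_iff]; exact hP.ne_top
  omega

private lemma pow_le_absNorm {P c : Ideal (𝓞 K)} (hP : P.IsPrime) (hP0 : P ≠ ⊥) (hc : c ≠ ⊥)
    {v : ℕ} (h : P ^ v ∣ c) : 2 ^ v ≤ Ideal.absNorm c := by
  have h1 : Ideal.absNorm (P ^ v) ∣ Ideal.absNorm c :=
    Ideal.absNorm_dvd_absNorm_of_le (Ideal.dvd_iff_le.1 h)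
  have h0 : Ideal.absNorm c ≠ 0 := by
    rw [Ne, Ideal.absNorm_eq_zero_iff]; exact hc
  have h2 := Nat.le_of_dvd (Nat.pos_of_ne_zero h0) h1
  rw [map_pow] at h2
  exact (Nat.pow_le_pow_left (two_le_absNorm hP hP0) v).trans h2

private lemma exists_mult {P c : Ideal (𝓞 K)} (hP : P.IsPrime) (hP0 : P ≠ ⊥) (hc : c ≠ ⊥) :
    ∃ v : ℕ, P ^ v ∣ c ∧ ¬ P ^ (v + 1) ∣ c := by
  by_contra hcon
  push Not at hcon
  have hall : ∀ v : ℕ, P ^ v ∣ c := by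
    intro v
    induction v with
    | zero => simp
    | succ v ih => exact hcon v ih
  have h := pow_le_absNorm hP hP0 hc (hall (Ideal.absNorm c))
  exact absurd h (not_le.2 Nat.lt_two_pow_self)

private lemma mem_mul_pow {P c : Ideal (𝓞 K)} (hP : P.IsPrime) (hP0 : P ≠ ⊥) {v : ℕ}
    (h1 : P ^ v ∣ c) (h2 : ¬ P ^ (v + 1) ∣ c) (n : ℕ) {y : 𝓞 K} (hy : y ∈ c ^ n)
    (hyP : y ∈ P ^ (n + n * v)) : y ∈ (P * c) ^ n := by
  obtain ⟨c', rfl⟩ := h1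
  have hnd : ¬ P ∣ c' := by
    intro hd
    apply h2
    rw [pow_succ]
    exact mul_dvd_mul_left _ hd
  have hmax : P.IsMaximal := hP.isMaximal hP0
  have hcop : IsCoprime P c' := by
    rw [Ideal.isCoprime_iff_sup_eq]
    have hlt : P < P ⊔ c' := by
      refine lt_of_le_of_ne le_sup_left ?_
      intro he
      apply hnd
      rw [Ideal.dvd_iff_le]
      rw [he]
      exact le_sup_right
    exact hmax.1.2 _ hlt
  have hcop' : IsCoprime (P ^ (n + n * v)) (c' ^ n) := hcop.pow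
  have hy' : y ∈ c' ^ n := by
    have : (P ^ v * c') ^ n ≤ c' ^ n := by
      rw [mul_pow]
      exact Ideal.mul_le_right (I := (P ^ v) ^ n) (J := c' ^ n)
    exact this hy
  have h3 : y ∈ P ^ (n + n * v) * c' ^ n := by
    rw [Ideal.mul_eq_inf_of_isCoprime hcop']
    exact ⟨hyP, hy'⟩
  have h4 : (P * (P ^ v * c')) ^ n = P ^ (n + n * v) * c' ^ n := by
    rw [mul_pow, mul_pow, ← pow_mul, ← mul_assoc, ← pow_add, mul_comm v n]
  rw [h4]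
  exact h3

/-- a maximal ideal `m` with `A ∈ m ^ 2`, `B ∈ m ^ 3` -/
private lemma exists_max_ideal (A B : 𝓞 K) (h : A ≠ 0 ∨ B ≠ 0) :
    ∃ m : Ideal (𝓞 K), m ≠ ⊥ ∧ A ∈ m ^ 2 ∧ B ∈ m ^ 3 ∧
      ∀ P : Ideal (𝓞 K), P.IsPrime → P ≠ ⊥ → ¬ (A ∈ (P * m) ^ 2 ∧ B ∈ (P * m) ^ 3) := by
  classical
  let Q : ℕ → Prop := fun n => ∃ m : Ideal (𝓞 K), m ≠ ⊥ ∧ A ∈ m ^ 2 ∧ B ∈ m ^ 3 ∧
    Ideal.absNorm m = n
  set N := Ideal.absNorm (Ideal.span {A}) + Ideal.absNorm (Ideal.span {B}) with hN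
  have hbd : ∀ m : Ideal (𝓞 K), m ≠ ⊥ → A ∈ m ^ 2 → B ∈ m ^ 3 → Ideal.absNorm m ≤ N := by
    intro m hm hA hB
    have hpos : Ideal.absNorm m ≠ 0 := by
      rw [Ne, Ideal.absNorm_eq_zero_iff]; exact hm
    have key : ∀ (y : 𝓞 K) (e : ℕ), e ≠ 0 → y ≠ 0 → y ∈ m ^ e →
        Ideal.absNorm m ≤ Ideal.absNorm (Ideal.span {y}) := by
      intro y e he hy0 hy
      have h1 : Ideal.span {y} ≤ m ^ e := by
        rw [Ideal.span_singleton_le_iff_mem]; exact hy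
      have h2 := Ideal.absNorm_dvd_absNorm_of_le h1
      have h3 : Ideal.absNorm (Ideal.span {y}) ≠ 0 := by
        rw [Ne, Ideal.absNorm_eq_zero_iff, Ideal.span_singleton_eq_bot]; exact hy0
      have h4 := Nat.le_of_dvd (Nat.pos_of_ne_zero h3) h2
      rw [map_pow] at h4
      exact (Nat.le_self_pow he _).trans h4
    rcases h with h | h
    · have := key A 2 (by norm_num) h hA
      omega
    · have := key B 3 (by norm_num) h hB
      omega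
  have hQ1 : Q 1 := ⟨⊤, by simp, by simp [Ideal.top_pow], by simp [Ideal.top_pow],
    by simp⟩
  have hN1 : 1 ≤ N := by
    obtain ⟨m, hm, hA, hB, he⟩ := hQ1
    have := hbd m hm hA hB
    omega
  have hspec : Q (Nat.findGreatest Q N) := Nat.findGreatest_spec hN1 hQ1
  obtain ⟨m, hm, hA, hB, he⟩ := hspec
  refine ⟨m, hm, hA, hB, ?_⟩
  rintro P hP hP0 ⟨hA', hB'⟩
  have hPm : P * m ≠ ⊥ := by
    intro h0
    rcases Ideal.mul_eq_bot.1 h0 with h1 | h1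
    · exact hP0 h1
    · exact hm h1
  have hle := hbd (P * m) hPm hA' hB'
  have hgr : Ideal.absNorm (P * m) ≤ Nat.findGreatest Q N :=
    Nat.le_findGreatest hle ⟨P * m, hPm, hA', hB', rfl⟩
  rw [← he, map_mul] at hgr
  have h2 := two_le_absNorm hP hP0
  have hpos : 0 < Ideal.absNorm m := by
    rw [Nat.pos_iff_ne_zero, Ne, Ideal.absNorm_eq_zero_iff]; exact hm
  nlinarith

end aux

/-- **Nearly minimal twists.**

Proof. (The same as `tc_near_minimal` in Near.lean with `(2, 3)` in place of `(4, 6)`.) Among the ideals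
`m` with `A ∈ m ^ 2`, `B ∈ m ^ 3` take one with maximal norm - the norms are bounded by `N(A) + N(B)`,
`(A, B) ≠ (0, 0)` since `Del ≠ 0`; maximality gives: there is no prime ideal `P` with
`A ∈ (P m) ^ 2` and `B ∈ (P m) ^ 3`. Let `x`, `c` be as in `tc_exists_small`, `A' = x² A`, `B' = x³ B`,
`ρ = x⁻¹`. Since `A ∈ m ^ 2`, `A' ∈ c ^ 2` is an algebraic integer (`x m = c`, elements of `m ^ 2` are
sums of products), same for `B'`, conjugates `≤ C² T⁴ ≤ (C T) ^ 4` and `≤ C³ T⁶ ≤ (C T) ^ 6`. For a prime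
`P`: `v_P(A') = v_P(A) - 2 v_P(m) + 2 v_P(c)`: if `A' ∈ P ^ (2 + 2 v)` and `B' ∈ P ^ (3 + 3 v)`,
`v = v_P(c)`, then `A ∈ (P m) ^ 2`, `B ∈ (P m) ^ 3`, a contradiction. Since `2 ^ v ≤ N(c) ≤ C`,
`v ≤ C`; so `KMin k` holds with `k = 3 + 3 ⌈C⌉₊`, and if `P` does not divide `c` then not both
`A' ∈ P ^ 2` and `B' ∈ P ^ 3`. Let `M` be the product of all the ideals `≠ ⊥` of norm at most `C`
(finitely many: `Ideal.finite_setOf_absNorm_le`): if `A' ∈ P ^ 2`, `B' ∈ P ^ 3` then `c ≤ P`, so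
`M ≤ P`. -/
theorem tc_near_twist (K : Type*) [Field K] [NumberField K] :
    ∃ (k : ℕ) (C : ℝ) (M : Ideal (𝓞 K)), 1 ≤ C ∧ M ≠ ⊥ ∧ ∀ T : ℝ, 1 ≤ T → ∀ z : 𝓞 K × 𝓞 K,
      InBox T z → Del z ≠ 0 → ∃ (ρ : K) (z' : 𝓞 K × 𝓞 K), ρ ≠ 0 ∧
        (z.1 : K) = ρ ^ 2 * (z'.1 : K) ∧ (z.2 : K) = ρ ^ 3 * (z'.2 : K) ∧ InBox (C * T) z' ∧
        Del z' ≠ 0 ∧ KMin k z' ∧
        ∀ P : Ideal (𝓞 K), P.IsPrime → P ≠ ⊥ → z'.1 ∈ P ^ 2 → z'.2 ∈ P ^ 3 → M ≤ P := by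
  classical
  obtain ⟨C, hC1, hC⟩ := tc_exists_small K
  have hfin : {I : Ideal (𝓞 K) | Ideal.absNorm I ≤ ⌊C⌋₊}.Finite :=
    Ideal.finite_setOfPred_absNorm_le ⌊C⌋₊
  let S : Finset (Ideal (𝓞 K)) := hfin.toFinset.filter (fun I => I ≠ ⊥)
  refine ⟨3 + 3 * ⌈C⌉₊, C, ∏ I ∈ S, I, hC1, ?_, ?_⟩
  · have h0 : (∏ I ∈ S, I) ≠ 0 := by
      rw [Finset.prod_ne_zero_iff]
      intro I hI
      exact (Finset.mem_filter.1 hI).2
    exact h0
  intro T hT z hz hD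
  have hAB : z.1 ≠ 0 ∨ z.2 ≠ 0 := by
    by_contra hcon
    push Not at hcon
    apply hD
    simp [Del, hcon.1, hcon.2]
  obtain ⟨m, hm, hA, hB, hmax⟩ := exists_max_ideal z.1 z.2 hAB
  obtain ⟨x, c, hx, hxC, hc0, hcC, hr1, hr2⟩ := hC m hm
  have hrel : tcRel x m c := ⟨hr1, hr2⟩
  obtain ⟨A', hA'c, hA'⟩ := (tcRel_pow hrel 2).1 z.1 hA
  obtain ⟨B', hB'c, hB'⟩ := (tcRel_pow hrel 3).1 z.2 hB
  have hCpos : (0 : ℝ) ≤ C := by linarith
  -- the key contradiction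
  have hkey : ∀ P : Ideal (𝓞 K), P.IsPrime → P ≠ ⊥ → ∀ v : ℕ, P ^ v ∣ c → ¬ P ^ (v + 1) ∣ c →
      A' ∈ P ^ (2 + 2 * v) → B' ∈ P ^ (3 + 3 * v) → False := by
    intro P hP hP0 v h1 h2 hAP hBP
    have hA4 := mem_mul_pow hP hP0 h1 h2 2 hA'c hAP
    have hB6 := mem_mul_pow hP hP0 h1 h2 3 hB'c hBP
    have hrelP : tcRel x (P * m) (P * c) := by
      have := tcRel_mul (tcRel_one P) hrel
      rwa [one_mul] at this
    obtain ⟨u, hu, hue⟩ := (tcRel_pow hrelP 2).2 A' hA4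
    obtain ⟨w, hw, hwe⟩ := (tcRel_pow hrelP 3).2 B' hB6
    have hu' : u = z.1 := by
      apply RingOfIntegers.ext
      have h3 : x ^ 2 * (u : K) = x ^ 2 * (z.1 : K) := by rw [← hue, ← hA']
      exact mul_left_cancel₀ (pow_ne_zero 2 hx) h3
    have hw' : w = z.2 := by
      apply RingOfIntegers.ext
      have h3 : x ^ 3 * (w : K) = x ^ 3 * (z.2 : K) := by rw [← hwe, ← hB']
      exact mul_left_cancel₀ (pow_ne_zero 3 hx) h3
    exact hmax P hP hP0 ⟨hu' ▸ hu, hw' ▸ hw⟩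
  refine ⟨x⁻¹, (A', B'), inv_ne_zero hx, ?_, ?_, ⟨?_, ?_⟩, ?_, ?_, ?_⟩
  · simp only [hA']
    field_simp
  · simp only [hB']
    field_simp
  · intro σ
    simp only [hA', map_mul, map_pow, norm_mul, norm_pow]
    rw [mul_pow]
    exact mul_le_mul ((pow_le_pow_left₀ (norm_nonneg _) (hxC σ) 2).trans
      (pow_le_pow_right₀ hC1 (by norm_num))) (hz.1 σ) (norm_nonneg _) (by positivity)
  · intro σ
    simp only [hB', map_mul, map_pow, norm_mul, norm_pow]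
    rw [mul_pow]
    exact mul_le_mul ((pow_le_pow_left₀ (norm_nonneg _) (hxC σ) 3).trans
      (pow_le_pow_right₀ hC1 (by norm_num))) (hz.2 σ) (norm_nonneg _) (by positivity)
  · intro h0
    apply hD
    have h1 : ((Del (A', B') : 𝓞 K) : K) = x ^ 6 * ((Del z : 𝓞 K) : K) := by
      simp only [Del, map_add, map_mul, map_pow, hA', hB']
      have e4 : algebraMap (𝓞 K) K 4 = 4 := map_ofNat _ 4
      have e27 : algebraMap (𝓞 K) K 27 = 27 := map_ofNat _ 27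
      rw [e4, e27]
      ring
    rw [h0] at h1
    have h2 : x ^ 6 * ((Del z : 𝓞 K) : K) = 0 := by rw [← h1]; simp
    rcases mul_eq_zero.1 h2 with h3 | h3
    · exact absurd h3 (pow_ne_zero 6 hx)
    · exact RingOfIntegers.ext (by rw [h3]; simp)
  · rintro P hP hP0 ⟨hAP, hBP⟩
    obtain ⟨v, h1, h2⟩ := exists_mult hP hP0 hc0
    have hv : v ≤ ⌈C⌉₊ := by
      have h3 := pow_le_absNorm hP hP0 hc0 h1
      have h4 : v < 2 ^ v := Nat.lt_two_pow_self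
      have h5 : (v : ℝ) ≤ C := by
        have h6 : (v : ℝ) ≤ (Ideal.absNorm c : ℝ) := by exact_mod_cast (h4.le.trans h3)
        linarith
      have h7 : (v : ℝ) ≤ (⌈C⌉₊ : ℝ) := h5.trans (Nat.le_ceil C)
      exact_mod_cast h7
    refine hkey P hP hP0 v h1 h2 ?_ ?_
    · exact Ideal.pow_le_pow_right (by omega) hAP
    · exact Ideal.pow_le_pow_right (by omega) hBP
  · intro P hP hP0 hAP hBP
    by_cases hcP : P ∣ c
    · have hcS : c ∈ S := by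
        rw [Finset.mem_filter, Set.Finite.mem_toFinset]
        exact ⟨Nat.le_floor hcC, hc0⟩
      have h1 : c ∣ ∏ I ∈ S, I := Finset.dvd_prod_of_mem _ hcS
      exact Ideal.dvd_iff_le.1 (hcP.trans h1)
    · exfalso
      refine hkey P hP hP0 0 (by simp) (by simpa using hcP) ?_ ?_
      · simpa using hAP
      · simpa using hBP

end Pool.Agent.Lib.MP_4a0cc8_ntC
end

section

/-!
MP_4a0cc8_nt (C): models of the quadratic twists of a curve.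
-/

set_option autoImplicit false

namespace Pool.Agent.Lib.MP_4a0cc8_ntC

open NumberField Module
open Pool.Agent.Lib.FMK60 (InBox Del Hle)

private theorem twm_pow_dvd {K : Type*} [Field K] [NumberField K] {P l : Ideal (𝓞 K)}
    (hP : P.IsPrime) (hP0 : P ≠ ⊥) (hl : ¬ l ≤ P ^ 2) (n : ℕ) :
    ∀ c : Ideal (𝓞 K), P ^ (2 * n + 2) ∣ c ^ 2 * l → P ^ (n + 1) ∣ c := by
  have hpr : Prime P := Ideal.prime_of_isPrime hP0 hP
  have hPc : ∀ (n : ℕ) (c : Ideal (𝓞 K)), P ^ (2 * n + 2) ∣ c ^ 2 * l → P ∣ c := by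
    intro n c h
    by_contra hc
    have h1 : ¬ P ∣ c ^ 2 := fun h => hc (hpr.dvd_of_dvd_pow h)
    have h2 : P ^ (2 * n + 2) ∣ l := hpr.pow_dvd_of_dvd_mul_left _ h1 h
    exact hl (Ideal.dvd_iff_le.1 ((pow_dvd_pow P (by omega)).trans h2))
  induction n with
  | zero =>
    intro c h
    rw [zero_add, pow_one]
    exact hPc 0 c h
  | succ n ih =>
    intro c h
    obtain ⟨c₁, rfl⟩ := hPc (n + 1) c h
    rw [pow_succ' P (n + 1)]
    refine mul_dvd_mul_left P (ih c₁ ?_)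
    have h1 : P ^ 2 * P ^ (2 * n + 2) ∣ P ^ 2 * (c₁ ^ 2 * l) := by
      have e1 : P ^ 2 * P ^ (2 * n + 2) = P ^ (2 * (n + 1) + 2) := by ring
      have e2 : P ^ 2 * (c₁ ^ 2 * l) = (P * c₁) ^ 2 * l := by ring
      rw [e1, e2]
      exact h
    exact (mul_dvd_mul_iff_left (pow_ne_zero 2 hpr.ne_zero)).1 h1

private theorem twm_cancel {K : Type*} [Field K] [NumberField K] {P : Ideal (𝓞 K)}
    (hP : P.IsPrime) (hP0 : P ≠ ⊥) {x y : 𝓞 K} (hx : x ≠ 0) {v : ℕ} (hv : x ∉ P ^ (v + 1))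
    {a n N : ℕ} (hN : n + a * v ≤ N) (h : x ^ a * y ∈ P ^ N) : y ∈ P ^ n := by
  by_cases hy : y = 0
  · rw [hy]
    exact zero_mem _
  rw [tc_mem_pow_iff hP hP0 hy]
  rw [tc_mem_pow_iff hP hP0 (mul_ne_zero (pow_ne_zero a hx) hy),
    tc_ordP_mul P (pow_ne_zero a hx) hy, tc_ordP_pow P hx] at h
  rw [tc_mem_pow_iff hP hP0 hx] at hv
  have h1 : a * ordP P x ≤ a * v := Nat.mul_le_mul_left a (by omega)
  omega

/-- **Models of the twists.** For `z` in the box and `t ≠ 0` the quadratic twist by `t` is isomorphic to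
`z'` in a box of size `C * T * N(l)`, `l` squarefree, nearly minimal, and outside a fixed `M` it is
minimal, and additive at the primes dividing `l`.

Proof. Let `ρ₀`, `(A₁, B₁)` be as in `tc_near_twist` (constants `k₁, C₁, M₁`): `A = ρ₀² A₁`,
`B = ρ₀³ B₁`. Let `u₀ = t ρ₀`; there is a positive integer `n` with `u = u₀ n²` integral
(`IsLocalization`/`exists_integer_multiple`: `u₀ = a / b`, `b` an integer; `n = b`). Let
`span {u} = j ^ 2 * l` (`tc_sq_dec`), `y, u', c` as in `tc_twist_element` (constant `C₂`), and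
`z' = (u'² A₁, u'³ B₁)`. Then `t² A = u₀² A₁ = (u' / (n² y²))² A₁ = ρ⁴ z'.1` and `t³ B = ρ⁶ z'.2`, with
`ρ = 1/(n y)`. `InBox`: `‖σ z'.1‖ ≤ (C₂ N(l))² (C₁ T)⁴ ≤ (C T N(l))⁴`, `C = C₁ C₂`, similarly for `z'.2`.
`Del z' = u'⁶ Del (A₁, B₁) ≠ 0`. Let `P` be a nonzero prime ideal, `v = v_P(u') = 2 v_P(c) + v_P(l) ≤
2 C₂ + 1` (`tc_mult_le`). `KMin k z'` with `k = k₁ + 3 (2 ⌈C₂⌉₊ + 1)` (`v_P(z'.1) = 2 v + v_P(A₁)`,
`v_P(z'.2) = 3 v + v_P(B₁)`, one of `v_P(A₁), v_P(B₁)` is `< k₁`; also if `A₁ = 0` or `B₁ = 0`). Let `M`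
be the product of `M₁` and all the ideals `≠ ⊥` of norm `≤ C₂`. If `¬ M ≤ P` then `P` does not divide
`c`, so `v = v_P(l) ∈ {0, 1}`, and not both `A₁ ∈ P ^ 2`, `B₁ ∈ P ^ 3`, so not both `z'.1 ∈ P ^ 4`,
`z'.2 ∈ P ^ 6`. If `l ≤ P` then `u' ∈ P`, so `z'.1 ∈ P`, `Del z' ∈ P`. -/
theorem tc_twist_model (K : Type*) [Field K] [NumberField K] :
    ∃ (k : ℕ) (C : ℝ) (M : Ideal (𝓞 K)), 1 ≤ C ∧ M ≠ ⊥ ∧ ∀ T : ℝ, 1 ≤ T → ∀ z : 𝓞 K × 𝓞 K,
      InBox T z → Del z ≠ 0 → ∀ t : K, t ≠ 0 →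
      ∃ (ρ : K) (z' : 𝓞 K × 𝓞 K) (l : Ideal (𝓞 K)), ρ ≠ 0 ∧
        t ^ 2 * (z.1 : K) = ρ ^ 4 * (z'.1 : K) ∧ t ^ 3 * (z.2 : K) = ρ ^ 6 * (z'.2 : K) ∧
        l ≠ ⊥ ∧ (∀ P : Ideal (𝓞 K), P.IsPrime → P ≠ ⊥ → ¬ l ≤ P ^ 2) ∧
        InBox (C * T * (Ideal.absNorm l : ℝ)) z' ∧ Del z' ≠ 0 ∧ KMin k z' ∧
        ∀ P : Ideal (𝓞 K), P.IsPrime → P ≠ ⊥ → ¬ M ≤ P →
          ¬ (z'.1 ∈ P ^ 4 ∧ z'.2 ∈ P ^ 6) ∧ (l ≤ P → z'.1 ∈ P ∧ Del z' ∈ P) := by
  classical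
  obtain ⟨k₁, C₁, M₁, hC₁, hM₁, H₁⟩ := tc_near_twist K
  obtain ⟨C₂, hC₂, H₂⟩ := tc_twist_element K
  have hfin : {I : Ideal (𝓞 K) | Ideal.absNorm I ≤ ⌊C₂⌋₊}.Finite :=
    Ideal.finite_setOfPred_absNorm_le ⌊C₂⌋₊
  let S : Finset (Ideal (𝓞 K)) := hfin.toFinset.filter (fun I => I ≠ ⊥)
  have hS0 : (∏ I ∈ S, I) ≠ 0 := by
    rw [Finset.prod_ne_zero_iff]
    intro I hI
    exact (Finset.mem_filter.1 hI).2
  refine ⟨k₁ + 3 * (2 * ⌈C₂⌉₊ + 1), C₁ * C₂, M₁ * ∏ I ∈ S, I, one_le_mul_of_one_le_of_one_le hC₁ hC₂,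
    mul_ne_zero hM₁ hS0, ?_⟩
  intro T hT z hz hD t ht
  obtain ⟨ρ₀, z₁, hρ₀, hA, hB, hbox, hD₁, hk₁, hm₁⟩ := H₁ T hT z hz hD
  obtain ⟨a, b, hb, hab⟩ := IsFractionRing.div_surjective (A := 𝓞 K) (t * ρ₀)
  have hb0 : b ≠ 0 := nonZeroDivisors.ne_zero hb
  have hbK : (b : K) ≠ 0 := by
    rw [Ne, RingOfIntegers.coe_eq_zero_iff]
    exact hb0
  have ha0 : a ≠ 0 := by
    rintro rfl
    rw [map_zero, zero_div] at hab
    exact mul_ne_zero ht hρ₀ hab.symm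
  have hu0 : a * b ≠ 0 := mul_ne_zero ha0 hb0
  have hspan : Ideal.span {a * b} ≠ (⊥ : Ideal (𝓞 K)) := by
    rw [Ne, Ideal.span_singleton_eq_bot]
    exact hu0
  obtain ⟨j, l, hjl, hj, hl, hsq⟩ := tc_sq_dec hspan
  obtain ⟨y, u, c, hy, hu, hule, hc, hcC, hcl⟩ := H₂ (a * b) j l hu0 hjl
  have hu₀ : (u : K) = (t * ρ₀) * ((b : K) * y) ^ 2 := by
    have e1 : ((a * b : 𝓞 K) : K) = (a : K) * (b : K) := rfl
    have e2 : (a : K) / (b : K) = t * ρ₀ := hab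
    rw [hu, e1, ← e2]
    field_simp
  have hune : u ≠ 0 := by
    intro h0
    have h1 : (u : K) ≠ 0 := by
      rw [hu₀]
      exact mul_ne_zero (mul_ne_zero ht hρ₀) (pow_ne_zero 2 (mul_ne_zero hbK hy))
    apply h1
    rw [h0]
    exact map_zero _
  have hl1 : 1 ≤ (Ideal.absNorm l : ℝ) := by
    exact_mod_cast Nat.one_le_iff_ne_zero.2 (fun h => hl (Ideal.absNorm_eq_zero_iff.1 h))
  have hl0 : 0 ≤ (Ideal.absNorm l : ℝ) := zero_le_one.trans hl1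
  have hDel : Del (u ^ 2 * z₁.1, u ^ 3 * z₁.2) = u ^ 6 * Del z₁ := by
    simp only [Del]
    ring
  have hvC : ∀ P : Ideal (𝓞 K), P.IsPrime → P ≠ ⊥ → ∀ n : ℕ, u ∈ P ^ (2 * n + 2) →
      c ≤ P ^ (n + 1) := by
    intro P hP hP0 n hn
    rw [← Ideal.dvd_iff_le]
    refine twm_pow_dvd hP hP0 (hsq P hP hP0) n c ?_
    rw [← hcl, Ideal.dvd_span_singleton]
    exact hn
  refine ⟨((b : K) * y)⁻¹, (u ^ 2 * z₁.1, u ^ 3 * z₁.2), l,
    inv_ne_zero (mul_ne_zero hbK hy), ?_, ?_, hl, hsq, ⟨?_, ?_⟩, ?_, ?_, ?_⟩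
  · have e1 : ((u ^ 2 * z₁.1 : 𝓞 K) : K) = (u : K) ^ 2 * (z₁.1 : K) := rfl
    show t ^ 2 * (z.1 : K) = (((b : K) * y)⁻¹) ^ 4 * ((u ^ 2 * z₁.1 : 𝓞 K) : K)
    rw [e1, hA, hu₀]
    field_simp
  · have e1 : ((u ^ 3 * z₁.2 : 𝓞 K) : K) = (u : K) ^ 3 * (z₁.2 : K) := rfl
    show t ^ 3 * (z.2 : K) = (((b : K) * y)⁻¹) ^ 6 * ((u ^ 3 * z₁.2 : 𝓞 K) : K)
    rw [e1, hB, hu₀]
    field_simp
  · intro σ
    have h1 : ‖σ (u : K)‖ ^ 2 ≤ (C₂ * (Ideal.absNorm l : ℝ)) ^ 4 :=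
      (pow_le_pow_left₀ (norm_nonneg _) (hule σ) 2).trans
        (pow_le_pow_right₀ (one_le_mul_of_one_le_of_one_le hC₂ hl1) (by norm_num))
    have h2 : ‖σ (z₁.1 : K)‖ ≤ (C₁ * T) ^ 4 := hbox.1 σ
    show ‖σ ((u ^ 2 * z₁.1 : 𝓞 K) : K)‖ ≤ (C₁ * C₂ * T * (Ideal.absNorm l : ℝ)) ^ 4
    have e1 : ((u ^ 2 * z₁.1 : 𝓞 K) : K) = (u : K) ^ 2 * (z₁.1 : K) := rfl
    rw [e1, map_mul, map_pow, norm_mul, norm_pow]
    calc ‖σ (u : K)‖ ^ 2 * ‖σ (z₁.1 : K)‖ ≤ (C₂ * (Ideal.absNorm l : ℝ)) ^ 4 * (C₁ * T) ^ 4 :=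
          mul_le_mul h1 h2 (norm_nonneg _) (by positivity)
      _ = _ := by ring
  · intro σ
    have h1 : ‖σ (u : K)‖ ^ 3 ≤ (C₂ * (Ideal.absNorm l : ℝ)) ^ 6 :=
      (pow_le_pow_left₀ (norm_nonneg _) (hule σ) 3).trans
        (pow_le_pow_right₀ (one_le_mul_of_one_le_of_one_le hC₂ hl1) (by norm_num))
    have h2 : ‖σ (z₁.2 : K)‖ ≤ (C₁ * T) ^ 6 := hbox.2 σ
    show ‖σ ((u ^ 3 * z₁.2 : 𝓞 K) : K)‖ ≤ (C₁ * C₂ * T * (Ideal.absNorm l : ℝ)) ^ 6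
    have e1 : ((u ^ 3 * z₁.2 : 𝓞 K) : K) = (u : K) ^ 3 * (z₁.2 : K) := rfl
    rw [e1, map_mul, map_pow, norm_mul, norm_pow]
    calc ‖σ (u : K)‖ ^ 3 * ‖σ (z₁.2 : K)‖ ≤ (C₂ * (Ideal.absNorm l : ℝ)) ^ 6 * (C₁ * T) ^ 6 :=
          mul_le_mul h1 h2 (norm_nonneg _) (by positivity)
      _ = _ := by ring
  · rw [hDel]
    exact mul_ne_zero (pow_ne_zero 6 hune) hD₁
  · rintro P hP hP0 ⟨hAP, hBP⟩
    have hv : u ∉ P ^ (2 * ⌈C₂⌉₊ + 1 + 1) := by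
      intro h
      have h1 := tc_mult_le hc hP hP0 hcC (hvC P hP hP0 _ h)
      have h2 := Nat.le_ceil C₂
      push_cast at h1
      linarith
    refine hk₁ P hP hP0 ⟨twm_cancel hP hP0 hune hv ?_ hAP, twm_cancel hP hP0 hune hv ?_ hBP⟩
    · omega
    · omega
  · intro P hP hP0 hMP
    have hM1P : ¬ M₁ ≤ P := fun h => hMP (Ideal.mul_le_left.trans h)
    have hcP : ¬ c ≤ P := by
      intro h
      apply hMP
      have hcS : c ∈ S := by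
        rw [Finset.mem_filter, Set.Finite.mem_toFinset]
        exact ⟨Nat.le_floor hcC, hc⟩
      have h1 : (∏ I ∈ S, I) ≤ c := Ideal.dvd_iff_le.1 (Finset.dvd_prod_of_mem _ hcS)
      exact Ideal.mul_le_right.trans (h1.trans h)
    have hv : u ∉ P ^ (1 + 1) := by
      intro h
      have h1 := hvC P hP hP0 0 h
      rw [zero_add, pow_one] at h1
      exact hcP h1
    refine ⟨fun h => hM1P (hm₁ P hP hP0 (twm_cancel hP hP0 hune hv ?_ h.1)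
      (twm_cancel hP hP0 hune hv ?_ h.2)), fun h => ?_⟩
    · norm_num
    · norm_num
    · have huP : u ∈ P := by
        have h1 : Ideal.span {u} ≤ P := by
          rw [hcl]
          exact Ideal.mul_le_right.trans h
        exact h1 (Ideal.mem_span_singleton_self u)
      refine ⟨P.mul_mem_right _ (P.pow_mem_of_mem huP 2 (by norm_num)), ?_⟩
      rw [hDel]
      exact P.mul_mem_right _ (P.pow_mem_of_mem huP 6 (by norm_num))

end Pool.Agent.Lib.MP_4a0cc8_ntC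
end
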