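import Pool.Agent.Lib.MP_4a0cc8_ntC.IrrB
import Pool.Agent.Lib.MP_4a0cc8_ntC.Red
import Pool.Agent.Lib.FMK60.LargeK
import Pool.Agent.Lib.MP_4a0cc8_ntC.LocDefs
import Pool.Agent.Lib.FM60.OfDvd
import Pool.Agent.Lib.FMK60.MainK
import Pool.Agent.Lib.MP_4a0cc8_ntC.TwModel
import Pool.Agent.Lib.MP_4a0cc8_ntC.CongT

section

/-!
MP_4a0cc8_nt (C): the number of nearly minimal pairs supported on `r`.
-/

set_option autoImplicit false

namespace Pool.Agent.Lib.MP_4a0cc8_ntC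

open NumberField Module
open Pool.Agent.Lib.FMK60 (InBox Del Hle)

/-- **Pairs supported on `r`.** Proof. Split `S` into the pairs with and without a root of `f` in `K`
(`Finset.filter`), `tc_card_irr_le`, `tc_card_red_le`, `C` the maximum or sum of the constants. -/
theorem tc_card_supported_le (K : Type*) [Field K] [NumberField K] (k : ℕ) (ε : ℝ) (hε : 0 < ε) :
    ∃ C : ℝ, 0 < C ∧ ∀ T : ℝ, 1 ≤ T → ∀ r : Ideal (𝓞 K), r ≠ ⊥ → ∀ S : Finset (𝓞 K × 𝓞 K),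
      (∀ z ∈ S, InBox T z ∧ KMin k z ∧ Supp r (Del z)) →
      (S.card : ℝ) ≤ C * (Ideal.absNorm r : ℝ) ^ C * T ^ ε := by
  classical
  obtain ⟨C₁, hC₁, h1⟩ := tc_card_irr_le K k ε hε
  obtain ⟨C₂, hC₂, h2⟩ := tc_card_red_le K ε hε
  refine ⟨C₁ + C₂, by positivity, fun T hT r hr S hS => ?_⟩
  have hN : (1 : ℝ) ≤ (Ideal.absNorm r : ℝ) := by
    have : Ideal.absNorm r ≠ 0 := by rwa [Ne, Ideal.absNorm_eq_zero_iff]
    exact_mod_cast Nat.pos_of_ne_zero this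
  have hN0 : (0 : ℝ) < (Ideal.absNorm r : ℝ) := by linarith
  have hT0 : (0 : ℝ) < T := by linarith
  have hcard := Finset.card_filter_add_card_filter_not (s := S)
    (fun z : 𝓞 K × 𝓞 K => ∀ x : K, x ^ 3 + (z.1 : K) * x + (z.2 : K) ≠ 0)
  have h3 := h1 T hT r hr
    (S.filter fun z : 𝓞 K × 𝓞 K => ∀ x : K, x ^ 3 + (z.1 : K) * x + (z.2 : K) ≠ 0)
    (fun z hz => by
      obtain ⟨hzS, hz2⟩ := Finset.mem_filter.1 hz
      obtain ⟨a, b, c⟩ := hS z hzS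
      exact ⟨a, b, c, hz2⟩)
  have h4 := h2 T hT r hr
    (S.filter fun z : 𝓞 K × 𝓞 K => ¬ ∀ x : K, x ^ 3 + (z.1 : K) * x + (z.2 : K) ≠ 0)
    (fun z hz => by
      obtain ⟨hzS, hz2⟩ := Finset.mem_filter.1 hz
      obtain ⟨a, b, c⟩ := hS z hzS
      push Not at hz2
      exact ⟨a, c, hz2⟩)
  have h5 : (Ideal.absNorm r : ℝ) ^ C₁ ≤ (Ideal.absNorm r : ℝ) ^ (C₁ + C₂) :=
    Real.rpow_le_rpow_of_exponent_le hN (by linarith)
  have h6 : (Ideal.absNorm r : ℝ) ^ C₂ ≤ (Ideal.absNorm r : ℝ) ^ (C₁ + C₂) :=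
    Real.rpow_le_rpow_of_exponent_le hN (by linarith)
  have hTε : 0 < T ^ ε := Real.rpow_pos_of_pos hT0 _
  rw [← hcard]
  push_cast
  calc _ ≤ C₁ * (Ideal.absNorm r : ℝ) ^ C₁ * T ^ ε + C₂ * (Ideal.absNorm r : ℝ) ^ C₂ * T ^ ε :=
        add_le_add h3 h4
    _ ≤ C₁ * (Ideal.absNorm r : ℝ) ^ (C₁ + C₂) * T ^ ε
        + C₂ * (Ideal.absNorm r : ℝ) ^ (C₁ + C₂) * T ^ ε := by gcongr
    _ = (C₁ + C₂) * (Ideal.absNorm r : ℝ) ^ (C₁ + C₂) * T ^ ε := by ring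

end Pool.Agent.Lib.MP_4a0cc8_ntC
end

section

/-!
MP_4a0cc8_nt (C): the number of nearly minimal pairs such that `D` is supported on `b` and on primes
dividing it to a high power.
-/

set_option autoImplicit false

namespace Pool.Agent.Lib.MP_4a0cc8_ntC

open NumberField Module
open Pool.Agent.Lib.FMK60 (InBox Del Hle)

private theorem count_del {K : Type*} [Field K] [NumberField K] {T : ℝ}
    {z : 𝓞 K × 𝓞 K} (hz : InBox T z) : Hle ((Del z : 𝓞 K) : K) (31 * T ^ 12) := by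
  have e1 : ((Del z : 𝓞 K) : K) = ((4 : ℕ) : K) * (z.1 : K) ^ 3 +
      ((27 : ℕ) : K) * (z.2 : K) ^ 2 := by
    unfold Del
    push_cast
    rfl
  rw [e1]
  have h1 := ((Hle.natCast (K := K) 4).mul (hz.1.pow 3) (by positivity)).add
    ((Hle.natCast (K := K) 27).mul (hz.2.pow 2) (by positivity))
  refine h1.mono (le_of_eq ?_)
  push_cast
  ring

open scoped Classical in
/-- the product of the prime ideals containing `x` and not containing `b` -/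
private noncomputable def cg {K : Type*} [Field K] [NumberField K] (b : Ideal (𝓞 K)) (x : 𝓞 K) :
    Ideal (𝓞 K) :=
  ∏ P ∈ (UniqueFactorizationMonoid.normalizedFactors (Ideal.span {x})).toFinset.filter
    (fun P => ¬ b ≤ P), P

private theorem cg_prop {K : Type*} [Field K] [NumberField K] {b : Ideal (𝓞 K)} {x : 𝓞 K}
    (hx : x ≠ 0) (N : ℕ) (h : ∀ P : Ideal (𝓞 K), P.IsPrime → x ∈ P → b ≤ P ∨ x ∈ P ^ N) :
    cg b x ≠ ⊥ ∧ Ideal.absNorm (cg b x) ^ N ≤ Ideal.absNorm (Ideal.span {x}) ∧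
      Supp (b * cg b x) x := by
  classical
  have hspan : Ideal.span {x} ≠ 0 := by
    rw [Ne, Ideal.zero_eq_bot, Ideal.span_singleton_eq_bot]
    exact hx
  unfold cg
  set F := (UniqueFactorizationMonoid.normalizedFactors (Ideal.span {x})).toFinset.filter
    (fun P => ¬ b ≤ P) with hF
  have hFp : ∀ P ∈ F, Prime P := fun P hP =>
    UniqueFactorizationMonoid.prime_of_normalized_factor P
      (Multiset.mem_toFinset.1 (Finset.mem_filter.1 hP).1)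
  have hFd : ∀ P ∈ F, P ∣ Ideal.span {x} := fun P hP =>
    UniqueFactorizationMonoid.dvd_of_mem_normalizedFactors
      (Multiset.mem_toFinset.1 (Finset.mem_filter.1 hP).1)
  have hFI : ∀ P ∈ F, P.IsPrime := fun P hP => Ideal.isPrime_of_prime (hFp P hP)
  have hFD : ∀ P ∈ F, x ∈ P := fun P hP => Ideal.dvd_span_singleton.1 (hFd P hP)
  have hFN : ∀ P ∈ F, x ∈ P ^ N := fun P hP =>
    (h P (hFI P hP) (hFD P hP)).resolve_left (Finset.mem_filter.1 hP).2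
  have hne : (∏ P ∈ F, P) ≠ 0 := Finset.prod_ne_zero_iff.2 fun P hP => (hFp P hP).ne_zero
  refine ⟨hne, ?_, hx, ?_⟩
  · have hcop : ((F : Set (Ideal (𝓞 K))).Pairwise
        (Function.onFun IsCoprime (fun P => P ^ N))) := by
      intro P hP Q hQ hPQ
      apply IsCoprime.pow
      have hPm := (hFI P hP).isMaximal (hFp P hP).ne_zero
      have hQm := (hFI Q hQ).isMaximal (hFp Q hQ).ne_zero
      rw [Ideal.isCoprime_iff_sup_eq]
      exact hPm.coprime_of_ne hQm hPQ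
    have h1 : (∏ P ∈ F, P ^ N) ∣ Ideal.span {x} :=
      Finset.prod_dvd_of_coprime hcop fun P hP => Ideal.dvd_span_singleton.2 (hFN P hP)
    rw [Finset.prod_pow] at h1
    rw [← map_pow]
    refine Nat.le_of_dvd ?_ (map_dvd Ideal.absNorm h1)
    exact Nat.pos_of_ne_zero (by rw [Ne, Ideal.absNorm_eq_zero_iff]; exact hspan)
  · intro P hP hxP
    by_cases hb : b ≤ P
    · exact Ideal.mul_le_left.trans hb
    · have hP0 : P ≠ ⊥ := by
        rintro rfl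
        exact hx (by simpa using hxP)
      have hPF : P ∈ F := by
        rw [hF, Finset.mem_filter, Multiset.mem_toFinset]
        refine ⟨?_, hb⟩
        have hirr : Irreducible P := (Ideal.prime_of_isPrime hP0 hP).irreducible
        obtain ⟨Q, hQ, hPQ⟩ := UniqueFactorizationMonoid.exists_mem_normalizedFactors_of_dvd hspan
          hirr (Ideal.dvd_span_singleton.2 hxP)
        rw [associated_iff_eq] at hPQ
        rw [hPQ]
        exact hQ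
      exact Ideal.mul_le_right.trans (Ideal.le_of_dvd (Finset.dvd_prod_of_mem (fun P => P) hPF))

/-- **Counting theorem (C).**

Proof. Let `d = finrank ℚ K`, `C₁` the constant of `tc_card_supported_le` for `ε / 2`, `C₂` that of
`card_ideal_le` (FMK60/IdealCount.lean: at most `C₂ X` ideals of norm `≤ X`), and
`N = ⌈24 d (C₁ + 1) / ε⌉₊ + 1`. For `z ∈ S` let `g z` be the product of the prime ideals `P` with
`Del z ∈ P` and `¬ b ≤ P` (a finite set). Distinct primes, all with `P ^ N ∣ span {Del z}`, so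
`(g z) ^ N ∣ span {Del z}`, `N(g z) ^ N ≤ N(Del z) ≤ (31 T ^ 12) ^ d` (`Hle.absNorm_le`), so
`N(g z) ≤ X := (31 T ^ 12) ^ (d / N)`. Every prime containing `Del z` divides `b * g z`:
`Supp (b * g z) (Del z)`. So for each `g` in the image of `g` (at most `C₂ X` elements), the fibre has
at most `C₁ (N(b) N(g))^C₁ T^(ε/2) ≤ C₁ N(b)^C₁ X^C₁ T^(ε/2)` elements. The sum is at most
`C₁ C₂ N(b)^C₁ X^(C₁ + 1) T^(ε/2)` and `X^(C₁+1) ≤ 31^(d (C₁ + 1)) T^(12 d (C₁ + 1)/N) ≤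
31^(d (C₁+1)) T^(ε/2)`. -/
theorem tc_count (K : Type*) [Field K] [NumberField K] (k : ℕ) (ε : ℝ) (hε : 0 < ε) :
    ∃ (N : ℕ) (C : ℝ), 0 < C ∧ ∀ T : ℝ, 1 ≤ T → ∀ b : Ideal (𝓞 K), b ≠ ⊥ →
      ∀ S : Finset (𝓞 K × 𝓞 K),
      (∀ z ∈ S, InBox T z ∧ Del z ≠ 0 ∧ KMin k z ∧
        ∀ P : Ideal (𝓞 K), P.IsPrime → Del z ∈ P → b ≤ P ∨ Del z ∈ P ^ N) →
      (S.card : ℝ) ≤ C * (Ideal.absNorm b : ℝ) ^ C * T ^ ε := by
  classical
  obtain ⟨C₁, hC₁, h₁⟩ := tc_card_supported_le K k (ε / 2) (by positivity)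
  obtain ⟨C₂, hC₂, h₂⟩ := Pool.Agent.Lib.FMK60.card_ideal_le K
  obtain ⟨d, hd⟩ : ∃ d, d = finrank ℚ K := ⟨_, rfl⟩
  have hd0 : 0 < d := by rw [hd]; exact finrank_pos
  have hdR : (0 : ℝ) < d := by exact_mod_cast hd0
  obtain ⟨N, hN⟩ : ∃ N, N = ⌈24 * d * (C₁ + 1) / ε⌉₊ + 1 := ⟨_, rfl⟩
  have hN0 : 0 < N := by omega
  have hNR : (0 : ℝ) < N := by exact_mod_cast hN0
  have hNε : 24 * d * (C₁ + 1) / ε ≤ N := by
    rw [hN]
    push_cast
    exact (Nat.le_ceil _).trans (by linarith)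
  refine ⟨N, C₁ + C₁ * C₂ * 31 ^ (d * (C₁ + 1)), by positivity, fun T hT b hb S hS => ?_⟩
  have hT0 : (0 : ℝ) < T := by linarith
  obtain ⟨Y, hY⟩ : ∃ Y : ℝ, Y = (31 * T ^ 12) ^ d := ⟨_, rfl⟩
  have h31 : (1 : ℝ) ≤ 31 * T ^ 12 := by
    have := one_le_pow₀ hT (n := 12)
    linarith
  have hY1 : 1 ≤ Y := by rw [hY]; exact one_le_pow₀ h31
  obtain ⟨X, hX⟩ : ∃ X : ℝ, X = Y ^ ((N : ℝ)⁻¹) := ⟨_, rfl⟩
  have hX1 : 1 ≤ X := by rw [hX]; exact Real.one_le_rpow hY1 (by positivity)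
  have hXN : X ^ N = Y := by
    rw [hX, Real.rpow_inv_natCast_pow (by linarith) hN0.ne']
  have hb1 : (1 : ℝ) ≤ Ideal.absNorm b := by
    have : 1 ≤ Ideal.absNorm b :=
      Nat.one_le_iff_ne_zero.2 (by rw [Ne, Ideal.absNorm_eq_zero_iff]; exact hb)
    exact_mod_cast this
  have hprop : ∀ z ∈ S, cg b (Del z) ≠ ⊥ ∧ (Ideal.absNorm (cg b (Del z)) : ℝ) ≤ X ∧
      Supp (b * cg b (Del z)) (Del z) := by
    intro z hz
    obtain ⟨hz1, hz2, hz3, hz4⟩ := hS z hz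
    obtain ⟨p1, p2, p3⟩ := cg_prop (b := b) hz2 N hz4
    refine ⟨p1, ?_, p3⟩
    have q1 := (count_del hz1).absNorm_le
    rw [← hd, ← hY, ← hXN] at q1
    have q2 : ((Ideal.absNorm (cg b (Del z)) : ℝ)) ^ N ≤ X ^ N := by
      refine le_trans ?_ q1
      exact_mod_cast p2
    exact le_of_pow_le_pow_left₀ hN0.ne' (by linarith) q2
  set I := S.image (fun z => cg b (Del z)) with hI
  have hIc : (I.card : ℝ) ≤ C₂ * X := by
    refine h₂ X hX1 I fun J hJ => ?_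
    rw [hI, Finset.mem_image] at hJ
    obtain ⟨z, hz, rfl⟩ := hJ
    exact ⟨(hprop z hz).1, (hprop z hz).2.1⟩
  have hfib : ∀ J ∈ I, ((S.filter (fun z => cg b (Del z) = J)).card : ℝ) ≤
      C₁ * ((Ideal.absNorm b : ℝ) ^ C₁ * X ^ C₁) * T ^ (ε / 2) := by
    intro J hJ
    rw [hI, Finset.mem_image] at hJ
    obtain ⟨w, hw, hwJ⟩ := hJ
    have hJ0 : J ≠ ⊥ := by rw [← hwJ]; exact (hprop w hw).1
    have hJX : (Ideal.absNorm J : ℝ) ≤ X := by rw [← hwJ]; exact (hprop w hw).2.1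
    have h3 := h₁ T hT (b * J) (mul_ne_zero hb hJ0) (S.filter (fun z => cg b (Del z) = J)) (by
      intro z hz
      rw [Finset.mem_filter] at hz
      obtain ⟨hz1, hz2⟩ := hz
      refine ⟨(hS z hz1).1, (hS z hz1).2.2.1, ?_⟩
      rw [← hz2]
      exact (hprop z hz1).2.2)
    refine h3.trans ?_
    refine mul_le_mul_of_nonneg_right ?_ (Real.rpow_nonneg hT0.le _)
    refine mul_le_mul_of_nonneg_left ?_ hC₁.le
    rw [map_mul, Nat.cast_mul, Real.mul_rpow (by linarith) (Nat.cast_nonneg _)]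
    refine mul_le_mul_of_nonneg_left ?_ (Real.rpow_nonneg (by linarith) _)
    exact Real.rpow_le_rpow (Nat.cast_nonneg _) hJX hC₁.le
  have hcard : (S.card : ℝ) = ∑ J ∈ I, ((S.filter (fun z => cg b (Del z) = J)).card : ℝ) := by
    rw [← Nat.cast_sum]
    congr 1
    exact Finset.card_eq_sum_card_image _ _
  have hXp : X * X ^ C₁ ≤ 31 ^ (d * (C₁ + 1)) * T ^ (ε / 2) := by
    have e1 : X * X ^ C₁ = X ^ (C₁ + 1) := by
      rw [Real.rpow_add (by linarith), Real.rpow_one, mul_comm]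
    have e2 : X ^ (C₁ + 1) = (31 : ℝ) ^ (d * (C₁ + 1) / N) * T ^ (12 * (d * (C₁ + 1)) / N) := by
      rw [hX, hY, ← Real.rpow_natCast (31 * T ^ 12) d, ← Real.rpow_mul (by positivity),
        ← Real.rpow_mul (by positivity), Real.mul_rpow (by norm_num) (by positivity),
        ← Real.rpow_natCast T 12, ← Real.rpow_mul hT0.le]
      congr 2
      · field_simp
      · push_cast
        field_simp
    rw [e1, e2]
    refine mul_le_mul ?_ ?_ (Real.rpow_nonneg hT0.le _) (Real.rpow_nonneg (by norm_num) _)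
    · refine Real.rpow_le_rpow_of_exponent_le (by norm_num) ?_
      have hN1 : (1 : ℝ) ≤ N := by exact_mod_cast hN0
      exact div_le_self (by positivity) hN1
    · refine Real.rpow_le_rpow_of_exponent_le hT ?_
      rw [div_le_iff₀ hNR]
      rw [div_le_iff₀ hε] at hNε
      nlinarith
  have hTT : T ^ (ε / 2) * T ^ (ε / 2) = T ^ ε := by
    rw [← Real.rpow_add hT0]
    congr 1
    ring
  have hTp : 0 < T ^ (ε / 2) := Real.rpow_pos_of_pos hT0 _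
  have hbp : 0 < (Ideal.absNorm b : ℝ) ^ C₁ := Real.rpow_pos_of_pos (by linarith) _
  rw [hcard]
  calc ∑ J ∈ I, ((S.filter (fun z => cg b (Del z) = J)).card : ℝ)
      ≤ ∑ J ∈ I, C₁ * ((Ideal.absNorm b : ℝ) ^ C₁ * X ^ C₁) * T ^ (ε / 2) :=
        Finset.sum_le_sum hfib
    _ = (I.card : ℝ) * (C₁ * ((Ideal.absNorm b : ℝ) ^ C₁ * X ^ C₁) * T ^ (ε / 2)) := by
        rw [Finset.sum_const, nsmul_eq_mul]
    _ ≤ (C₂ * X) * (C₁ * ((Ideal.absNorm b : ℝ) ^ C₁ * X ^ C₁) * T ^ (ε / 2)) := by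
        refine mul_le_mul_of_nonneg_right hIc ?_
        have : 0 ≤ X ^ C₁ := Real.rpow_nonneg (by linarith) _
        positivity
    _ = (C₁ * C₂ * (Ideal.absNorm b : ℝ) ^ C₁ * T ^ (ε / 2)) * (X * X ^ C₁) := by ring
    _ ≤ (C₁ * C₂ * (Ideal.absNorm b : ℝ) ^ C₁ * T ^ (ε / 2)) *
        (31 ^ (d * (C₁ + 1)) * T ^ (ε / 2)) :=
        mul_le_mul_of_nonneg_left hXp (by positivity)
    _ = (C₁ * C₂ * 31 ^ (d * (C₁ + 1))) * (Ideal.absNorm b : ℝ) ^ C₁ * T ^ ε := by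
        rw [← hTT]; ring
    _ ≤ (C₁ + C₁ * C₂ * 31 ^ (d * (C₁ + 1))) *
        (Ideal.absNorm b : ℝ) ^ (C₁ + C₁ * C₂ * 31 ^ (d * (C₁ + 1))) * T ^ ε := by
        refine mul_le_mul_of_nonneg_right ?_ (Real.rpow_nonneg hT0.le _)
        refine mul_le_mul (by linarith) ?_ hbp.le (by positivity)
        refine Real.rpow_le_rpow_of_exponent_le hb1 ?_
        have : 0 ≤ C₁ * C₂ * (31 : ℝ) ^ (d * (C₁ + 1)) := by positivity
        linarith

end Pool.Agent.Lib.MP_4a0cc8_ntC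
end

section

/-!
MP_4a0cc8_nt: the support of the discriminant of a congruent curve.
-/

set_option autoImplicit false

namespace Pool.Agent.Lib.MP_4a0cc8_ntC

open NumberField Module
open Pool.Agent.Lib.FMK60 (InBox Del Hle curK)
open Pool.Agent.Lib.FM60 (Congruent)

/-- The reduction of a congruent curve outside `b`.

Proof. `P ≠ ⊥` since `Del z ≠ 0`. If `p ∉ P` use `Loc1` (`5 ≤ 8 ≤ p ^ k`), `p ≤ p ^ k` and
`P ^ (p ^ k) ≤ P ^ p`. If `p ∈ P` use `Loc2` with `Congruent.of_dvd` (`p ∣ p ^ k`, FM60/OfDvd.lean). -/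
theorem tc_reduction {K : Type*} [Field K] [NumberField K] {Ω : Type*} [Field Ω]
    [DecidableEq Ω] [CharZero Ω] [Algebra K Ω] [IsAlgClosed Ω] (hL1 : Loc1 K Ω) (hL2 : Loc2 K Ω)
    {z w : 𝓞 K × 𝓞 K} (hz : Del z ≠ 0) (hw : Del w ≠ 0) {p k : ℕ} (hp : p.Prime) (hk : 0 < k)
    (hq : 8 ≤ p ^ k) (hc : Congruent Ω (p ^ k) (curK z.1 z.2) (curK w.1 w.2))
    {P : Ideal (𝓞 K)} (hP : P.IsPrime) (h6 : (6 : 𝓞 K) ∉ P)
    (hram : ∀ l : ℕ, l.Prime → (l : 𝓞 K) ∈ P → (l : 𝓞 K) ∉ P ^ 2) (hw' : Del w ∉ P)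
    (hmin : ¬ (z.1 ∈ P ^ 4 ∧ z.2 ∈ P ^ 6)) (hp' : (p : 𝓞 K) ∈ P → 17 ≤ p)
    (hD : Del z ∈ P) :
    z.1 ∉ P ∧ Del z ∈ P ^ p ∧ ((p : 𝓞 K) ∉ P → Del z ∈ P ^ (p ^ k)) := by
  have hP0 : P ≠ ⊥ := by
    rintro rfl
    exact hz (by simpa using hD)
  have hle : p ≤ p ^ k := by
    calc p = p ^ 1 := (pow_one p).symm
      _ ≤ p ^ k := Nat.pow_le_pow_right hp.pos hk
  by_cases hpP : (p : 𝓞 K) ∈ P
  · have h17 := hp' hpP
    have hp2 := hram p hp hpP
    have h1 := hL2 p hp h17 z.1 z.2 w.1 w.2 hz hw P hP hP0 hpP hp2 hw' hmin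
      (hc.of_dvd (dvd_pow_self p hk.ne')) hD
    exact ⟨h1.1, h1.2, fun h => absurd hpP h⟩
  · have h1 := hL1 p k hp (by omega) z.1 z.2 w.1 w.2 hz hw P hP hP0 hpP h6 hram hw' hmin
      hc hD
    exact ⟨h1.1, Ideal.pow_le_pow_right hle h1.2, fun _ => h1.2⟩

/-- A high power of a prime ideal does not divide a discriminant of bounded size.

Proof. `2 ^ p ≤ N(P) ^ p = N(P ^ p) ≤ N(span {Del z}) ≤ (31 R ^ 12) ^ d` (`Hle.absNorm_le`, `hle_Del` in
FMK60/LargeK.lean or directly: `‖σ (4A³ + 27B²)‖ ≤ 4 R^12 + 27 R^12`), a contradiction. -/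
theorem tc_not_high {K : Type*} [Field K] [NumberField K] {z : 𝓞 K × 𝓞 K} {R : ℝ} (hR : 1 ≤ R)
    (hz : InBox R z) (hz0 : Del z ≠ 0) {p : ℕ} (hp : (31 * R ^ 12) ^ finrank ℚ K < 2 ^ p)
    {P : Ideal (𝓞 K)} (hP : P.IsPrime) (hP0 : P ≠ ⊥) : Del z ∉ P ^ p := by
  intro hmem
  have _ := hR
  have h1 : (Ideal.absNorm (Ideal.span {Del z}) : ℝ) ≤ (31 * R ^ 12) ^ finrank ℚ K :=
    (Pool.Agent.Lib.FMK60.LargeAux.hle_Del hz).absNorm_le
  have h2 : P ^ p ∣ Ideal.span {Del z} := by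
    rw [Ideal.dvd_iff_le, Ideal.span_singleton_le_iff_mem]
    exact hmem
  have h3 : Ideal.absNorm (P ^ p) ∣ Ideal.absNorm (Ideal.span {Del z}) := map_dvd _ h2
  have h4 : Ideal.absNorm (Ideal.span {Del z}) ≠ 0 := by
    intro h
    rw [Ideal.absNorm_eq_zero_iff, Ideal.span_singleton_eq_bot] at h
    exact hz0 h
  have h5 : Ideal.absNorm (P ^ p) ≤ Ideal.absNorm (Ideal.span {Del z}) :=
    Nat.le_of_dvd (Nat.pos_of_ne_zero h4) h3
  rw [map_pow] at h5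
  have h6 : 2 ≤ Ideal.absNorm P := by
    have h7 : Ideal.absNorm P ≠ 0 := fun h => hP0 (Ideal.absNorm_eq_zero_iff.1 h)
    have h8 : Ideal.absNorm P ≠ 1 := fun h => hP.ne_top (Ideal.absNorm_eq_one_iff.1 h)
    omega
  have h9 : 2 ^ p ≤ Ideal.absNorm (Ideal.span {Del z}) := (Nat.pow_le_pow_left h6 p).trans h5
  have h10 : (2 : ℝ) ^ p ≤ (Ideal.absNorm (Ideal.span {Del z}) : ℝ) := by exact_mod_cast h9
  linarith

/-- There is an ideal divisible by the bad primes: every `P` not dividing it does not contain `6` and is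
unramified over `ℚ`.

Proof. The product of `span {6}` and the finitely many bad primes (`finite_bad`, FMK60/BadK.lean). -/
theorem tc_bad_ideal (K : Type*) [Field K] [NumberField K] :
    ∃ M : Ideal (𝓞 K), M ≠ ⊥ ∧ ∀ P : Ideal (𝓞 K), P.IsPrime → P ≠ ⊥ → ¬ M ≤ P →
      (6 : 𝓞 K) ∉ P ∧ ∀ p : ℕ, p.Prime → (p : 𝓞 K) ∈ P → (p : 𝓞 K) ∉ P ^ 2 := by
  classical
  refine ⟨∏ l ∈ (Pool.Agent.Lib.FMK60.finite_bad K).toFinset, l.asIdeal, ?_, ?_⟩
  · rw [← Ideal.zero_eq_bot, Finset.prod_ne_zero_iff]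
    intro l _
    rw [Ideal.zero_eq_bot]
    exact l.ne_bot
  · intro P hP hP0 hM
    by_contra hbad
    apply hM
    have h1 : (⟨P, hP, hP0⟩ : IsDedekindDomain.HeightOneSpectrum (𝓞 K)) ∈
        (Pool.Agent.Lib.FMK60.finite_bad K).toFinset := by
      rw [Set.Finite.mem_toFinset]
      exact hbad
    have h2 := Finset.dvd_prod_of_mem
      (fun l : IsDedekindDomain.HeightOneSpectrum (𝓞 K) => l.asIdeal) h1
    exact Ideal.le_of_dvd h2

end Pool.Agent.Lib.MP_4a0cc8_ntC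
end

section

/-!
MP_4a0cc8_nt: the main theorem, from the local statements LOC1 and LOC2.
-/

set_option autoImplicit false

namespace Pool.Agent.Lib.MP_4a0cc8_ntC

open NumberField Module
open Pool.Agent.Lib.FMK60 (InBox Del Hle curK finite_box)
open Pool.Agent.Lib.FM60 (Congruent)

universe u

/-- the absolute norm of a nonzero ideal is at least `1` -/
theorem tc_one_le_norm {K : Type*} [Field K] [NumberField K] {I : Ideal (𝓞 K)} (hI : I ≠ ⊥) :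
    (1 : ℝ) ≤ (Ideal.absNorm I : ℝ) := by
  have h : Ideal.absNorm I ≠ 0 := fun h => hI (Ideal.absNorm_eq_zero_iff.1 h)
  exact_mod_cast Nat.one_le_iff_ne_zero.2 h

theorem tc_not_le_mul {R : Type*} [CommRing R] {I J P : Ideal R} (h : ¬ I * J ≤ P) :
    ¬ I ≤ P ∧ ¬ J ≤ P :=
  ⟨fun h1 => h (Ideal.mul_le_left.trans h1), fun h1 => h (Ideal.mul_le_right.trans h1)⟩

/-- the exponent bound -/
theorem tc_log_bound (d : ℕ) (C₁ : ℝ) (hC₁ : 1 ≤ C₁) :
    ∃ A : ℝ, 1 ≤ A ∧ ∀ T B : ℝ, 1 ≤ T → 1 ≤ B → ∃ P₀ : ℕ, 17 ≤ P₀ ∧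
      (P₀ : ℝ) ≤ A * (1 + Real.log T + Real.log B) ∧
      ∀ p : ℕ, P₀ < p → (31 * (C₁ * T * B) ^ 12) ^ d < (2 : ℝ) ^ p := by
  have hl2 : 0 < Real.log 2 := Real.log_pos (by norm_num)
  have hl31 : 0 < Real.log 31 := Real.log_pos (by norm_num)
  have hlC : 0 ≤ Real.log C₁ := Real.log_nonneg hC₁
  refine ⟨18 + d * (Real.log 31 + 12 * Real.log C₁ + 12) / Real.log 2, ?_, ?_⟩
  · have : 0 ≤ d * (Real.log 31 + 12 * Real.log C₁ + 12) / Real.log 2 := by positivity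
    linarith
  intro T B hT hB
  have hlT : 0 ≤ Real.log T := Real.log_nonneg hT
  have hlB : 0 ≤ Real.log B := Real.log_nonneg hB
  have hT0 : 0 < T := by linarith
  have hB0 : 0 < B := by linarith
  have hC0 : 0 < C₁ := by linarith
  set R := (31 * (C₁ * T * B) ^ 12) ^ d with hR
  have hRpos : 0 < R := by positivity
  have hlogR : Real.log R = d * (Real.log 31 + 12 * (Real.log C₁ + Real.log T + Real.log B)) := by
    rw [hR, Real.log_pow, Real.log_mul (by norm_num) (by positivity), Real.log_pow,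
      Real.log_mul (by positivity) hB0.ne', Real.log_mul hC0.ne' hT0.ne']
    push_cast
    ring
  have hlogR0 : 0 ≤ Real.log R := by rw [hlogR]; positivity
  refine ⟨17 + ⌈Real.log R / Real.log 2⌉₊, by omega, ?_, ?_⟩
  · push_cast
    have h1 : (⌈Real.log R / Real.log 2⌉₊ : ℝ) < Real.log R / Real.log 2 + 1 :=
      Nat.ceil_lt_add_one (by positivity)
    have h2 : Real.log R ≤ d * (Real.log 31 + 12 * Real.log C₁ + 12) *
        (1 + Real.log T + Real.log B) := by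
      rw [hlogR]
      have h3 : Real.log 31 + 12 * (Real.log C₁ + Real.log T + Real.log B) ≤
          (Real.log 31 + 12 * Real.log C₁ + 12) * (1 + Real.log T + Real.log B) := by
        nlinarith [mul_nonneg hl31.le hlT, mul_nonneg hl31.le hlB, mul_nonneg hlC hlT,
          mul_nonneg hlC hlB]
      calc (d : ℝ) * (Real.log 31 + 12 * (Real.log C₁ + Real.log T + Real.log B))
          ≤ d * ((Real.log 31 + 12 * Real.log C₁ + 12) * (1 + Real.log T + Real.log B)) :=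
            mul_le_mul_of_nonneg_left h3 (Nat.cast_nonneg _)
        _ = _ := by ring
    have h4 : Real.log R / Real.log 2 ≤ d * (Real.log 31 + 12 * Real.log C₁ + 12) / Real.log 2 *
        (1 + Real.log T + Real.log B) := by
      rw [div_mul_eq_mul_div]
      exact div_le_div_of_nonneg_right h2 hl2.le
    nlinarith
  · intro p hp
    have h1 : Real.log R / Real.log 2 < p := by
      have h2 := Nat.le_ceil (Real.log R / Real.log 2)
      have h3 : ((17 + ⌈Real.log R / Real.log 2⌉₊ : ℕ) : ℝ) < p := by exact_mod_cast hp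
      push_cast at h3
      linarith
    rw [div_lt_iff₀ hl2] at h1
    have h2 : Real.log R < Real.log ((2 : ℝ) ^ p) := h1.trans_eq (Real.log_pow 2 p).symm
    exact (Real.log_lt_log_iff hRpos (by positivity)).1 h2

open scoped Classical in
/-- the finite set of candidates -/
noncomputable def candSet {K : Type*} [Field K] [NumberField K] (k N : ℕ) (R : ℝ)
    (b : Ideal (𝓞 K)) : Finset (𝓞 K × 𝓞 K) :=
  (finite_box K R).toFinset.filter (fun z => Del z ≠ 0 ∧ KMin k z ∧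
    ∀ P : Ideal (𝓞 K), P.IsPrime → Del z ∈ P → b ≤ P ∨ Del z ∈ P ^ N)

theorem mem_candSet {K : Type*} [Field K] [NumberField K] {k N : ℕ} {R : ℝ}
    {b : Ideal (𝓞 K)} {z : 𝓞 K × 𝓞 K} : z ∈ candSet k N R b ↔ InBox R z ∧ Del z ≠ 0 ∧ KMin k z ∧
    ∀ P : Ideal (𝓞 K), P.IsPrime → Del z ∈ P → b ≤ P ∨ Del z ∈ P ^ N := by
  classical
  rw [candSet, Finset.mem_filter, Set.Finite.mem_toFinset]
  rfl

/-- **Main theorem, from LOC1 and LOC2.** -/
theorem tc_main {K : Type u} [Field K] [NumberField K] {Ω : Type*} [Field Ω] [DecidableEq Ω]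
    [CharZero Ω] [Algebra K Ω] [IsAlgClosed Ω] (hL1 : Loc1 K Ω) (hL2 : Loc2 K Ω) (ε : ℝ)
    (hε : 0 < ε) :
    ∃ (n₀ : ℕ) (C : ℝ), 0 < n₀ ∧ 0 < C ∧ ∀ T : ℝ, 1 ≤ T → ∀ w : 𝓞 K × 𝓞 K, Del w ≠ 0 →
      ∃ S : Finset (𝓞 K × 𝓞 K),
        (S.card : ℝ) ≤ C * (Ideal.absNorm (Ideal.span {Del w}) : ℝ) ^ C * T ^ ε ∧
      ∀ z : 𝓞 K × 𝓞 K, InBox T z → Del z ≠ 0 → ∀ t : K, t ≠ 0 → ∀ n : ℕ, n₀ ≤ n →
        Congruent Ω n (curK z.1 z.2) ⟨0, 0, 0, t ^ 2 * (w.1 : K), t ^ 3 * (w.2 : K)⟩ →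
        ∃ z' ∈ S, ∃ ρ : K, ρ ≠ 0 ∧ t ^ 2 * (z.1 : K) = ρ ^ 4 * (z'.1 : K) ∧
          t ^ 3 * (z.2 : K) = ρ ^ 6 * (z'.2 : K) := by
  classical
  obtain ⟨k, C₁, M₁, hC₁, hM₁, hmod⟩ := tc_twist_model K
  obtain ⟨M₂, hM₂, hbad⟩ := tc_bad_ideal K
  obtain ⟨N, C₂, hC₂, hcount⟩ := tc_count K k (ε / 2) (by positivity)
  obtain ⟨n₀, hn₀, hpp⟩ := tc_exists_prime_pow (max N 8)
  obtain ⟨A, hA, hlog⟩ := tc_log_bound (finrank ℚ K) C₁ hC₁
  obtain ⟨C₃, hC₃, hnum⟩ := tc_numeric (finrank ℚ K) A C₁ C₂ ε hA hC₁ hC₂ hε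
  have hM0 : M₁ * M₂ ≠ ⊥ := mul_ne_zero hM₁ hM₂
  have hNM := tc_one_le_norm hM0
  refine ⟨n₀, C₃ * (Ideal.absNorm (M₁ * M₂) : ℝ) ^ C₃, hn₀, by positivity, ?_⟩
  intro T hT w hw
  have hDw : Ideal.span {Del w} ≠ ⊥ := by rwa [Ne, Ideal.span_singleton_eq_bot]
  have hNw := tc_one_le_norm hDw
  set b₁ := M₁ * M₂ * Ideal.span {Del w} with hb₁
  have hb₁0 : b₁ ≠ ⊥ := mul_ne_zero hM0 hDw
  have hB1 := tc_one_le_norm hb₁0
  set B : ℝ := (Ideal.absNorm b₁ : ℝ) with hB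
  obtain ⟨P₀, hP17, hP₀, hPbig⟩ := hlog T B hT hB1
  set bb : ℕ → Ideal (𝓞 K) := fun p => b₁ * Ideal.span {(p : 𝓞 K)} with hbb
  have hbbN : ∀ p : ℕ, (Ideal.absNorm (bb p) : ℝ) = B * (p : ℝ) ^ finrank ℚ K := by
    intro p
    rw [hbb, map_mul, Ideal.absNorm_span_singleton]
    have h1 : (Algebra.norm ℤ (p : 𝓞 K)) = (p : ℤ) ^ finrank ℤ (𝓞 K) := by
      have := Algebra.norm_algebraMap (S := 𝓞 K) (p : ℤ)
      rw [← this]
      congr 1
      simp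
    rw [h1, Int.natAbs_pow, Int.natAbs_natCast, RingOfIntegers.rank]
    push_cast
    rw [hB]
  have hbb0 : ∀ p : ℕ, 1 ≤ p → bb p ≠ ⊥ := by
    intro p hp
    refine mul_ne_zero hb₁0 ?_
    rw [Ideal.zero_eq_bot, Ne, Ideal.span_singleton_eq_bot]
    exact_mod_cast (by omega : p ≠ 0)
  refine ⟨(Finset.Icc 1 P₀).biUnion
    (fun p => candSet k N (C₁ * T * (Ideal.absNorm (bb p) : ℝ)) (bb p)), ?_, ?_⟩
  · -- the number of elements
    have hP1 : (1 : ℝ) ≤ P₀ := by exact_mod_cast (by omega : 1 ≤ P₀)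
    have h1 : ((((Finset.Icc 1 P₀).biUnion
        (fun p => candSet k N (C₁ * T * (Ideal.absNorm (bb p) : ℝ)) (bb p))).card : ℕ) : ℝ) ≤
        ∑ p ∈ Finset.Icc 1 P₀, (((candSet k N (C₁ * T * (Ideal.absNorm (bb p) : ℝ))
          (bb p)).card : ℕ) : ℝ) := by
      exact_mod_cast Finset.card_biUnion_le
    have h2 : ∀ p ∈ Finset.Icc 1 P₀, (((candSet k N (C₁ * T * (Ideal.absNorm (bb p) : ℝ))
          (bb p)).card : ℕ) : ℝ) ≤ C₂ * (B * (P₀ : ℝ) ^ finrank ℚ K) ^ C₂ *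
          (C₁ * T * (B * (P₀ : ℝ) ^ finrank ℚ K)) ^ (ε / 2) := by
      intro p hp
      obtain ⟨hp1, hp2⟩ := Finset.mem_Icc.1 hp
      have h3 := tc_one_le_norm (hbb0 p hp1)
      have h4 : (1 : ℝ) ≤ C₁ * T * (Ideal.absNorm (bb p) : ℝ) := by
        have : (1 : ℝ) ≤ C₁ * T := by nlinarith
        nlinarith
      have h5 := hcount _ h4 (bb p) (hbb0 p hp1)
        (candSet k N (C₁ * T * (Ideal.absNorm (bb p) : ℝ)) (bb p)) (fun z hz => mem_candSet.1 hz)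
      refine h5.trans ?_
      have h6 : (Ideal.absNorm (bb p) : ℝ) ≤ B * (P₀ : ℝ) ^ finrank ℚ K := by
        rw [hbbN]
        have h7 : (p : ℝ) ≤ P₀ := by exact_mod_cast hp2
        have hB0 : 0 ≤ B := by linarith
        gcongr
      have hC10 : 0 ≤ C₁ := by linarith
      have hT0 : 0 ≤ T := by linarith
      gcongr
    refine h1.trans ((Finset.sum_le_sum h2).trans ?_)
    rw [Finset.sum_const, Nat.card_Icc, nsmul_eq_mul, Nat.add_sub_cancel]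
    refine (hnum T B P₀ hT hB1 hP1 hP₀).trans ?_
    have h8 : B = (Ideal.absNorm (M₁ * M₂) : ℝ) * (Ideal.absNorm (Ideal.span {Del w}) : ℝ) := by
      rw [hB, hb₁, map_mul]
      push_cast
      ring
    rw [h8, Real.mul_rpow (by positivity) (by positivity)]
    have h9 : (1 : ℝ) ≤ (Ideal.absNorm (M₁ * M₂) : ℝ) ^ C₃ := Real.one_le_rpow hNM hC₃.le
    have h10 : C₃ ≤ C₃ * (Ideal.absNorm (M₁ * M₂) : ℝ) ^ C₃ := le_mul_of_one_le_right hC₃.le h9
    have h11 : (Ideal.absNorm (Ideal.span {Del w}) : ℝ) ^ C₃ ≤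
        (Ideal.absNorm (Ideal.span {Del w}) : ℝ) ^ (C₃ * (Ideal.absNorm (M₁ * M₂) : ℝ) ^ C₃) :=
      Real.rpow_le_rpow_of_exponent_le hNw h10
    have hT0 : 0 ≤ T ^ ε := by positivity
    calc C₃ * ((Ideal.absNorm (M₁ * M₂) : ℝ) ^ C₃ *
          (Ideal.absNorm (Ideal.span {Del w}) : ℝ) ^ C₃) * T ^ ε
        = C₃ * (Ideal.absNorm (M₁ * M₂) : ℝ) ^ C₃ *
          (Ideal.absNorm (Ideal.span {Del w}) : ℝ) ^ C₃ * T ^ ε := by ring
      _ ≤ _ := by gcongr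
  · -- the congruent curves
    intro z hz hz0 t ht n hn hc
    obtain ⟨p, e, hp, he, hNe, hdvd⟩ := hpp n hn
    have hN : N ≤ p ^ e := (le_max_left _ _).trans hNe
    have h8 : 8 ≤ p ^ e := (le_max_right _ _).trans hNe
    obtain ⟨ρ, z', l, hρ, e1, e2, hl, hlsq, hbox, hz'0, hkm, hloc⟩ := hmod T hT z hz hz0 t ht
    have hcn : Congruent Ω n (curK z'.1 z'.2) (curK w.1 w.2) :=
      tc_congruent_final ht hρ e1 e2 hc
    have hcq : Congruent Ω (p ^ e) (curK z'.1 z'.2) (curK w.1 w.2) := hcn.of_dvd hdvd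
    -- the reduction outside an ideal `b`
    have key : ∀ b : Ideal (𝓞 K), b ≤ b₁ →
        (∀ P : Ideal (𝓞 K), P.IsPrime → ¬ b ≤ P → (p : 𝓞 K) ∈ P → 17 ≤ p) →
        ∀ P : Ideal (𝓞 K), P.IsPrime → P ≠ ⊥ → ¬ b ≤ P → Del z' ∈ P →
          z'.1 ∉ P ∧ Del z' ∈ P ^ p ∧ ((p : 𝓞 K) ∉ P → Del z' ∈ P ^ (p ^ e)) := by
      intro b hb h17 P hP hP0 hbP hDP
      have hb₁P : ¬ b₁ ≤ P := fun h => hbP (hb.trans h)
      obtain ⟨hMP, hwP'⟩ := tc_not_le_mul hb₁P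
      obtain ⟨hM₁P, hM₂P⟩ := tc_not_le_mul hMP
      have hwP : Del w ∉ P := fun h => hwP' ((Ideal.span_singleton_le_iff_mem P).2 h)
      obtain ⟨h6, hram⟩ := hbad P hP hP0 hM₂P
      obtain ⟨hmin, -⟩ := hloc P hP hP0 hM₁P
      exact tc_reduction (z := z') (w := w) (p := p) (k := e) (P := P) hL1 hL2 hz'0 hw hp he h8
        hcq hP h6 hram hwP hmin (h17 P hP hbP) hDP
    -- the ideal `l` divides `b`
    have key2 : ∀ b : Ideal (𝓞 K), b ≤ b₁ → b ≠ ⊥ →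
        (∀ P : Ideal (𝓞 K), P.IsPrime → ¬ b ≤ P → (p : 𝓞 K) ∈ P → 17 ≤ p) →
        (Ideal.absNorm l : ℝ) ≤ (Ideal.absNorm b : ℝ) := by
      intro b hb hb0 h17
      have hbl : b ≤ l := by
        refine tc_sqfree_dvd hl hlsq (fun P hP hP0 hlP => ?_)
        by_contra hbP
        have hb₁P : ¬ b₁ ≤ P := fun h => hbP (hb.trans h)
        obtain ⟨hMP, -⟩ := tc_not_le_mul hb₁P
        obtain ⟨hM₁P, -⟩ := tc_not_le_mul hMP
        obtain ⟨h3, h4⟩ := (hloc P hP hP0 hM₁P).2 hlP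
        exact (key b hb h17 P hP hP0 hbP h4).1 h3
      have h5 := Ideal.absNorm_dvd_absNorm_of_le hbl
      have h6 : Ideal.absNorm b ≠ 0 := fun h => hb0 (Ideal.absNorm_eq_zero_iff.1 h)
      exact_mod_cast Nat.le_of_dvd (Nat.pos_of_ne_zero h6) h5
    have hC1T : 0 ≤ C₁ * T := by nlinarith
    have hmono : ∀ R R' : ℝ, 0 ≤ R → R ≤ R' → InBox R z' → InBox R' z' := by
      intro R R' hR hRR h
      exact ⟨h.1.mono (pow_le_pow_left₀ hR hRR 4), h.2.mono (pow_le_pow_left₀ hR hRR 6)⟩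
    have hprime0 : ∀ P : Ideal (𝓞 K), Del z' ∈ P → P ≠ ⊥ := by
      rintro P hP rfl
      exact hz'0 (by simpa using hP)
    by_cases hpP : p ≤ P₀
    · refine ⟨z', Finset.mem_biUnion.2 ⟨p, Finset.mem_Icc.2 ⟨hp.one_lt.le, hpP⟩, ?_⟩, ρ, hρ, e1, e2⟩
      have hb : bb p ≤ b₁ := Ideal.mul_le_left
      have h17 : ∀ P : Ideal (𝓞 K), P.IsPrime → ¬ bb p ≤ P → (p : 𝓞 K) ∈ P → 17 ≤ p := by
        intro P hP hbP hpm
        exact absurd ((Ideal.span_singleton_le_iff_mem P).2 hpm) (tc_not_le_mul hbP).2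
      rw [mem_candSet]
      refine ⟨hmono _ _ (by positivity) ?_ hbox, hz'0, hkm, ?_⟩
      · exact mul_le_mul_of_nonneg_left (key2 (bb p) hb (hbb0 p hp.one_lt.le) h17) hC1T
      · intro P hP hDP
        by_cases hbP : bb p ≤ P
        · exact Or.inl hbP
        · right
          obtain ⟨-, -, h3⟩ := key (bb p) hb h17 P hP (hprime0 P hDP) hbP hDP
          have hpm : (p : 𝓞 K) ∉ P := fun h =>
            (tc_not_le_mul hbP).2 ((Ideal.span_singleton_le_iff_mem P).2 h)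
          exact Ideal.pow_le_pow_right hN (h3 hpm)
    · push Not at hpP
      refine ⟨z', Finset.mem_biUnion.2 ⟨1, Finset.mem_Icc.2 ⟨le_rfl, by omega⟩, ?_⟩, ρ, hρ, e1, e2⟩
      have hb1 : bb 1 = b₁ := by
        rw [hbb]
        simp
      rw [hb1, mem_candSet]
      have h17 : ∀ P : Ideal (𝓞 K), P.IsPrime → ¬ b₁ ≤ P → (p : 𝓞 K) ∈ P → 17 ≤ p :=
        fun P _ _ _ => by omega
      have hnl := key2 b₁ le_rfl hb₁0 h17
      have hbox' : InBox (C₁ * T * B) z' :=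
        hmono _ _ (by positivity) (mul_le_mul_of_nonneg_left hnl hC1T) hbox
      refine ⟨hbox', hz'0, hkm, ?_⟩
      intro P hP hDP
      by_contra hcon
      rw [not_or] at hcon
      have hP0 := hprime0 P hDP
      obtain ⟨-, h4, -⟩ := key b₁ le_rfl h17 P hP hP0 hcon.1 hDP
      have hR1 : 1 ≤ C₁ * T * B := by
        have : (1 : ℝ) ≤ C₁ * T := by nlinarith
        nlinarith
      exact tc_not_high hR1 hbox' hz'0 (hPbig p hpP) hP hP0 h4

end Pool.Agent.Lib.MP_4a0cc8_ntC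
end
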