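import Pool.Agent.Lib.MP_4a0cc8_ntL.WRes
import Pool.Agent.Lib.MP_4a0cc8_ntL.WQuot
import Pool.Agent.Lib.FM60.Nodal
import Pool.Agent.Lib.FM60.Act
import Pool.Agent.Lib.MP_4a0cc8_ntL.Star
import Pool.Agent.Lib.MP_4a0cc8_ntL.Euclid
import Pool.Agent.Lib.MP_4a0cc8_ntL.TAdd
import Pool.Agent.Lib.MP_4a0cc8_ntL.Cusp
import Pool.Agent.Lib.FMK60.GaussPtsK
import Pool.Agent.Lib.FM60.NodeWild
import Pool.Agent.Lib.MP_4a0cc8_ntL.WNZ
import Pool.Agent.Lib.MP_4a0cc8_ntL.WScale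
import Pool.Agent.Lib.MP_4a0cc8_ntL.WProd
import Pool.Agent.Lib.MP_4a0cc8_ntL.WArith
import Pool.Agent.Lib.MP_4a0cc8_ntL.Near
import Pool.Agent.Lib.MP_4a0cc8_ntL.IntTwo
import Pool.Agent.Lib.MP_4a0cc8_ntL.TData
import Pool.Agent.Lib.MP_4a0cc8_ntL.Faith
import Pool.Agent.Lib.MP_4a0cc8_ntL.TVal
import Pool.Agent.Lib.MP_4a0cc8_ntL.WField
import Pool.Agent.Lib.MP_4a0cc8_ntL.WMult
import Pool.Agent.Lib.MP_4a0cc8_ntC.LocDefs

section

set_option autoImplicit false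
set_option linter.unusedSectionVars false
set_option linter.unusedVariables false

namespace Pool.Agent.Lib.FL60

open WithZero Pool.Agent.Lib.FM60 Pool.Agent.Lib.FMK60

/-- The data of a stable subgroup on which `x/y` is additive to the first order. -/
structure Deep {F L : Type*} [Field F] [Field L] [Algebra F L] (v : Valuation L ℤᵐ⁰)
    (I : Subgroup (L ≃ₐ[F] L)) {A B : L} {V : Type*} [AddCommGroup V] (D : TorsData L A B V)
    (ρ : (L ≃ₐ[F] L) → V ≃+ V) (H : AddSubgroup V) (α : ℤ) : Prop where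
  val : ∀ P ∈ H, P ≠ 0 → v (zc D P) = exp (-α)
  add : ∀ P ∈ H, ∀ Q ∈ H, v (zc D (P + Q) - zc D P - zc D Q) < exp (-α)
  stab : ∀ σ ∈ I, ∀ P ∈ H, ρ σ P ∈ H

private theorem weig_aux {L : Type*} [Field L] {p : ℕ} (hp : p.Prime) {v : Valuation L ℤᵐ⁰}
    (hpv : v (p : L) < 1) {t t₀ : L} (ht : v t ≤ 1) (ht₀ : v t₀ ≤ 1) {a b : ℤ}
    (h1 : v (t ^ 2 - a * t + b) < 1) (h2 : v (t₀ ^ 2 - a * t₀ + b) < 1) :
    v (t - t₀) < 1 ∨ v (t - t₀ ^ p) < 1 ∨ ∃ c : ℤ, v (t₀ - c) < 1 := by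
  have : Fact p.Prime := ⟨hp⟩
  let O := v.valuationSubring
  have hmem : ∀ x : O, IsLocalRing.residue O x = 0 ↔ v (x : L) < 1 := by
    intro x
    rw [IsLocalRing.residue_eq_zero_iff, ValuationSubring.valuation_lt_one_iff]
    exact (v.isEquiv_valuation_valuationSubring.lt_one_iff_lt_one).symm
  let r : O →+* IsLocalRing.ResidueField O := IsLocalRing.residue O
  let T : O := ⟨t, ht⟩
  let T₀ : O := ⟨t₀, ht₀⟩
  have hchar : CharP (IsLocalRing.ResidueField O) p := by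
    have h0 : ((p : ℕ) : IsLocalRing.ResidueField O) = 0 := by
      have h3 : r ((p : ℕ) : O) = 0 := (hmem _).2 (by simpa using hpv)
      rwa [map_natCast] at h3
    exact ringChar.of_eq (CharP.ringChar_of_prime_eq_zero hp h0)
  have e1 : r T ^ 2 - a * r T + b = 0 := by
    have h3 : r (T ^ 2 - a * T + b) = 0 := (hmem _).2 (by simpa using h1)
    simpa using h3
  have e2 : r T₀ ^ 2 - a * r T₀ + b = 0 := by
    have h3 : r (T₀ ^ 2 - a * T₀ + b) = 0 := (hmem _).2 (by simpa using h2)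
    simpa using h3
  have e3 : (r T₀ ^ p) ^ 2 - a * r T₀ ^ p + b = 0 := by
    have h3 := congrArg (frobenius (IsLocalRing.ResidueField O) p) e2
    rw [map_add, map_sub, map_mul, map_pow, map_intCast, map_intCast, map_zero, frobenius_def] at h3
    exact h3
  by_cases f1 : r T = r T₀
  · left
    have h3 : r (T - T₀) = 0 := by rw [map_sub, f1, sub_self]
    simpa using (hmem _).1 h3
  have g1 : r T = a - r T₀ := by
    have h3 : (r T - r T₀) * (r T + r T₀ - a) = 0 := by linear_combination e1 - e2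
    rcases mul_eq_zero.1 h3 with h4 | h4
    · exact absurd (sub_eq_zero.1 h4) f1
    · linear_combination h4
  by_cases f2 : r T₀ ^ p = r T₀
  · right; right
    have h3 := (Subfield.mem_bot_iff_pow_eq_self (F := IsLocalRing.ResidueField O) (p := p)).2 f2
    rw [mem_bot_iff_intCast p] at h3
    obtain ⟨c, hc⟩ := h3
    refine ⟨c, ?_⟩
    have h4 : r (T₀ - (c : O)) = 0 := by
      rw [map_sub, map_intCast, ← hc, sub_self]
    simpa using (hmem _).1 h4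
  · right; left
    have h3 : (r T₀ ^ p - r T₀) * (r T₀ ^ p + r T₀ - a) = 0 := by linear_combination e3 - e2
    rcases mul_eq_zero.1 h3 with h4 | h4
    · exact absurd (sub_eq_zero.1 h4) f2
    · have h5 : r (T - T₀ ^ p) = 0 := by
        rw [map_sub, map_pow]
        linear_combination g1 - h4
      simpa using (hmem _).1 h5
private theorem weig_val {F L : Type*} [Field F] [Field L] [Algebra F L] {p : ℕ}
    {v : Valuation L ℤᵐ⁰} {I : Subgroup (L ≃ₐ[F] L)} (h : PlaceK F L p v I) {α : ℤ} {z : L}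
    (hz : v z = exp (-α)) {σ : L ≃ₐ[F] L} (hσ : σ ∈ I) : v (σ z / z) ≤ 1 := by
  rw [map_div₀, h.inv σ hσ z, hz, div_self exp_ne_zero]

private theorem weig_sub {L : Type*} [Field L] {v : Valuation L ℤᵐ⁰} {x y c : L}
    (h1 : v (x - c) < 1) (h2 : v (y - c) < 1) : v (x - y) < 1 := by
  have h3 : x - y = (x - c) - (y - c) := by ring
  rw [h3]
  exact lt_of_le_of_lt (v.map_sub _ _) (max_lt h1 h2)

section

variable {F L : Type*} [Field F] [Field L] [Algebra F L] {p : ℕ} {v : Valuation L ℤᵐ⁰}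
  {I : Subgroup (L ≃ₐ[F] L)} (h : PlaceK F L p v I) {A B A₀ B₀ : L} {V : Type*}
  [AddCommGroup V] {D : TorsData L A B V} {D₀ : TorsData L A₀ B₀ V}
  {ρ : (L ≃ₐ[F] L) → V ≃+ V} (hρ : PreActK D ρ) (hρ₀ : PreActK D₀ ρ) {H H₀ : AddSubgroup V}
  {α α₀ : ℤ} (hH : Deep v I D ρ H α) (hH₀ : Deep v I D₀ ρ H₀ α₀)

include h hρ hρ₀ hH hH₀ in
/-- JOB L23 (WEig), first part. The ordinary case.

PROOF. `H₀` has prime order `p`, so `ρ σ Q = c • Q` for an integer `c` (`Q` generates `H₀`), and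
`ρ σ R = c • R` for all `R ∈ H₀`. `R = ρ σ P - P ∈ H₀` gives
`ρ σ (ρ σ P) = (c + 1) • ρ σ P - c • P`. With `t = σ (zc D P)/zc D P`: `eig_of_rel` gives
`v (t² - (c+1) t + c) < 1`, i.e. `v ((t - 1)(t - c)) < 1`, so `v (t - 1) < 1` or `v (t - c) < 1`, and
`eig_of_scal` for `D₀`: `v (t₀ - c) < 1`. -/
theorem eig_ord (hp : p.Prime) (hc : Nat.card H₀ = p) {σ : L ≃ₐ[F] L} (hσ : σ ∈ I)
    (hq : ∀ P, ρ σ P - P ∈ H₀) {P Q : V} (hP : P ∈ H) (hP0 : P ≠ 0) (hQ : Q ∈ H₀)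
    (hQ0 : Q ≠ 0) : v (σ (zc D P) / zc D P - 1) < 1 ∨
      v (σ (zc D P) / zc D P - σ (zc D₀ Q) / zc D₀ Q) < 1 := by
  have : Fact p.Prime := ⟨hp⟩
  have hgen : ∀ R ∈ H₀, ∃ m : ℤ, m • Q = R := by
    intro R hR
    have hQ1 : (⟨Q, hQ⟩ : H₀) ≠ 0 := fun h0 => hQ0 (congrArg Subtype.val h0)
    obtain ⟨m, hm⟩ := mem_zmultiples_of_prime_card (p := p) (g' := (⟨R, hR⟩ : H₀)) hc hQ1
    exact ⟨m, congrArg Subtype.val hm⟩
  obtain ⟨c, hcQ⟩ := hgen _ (hH₀.stab σ hσ Q hQ)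
  have hsc : ∀ R ∈ H₀, ρ σ R = c • R := by
    intro R hR
    obtain ⟨m, rfl⟩ := hgen R hR
    rw [map_zsmul, ← hcQ, smul_comm]
  have hrel : ρ σ (ρ σ P) = (c + 1) • ρ σ P - c • P := by
    have h1 := hsc _ (hq P)
    rw [map_sub, smul_sub] at h1
    rw [add_smul, one_smul]
    have h2 : ρ σ (ρ σ P) = (ρ σ (ρ σ P) - ρ σ P) + ρ σ P := by abel
    rw [h2, h1]
    abel
  have h1 := eig_of_rel h hρ H hH.val hH.add hσ hP hP0 (hH.stab σ hσ P hP) hrel
  by_cases h3 : v (σ (zc D P) / zc D P - 1) < 1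
  · exact Or.inl h3
  right
  have h4 : v (σ (zc D P) / zc D P - c) < 1 := by
    by_contra h5
    push Not at h3 h5
    have h6 : (σ (zc D P) / zc D P) ^ 2 - ((c + 1 : ℤ) : L) * (σ (zc D P) / zc D P) + (c : L) =
        (σ (zc D P) / zc D P - 1) * (σ (zc D P) / zc D P - c) := by
      push_cast
      ring
    rw [h6, map_mul] at h1
    exact absurd h1 (not_lt.2 (one_le_mul h3 h5))
  exact weig_sub h4 (eig_of_scal h hρ₀ H₀ hH₀.val hH₀.add hσ hQ hQ0 (hsc Q hQ))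

include h hρ hρ₀ hH hH₀ in
/-- JOB L23 (WEig), second part. The supersingular case.

PROOF. `exists_lin` gives `a, b` with `ρ σ (ρ σ x) = a • ρ σ x - b • x` for all `x`. Let
`t = σ (zc D P)/zc D P`, `t₀ = σ (zc D₀ Q)/zc D₀ Q`, `v t = v t₀ = 1`. Congruences modulo
`{x | v x < 1}` (or in the residue field, of characteristic `p` because `v p < 1`): by `eig_of_rel`
`t² - a t + b ≡ 0` and `t₀² - a t₀ + b ≡ 0`. The Frobenius: `t₀^p` satisfies the same equation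
(`(t₀² - a t₀ + b)^p ≡ t₀^(2p) - a t₀^p + b`, as `a^p ≡ a`, `b^p ≡ b`). Subtracting:
`(t - t₀)(t + t₀ - a) ≡ 0` and `(t₀^p - t₀)(t₀^p + t₀ - a) ≡ 0`. If `t ≡ t₀`: done. Otherwise
`t ≡ a - t₀`. If `t₀^p ≡ a - t₀`, then `t ≡ t₀^p`: done. Otherwise `t₀^p ≡ t₀`, so `t₀ ≡ c` for an
integer `c` (the polynomial `X^p - X` has the `p` roots `0, ..., p-1` in the residue field), and by
`scal_of_eig` (with `H₀ = ⊤`) `ρ σ R = c • R` for all `R`, so `eig_of_scal` for `D`: `t ≡ c ≡ t₀`. -/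
theorem eig_ss (hp : p.Prime) (hV : Nat.card V = p ^ 2) (hpV : ∀ x : V, p • x = 0)
    (hc : H₀ = ⊤) {σ : L ≃ₐ[F] L} (hσ : σ ∈ I) {P Q : V} (hP : P ∈ H)
    (hP0 : P ≠ 0) (hQ0 : Q ≠ 0) :
    v (σ (zc D P) / zc D P - σ (zc D₀ Q) / zc D₀ Q) < 1 ∨
      v (σ (zc D P) / zc D P - (σ (zc D₀ Q) / zc D₀ Q) ^ p) < 1 := by
  have htop : ∀ R : V, R ∈ H₀ := fun R => by rw [hc]; exact AddSubgroup.mem_top R
  obtain ⟨a, b, hab⟩ := exists_lin hp hV hpV (ρ σ)
  have h1 := eig_of_rel h hρ H hH.val hH.add hσ hP hP0 (hH.stab σ hσ P hP) (hab P)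
  have h2 := eig_of_rel h hρ₀ H₀ hH₀.val hH₀.add hσ (htop Q) hQ0 (htop _) (hab Q)
  have hpv : v (p : L) < 1 := by
    have h3 := (h.lt_iff (p : ℤ)).2 dvd_rfl
    simpa using h3
  rcases weig_aux hp hpv (weig_val h (hH.val P hP hP0) hσ)
    (weig_val h (hH₀.val Q (htop Q) hQ0) hσ) h1 h2 with h3 | h3 | ⟨c, h3⟩
  · exact Or.inl h3
  · exact Or.inr h3
  · left
    have h4 : ρ σ P = c • P := scal_of_eig h hρ₀ H₀ hH₀.val hH₀.add hσ (htop Q) hQ0 h3 (htop P)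
      (htop _)
    exact weig_sub (eig_of_scal h hρ H hH.val hH.add hσ hP hP0 h4) h3

end

end Pool.Agent.Lib.FL60
end

section

set_option autoImplicit false
set_option linter.unusedSectionVars false
set_option linter.unusedVariables false

namespace Pool.Agent.Lib.FL60

open WithZero Pool.Agent.Lib.FM60

/-- JOB L07 (TMult). Multiplicative reduction at a prime which does not divide the order: the
order divides the valuation of the discriminant, when the whole torsion is defined over a field with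
value group `ℤ` in which the discriminant has valuation `e`.

PROOF. (Use the statements `star`, `euclid`, `order_eq` as they are.) Let `x₀ = -3B/(2A)`. As in
`node_tame_gen` (Lib/FMK60/TameK.lean, lines from `obtain ⟨x₀, hx₀⟩` to `hnode`; uses `node_f`,
`node_f'` of Lib/FM60/Nodal.lean): `v x₀ = 1`, `v (x₀³ + A x₀ + B) = v (3 x₀² + A) = exp (-e)`, so
`h : NodeH v (3 x₀) (3 x₀² + A) (x₀³ + A x₀ + B) (exp (-e))`. Let `E = D.shift x₀`
(`E.X P = D.X P - x₀`), a `GT`. `v (E.X P) ≤ 1` for `P ≠ 0`. Let `β = hgt E v e`, `C = E.away h`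
(points with `1 ≤ v (E.X P)`), so `P ∈ C ↔ β P = 0` (`bet_eq_zero_iff`; `β P = 0` iff
`v (E.X P) = 1` for `P ≠ 0`). `hnear` gives a point with `v (E.X P) < 1`, i.e. not in `C`, killed by
`p`. `euclid` gives `P₁, N` with `β P₁ * N = 2 e`, and `order_eq` gives `N = p ^ k`. As
`p ^ k ≥ 3`, `0 < β P₁ < e`, so `β P₁ = 2 i` (`bet_cases`; the second case would give
`β P₁ = e`), so `i * p ^ k = e`. -/
theorem tame_mult {L : Type*} [Field L] {v : Valuation L ℤᵐ⁰} {A B : L} {p k e : ℕ}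
    (hp : p.Prime) (hq : 3 ≤ p ^ k) (he : 0 < e) (hv2 : v 2 = 1) (hv3 : v 3 = 1) (hvA : v A = 1)
    (hvB : v B = 1) (hD : v (4 * A ^ 3 + 27 * B ^ 2) = exp (-(e : ℤ)))
    {V : Type*} [AddCommGroup V] [Finite V] (hV : Nat.card V = (p ^ k) ^ 2)
    (hqV : ∀ x : V, p ^ k • x = 0) (hpV : Nat.card {x : V // p • x = 0} = p ^ 2)
    (D : TorsData L A B V) (hint : ∀ P : V, P ≠ 0 → v (D.X P) ≤ 1)
    (hnear : ∃ P : V, P ≠ 0 ∧ p • P = 0 ∧ v (D.X P - (-3 * B / (2 * A))) < 1) :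
    p ^ k ∣ e := by
  classical
  have hv4 : v 4 = 1 := by
    rw [show (4 : L) = 2 * 2 by norm_num, map_mul, hv2, one_mul]
  have hv8 : v 8 = 1 := by
    rw [show (8 : L) = 4 * 2 by norm_num, map_mul, hv2, hv4, one_mul]
  have h2 : (2 : L) ≠ 0 := by intro h; rw [h, map_zero] at hv2; exact zero_ne_one hv2
  have hA0 : A ≠ 0 := by intro h; rw [h, map_zero] at hvA; exact zero_ne_one hvA
  obtain ⟨x₀, hx₀⟩ : ∃ x₀ : L, x₀ = -3 * B / (2 * A) := ⟨_, rfl⟩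
  have hvx₀ : v x₀ = 1 := by
    rw [hx₀, map_div₀, map_mul, map_mul, Valuation.map_neg, hv3, hvB, hv2, hvA]
    simp
  have hF : v (x₀ ^ 3 + A * x₀ + B) = exp (-(e : ℤ)) := by
    rw [hx₀, node_f hA0 h2, map_div₀, map_mul, map_mul, Valuation.map_neg, hvB, hD, hv8,
      map_pow, hvA]
    simp
  have hG : v (3 * x₀ ^ 2 + A) = exp (-(e : ℤ)) := by
    rw [hx₀, node_f' hA0 h2, map_div₀, map_mul, hD, hv4, map_pow, hvA]
    simp
  have hnode : NodeH v (3 * x₀) (3 * x₀ ^ 2 + A) (x₀ ^ 3 + A * x₀ + B) (exp (-(e : ℤ))) :=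
    { two := hv2
      three := hv3
      ha := by rw [map_mul, hv3, hvx₀, one_mul]
      hb := hG.le
      hc := hF
      lt := by
        rw [← exp_zero, exp_lt_exp]
        omega
      pos := by
        rw [zero_lt_iff]
        exact exp_ne_zero }
  rw [← hx₀] at hnear
  obtain ⟨E, hE⟩ : ∃ E : GT L (3 * x₀) (3 * x₀ ^ 2 + A) (x₀ ^ 3 + A * x₀ + B) V,
    ∀ P, E.X P = D.X P - x₀ := ⟨D.shift x₀, fun P => rfl⟩
  have hintE : ∀ P : V, P ≠ 0 → v (E.X P) ≤ 1 := by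
    intro P hP
    rw [hE]
    exact (v.map_sub _ _).trans (max_le (hint P hP) hvx₀.le)
  have hβ0 : hgt E v e 0 = 0 := by simp [hgt]
  have hβ : ∀ P : V, P ≠ 0 → hgt E v e P = bet e (v (E.X P)) := by
    intro P hP
    simp [hgt, hP]
  have hnn : ∀ P, 0 ≤ hgt E v e P := by
    intro P
    by_cases hP : P = 0
    · rw [hP, hβ0]
    · rw [hβ P hP]; exact bet_nonneg (hintE P hP)
  have hle : ∀ P, hgt E v e P ≤ e := by
    intro P
    by_cases hP : P = 0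
    · rw [hP, hβ0]; positivity
    · rw [hβ P hP]; exact bet_le (hintE P hP)
  have hC : ∀ P, P ∈ E.away hnode ↔ hgt E v e P = 0 := by
    intro P
    rw [GT.mem_away]
    by_cases hP : P = 0
    · simp [hP, hβ0]
    · rw [hβ P hP, bet_eq_zero_iff he (hintE P hP)]
      constructor
      · rintro (h | h)
        · exact absurd h hP
        · exact le_antisymm (hintE P hP) h
      · intro h
        exact Or.inr h.ge
  obtain ⟨P₂, hP₂, hpP₂, hlt₂⟩ := hnear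
  have hP₂C : P₂ ∉ E.away hnode := by
    rw [GT.mem_away, hE]
    rintro (h | h)
    · exact hP₂ h
    · exact absurd hlt₂ (not_lt.mpr h)
  obtain ⟨P₁, N, hN, hN0, hcard, hdvd⟩ := euclid he (hgt E v e) hβ0 hnn hle
    (star he hnode E hintE) (E.away hnode) hC ⟨P₂, fun h => hP₂C ((hC P₂).mpr h)⟩
  have hNq : N = p ^ k := order_eq hp hV hqV hpV (E.away hnode) ⟨P₂, hpP₂, hP₂C⟩ hN0 hcard hdvd
  rw [hNq] at hN
  have hq' : (3 : ℤ) ≤ ((p ^ k : ℕ) : ℤ) := by exact_mod_cast hq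
  have hpos : 0 < hgt E v e P₁ := by
    rcases (hnn P₁).lt_or_eq with h | h
    · exact h
    · rw [← h, zero_mul] at hN
      omega
  have hltP : hgt E v e P₁ < e := by
    by_contra hcon
    rw [not_lt] at hcon
    nlinarith
  have hP₁ : P₁ ≠ 0 := by
    rintro rfl
    rw [hβ0] at hpos
    exact lt_irrefl _ hpos
  rw [hβ P₁ hP₁] at hN hltP
  rcases bet_cases (e := e) (hintE P₁ hP₁) with ⟨i, -, -, hi⟩ | ⟨-, hi⟩
  · rw [hi] at hN
    refine ⟨i, ?_⟩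
    have h3 : (e : ℤ) = ((p ^ k : ℕ) : ℤ) * i := by linarith
    exact_mod_cast h3
  · rw [hi] at hltP
    exact absurd hltP (lt_irrefl _)

end Pool.Agent.Lib.FL60
end

section

set_option autoImplicit false
set_option linter.unusedSectionVars false
set_option linter.unusedVariables false

namespace Pool.Agent.Lib.FL60

open WithZero Polynomial Pool.Agent.Lib.FM60 Pool.Agent.Lib.FMK60

/-- JOB L19 (WDeep). The deepest subgroup of the `p`-torsion at a place above `p`.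

PROOF. `V` is finite; let `μ = max v (X P)` over `P ≠ 0`; `μ > 1` by `hbig`, `hS`. Let
`H = D.toGT.big _ hA hB hμ` (`P ∈ H ↔ P = 0 ∨ μ ≤ v (X P)`; `TorsData.toGT` in Lib/FM60/Act.lean, `big`
in Lib/FM60/GT2.lean, usage in Lib/FM60/GoodWild.lean). By maximality `v (X P) = μ` on `H` minus `0`,
and `v (Y P)² = μ³` (`val_Y_big`). So `μ = (v (Y P) / v (X P))²`; put `v (Y P)/ v (X P) = exp β`, so
`μ = exp (2β)`, `β > 0`, and `v (zc D P) = v (X P)/v (Y P) = exp (-β)` (all `P ∈ H`, `P ≠ 0`: the square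
is `μ⁻¹`). `card H` divides `p²` and is not `1`.
Additivity: fix `P₁ ∈ H`, `P₁ ≠ 0`, `u = zc D P₁`, `v u = exp (-β)`, and apply `cusp_add` to
`scl (res D H) hu` (`YAdd.res`, `YAdd.scl`): `v (u⁴ A) < 1`, `v (u⁶ B) < 1`,
`v (u² X P) = 1` for `P ∈ H`, `P ≠ 0`; by `zc_scl`, `zc_res` this is the claim.
`gauss_points` (Lib/FMK60/GaussPtsK.lean; `P + P = 0 → P = 0` since `p` is odd, for example with
`GoodWild.half_double`): `v p ^ 2 * ∏_{P ≠ 0} max 1 (v (X P)) ≤ 1`; the product is at least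
`exp (2β) ^ (card H - 1)`, and it is strictly larger if some `P ∉ H` has `v (X P) > 1`. Take `log`:
`(card H - 1) * 2β ≤ 2n`. -/
theorem exists_deep {L : Type*} [Field L] {p : ℕ} (hp : p.Prime) (hp5 : 5 ≤ p)
    {v : Valuation L ℤᵐ⁰} (hv2 : v 2 = 1) (hv3 : v 3 = 1) {n : ℤ} (hn : 0 < n)
    (hvp : v (p : L) = exp (-n)) {A B : L} (hA : v A ≤ 1) (hB : v B ≤ 1)
    {V : Type*} [AddCommGroup V] (hV : Nat.card V = p ^ 2) (hpV : ∀ x : V, p • x = 0)
    (D : TorsData L A B V) (hY : YAdd D) {S : Finset L}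
    (hS : ∀ x, x ∈ S ↔ ∃ P : V, P ≠ 0 ∧ D.X P = x)
    (hprod : (⟨0, 0, 0, A, B⟩ : WeierstrassCurve L).preΨ' p =
      C (p : L) * ∏ x ∈ S, (X - C x)) (hbig : ∃ x ∈ S, 1 < v x) :
    ∃ (H : AddSubgroup V) (β : ℤ), 0 < β ∧ (Nat.card H = p ∨ Nat.card H = p ^ 2) ∧
      (∀ P, P ∈ H ↔ P = 0 ∨ v (D.X P) = exp (2 * β)) ∧
      (∀ P, P ≠ 0 → v (D.X P) ≤ exp (2 * β)) ∧
      (∀ P ∈ H, P ≠ 0 → v (zc D P) = exp (-β)) ∧
      (∀ P ∈ H, ∀ Q ∈ H, v (zc D (P + Q) - zc D P - zc D Q) < exp (-β)) ∧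
      ((Nat.card H : ℤ) - 1) * β ≤ n ∧
      (∀ P, P ∉ H → 1 < v (D.X P) → ((Nat.card H : ℤ) - 1) * β < n) := by
  classical
  have hfin : Finite V := Nat.finite_of_card_ne_zero (by
    rw [hV]; exact pow_ne_zero 2 hp.ne_zero)
  have hft : Fintype V := Fintype.ofFinite V
  have h00 : v (0 : L) ≤ 1 := by rw [map_zero]; exact zero_le
  -- the deepest point
  obtain ⟨x0, hx0S, hx0⟩ := hbig
  obtain ⟨P0, hP0, hP0x⟩ := (hS x0).1 hx0S
  obtain ⟨Q0, hQ0m, hQmax⟩ := Finset.exists_max_image (Finset.univ.erase (0 : V))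
    (fun P => v (D.X P)) ⟨P0, Finset.mem_erase.2 ⟨hP0, Finset.mem_univ _⟩⟩
  have hQ0 : Q0 ≠ 0 := (Finset.mem_erase.1 hQ0m).1
  have hmax : ∀ P : V, P ≠ 0 → v (D.X P) ≤ v (D.X Q0) := fun P hP =>
    hQmax P (Finset.mem_erase.2 ⟨hP, Finset.mem_univ _⟩)
  have hμ : 1 < v (D.X Q0) := by
    have h1 := hmax P0 hP0
    rw [hP0x] at h1
    exact lt_of_lt_of_le hx0 h1
  have hYQ : v (D.Y Q0) ^ 2 = v (D.X Q0) ^ 3 := D.toGT.val_Y_big h00 hA hB hQ0 hμ
  obtain ⟨β, hβ⟩ : ∃ β : ℤ, v (D.X Q0) = exp (2 * β) := by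
    have hx : v (D.X Q0) ≠ 0 := (lt_trans zero_lt_one hμ).ne'
    have hy : v (D.Y Q0) ≠ 0 := by
      intro h0
      rw [h0, zero_pow two_ne_zero] at hYQ
      exact pow_ne_zero 3 hx hYQ.symm
    obtain ⟨a, ha⟩ : ∃ a : ℤ, v (D.X Q0) = exp a := ⟨log (v (D.X Q0)), (exp_log hx).symm⟩
    obtain ⟨b, hb⟩ : ∃ b : ℤ, v (D.Y Q0) = exp b := ⟨log (v (D.Y Q0)), (exp_log hy).symm⟩
    rw [ha, hb, ← exp_nsmul, ← exp_nsmul] at hYQ
    have h1 := congrArg log hYQ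
    rw [log_exp, log_exp] at h1
    refine ⟨b - a, ?_⟩
    rw [ha]
    congr 1
    simp only [nsmul_eq_mul, Nat.cast_ofNat] at h1
    linarith
  have hβ0 : 0 < β := by
    rw [hβ, ← exp_zero, exp_lt_exp] at hμ
    omega
  set H : AddSubgroup V := D.toGT.big h00 hA hB hμ with hH
  have hmem : ∀ P, P ∈ H ↔ P = 0 ∨ v (D.X P) = exp (2 * β) := by
    intro P
    have h1 : P ∈ H ↔ P = 0 ∨ v (D.X Q0) ≤ v (D.X P) := Iff.rfl
    rw [h1, ← hβ]
    constructor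
    · rintro (h | h)
      · exact Or.inl h
      · by_cases hP : P = 0
        · exact Or.inl hP
        · exact Or.inr (le_antisymm (hmax P hP) h)
    · rintro (h | h)
      · exact Or.inl h
      · exact Or.inr h.ge
  have hQH : Q0 ∈ H := (hmem Q0).2 (Or.inr hβ)
  have hcard : Nat.card H = p ∨ Nat.card H = p ^ 2 := by
    have hdvd : Nat.card H ∣ p ^ 2 := by
      rw [← hV]
      exact AddSubgroup.card_addSubgroup_dvd_card H
    obtain ⟨k, hk, hk'⟩ := (Nat.dvd_prime_pow hp).mp hdvd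
    have hk0 : k ≠ 0 := by
      rintro rfl
      rw [pow_zero] at hk'
      have hbot : H = ⊥ := AddSubgroup.card_eq_one.mp hk'
      rw [hbot, AddSubgroup.mem_bot] at hQH
      exact hQ0 hQH
    have hk2 : k = 1 ∨ k = 2 := by omega
    rcases hk2 with rfl | rfl
    · left; rw [hk', pow_one]
    · right; exact hk'
  have hYH : ∀ P ∈ H, P ≠ 0 → v (D.X P) = exp (2 * β) ∧ v (D.Y P) = exp (3 * β) := by
    intro P hPH hP
    have h1 : v (D.X P) = exp (2 * β) := ((hmem P).1 hPH).resolve_left hP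
    have h2 : 1 < v (D.X P) := by rw [h1, ← hβ]; exact hμ
    have h3 : v (D.Y P) ^ 2 = v (D.X P) ^ 3 := D.toGT.val_Y_big h00 hA hB hP h2
    refine ⟨h1, ?_⟩
    have h4 : v (D.Y P) ^ 2 = (exp (3 * β) : ℤᵐ⁰) ^ 2 := by
      rw [h3, h1, ← exp_nsmul, ← exp_nsmul]
      congr 1
      simp only [nsmul_eq_mul, Nat.cast_ofNat]
      ring
    exact (pow_left_inj₀ zero_le zero_le two_ne_zero).mp h4
  have hzH : ∀ P ∈ H, P ≠ 0 → v (zc D P) = exp (-β) := by
    intro P hPH hP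
    obtain ⟨h1, h2⟩ := hYH P hPH hP
    rw [zc_of_ne D hP, map_div₀, h1, h2, ← exp_sub]
    congr 1
    ring
  -- additivity
  have hu : zc D Q0 ≠ 0 := by
    intro h0
    have h1 := hzH Q0 hQH hQ0
    rw [h0, map_zero] at h1
    exact exp_ne_zero h1.symm
  have hvu : v (zc D Q0) = exp (-β) := hzH Q0 hQH hQ0
  have hneg : ∀ j : ℕ, 0 < j → v (zc D Q0 ^ j) < 1 := by
    intro j hj
    rw [map_pow, hvu, ← exp_nsmul, ← exp_zero, exp_lt_exp]
    simp only [nsmul_eq_mul]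
    have : (0 : ℤ) < (j : ℤ) := by exact_mod_cast hj
    nlinarith
  have hadd : ∀ P ∈ H, ∀ Q ∈ H, v (zc D (P + Q) - zc D P - zc D Q) < exp (-β) := by
    intro P hPH Q hQH'
    have h1 := cusp_add (A := zc D Q0 ^ 4 * A) (B := zc D Q0 ^ 6 * B) hv2 hv3
      (by
        rw [map_mul]
        calc v (zc D Q0 ^ 4) * v A ≤ v (zc D Q0 ^ 4) * 1 := mul_le_mul' le_rfl hA
          _ = v (zc D Q0 ^ 4) := mul_one _
          _ < 1 := hneg 4 (by norm_num))
      (by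
        rw [map_mul]
        calc v (zc D Q0 ^ 6) * v B ≤ v (zc D Q0 ^ 6) * 1 := mul_le_mul' le_rfl hB
          _ = v (zc D Q0 ^ 6) := mul_one _
          _ < 1 := hneg 6 (by norm_num))
      (scl (res D H) hu) ((hY.res H).scl hu)
      (by
        intro R hR
        have hR' : (R : V) ≠ 0 := fun h => hR (Subtype.ext h)
        change v (zc D Q0 ^ 2 * D.X (R : V)) = 1
        rw [map_mul, map_pow, hvu, (hYH R R.2 hR').1, ← exp_nsmul, ← exp_add, ← exp_zero]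
        congr 1
        simp only [nsmul_eq_mul, Nat.cast_ofNat]
        ring)
      ⟨P, hPH⟩ ⟨Q, hQH'⟩
    rw [zc_scl, zc_scl, zc_scl, zc_res, zc_res, zc_res] at h1
    have h2 : (zc D Q0)⁻¹ * zc D ((⟨P, hPH⟩ + ⟨Q, hQH'⟩ : H) : V) - (zc D Q0)⁻¹ * zc D P -
        (zc D Q0)⁻¹ * zc D Q = (zc D Q0)⁻¹ * (zc D (P + Q) - zc D P - zc D Q) := by
      have e : ((⟨P, hPH⟩ + ⟨Q, hQH'⟩ : H) : V) = P + Q := rfl
      rw [e]; ring
    rw [h2, map_mul, map_inv₀, hvu] at h1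
    calc v (zc D (P + Q) - zc D P - zc D Q)
        = exp (-β) * ((exp (-β))⁻¹ * v (zc D (P + Q) - zc D P - zc D Q)) := by
          rw [mul_inv_cancel_left₀ exp_ne_zero]
      _ < exp (-β) * 1 := mul_lt_mul_of_pos_left h1 exp_pos
      _ = exp (-β) := mul_one _
  -- the Gauss bound
  have h2 : ∀ P : V, P + P = 0 → P = 0 := by
    intro P hP
    have h1 := GoodWild.half_double hp hp5 hpV P
    rw [hP, smul_zero] at h1
    exact h1.symm
  have hG := gauss_points hA hB D h2 hS hprod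
  set N : Finset V := (Finset.univ.erase (0 : V)).filter (fun P => P ∈ H) with hN
  have hNc : (N.card : ℤ) = (Nat.card H : ℤ) - 1 := by
    have h3 : (Finset.univ.filter (fun P : V => P ∈ H)).card = Nat.card H := by
      rw [Nat.card_eq_fintype_card, Fintype.card_subtype]
    have h4 : N = (Finset.univ.filter (fun P : V => P ∈ H)).erase 0 := by
      ext x
      simp only [hN, Finset.mem_filter, Finset.mem_erase, Finset.mem_univ, true_and, and_true]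
    have h5 : 0 < Nat.card H := Nat.card_pos
    rw [h4, Finset.card_erase_of_mem (by
      rw [Finset.mem_filter]; exact ⟨Finset.mem_univ _, H.zero_mem⟩), h3]
    omega
  have hprodN : ∏ P ∈ N, max 1 (v (D.X P)) = (exp (2 * β) : ℤᵐ⁰) ^ N.card := by
    rw [Finset.prod_congr rfl (g := fun _ => (exp (2 * β) : ℤᵐ⁰)), Finset.prod_const]
    intro x hx
    obtain ⟨hx1, hx2⟩ := Finset.mem_filter.1 hx
    have h3 := (hYH x hx2 (Finset.mem_erase.1 hx1).1).1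
    rw [h3, max_eq_right]
    rw [← hβ]; exact hμ.le
  have hle1 : ((Nat.card H : ℤ) - 1) * β ≤ n := by
    have h3 : (exp (2 * β) : ℤᵐ⁰) ^ N.card ≤
        ∏ P ∈ Finset.univ.erase (0 : V), max 1 (v (D.X P)) := by
      rw [← hprodN]
      apply Finset.prod_le_prod_of_subset_of_one_le' (Finset.filter_subset _ _)
      intro x _ _
      exact le_max_left _ _
    have h4 : v (p : L) ^ 2 * (exp (2 * β) : ℤᵐ⁰) ^ N.card ≤ 1 :=
      (mul_le_mul' le_rfl h3).trans hG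
    rw [hvp, ← exp_nsmul, ← exp_nsmul, ← exp_add, ← exp_zero, exp_le_exp] at h4
    simp only [nsmul_eq_mul, Nat.cast_ofNat] at h4
    rw [hNc] at h4
    nlinarith
  refine ⟨H, β, hβ0, hcard, hmem, fun P hP => by rw [← hβ]; exact hmax P hP, hzH, hadd, hle1, ?_⟩
  intro P hPH hP1
  have hPne : P ≠ 0 := by
    rintro rfl
    exact hPH H.zero_mem
  have hPN : P ∉ N := fun h => hPH (Finset.mem_filter.1 h).2
  have h3 : v (D.X P) * (exp (2 * β) : ℤᵐ⁰) ^ N.card ≤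
      ∏ P ∈ Finset.univ.erase (0 : V), max 1 (v (D.X P)) := by
    calc v (D.X P) * (exp (2 * β) : ℤᵐ⁰) ^ N.card
        = ∏ P ∈ insert P N, max 1 (v (D.X P)) := by
          rw [Finset.prod_insert hPN, hprodN, max_eq_right hP1.le]
      _ ≤ _ := by
          apply Finset.prod_le_prod_of_subset_of_one_le'
          · intro x hx
            rcases Finset.mem_insert.1 hx with rfl | hx
            · exact Finset.mem_erase.2 ⟨hPne, Finset.mem_univ _⟩
            · exact (Finset.mem_filter.1 hx).1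
          · intro x _ _
            exact le_max_left _ _
  have h4 : v (p : L) ^ 2 * (v (D.X P) * (exp (2 * β) : ℤᵐ⁰) ^ N.card) ≤ 1 :=
    (mul_le_mul' le_rfl h3).trans hG
  have hx : v (D.X P) ≠ 0 := (lt_trans zero_lt_one hP1).ne'
  obtain ⟨a, ha⟩ : ∃ a : ℤ, v (D.X P) = exp a := ⟨log (v (D.X P)), (exp_log hx).symm⟩
  rw [ha, ← exp_zero, exp_lt_exp] at hP1
  rw [ha, hvp, ← exp_nsmul, ← exp_nsmul, ← exp_add, ← exp_add, ← exp_zero, exp_le_exp] at h4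
  simp only [nsmul_eq_mul, Nat.cast_ofNat] at h4
  rw [hNc] at h4
  nlinarith

end Pool.Agent.Lib.FL60
end

section

set_option autoImplicit false
set_option linter.unusedSectionVars false
set_option linter.unusedVariables false

namespace Pool.Agent.Lib.FL60

open WithZero Polynomial Pool.Agent.Lib.FM60 Pool.Agent.Lib.FMK60

/-- JOB L25 (WAddA). The deep subgroup of the curve with additive reduction: it is found on the
scaled model `(A/ϖ^(4k), B/ϖ^(6k))`.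

PROOF. `v p < 1`, so `v ϖ < 1`, `ϖ ≠ 0`; `u = (ϖ ^ k)⁻¹`; `D' = scl D hu` is a `TorsData` for
`(u⁴ A, u⁶ B)` whose coefficients satisfy `v ≤ 1`, one of them `= 1` (`hA, hB, hAB`). Let
`S' = S.image (u² * ·)`: `hS'` clear, `hprod'` from `pre_scale` (`p` odd;
`Finset.prod_image`, `x ↦ u² x` is injective). `exists_big` and `exists_deep` (`n = card I`,
`v p = exp (-card I)` by `h.val_ell`) for `D'` give `H, β`. `v ϖ ^ 12 = v p` gives
`card I = 12 m`, `v ϖ = exp (-m)`, `0 < m`. `zc D' P = u⁻¹ zc D P = ϖ^k zc D P` (`zc_scl`), so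
`v (zc D P) = exp (-(β - k m))`, and the same for the additivity. Stability:
`P ∈ H ↔ P = 0 ∨ v (u² X P) = exp (2β)` and `v (X (ρ σ P)) = v (σ (X P)) = v (X P)` (`hρ.X`,
`h.inv`). -/
theorem deep_add {F L : Type*} [Field F] [Field L] [CharZero L] [Algebra F L] {p : ℕ}
    (hp : p.Prime) (hp17 : 17 ≤ p) {v : Valuation L ℤᵐ⁰} {I : Subgroup (L ≃ₐ[F] L)} [Finite I]
    (h : PlaceK F L p v I) {ϖ : L} (hϖ : v ϖ ^ 12 = v (p : L)) {A B : L} {k : ℕ}
    (hA : v A ≤ v ϖ ^ (4 * k)) (hB : v B ≤ v ϖ ^ (6 * k))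
    (hAB : v A = v ϖ ^ (4 * k) ∨ v B = v ϖ ^ (6 * k)) {V : Type*} [AddCommGroup V]
    (hV : Nat.card V = p ^ 2) (hpV : ∀ x : V, p • x = 0) (D : TorsData L A B V) (hY : YAdd D)
    {S : Finset L} (hS : ∀ x, x ∈ S ↔ ∃ P : V, P ≠ 0 ∧ D.X P = x)
    (hprod : (⟨0, 0, 0, A, B⟩ : WeierstrassCurve L).preΨ' p =
      C (p : L) * ∏ x ∈ S, (X - C x))
    {ρ : (L ≃ₐ[F] L) → V ≃+ V} (hρ : PreActK D ρ) :
    ∃ (H : AddSubgroup V) (m β : ℤ), (Nat.card I : ℤ) = 12 * m ∧ 0 < m ∧ 0 < β ∧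
      (Nat.card H = p ∨ Nat.card H = p ^ 2) ∧ ((Nat.card H : ℤ) - 1) * β ≤ Nat.card I ∧
      Deep v I D ρ H (β - k * m) := by
  classical
  have hvp1 : v (p : L) < 1 := h.val_lt
  have hn0 : v (p : L) ≠ 0 := (h.val_pos).ne'
  have hϖ0 : v ϖ ≠ 0 := by
    intro h0
    rw [h0, zero_pow (by norm_num)] at hϖ
    exact hn0 hϖ.symm
  have hϖL : ϖ ≠ 0 := by
    rintro rfl
    simp at hϖ0
  obtain ⟨m, hm⟩ : ∃ m : ℤ, v ϖ = exp (-m) :=
    ⟨-log (v ϖ), by rw [neg_neg]; exact (exp_log hϖ0).symm⟩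
  have hcI : (Nat.card I : ℤ) = 12 * m := by
    rw [hm, h.val_ell, ← exp_nsmul] at hϖ
    have h1 := exp_injective hϖ
    simp only [nsmul_eq_mul] at h1
    push_cast at h1
    linarith
  have hI0 : (0 : ℤ) < Nat.card I := by exact_mod_cast Nat.card_pos
  have hm0 : 0 < m := by omega
  have hu : (ϖ ^ k)⁻¹ ≠ 0 := inv_ne_zero (pow_ne_zero k hϖL)
  obtain ⟨u, hue⟩ : ∃ u : L, u = (ϖ ^ k)⁻¹ := ⟨_, rfl⟩
  rw [← hue] at hu
  have hvu : v u = exp (k * m) := by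
    rw [hue, map_inv₀, map_pow, hm, ← exp_nsmul, ← exp_neg]
    congr 1
    simp
  have hscA : ∀ j : ℕ, v u ^ j * v ϖ ^ (j * k) = 1 := by
    intro j
    rw [hvu, hm, ← exp_nsmul, ← exp_nsmul, ← exp_add, ← exp_zero]
    congr 1
    simp only [nsmul_eq_mul]
    push_cast
    ring
  have hA' : v (u ^ 4 * A) ≤ 1 := by
    rw [map_mul, map_pow, ← hscA 4]
    gcongr
  have hB' : v (u ^ 6 * B) ≤ 1 := by
    rw [map_mul, map_pow, ← hscA 6]
    gcongr
  have hAB' : v (u ^ 4 * A) = 1 ∨ v (u ^ 6 * B) = 1 := by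
    rcases hAB with h1 | h1
    · left
      rw [map_mul, map_pow, h1, hscA 4]
    · right
      rw [map_mul, map_pow, h1, hscA 6]
  have hpodd : Odd p := hp.odd_of_ne_two (by omega)
  have hnd : ∀ m : ℕ, 0 < m → m < p → ¬ p ∣ m := fun m h0 h1 => Nat.not_dvd_of_pos_of_lt h0 h1
  have hv2 : v (2 : L) = 1 := by
    simpa using h.nat_eq_one (m := 2) (hnd 2 (by norm_num) (by omega))
  have hv3 : v (3 : L) = 1 := by
    simpa using h.nat_eq_one (m := 3) (hnd 3 (by norm_num) (by omega))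
  have hinj : Function.Injective (fun x : L => u ^ 2 * x) :=
    fun x y hxy => mul_left_cancel₀ (pow_ne_zero 2 hu) hxy
  have hS' : ∀ x, x ∈ S.image (fun x => u ^ 2 * x) ↔ ∃ P : V, P ≠ 0 ∧ (scl D hu).X P = x := by
    intro x
    rw [Finset.mem_image]
    constructor
    · rintro ⟨y, hy, rfl⟩
      obtain ⟨P, hP, rfl⟩ := (hS y).1 hy
      exact ⟨P, hP, rfl⟩
    · rintro ⟨P, hP, rfl⟩
      exact ⟨D.X P, (hS _).2 ⟨P, hP, rfl⟩, rfl⟩
  have hprod' : (⟨0, 0, 0, u ^ 4 * A, u ^ 6 * B⟩ : WeierstrassCurve L).preΨ' p =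
      C (p : L) * ∏ x ∈ S.image (fun x => u ^ 2 * x), (X - C x) := by
    rw [pre_scale hu hpodd hprod, Finset.prod_image (fun x _ y _ hxy => hinj hxy)]
  have hbig := exists_big hv2 hv3 hA' hB' hAB' hpodd hvp1 hprod'
  obtain ⟨H, β, hβ, hcard, hmem, -, hval, hadd, hle, -⟩ :=
    exists_deep hp (by omega) hv2 hv3 hI0 h.val_ell hA' hB' hV hpV (scl D hu) (hY.scl hu)
      hS' hprod' hbig
  have hzc : ∀ P, zc D P = u * zc (scl D hu) P := by
    intro P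
    rw [zc_scl, ← mul_assoc, mul_inv_cancel₀ hu, one_mul]
  have hexp : exp (-(β - k * m)) = v u * exp (-β) := by
    rw [hvu, ← exp_add]
    congr 1
    ring
  refine ⟨H, m, β, hcI, hm0, hβ, hcard, hle, ⟨?_, ?_, ?_⟩⟩
  · intro P hP hP0
    rw [hzc, map_mul, hval P hP hP0, hexp]
  · intro P hP Q hQ
    have e : zc D (P + Q) - zc D P - zc D Q =
        u * (zc (scl D hu) (P + Q) - zc (scl D hu) P - zc (scl D hu) Q) := by
      rw [hzc (P + Q), hzc P, hzc Q]; ring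
    rw [e, map_mul, hexp]
    have hvu0 : 0 < v u := by rw [hvu]; exact exp_pos
    exact (mul_lt_mul_iff_right₀ hvu0).mpr (hadd P hP Q hQ)
  · intro σ hσ P hP
    rcases (hmem P).1 hP with h1 | h1
    · rw [h1, map_zero]
      exact H.zero_mem
    · refine (hmem _).2 (Or.inr ?_)
      change v (u ^ 2 * D.X (ρ σ P)) = _
      change v (u ^ 2 * D.X P) = _ at h1
      rw [hρ.X, map_mul, h.inv σ hσ, ← map_mul, h1]

end Pool.Agent.Lib.FL60
end

section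

set_option autoImplicit false
set_option linter.unusedSectionVars false
set_option linter.unusedVariables false

namespace Pool.Agent.Lib.FL60

open WithZero Polynomial Pool.Agent.Lib.FM60 Pool.Agent.Lib.FMK60

/-- JOB L26 (WAddB). The deep subgroup of the curve with good reduction.

PROOF. `v A₀ = 1` or `v B₀ = 1` as `v (4A₀³ + 27B₀²) = 1`. `exists_big`, `exists_deep` (with
`n = card I`) give `H₀, α₀`. `Deep`: as in `deep_add`. `prod_dvd`: `card I ∣ (card H₀ - 1) α₀`, and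
`0 < (card H₀ - 1) α₀ ≤ card I`, so equality. If `card H₀ = p²`, then `H₀ = ⊤`. If `card H₀ = p`: by the
last conclusion of `exists_deep` and the equality, `v (D₀.X P) ≤ 1` for all `P ∉ H₀`. Then
`ρ σ P - P ∈ H₀` for all `P`: for `P ∈ H₀` by stability, for `P ∉ H₀` by `good_quot`: either
`ρ σ P = P` or `1 < v (D₀.X (ρ σ P - P))`, which implies `ρ σ P - P ∈ H₀`. -/
theorem deep_good {F L : Type*} [Field F] [Field L] [CharZero L] [Algebra F L] {p : ℕ}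
    (hp : p.Prime) (hp17 : 17 ≤ p) {v : Valuation L ℤᵐ⁰} {I : Subgroup (L ≃ₐ[F] L)} [Finite I]
    (h : PlaceK F L p v I)
    (hfix : ∀ x : L, x ≠ 0 → (∀ σ ∈ I, σ x = x) → ∃ m : ℤ, v x = v (p : L) ^ m)
    {A₀ B₀ : L} (hA₀ : v A₀ ≤ 1) (hB₀ : v B₀ ≤ 1) (hΔ₀ : v (4 * A₀ ^ 3 + 27 * B₀ ^ 2) = 1)
    {V : Type*} [AddCommGroup V]
    (hV : Nat.card V = p ^ 2) (hpV : ∀ x : V, p • x = 0) (D₀ : TorsData L A₀ B₀ V)
    (hY₀ : YAdd D₀) {S₀ : Finset L} (hS₀ : ∀ x, x ∈ S₀ ↔ ∃ P : V, P ≠ 0 ∧ D₀.X P = x)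
    (hprod₀ : (⟨0, 0, 0, A₀, B₀⟩ : WeierstrassCurve L).preΨ' p =
      C (p : L) * ∏ x ∈ S₀, (X - C x))
    {ρ : (L ≃ₐ[F] L) → V ≃+ V} (hρ₀ : PreActK D₀ ρ) :
    ∃ (H₀ : AddSubgroup V) (α₀ : ℤ), Deep v I D₀ ρ H₀ α₀ ∧
      ((Nat.card H₀ : ℤ) - 1) * α₀ = Nat.card I ∧
      ((Nat.card H₀ = p ∧ ∀ σ ∈ I, ∀ P, ρ σ P - P ∈ H₀) ∨
        (Nat.card H₀ = p ^ 2 ∧ H₀ = ⊤)) := by
  have hp2 : ¬ p ∣ 2 := fun hd => by
    have := Nat.le_of_dvd (by norm_num) hd
    omega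
  have hp3 : ¬ p ∣ 3 := fun hd => by
    have := Nat.le_of_dvd (by norm_num) hd
    omega
  have hv2 : v (2 : L) = 1 := by
    have := h.nat_eq_one hp2
    rwa [Nat.cast_ofNat] at this
  have hv3 : v (3 : L) = 1 := by
    have := h.nat_eq_one hp3
    rwa [Nat.cast_ofNat] at this
  have hfinV : Finite V := Nat.finite_of_card_ne_zero (by
    rw [hV]
    exact pow_ne_zero 2 hp.ne_zero)
  have hAB : v A₀ = 1 ∨ v B₀ = 1 := by
    by_contra hc
    push Not at hc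
    have hA1 : v A₀ < 1 := lt_of_le_of_ne hA₀ hc.1
    have hB1 : v B₀ < 1 := lt_of_le_of_ne hB₀ hc.2
    have h4 : v (4 : L) ≤ 1 := by
      have := h.int_le 4
      simpa using this
    have h27 : v (27 : L) ≤ 1 := by
      have := h.int_le 27
      simpa using this
    have h1 : v (4 * A₀ ^ 3) < 1 := by
      rw [map_mul, map_pow]
      calc v 4 * v A₀ ^ 3 ≤ 1 * v A₀ ^ 3 := mul_le_mul_left h4 _
        _ < 1 := by
            rw [one_mul]
            exact pow_lt_one₀ zero_le hA1 (by norm_num)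
    have h2 : v (27 * B₀ ^ 2) < 1 := by
      rw [map_mul, map_pow]
      calc v 27 * v B₀ ^ 2 ≤ 1 * v B₀ ^ 2 := mul_le_mul_left h27 _
        _ < 1 := by
            rw [one_mul]
            exact pow_lt_one₀ zero_le hB1 (by norm_num)
    have h3 := v.map_add_lt h1 h2
    rw [hΔ₀] at h3
    exact lt_irrefl _ h3
  have hodd : Odd p := hp.odd_of_ne_two (by omega)
  have hbig := exists_big hv2 hv3 hA₀ hB₀ hAB hodd h.val_lt hprod₀
  have hIpos : (0 : ℤ) < Nat.card I := by exact_mod_cast Nat.card_pos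
  obtain ⟨H, β, hβ0, hcard, hmem, hmax, hzc, hadd, hle, hlt⟩ :=
    exists_deep hp (by omega) hv2 hv3 hIpos h.val_ell hA₀ hB₀ hV hpV D₀ hY₀ hS₀ hprod₀ hbig
  have hstab : ∀ σ ∈ I, ∀ P ∈ H, ρ σ P ∈ H := by
    intro σ hσ P hP
    rw [hmem] at hP ⊢
    rcases hP with hP | hP
    · left
      rw [hP, map_zero]
    · right
      rw [hρ₀.X, h.inv σ hσ]
      exact hP
  have hDeep : Deep v I D₀ ρ H β := ⟨hzc, hadd, hstab⟩
  have hdvd := prod_dvd h hfix hρ₀ H hstab hzc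
  have hcard1 : (1 : ℤ) < Nat.card H := by
    have h1 : 1 < p := hp.one_lt
    rcases hcard with e | e
    · rw [e]
      exact_mod_cast h1
    · rw [e]
      have : 1 < p ^ 2 := Nat.one_lt_pow (by norm_num) h1
      exact_mod_cast this
  have hpos : 0 < ((Nat.card H : ℤ) - 1) * β := mul_pos (by linarith) hβ0
  have heq : ((Nat.card H : ℤ) - 1) * β = Nat.card I :=
    le_antisymm hle (Int.le_of_dvd hpos hdvd)
  refine ⟨H, β, hDeep, heq, ?_⟩
  rcases hcard with e | e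
  · left
    refine ⟨e, ?_⟩
    have hout : ∀ P, P ∉ H → v (D₀.X P) ≤ 1 := by
      intro P hP
      by_contra hc
      rw [not_le] at hc
      have := hlt P hP hc
      rw [heq] at this
      exact lt_irrefl _ this
    intro σ hσ P
    by_cases hP : P ∈ H
    · exact H.sub_mem (hstab σ hσ P hP) hP
    · have hP0 : P ≠ 0 := fun h0 => hP (h0 ▸ H.zero_mem)
      rcases good_quot hp (by omega) hv2 hA₀ hB₀ hΔ₀ hpV D₀ σ (h.inertia σ hσ) (ρ σ) (hρ₀.X σ)
        (hρ₀.Y σ) hP0 (hout P hP) with h1 | h1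
      · rw [h1, sub_self]
        exact H.zero_mem
      · by_contra hc
        exact absurd (hout _ hc) (not_le.mpr h1)
  · right
    refine ⟨e, AddSubgroup.eq_top_of_card_eq H ?_⟩
    rw [e, hV]

end Pool.Agent.Lib.FL60
end

section

set_option autoImplicit false
set_option linter.unusedSectionVars false
set_option linter.unusedVariables false

namespace Pool.Agent.Lib.FL60

open WithZero Polynomial Pool.Agent.Lib.FM60 Pool.Agent.Lib.FMK60

private lemma wadd_quot {F L : Type*} [Field F] [Field L] [Algebra F L] {p : ℕ}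
    {v : Valuation L ℤᵐ⁰} {I : Subgroup (L ≃ₐ[F] L)} (h : PlaceK F L p v I) {z y : L}
    (hz : z ≠ 0) (hy : y ≠ 0) {σ : L ≃ₐ[F] L} (hσ : σ ∈ I) (ht : v (σ z / z - σ y / y) < 1) :
    v (σ (z / y) / (z / y) - 1) < 1 := by
  have hσy : σ y ≠ 0 := (map_ne_zero σ).mpr hy
  have e : σ (z / y) / (z / y) - 1 = (σ z / z - σ y / y) / (σ y / y) := by
    rw [map_div₀]
    field_simp
  have h1 : v (σ y / y) = 1 := by
    rw [map_div₀, h.inv σ hσ]
    exact div_self ((map_ne_zero v).mpr hy)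
  rw [e, map_div₀, h1, div_one]
  exact ht

private lemma wadd_ne {F L : Type*} [Field F] [Field L] [Algebra F L]
    {v : Valuation L ℤᵐ⁰} {I : Subgroup (L ≃ₐ[F] L)} {A B : L} {V : Type*} [AddCommGroup V]
    {D : TorsData L A B V} {ρ : (L ≃ₐ[F] L) → V ≃+ V} {H : AddSubgroup V} {α : ℤ}
    (hD : Deep v I D ρ H α) {P : V} (hP : P ∈ H) (hP0 : P ≠ 0) : zc D P ≠ 0 := by
  intro h0
  have h1 := hD.val P hP hP0
  rw [h0, map_zero] at h1
  exact exp_ne_zero h1.symm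

private lemma wadd_exists {V : Type*} [AddCommGroup V] (H : AddSubgroup V)
    (hc : Nat.card H ≠ 1) : ∃ P ∈ H, P ≠ 0 := by
  by_contra hn
  push Not at hn
  apply hc
  have : H = ⊥ := by
    rw [eq_bot_iff]
    intro P hP
    rw [AddSubgroup.mem_bot]
    exact hn P hP
  rw [this, AddSubgroup.card_bot]

/-- JOB L27 (WAddC). Additive reduction at `p` is impossible if the torsion is the torsion of a
curve with good reduction.

PROOF. `deep_add` gives `H, m, β` (`α = β - k m`), `deep_good` gives `H₀, α₀`. Choose `P ∈ H`,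
`P ≠ 0`, and `Q ∈ H₀`, `Q ≠ 0` (`card > 1`), `z = zc D P`, `z₀ = zc D₀ Q`, nonzero.
`prod_dvd`: `card I ∣ (card H - 1) α`.
If `card H₀ = p`: for all `σ ∈ I` by `eig_ord` `v (σ z/z - 1) < 1` or `v (σ z/z - σ z₀/z₀) < 1`, the
second means `v (σ y/y - 1) < 1` for `y = z/z₀` (`v (σ z₀/z₀) = 1`, `h.inv`). `union_chars` with
`y₁ = z`, `y₂ = z/z₀`: for one of them (call it `y`) `v (σ y/y - 1) < 1` for all `σ ∈ I`; `sym_dvd`:
`card I ∣ p^j log (v y)`, `log (v y) = -α` or `-(α - α₀)`. `arith_contra` with `w = α` or `α - α₀`.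
If `card H₀ = p²`, `H₀ = ⊤`: the same with `eig_ss`, `y₁ = z/z₀`, `y₂ = z/z₀^p`
(`σ y₂/y₂ = (σ z/z)/(σ z₀/z₀)^p`), `w = α - α₀` or `α - p α₀`. -/
theorem wild_add {F L : Type*} [Field F] [Field L] [CharZero L] [Algebra F L] {p : ℕ}
    (hp : p.Prime) (hp17 : 17 ≤ p) {v : Valuation L ℤᵐ⁰} {I : Subgroup (L ≃ₐ[F] L)} [Finite I]
    (h : PlaceK F L p v I)
    (hfix : ∀ x : L, x ≠ 0 → (∀ σ ∈ I, σ x = x) → ∃ m : ℤ, v x = v (p : L) ^ m)
    {ϖ : L} (hϖ : v ϖ ^ 12 = v (p : L)) {A B A₀ B₀ : L} {k : ℕ} (hk0 : 0 < k) (hk : k < 12)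
    (hA : v A ≤ v ϖ ^ (4 * k)) (hB : v B ≤ v ϖ ^ (6 * k))
    (hAB : v A = v ϖ ^ (4 * k) ∨ v B = v ϖ ^ (6 * k))
    (hA₀ : v A₀ ≤ 1) (hB₀ : v B₀ ≤ 1) (hΔ₀ : v (4 * A₀ ^ 3 + 27 * B₀ ^ 2) = 1)
    {V : Type*} [AddCommGroup V] (hV : Nat.card V = p ^ 2) (hpV : ∀ x : V, p • x = 0)
    (D : TorsData L A B V) (hY : YAdd D) (D₀ : TorsData L A₀ B₀ V) (hY₀ : YAdd D₀)
    {S S₀ : Finset L} (hS : ∀ x, x ∈ S ↔ ∃ P : V, P ≠ 0 ∧ D.X P = x)
    (hprod : (⟨0, 0, 0, A, B⟩ : WeierstrassCurve L).preΨ' p =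
      C (p : L) * ∏ x ∈ S, (X - C x))
    (hS₀ : ∀ x, x ∈ S₀ ↔ ∃ P : V, P ≠ 0 ∧ D₀.X P = x)
    (hprod₀ : (⟨0, 0, 0, A₀, B₀⟩ : WeierstrassCurve L).preΨ' p =
      C (p : L) * ∏ x ∈ S₀, (X - C x))
    {ρ : (L ≃ₐ[F] L) → V ≃+ V} (hρ : PreActK D ρ) (hρ₀ : PreActK D₀ ρ) : False := by
  obtain ⟨H, m, β, hn, hm, hβ0, hcard, hβle, hDeep⟩ :=
    deep_add hp hp17 h hϖ hA hB hAB hV hpV D hY hS hprod hρ
  obtain ⟨H₀, α₀, hDeep₀, hα₀, hcase⟩ :=
    deep_good hp hp17 h hfix hA₀ hB₀ hΔ₀ hV hpV D₀ hY₀ hS₀ hprod₀ hρ₀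
  have hfinV : Finite V := Nat.finite_of_card_ne_zero (by
    rw [hV]
    exact pow_ne_zero 2 hp.ne_zero)
  have hp1 : p ≠ 1 := hp.ne_one
  have hp21 : p ^ 2 ≠ 1 := by
    have : 1 < p ^ 2 := Nat.one_lt_pow (by norm_num) hp.one_lt
    omega
  obtain ⟨P, hP, hP0⟩ := wadd_exists H (by
    rcases hcard with e | e <;> rw [e] <;> assumption)
  obtain ⟨Q, hQ, hQ0⟩ := wadd_exists H₀ (by
    rcases hcase with ⟨e, -⟩ | ⟨e, -⟩ <;> rw [e] <;> assumption)
  have hz := wadd_ne hDeep hP hP0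
  have hz₀ := wadd_ne hDeep₀ hQ hQ0
  have hdvd := prod_dvd h hfix hρ H hDeep.stab hDeep.val
  have l1 : log (v (zc D P)) = -(β - k * m) := by
    rw [hDeep.val P hP hP0, log_exp]
  have l2 : log (v (zc D P / zc D₀ Q)) = -((β - k * m) - α₀) := by
    rw [map_div₀, hDeep.val P hP hP0, hDeep₀.val Q hQ hQ0, ← exp_sub, log_exp]
    ring
  have l3 : log (v (zc D P / zc D₀ Q ^ p)) = -((β - k * m) - p * α₀) := by
    rw [map_div₀, map_pow, hDeep.val P hP hP0, hDeep₀.val Q hQ hQ0, ← exp_nsmul, ← exp_sub,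
      log_exp, nsmul_eq_mul]
    ring
  have fin : ∀ (y : L) (w : ℤ), y ≠ 0 → log (v y) = -w →
      (w = (β - k * m) ∨ w = (β - k * m) - α₀ ∨
        (Nat.card H₀ = p ^ 2 ∧ w = (β - k * m) - p * α₀)) →
      (∀ σ ∈ I, v (σ y / y - 1) < 1) → False := by
    intro y w hy hw hcw hσ
    obtain ⟨j, hj⟩ := sym_dvd hp h hfix hy hσ
    rw [hw, mul_neg, dvd_neg] at hj
    exact arith_contra hp hp17 hn hm hk0 hk hcard (hcase.imp (fun e => e.1) fun e => e.1) hβ0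
      hβle rfl hα₀ hdvd hcw j hj
  rcases hcase with ⟨hc, hq⟩ | ⟨hc, htop⟩
  · have hun := union_chars h hz (div_ne_zero hz hz₀) (fun σ hσ => by
      rcases eig_ord h hρ hρ₀ hDeep hDeep₀ hp hc hσ (hq σ hσ) hP hP0 hQ hQ0 with h1 | h1
      · exact Or.inl h1
      · exact Or.inr (wadd_quot h hz hz₀ hσ h1))
    rcases hun with hu | hu
    · exact fin _ _ hz l1 (Or.inl rfl) hu
    · exact fin _ _ (div_ne_zero hz hz₀) l2 (Or.inr (Or.inl rfl)) hu
  · have hzp : zc D₀ Q ^ p ≠ 0 := pow_ne_zero _ hz₀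
    have hun := union_chars h (div_ne_zero hz hz₀) (div_ne_zero hz hzp) (fun σ hσ => by
      rcases eig_ss h hρ hρ₀ hDeep hDeep₀ hp hV hpV htop hσ hP hP0 hQ0 with h1 | h1
      · exact Or.inl (wadd_quot h hz hz₀ hσ h1)
      · refine Or.inr (wadd_quot h hz hzp hσ ?_)
        rw [map_pow, ← div_pow]
        exact h1)
    rcases hun with hu | hu
    · exact fin _ _ (div_ne_zero hz hz₀) l2 (Or.inr (Or.inl rfl)) hu
    · exact fin _ _ (div_ne_zero hz hzp) l3 (Or.inr (Or.inr ⟨hc, rfl⟩)) hu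

end Pool.Agent.Lib.FL60
end

section

set_option autoImplicit false
set_option linter.unusedSectionVars false
set_option linter.unusedVariables false

namespace Pool.Agent.Lib.FL60

open Polynomial WeierstrassCurve Pool.Agent.Lib.EC60 WithZero NumberField Pool.Agent.Lib.FM60
open Pool.Agent.Lib.FMK60 IsDedekindDomain

variable {K : Type*} [Field K] [NumberField K]
variable {Ω : Type*} [Field Ω] [DecidableEq Ω] [CharZero Ω] [Algebra K Ω] [IsAlgClosed Ω]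

/-- Integrality of the torsion of prime power order. -/
lemma int_of_data {A B : 𝓞 K} (hΔ : 4 * A ^ 3 + 27 * B ^ 2 ≠ 0) {p k ℓ : ℕ} (hp : p.Prime)
    (hℓp : ¬ ℓ ∣ p ^ k) {L : IntermediateField K Ω} {v : Valuation L ℤᵐ⁰}
    {I : Subgroup (L ≃ₐ[K] L)} (h : PlaceK K L ℓ v I) (hv2 : v 2 = 1)
    (D : TorsData L (algebraMap K L A) (algebraMap K L B) (Vp Ω A B (p ^ k)))
    (hX : ∀ P : Vp Ω A B (p ^ k), (D.X P : Ω) = xc P.1) (P : Vp Ω A B (p ^ k)) (hP : P ≠ 0) :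
    v (D.X P) ≤ 1 := by
  by_cases hp2 : p = 2
  · subst hp2
    exact int_two hv2 (h.int _ (isIntegral_coe A)) (h.int _ (isIntegral_coe B)) D k P hP
      (Vp_smul P)
  · exact val_x_le h hΔ ((hp.odd_of_ne_two hp2).pow) hℓp (Vp_val_ne hP) (Vp_smul_val P) (hX P)

/-- **LOC1, the tame local theorem.** Let `P` be a prime of `K`, not dividing `6`, unramified over
`ℚ`, where `E₀` has good reduction, and `q = p ^ k ≥ 5` a prime power prime to `P`. If
`E[q] ≅ E₀[q]`, and the model of `E` is minimal at `P`, and `P` divides the discriminant of `E`, then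
`E` has multiplicative reduction at `P` and `P ^ q` divides the discriminant. -/
theorem loc_tame [IsGalois K Ω] {A B A₀ B₀ : 𝓞 K} (hΔ : 4 * A ^ 3 + 27 * B ^ 2 ≠ 0)
    (hΔ₀ : 4 * A₀ ^ 3 + 27 * B₀ ^ 2 ≠ 0) {p k : ℕ} (hp : p.Prime) (hq : 5 ≤ p ^ k)
    (H : Congruent Ω (p ^ k) (curK A B) (curK A₀ B₀)) {P : HeightOneSpectrum (𝓞 K)}
    (hP : Good P) (hpP : (p : 𝓞 K) ∉ P.asIdeal) (h0 : 4 * A₀ ^ 3 + 27 * B₀ ^ 2 ∉ P.asIdeal)
    (hmin : ¬ (A ∈ P.asIdeal ^ 4 ∧ B ∈ P.asIdeal ^ 6))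
    (hD : 4 * A ^ 3 + 27 * B ^ 2 ∈ P.asIdeal) :
    A ∉ P.asIdeal ∧ 4 * A ^ 3 + 27 * B ^ 2 ∈ P.asIdeal ^ (p ^ k) := by
  classical
  obtain ⟨ℓ, hℓ, hℓ5, hmem, hmem2⟩ := hP.below
  have hPp := P.isPrime
  have hpk1 : 1 ≤ p ^ k := by omega
  have hk0 : k ≠ 0 := by
    rintro rfl
    rw [pow_zero] at hq; omega
  obtain ⟨k', rfl⟩ := Nat.exists_eq_succ_of_ne_zero hk0
  have hfd := finiteDimensional_divField (Ω := Ω) (curK_disc hΔ) hpk1
  have hgal := isGalois_divField (Ω := Ω) (W := curK A B) (p ^ k'.succ)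
  obtain ⟨L, hL⟩ : ∃ L : IntermediateField K Ω, L = divField Ω (curK A B) (p ^ k'.succ) :=
    ⟨_, rfl⟩
  rw [← hL] at hfd hgal
  have hL0 : divField Ω (curK A₀ B₀) (p ^ k'.succ) = L := by rw [hL]; exact (divField_eq H).symm
  obtain ⟨v, I, h, hvlt, hvex⟩ := exists_placeK K L P ℓ hℓ hmem hmem2
  obtain ⟨D, ρ, hρ, hYD, hX, -, hl⟩ := exists_torsData_gen (Ω := Ω) hΔ L hL.ge
  obtain ⟨D₀, ρ₀, hρ₀, -, hX₀, -, hl₀⟩ := exists_torsData_gen (Ω := Ω) hΔ₀ L hL0.le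
  have hℓp' : ¬ ℓ ∣ p := by
    intro h1
    rw [Nat.prime_dvd_prime_iff_eq hℓ hp] at h1
    rw [h1] at hmem
    exact hpP hmem
  have hℓp : ¬ ℓ ∣ p ^ k'.succ := fun h1 => hℓp' (hℓ.dvd_of_dvd_pow h1)
  have hnd : ∀ m : ℕ, 0 < m → m < ℓ → ¬ ℓ ∣ m := fun m h0 h1 => Nat.not_dvd_of_pos_of_lt h0 h1
  have hv2 : v 2 = 1 := by
    simpa using h.nat_eq_one (m := 2) (hnd 2 (by norm_num) (by omega))
  have hv3 : v 3 = 1 := by
    simpa using h.nat_eq_one (m := 3) (hnd 3 (by norm_num) (by omega))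
  have hvq : v ((p ^ k'.succ : ℕ) : L) = 1 := h.nat_eq_one hℓp
  have hint := int_of_data hΔ hp hℓp h hv2 D hX
  have hint₀ := int_of_data hΔ₀ hp hℓp h hv2 D₀ hX₀
  have hvA : v (algebraMap K L (A : K)) ≤ 1 := h.int _ (isIntegral_coe A)
  have hvB : v (algebraMap K L (B : K)) ≤ 1 := h.int _ (isIntegral_coe B)
  have hvA₀ : v (algebraMap K L (A₀ : K)) ≤ 1 := h.int _ (isIntegral_coe A₀)
  have hvB₀ : v (algebraMap K L (B₀ : K)) ≤ 1 := h.int _ (isIntegral_coe B₀)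
  have hvΔ₀ : v (4 * algebraMap K L (A₀ : K) ^ 3 + 27 * algebraMap K L (B₀ : K) ^ 2) = 1 := by
    rw [← map_del]
    exact le_antisymm (h.int _ (isIntegral_coe _)) (not_lt.mp (fun h2 => h0 ((hvlt _).mp h2)))
  -- the inertia group is trivial
  have hI : I = ⊥ := by
    rw [Subgroup.eq_bot_iff_forall]
    intro σ hσ
    have h1 : ∀ x, ρ₀ σ x = x := fun x =>
      good_tame' hv2 hvA₀ hvB₀ hvΔ₀ D₀ (fun P hP => hint₀ P hP) σ (h.inertia σ hσ) (ρ₀ σ)
        (hρ₀.X σ) (hρ₀.Y σ) x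
    exact faith L hL0.ge ρ₀ hl₀ σ h1
  have hIf : Finite I := by rw [hI]; infer_instance
  have hvl : v (ℓ : L) = exp (-1) := by
    rw [h.val_ell, hI]; simp
  have hDmap := map_del A B L
  obtain ⟨e, he, he', hve⟩ := exists_val_eq h hmem hmem2 hvlt _ hΔ
  have he0 : 0 < e := by
    rcases Nat.eq_zero_or_pos e with h1 | h1
    · rw [h1, zero_add, pow_one] at he'
      exact absurd hD he'
    · exact h1
  rw [hDmap, hvl, ← exp_nsmul] at hve
  have hve' : v (4 * algebraMap K L (A : K) ^ 3 + 27 * algebraMap K L (B : K) ^ 2) =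
      exp (-(e : ℤ)) := by
    rw [hve]; congr 1; simp
  have hsing : 4 * algebraMap K L (A : K) ^ 3 + 27 * algebraMap K L (B : K) ^ 2 ≠ 0 := by
    intro h1
    rw [h1, map_zero] at hve'
    exact exp_ne_zero hve'.symm
  have h27 : (27 : 𝓞 K) ∉ P.asIdeal := by
    intro h1
    apply hP.1
    have h2 : (3 : 𝓞 K) ^ 3 ∈ P.asIdeal := by
      have e1 : (3 : 𝓞 K) ^ 3 = 27 := by norm_num
      rw [e1]; exact h1
    have h3 := hPp.mem_of_pow_mem _ h2
    have e2 : (6 : 𝓞 K) = 2 * 3 := by norm_num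
    rw [e2]; exact Ideal.mul_mem_left _ _ h3
  have h4 : (4 : 𝓞 K) ∉ P.asIdeal := by
    intro h1
    apply hP.1
    have h2 : (2 : 𝓞 K) ^ 2 ∈ P.asIdeal := by
      have e1 : (2 : 𝓞 K) ^ 2 = 4 := by norm_num
      rw [e1]; exact h1
    have h3 := hPp.mem_of_pow_mem _ h2
    have e2 : (6 : 𝓞 K) = 3 * 2 := by norm_num
    rw [e2]; exact Ideal.mul_mem_left _ _ h3
  obtain ⟨hcard, hcardp⟩ := card_Vp (Ω := Ω) hΔ hpk1 hp.one_le
    (dvd_pow_self p (Nat.succ_ne_zero k'))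
  have hfinV : Finite (Vp Ω A B (p ^ k'.succ)) :=
    Nat.finite_of_card_ne_zero (by rw [hcard]; positivity)
  by_cases hA : A ∈ P.asIdeal
  · exfalso
    have hB : B ∈ P.asIdeal := by
      have h1 : 27 * B ^ 2 ∈ P.asIdeal := by
        have e : 27 * B ^ 2 = (4 * A ^ 3 + 27 * B ^ 2) - 4 * A ^ 2 * A := by ring
        rw [e]
        exact sub_mem hD (Ideal.mul_mem_left _ _ hA)
      rcases hPp.mem_or_mem h1 with h2 | h2
      · exact absurd h2 h27
      · exact hPp.mem_of_pow_mem _ h2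
    have hA' := (hvlt A).mpr hA
    have hB' := (hvlt B).mpr hB
    have hsmall := cusp_small hv2 hv3 hA' hB' D hYD (fun P hP => hint P hP) hvq (fun x => Vp_smul x)
    -- a point of order `q`
    obtain ⟨x, hx⟩ : ∃ x : Vp Ω A B (p ^ k'.succ), p ^ k' • x ≠ 0 := by
      by_contra hcon
      push Not at hcon
      obtain ⟨-, h1⟩ := card_Vp (Ω := Ω) hΔ hpk1 (Nat.one_le_pow k' p hp.pos)
        (pow_dvd_pow p (Nat.le_succ k'))
      have h2 : Nat.card {x : Vp Ω A B (p ^ k'.succ) // p ^ k' • x = 0} =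
          Nat.card (Vp Ω A B (p ^ k'.succ)) :=
        Nat.card_congr (Equiv.subtypeUnivEquiv hcon)
      rw [h1, hcard] at h2
      have h3 : p ^ k' < p ^ k'.succ := Nat.pow_lt_pow_right hp.one_lt (Nat.lt_succ_self k')
      have h4 : (p ^ k') ^ 2 < (p ^ k'.succ) ^ 2 := Nat.pow_lt_pow_left h3 two_ne_zero
      omega
    have : Fact p.Prime := ⟨hp⟩
    have hord : addOrderOf x = p ^ k'.succ :=
      addOrderOf_eq_prime_pow hx (Vp_smul x)
    have hne : ∀ j : ℕ, 0 < j → j < 5 → j • x ≠ 0 := by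
      intro j hj hj5 h1
      have h2 := addOrderOf_dvd_of_nsmul_eq_zero h1
      rw [hord] at h2
      have := Nat.le_of_dvd hj h2
      omega
    have hx1 : x ≠ 0 := fun h1 => hne 1 (by norm_num) (by norm_num) (by rw [h1, smul_zero])
    obtain ⟨h5, h6⟩ := cusp_min hv2 hv3 hsing D hsmall x hx1
      (hne 2 (by norm_num) (by norm_num)) (hne 3 (by norm_num) (by norm_num))
      (hne 4 (by norm_num) (by norm_num))
    apply hmin
    rw [mem_pow_iff hIf h hmem hmem2 hvlt, mem_pow_iff hIf h hmem hmem2 hvlt, hvl, ← exp_nsmul,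
      ← exp_nsmul]
    constructor
    · simpa using h5
    · simpa using h6
  · refine ⟨hA, ?_⟩
    have hA1 : v (algebraMap K L (A : K)) = 1 :=
      le_antisymm hvA (not_lt.mp (fun h2 => hA ((hvlt _).mp h2)))
    have hB0 : B ∉ P.asIdeal := by
      intro hB
      have h1 : 4 * A ^ 3 ∈ P.asIdeal := by
        have e : 4 * A ^ 3 = (4 * A ^ 3 + 27 * B ^ 2) - 27 * B * B := by ring
        rw [e]
        exact sub_mem hD (Ideal.mul_mem_left _ _ hB)
      rcases hPp.mem_or_mem h1 with h2 | h2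
      · exact absurd h2 h4
      · exact hA (hPp.mem_of_pow_mem _ h2)
    have hB1 : v (algebraMap K L (B : K)) = 1 :=
      le_antisymm hvB (not_lt.mp (fun h2 => hB0 ((hvlt _).mp h2)))
    have hDlt : v (4 * algebraMap K L (A : K) ^ 3 + 27 * algebraMap K L (B : K) ^ 2) < 1 := by
      rw [hve', ← exp_zero, exp_lt_exp]; omega
    have hnear : ∃ P : Vp Ω A B (p ^ k'.succ), P ≠ 0 ∧ p • P = 0 ∧
        v (D.X P - (-3 * algebraMap K L (B : K) / (2 * algebraMap K L (A : K)))) < 1 := by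
      by_cases hp2 : p = 2
      · subst hp2
        exact near_two hv2 hv3 hA1 hB1 hDlt (by rw [hcardp]; norm_num) D
      · have hvp : v (p : L) = 1 := h.nat_eq_one hℓp'
        obtain ⟨S, hS, hS2⟩ := exists_prod (Ω := Ω) hΔ (hp.odd_of_ne_two hp2) L (by
          intro Q hQ hpQ
          rw [hL]
          apply xc_mem hQ
          rw [pow_succ, mul_smul, hpQ, smul_zero])
        obtain ⟨x, hx, hx1⟩ := near_odd hp hp2 hv2 hv3 hvp hA1 hB1 hDlt hsing hS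
        obtain ⟨Q, hQ, hpQ, hxQ⟩ := (hS2 x).mp hx
        have hpQ' : p ^ k'.succ • Q = 0 := by rw [pow_succ, mul_smul, hpQ, smul_zero]
        refine ⟨⟨Q, mem_Vp hpQ'⟩, fun h1 => hQ (congrArg Subtype.val h1), Subtype.ext hpQ, ?_⟩
        have e1 : D.X ⟨Q, mem_Vp hpQ'⟩ = x := by
          apply Subtype.ext
          rw [hX]
          exact hxQ
        rw [e1]; exact hx1
    have hdvd := tame_mult hp (by omega) he0 hv2 hv3 hA1 hB1 hve' hcard (fun x => Vp_smul x)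
      hcardp D (fun P hP => hint P hP) hnear
    exact Ideal.pow_le_pow_right (Nat.le_of_dvd he0 hdvd) he

end Pool.Agent.Lib.FL60
end

section

set_option autoImplicit false
set_option linter.unusedSectionVars false
set_option linter.unusedVariables false

namespace Pool.Agent.Lib.FL60

open Polynomial WeierstrassCurve Pool.Agent.Lib.EC60 WithZero NumberField Pool.Agent.Lib.FM60
open Pool.Agent.Lib.FMK60 IsDedekindDomain

variable {K : Type*} [Field K] [NumberField K]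
variable {Ω : Type*} [Field Ω] [DecidableEq Ω] [CharZero Ω] [Algebra K Ω] [IsAlgClosed Ω]

lemma WLink_trS {L : Type*} [Field L] {A B : L} {V W : Type*} [AddCommGroup V] [AddCommGroup W]
    {D : TorsData L A B W} (φ : V ≃+ W) {S : Finset L}
    (hS : ∀ x, x ∈ S ↔ ∃ P : W, P ≠ 0 ∧ D.X P = x) (x : L) :
    x ∈ S ↔ ∃ P : V, P ≠ 0 ∧ (tr D φ).X P = x := by
  rw [hS]
  constructor
  · rintro ⟨P, hP, h⟩
    refine ⟨φ.symm P, fun h0 => hP ?_, ?_⟩
    · rw [← map_eq_zero_iff φ.symm φ.symm.injective]; exact h0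
    · change D.X (φ (φ.symm P)) = x
      rw [φ.apply_symm_apply]
      exact h
  · rintro ⟨P, hP, h⟩
    refine ⟨φ P, fun h0 => hP ?_, h⟩
    rw [← map_eq_zero_iff φ φ.injective]; exact h0

lemma WLink_S {A B : 𝓞 K} (hΔ : 4 * A ^ 3 + 27 * B ^ 2 ≠ 0) {n : ℕ} (hn : Odd n)
    (L : IntermediateField K Ω) (hle : divField Ω (curK A B) n ≤ L)
    (D : TorsData L (algebraMap K L A) (algebraMap K L B) (Vp Ω A B n))
    (hX : ∀ P : Vp Ω A B n, (D.X P : Ω) = xc P.1) :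
    ∃ S : Finset L, (∀ x, x ∈ S ↔ ∃ P : Vp Ω A B n, P ≠ 0 ∧ D.X P = x) ∧
      (⟨0, 0, 0, algebraMap K L A, algebraMap K L B⟩ : WeierstrassCurve L).preΨ' n =
          C (n : L) * ∏ x ∈ S, (X - C x) := by
  have hX' : ∀ P : Vp Ω A B n, xc P.1 ∈ L := by
    intro P
    have h1 := Vp_xc_mem P
    exact hle h1
  have h0 : ∀ P : ((curK A B).baseChange Ω).toAffine.Point, P ≠ 0 → n • P = 0 → xc P ∈ L := by
    intro P _ hpP
    exact hX' ⟨P, mem_Vp hpP⟩
  obtain ⟨S, hS, hS2⟩ := exists_prod hΔ hn L h0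
  refine ⟨S, fun x => ?_, hS⟩
  rw [hS2]
  constructor
  · rintro ⟨P, hP, hpP, h⟩
    refine ⟨⟨P, mem_Vp hpP⟩, fun h0 => hP (congrArg Subtype.val h0), Subtype.ext ?_⟩
    rw [hX]
    exact h
  · rintro ⟨P, hP, h⟩
    refine ⟨P.1, Vp_val_ne hP, Vp_smul_val P, ?_⟩
    rw [← hX, h]

/-- JOB L31 (WLink). Additive reduction at a prime above `p` where `E₀` is good: the `p`-torsion groups
are not isomorphic.

PROOF. `M = divField Ω (curK A B) p = divField Ω (curK A₀ B₀) p` (`divField_eq`; finite Galois: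
`finiteDimensional_divField`, `isGalois_divField`, see the proof of `link_genK` in
Lib/FMK60/LinkGenK.lean). `exists_field` gives `L ⊇ M` finite Galois with `ϖ ^ 12 = p`.
`exists_placeK2` for `L` gives `v, I`, `h`, `hvlt`, `hfix`. `exists_torsData_gen` for both curves gives
`D, ρ, YAdd` and `D₀', ρ₀, YAdd`; `exists_prod` (Lib/FMK60/CurveK.lean) as in the last part of the
proof of `exists_torsData_le` gives `S, S₀` (`D.X P` is determined by `hX : (D.X P : Ω) = xc P.1`).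
The isomorphism `φ : Vp Ω A B p ≃+ Vp Ω A₀ B₀ p` from `H` commutes with the actions: for `σ : L ≃ₐ[K] L`
let `τ = σ.liftNormal Ω`; `(ρ σ P).1 = act τ P.1`, `(ρ₀ σ P).1 = act τ P.1`, and `H` says
`Q.1 = act τ P.1 → (φ Q).1 = act τ (φ P).1` (`act` is `Affine.Point.map`, see
Lib/FM60/Congr.lean). `D₀ = tr D₀' φ`, `YAdd.tr`, `preAct_tr`; `S₀` works for `D₀` as `φ` is bijective.
Valuations: `v A = v p ^ a` or `A = 0` (`exists_val_eq`), the same for `B`; `v A < 1`, `v B < 1` by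
`hvlt`; `hmin` and `mem_pow_iff` give `¬ (v A ≤ v p ^ 4 ∧ v B ≤ v p ^ 6)`; `v p = v ϖ ^ 12`; `exists_k`.
`v A₀ ≤ 1`, `v B₀ ≤ 1`, `v (4A₀³ + 27 B₀²) = 1` as in `link_genK`. Then `wild_add`. -/
theorem loc_add [IsGalois K Ω] {A B A₀ B₀ : 𝓞 K} (hΔ : 4 * A ^ 3 + 27 * B ^ 2 ≠ 0)
    (hΔ₀ : 4 * A₀ ^ 3 + 27 * B₀ ^ 2 ≠ 0) {p : ℕ} (hp : p.Prime) (hp17 : 17 ≤ p)
    (H : Congruent Ω p (curK A B) (curK A₀ B₀)) {P : HeightOneSpectrum (𝓞 K)}
    (hpP : (p : 𝓞 K) ∈ P.asIdeal) (hpP2 : (p : 𝓞 K) ∉ P.asIdeal ^ 2)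
    (h0 : 4 * A₀ ^ 3 + 27 * B₀ ^ 2 ∉ P.asIdeal) (hA : A ∈ P.asIdeal) (hB : B ∈ P.asIdeal)
    (hmin : ¬ (A ∈ P.asIdeal ^ 4 ∧ B ∈ P.asIdeal ^ 6)) : False := by
  classical
  have hp2 : p ≠ 2 := by omega
  have hodd : Odd p := hp.odd_of_ne_two hp2
  have hfd₁ := finiteDimensional_divField (Ω := Ω) (curK_disc hΔ) hp.one_le
  have hgal₁ := isGalois_divField (Ω := Ω) (W := curK A B) p
  have heq := divField_eq (Ω := Ω) H
  obtain ⟨L, hML, hgal, hfd, ϖ, hϖ⟩ := exists_field (divField Ω (curK A B) p) hp.pos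
  have hle₁ : divField Ω (curK A B) p ≤ L := hML
  have hle₂ : divField Ω (curK A₀ B₀) p ≤ L := by rw [← heq]; exact hML
  obtain ⟨v, I, h, hvlt, hvex, hfixv⟩ := exists_placeK2 K L P p hp hpP hpP2
  obtain ⟨D, ρ, hρ, hYA, hX, hY, hl⟩ := exists_torsData_gen (Ω := Ω) hΔ L hle₁
  obtain ⟨D₀, ρ₀, hρ₀, hYA₀, hX₀, hY₀, hl₀⟩ := exists_torsData_gen (Ω := Ω) hΔ₀ L hle₂
  obtain ⟨φ, hφ⟩ := H
  have hφ' : ∀ (g : L ≃ₐ[K] L) (x : Vp Ω A B p), φ (ρ g x) = ρ₀ g (φ x) := by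
    intro g x
    have hτ : ∀ y : L, (g.liftNormal Ω : Ω ≃ₐ[K] Ω) (y : Ω) = (g y : Ω) :=
      fun y => g.liftNormal_commutes Ω y
    have e1 := hl _ g hτ x
    have e2 := hl₀ _ g hτ (φ x)
    have e3 := hφ (g.liftNormal Ω : Ω ≃ₐ[K] Ω) x (ρ g x) e1
    apply Subtype.ext
    rw [e2]
    exact e3
  -- the finite sets of abscissas
  obtain ⟨S, hS, hS1⟩ := WLink_S hΔ hodd L hle₁ D hX
  obtain ⟨S₀, hS₀', hS₀1⟩ := WLink_S hΔ₀ hodd L hle₂ D₀ hX₀
  have hS₀ := WLink_trS (D := D₀) φ hS₀'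
  -- the valuations
  have hIfin : Finite I := inferInstance
  have hvϖ : v ϖ ^ 12 = v (p : L) := by rw [← map_pow, hϖ]
  have hw0 : 0 < v ϖ := by
    rw [zero_lt_iff]
    intro h0
    have h1 := h.val_pos
    rw [← hvϖ, h0] at h1
    simp at h1
  have hw1 : v ϖ < 1 := by
    by_contra h0
    rw [not_lt] at h0
    have h1 := h.val_lt
    rw [← hvϖ] at h1
    exact absurd h1 (not_lt.mpr (one_le_pow₀ h0))
  have hex : ∀ a : 𝓞 K, v (algebraMap K L a) = 0 ∨ ∃ m : ℕ, v (algebraMap K L a) =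
      (v ϖ ^ 12) ^ m := by
    intro a
    by_cases ha : a = 0
    · left
      rw [ha]
      simp
    · right
      obtain ⟨m, -, -, hm⟩ := exists_val_eq h hpP hpP2 hvlt a ha
      exact ⟨m, by rw [hm, hvϖ]⟩
  have hmin' : ¬ (v (algebraMap K L A) ≤ (v ϖ ^ 12) ^ 4 ∧
      v (algebraMap K L B) ≤ (v ϖ ^ 12) ^ 6) := by
    rw [hvϖ, ← mem_pow_iff hIfin h hpP hpP2 hvlt, ← mem_pow_iff hIfin h hpP hpP2 hvlt]
    exact hmin
  obtain ⟨k, hk0, hk, hkA, hkB, hkAB⟩ := exists_k hw0 hw1 (hex A) (hex B) ((hvlt A).mpr hA)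
    ((hvlt B).mpr hB) hmin'
  have hvΔ : v (4 * algebraMap K L (A₀ : K) ^ 3 + 27 * algebraMap K L (B₀ : K) ^ 2) = 1 := by
    rw [← map_del]
    exact le_antisymm (h.int _ (isIntegral_coe _)) (not_lt.mp (fun h2 => h0 ((hvlt _).mp h2)))
  have hvA₀ : v (algebraMap K L (A₀ : K)) ≤ 1 := h.int _ (isIntegral_coe _)
  have hvB₀ : v (algebraMap K L (B₀ : K)) ≤ 1 := h.int _ (isIntegral_coe _)
  exact wild_add hp hp17 h hfixv hvϖ hk0 hk hkA hkB hkAB hvA₀ hvB₀ hvΔ (Vp_card (Ω := Ω) hΔ hp)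
    Vp_smul D hYA (tr D₀ φ) (hYA₀.tr φ) hS hS1 hS₀ hS₀1 hρ (preAct_tr hρ₀ φ hρ.mul hφ')

end Pool.Agent.Lib.FL60
end

section

set_option autoImplicit false
set_option linter.unusedSectionVars false
set_option linter.unusedVariables false

namespace Pool.Agent.Lib.FL60

open Polynomial WeierstrassCurve Pool.Agent.Lib.EC60 WithZero NumberField Pool.Agent.Lib.FM60
open Pool.Agent.Lib.FMK60 IsDedekindDomain

variable {K : Type*} [Field K] [NumberField K]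
variable {Ω : Type*} [Field Ω] [DecidableEq Ω] [CharZero Ω] [Algebra K Ω] [IsAlgClosed Ω]

/-- The exact power of a prime ideal containing a nonzero element. -/
lemma exists_exact (P : HeightOneSpectrum (𝓞 K)) {a : 𝓞 K} (ha : a ≠ 0) :
    ∃ m : ℕ, a ∈ P.asIdeal ^ m ∧ a ∉ P.asIdeal ^ (m + 1) := by
  have hPprime : Prime P.asIdeal := Ideal.prime_of_isPrime P.ne_bot P.isPrime
  have hspan0 : Ideal.span {a} ≠ ⊥ := by
    rw [ne_eq, Ideal.span_singleton_eq_bot]; exact ha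
  have hfin : FiniteMultiplicity P.asIdeal (Ideal.span {a}) :=
    FiniteMultiplicity.of_prime_left hPprime hspan0
  obtain ⟨A, hA, hA2⟩ := hfin.exists_eq_pow_mul_and_not_dvd
  set m := multiplicity P.asIdeal (Ideal.span {a}) with hm
  refine ⟨m, ?_, ?_⟩
  · rw [← Ideal.dvd_span_singleton]
    exact ⟨A, hA⟩
  · rw [← Ideal.dvd_span_singleton]
    rintro ⟨B, hB⟩
    apply hA2
    rw [hA, pow_succ, mul_assoc] at hB
    exact ⟨B, mul_left_cancel₀ (pow_ne_zero m hPprime.ne_zero) hB⟩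

/-- **LOC2, the wild local theorem.** Let `P` be a prime of `K` above `p ≥ 17`, unramified over `ℚ`,
where `E₀` has good reduction. If `E[p] ≅ E₀[p]`, and the model of `E` is minimal at `P`, and `P`
divides the discriminant of `E`, then `E` has multiplicative reduction at `P` and `P ^ p` divides the
discriminant. -/
theorem loc_wild [IsGalois K Ω] {A B A₀ B₀ : 𝓞 K} (hΔ : 4 * A ^ 3 + 27 * B ^ 2 ≠ 0)
    (hΔ₀ : 4 * A₀ ^ 3 + 27 * B₀ ^ 2 ≠ 0) {p : ℕ} (hp : p.Prime) (hp17 : 17 ≤ p)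
    (H : Congruent Ω p (curK A B) (curK A₀ B₀)) {P : HeightOneSpectrum (𝓞 K)}
    (hpP : (p : 𝓞 K) ∈ P.asIdeal) (hpP2 : (p : 𝓞 K) ∉ P.asIdeal ^ 2)
    (h0 : 4 * A₀ ^ 3 + 27 * B₀ ^ 2 ∉ P.asIdeal)
    (hmin : ¬ (A ∈ P.asIdeal ^ 4 ∧ B ∈ P.asIdeal ^ 6))
    (hD : 4 * A ^ 3 + 27 * B ^ 2 ∈ P.asIdeal) :
    A ∉ P.asIdeal ∧ 4 * A ^ 3 + 27 * B ^ 2 ∈ P.asIdeal ^ p := by
  have hPp := P.isPrime
  by_cases hA : A ∈ P.asIdeal
  · exfalso
    have hB : B ∈ P.asIdeal := by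
      have h1 : 27 * B ^ 2 ∈ P.asIdeal := by
        have e : 27 * B ^ 2 = (4 * A ^ 3 + 27 * B ^ 2) - 4 * A ^ 2 * A := by ring
        rw [e]
        exact sub_mem hD (Ideal.mul_mem_left _ _ hA)
      rcases hPp.mem_or_mem h1 with h2 | h2
      · exfalso
        have h3 : ((27 : ℕ) : 𝓞 K) ∈ P.asIdeal := by exact_mod_cast h2
        have hcop : Nat.Coprime p 27 := by
          rw [Nat.Prime.coprime_iff_not_dvd hp]
          intro h4
          have h5 : p ∣ 3 ^ 3 := by simpa using h4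
          have h6 := (Nat.prime_dvd_prime_iff_eq hp Nat.prime_three).mp (hp.dvd_of_dvd_pow h5)
          omega
        have h7 : IsCoprime (p : ℤ) ((27 : ℕ) : ℤ) := Nat.isCoprime_iff_coprime.mpr hcop
        obtain ⟨a, b, hab⟩ := h7
        apply hPp.ne_top
        rw [Ideal.eq_top_iff_one]
        have h8 : (1 : 𝓞 K) = (a : 𝓞 K) * (p : 𝓞 K) + (b : 𝓞 K) * ((27 : ℕ) : 𝓞 K) := by
          exact_mod_cast hab.symm
        rw [h8]
        exact add_mem (Ideal.mul_mem_left _ _ hpP) (Ideal.mul_mem_left _ _ h3)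
      · exact hPp.mem_of_pow_mem _ h2
    exact loc_add (Ω := Ω) hΔ hΔ₀ hp hp17 H hpP hpP2 h0 hA hB hmin
  · refine ⟨hA, ?_⟩
    obtain ⟨e, he, he'⟩ := exists_exact P hΔ
    by_cases hpe : p ∣ e
    · have he0 : e ≠ 0 := by
        rintro rfl
        rw [zero_add, pow_one] at he'
        exact he' hD
      exact Ideal.pow_le_pow_right (Nat.le_of_dvd (Nat.pos_of_ne_zero he0) hpe) he
    · exact (loc_mult (Ω := Ω) hΔ hΔ₀ hp hp17 H hpP hpP2 h0 hA hD he he' hpe).elim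

end Pool.Agent.Lib.FL60
end

section

/-!
MP_4a0cc8_nt: the local statements in the form used in the final assembly.
-/

set_option autoImplicit false

namespace Pool.Agent.Lib.MP_4a0cc8_ntC

open NumberField Module IsDedekindDomain
open Pool.Agent.Lib.FMK60 (InBox Del Hle curK)
open Pool.Agent.Lib.FM60 (Congruent)

theorem tc_loc1 (K : Type*) [Field K] [NumberField K] (Ω : Type*) [Field Ω] [DecidableEq Ω]
    [CharZero Ω] [Algebra K Ω] [IsAlgClosed Ω] [IsGalois K Ω] : Loc1 K Ω := by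
  intro p k hp hq A B A₀ B₀ h h0 P hP hP0 hpP h6 hram h0P hmin hc hD
  exact Pool.Agent.Lib.FL60.loc_tame (P := ⟨P, hP, hP0⟩) h h0 hp hq hc ⟨h6, hram⟩ hpP h0P hmin hD

theorem tc_loc2 (K : Type*) [Field K] [NumberField K] (Ω : Type*) [Field Ω] [DecidableEq Ω]
    [CharZero Ω] [Algebra K Ω] [IsAlgClosed Ω] [IsGalois K Ω] : Loc2 K Ω := by
  intro p hp h17 A B A₀ B₀ h h0 P hP hP0 hpP hp2 h0P hmin hc hD
  exact Pool.Agent.Lib.FL60.loc_wild (P := ⟨P, hP, hP0⟩) h h0 hp h17 hc hpP hp2 h0P hmin hD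

end Pool.Agent.Lib.MP_4a0cc8_ntC
end
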