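import Pool.Agent.Lib.MP_4a0cc8_ntC.Ord
import Pool.Agent.Lib.MP_4a0cc8_ntC.Defs

section

/-!
MP_4a0cc8_nt (C): the local choice of `a` and of the exponent of `s`.
-/

set_option autoImplicit false

namespace Pool.Agent.Lib.MP_4a0cc8_ntC

open NumberField Module

/-- Two identities. Proof. `subst`, `ring`. -/
theorem tc_ident {R : Type*} [CommRing R] (A B a u D : R) (hu : u = 2 * A * a + 3 * B)
    (hD : D = 4 * A ^ 3 + 27 * B ^ 2) :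
    8 * A ^ 3 * (a ^ 3 + A * a + B) = u ^ 3 - 9 * B * u ^ 2 + D * u - B * D ∧
    4 * A ^ 2 * (3 * a ^ 2 + A) = 3 * u ^ 2 - 18 * B * u + D := by
  subst hu hD
  constructor <;> ring

section

variable {K : Type*} [Field K] [NumberField K]

/-- cancellation -/
private theorem tc_loc_div {P : Ideal (𝓞 K)} (hP : P.IsPrime) (hP0 : P ≠ ⊥) {x y : 𝓞 K}
    (hx : x ≠ 0) {n : ℕ} (h : x * y ∈ P ^ n) {m : ℕ} (hm : m + ordP P x ≤ n) : y ∈ P ^ m := by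
  rcases eq_or_ne y 0 with rfl | hy
  · exact zero_mem _
  · rw [tc_mem_pow_iff hP hP0 hy]
    rw [tc_mem_pow_iff hP hP0 (mul_ne_zero hx hy), tc_ordP_mul P hx hy] at h
    omega

/-- two summands of a sum of larger order have the same order -/
private theorem tc_loc_eq {P : Ideal (𝓞 K)} (hP : P.IsPrime) (hP0 : P ≠ ⊥) {x y : 𝓞 K}
    (hx : x ≠ 0) (hy : y ≠ 0) (h : x + y ∈ P ^ (ordP P x + 1)) : ordP P y = ordP P x := by
  have h1 : ordP P x ≤ ordP P y := by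
    rw [← tc_mem_pow_iff hP hP0 hy]
    have h2 : y = (x + y) - x := by ring
    rw [h2]
    exact sub_mem (Ideal.pow_le_pow_right (Nat.le_succ _) h)
      ((tc_mem_pow_iff hP hP0 hx _).2 le_rfl)
  by_contra hne
  have h2 : ordP P x + 1 ≤ ordP P y := by omega
  rw [← tc_mem_pow_iff hP hP0 hy] at h2
  have h3 : x ∈ P ^ (ordP P x + 1) := by
    have h4 : (x + y) - y = x := by ring
    have h5 := sub_mem h h2
    rwa [h4] at h5
  rw [tc_mem_pow_iff hP hP0 hx] at h3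
  omega

end

/-- **The local choice.** There is `c` depending on `K` and `k` such that for every nonzero prime
ideal `P` and `A, B`, not both in `P ^ k`, there are `s` and `a` with `f(a) ∈ P ^ (2s)`,
`f'(a) ∈ P ^ s`, and the order of `D = 4A³ + 27B²` is less than `2s + c`.

Proof. Write `v` for `ordP P`, `e` from `tc_six` (so `v 2, v 3 < e`), `c₀ = 4 e + 3 k`, `c = c₀ + 2`.
If `v D < c₀` take `s = 0, a = 0`. Let `v D ≥ c₀`.
(1) `A ≠ 0`: otherwise `B ∉ P ^ k`, `B ≠ 0`, `v D = v (27 B²) = 3 v 3 + 2 v B < 3 e + 2 k`. `B ≠ 0`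
in the same way (`v D = 2 v 2 + 3 v A`). Let `α = v A`, `β = v B`; `α < k` or `β < k`.
(2) `2 v 2 + 3 α = 3 v 3 + 2 β =: m` and `m < 3 e + 3 k`: if `α < k` then
`v (4 A³) = 2 v 2 + 3 α < 2 e + 3 k ≤ v D`, and `27 B² = D - 4 A³` has the same order as `4 A³`
(if `v x < v y` then `v (x ± y) = v x`: by `tc_mem_pow_iff`). Similarly if `β < k`.
(3) `v (2 A) ≤ v (3 B)`, that is `v 2 + α ≤ v 3 + β`: by (2), `3 (v 3 + β) = 2 v 2 + 3 α + β`, so it is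
enough that `v 2 ≤ β`. If `v 2 > 0` then `v 3 = 0` (`1 = 3 - 2 ∉ P`), `2 β = 2 v 2 + 3 α`.
(4) Let `w = v D + β`. By `tc_solve` (with `x = 2 A`, `y = -3 B`) there is `a` with
`u = 2 A a + 3 B ∈ P ^ w`. By `tc_ident`: `8 A³ f(a) = u³ - 9 B u² + D u - B D ∈ P ^ (v D + β)`, so
`f(a) = 0` or `3 v 2 + 3 α + v (f a) ≥ v D + β`; in both cases `f(a) ∈ P ^ (v D - (4 e + 3 k))`,
since `3 v 2 + 3 α = m + v 2 < 4 e + 3 k`. And `4 A² f'(a) = 3 u² - 18 B u + D ∈ P ^ (v D)`, so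
`f'(a) ∈ P ^ (v D - 2 v 2 - 2 α)`, `2 v 2 + 2 α ≤ m ≤ c₀`.
(5) `s = (v D - c₀) / 2`: `2 s ≤ v D - c₀`, so `f(a) ∈ P ^ (2 s)`, `f'(a) ∈ P ^ s`, and
`v D ≤ 2 s + 1 + c₀ < 2 s + c`. -/
theorem tc_exists_local (K : Type*) [Field K] [NumberField K] (k : ℕ) :
    ∃ c : ℕ, ∀ P : Ideal (𝓞 K), P.IsPrime → P ≠ ⊥ → ∀ A B : 𝓞 K, 4 * A ^ 3 + 27 * B ^ 2 ≠ 0 →
      ¬ (A ∈ P ^ k ∧ B ∈ P ^ k) → ∃ (s : ℕ) (a : 𝓞 K), a ^ 3 + A * a + B ∈ P ^ (2 * s) ∧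
        3 * a ^ 2 + A ∈ P ^ s ∧ 4 * A ^ 3 + 27 * B ^ 2 ∉ P ^ (2 * s + c) := by
  obtain ⟨e, he⟩ := tc_six K
  refine ⟨4 * e + 3 * k + 2, fun P hP hP0 A B hD hAB => ?_⟩
  have h6 := he P hP hP0
  have h20 : (2 : 𝓞 K) ≠ 0 := by norm_num
  have h30 : (3 : 𝓞 K) ≠ 0 := by norm_num
  have h60 : (6 : 𝓞 K) ≠ 0 := by norm_num
  rw [tc_mem_pow_iff hP hP0 h60, show (6 : 𝓞 K) = 2 * 3 by norm_num,
    tc_ordP_mul P h20 h30] at h6
  have hmem := fun {x : 𝓞 K} (hx : x ≠ 0) (n : ℕ) => tc_mem_pow_iff hP hP0 hx n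
  set D := 4 * A ^ 3 + 27 * B ^ 2 with hDdef
  rcases Nat.lt_or_ge (ordP P D) (4 * e + 3 * k) with hlt | hge
  · refine ⟨0, 0, ?_, ?_, ?_⟩
    · rw [Nat.mul_zero, pow_zero, Ideal.one_eq_top]
      exact Submodule.mem_top
    · rw [pow_zero, Ideal.one_eq_top]
      exact Submodule.mem_top
    · rw [hmem hD]
      omega
  have h4A : ∀ hA : A ≠ 0, ordP P (4 * A ^ 3) = 2 * ordP P 2 + 3 * ordP P A := by
    intro hA
    rw [show (4 : 𝓞 K) = 2 ^ 2 by norm_num, tc_ordP_mul P (pow_ne_zero _ h20) (pow_ne_zero _ hA),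
      tc_ordP_pow P h20, tc_ordP_pow P hA]
  have h27B : ∀ hB : B ≠ 0, ordP P (27 * B ^ 2) = 3 * ordP P 3 + 2 * ordP P B := by
    intro hB
    rw [show (27 : 𝓞 K) = 3 ^ 3 by norm_num, tc_ordP_mul P (pow_ne_zero _ h30) (pow_ne_zero _ hB),
      tc_ordP_pow P h30, tc_ordP_pow P hB]
  have hA : A ≠ 0 := by
    intro hA
    have hDB : D = 27 * B ^ 2 := by rw [hDdef, hA]; ring
    have hB : B ≠ 0 := by
      rintro rfl
      exact hD (by rw [hDB]; ring)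
    have hBk : B ∉ P ^ k := fun h => hAB ⟨by rw [hA]; exact zero_mem _, h⟩
    rw [hmem hB] at hBk
    rw [hDB, h27B hB] at hge
    omega
  have hB : B ≠ 0 := by
    intro hB
    have hDA : D = 4 * A ^ 3 := by rw [hDdef, hB]; ring
    have hAk : A ∉ P ^ k := fun h => hAB ⟨h, by rw [hB]; exact zero_mem _⟩
    rw [hmem hA] at hAk
    rw [hDA, h4A hA] at hge
    omega
  have hX : (4 : 𝓞 K) * A ^ 3 ≠ 0 := mul_ne_zero (by norm_num) (pow_ne_zero _ hA)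
  have hY : (27 : 𝓞 K) * B ^ 2 ≠ 0 := mul_ne_zero (by norm_num) (pow_ne_zero _ hB)
  have hkk : ordP P A < k ∨ ordP P B < k := by
    by_contra hcon
    push Not at hcon
    exact hAB ⟨(hmem hA k).2 hcon.1, (hmem hB k).2 hcon.2⟩
  -- (2)
  have h2m : 2 * ordP P 2 + 3 * ordP P A = 3 * ordP P 3 + 2 * ordP P B ∧
      2 * ordP P 2 + 3 * ordP P A < 3 * e + 3 * k := by
    rcases hkk with h | h
    · have h1 : ordP P (4 * A ^ 3) < ordP P D := by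
        rw [h4A hA]
        omega
      have h2 := tc_loc_eq hP hP0 hX hY ((hmem hD _).2 h1)
      rw [h4A hA, h27B hB] at h2
      omega
    · have h1 : ordP P (27 * B ^ 2) < ordP P D := by
        rw [h27B hB]
        omega
      have h3 : 27 * B ^ 2 + 4 * A ^ 3 ∈ P ^ (ordP P (27 * B ^ 2) + 1) := by
        rw [add_comm (27 * B ^ 2)]
        exact (hmem hD _).2 h1
      have h2 := tc_loc_eq hP hP0 hY hX h3
      rw [h4A hA, h27B hB] at h2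
      omega
  obtain ⟨hm1, hm2⟩ := h2m
  -- (3)
  have h23 : ordP P 2 = 0 ∨ ordP P 3 = 0 := by
    by_contra hcon
    push Not at hcon
    have h2 : (2 : 𝓞 K) ∈ P ^ 1 := (hmem h20 1).2 (Nat.one_le_iff_ne_zero.2 hcon.1)
    have h3 : (3 : 𝓞 K) ∈ P ^ 1 := (hmem h30 1).2 (Nat.one_le_iff_ne_zero.2 hcon.2)
    rw [pow_one] at h2 h3
    have h1 : (1 : 𝓞 K) ∈ P := by
      have := sub_mem h3 h2
      rwa [show (3 : 𝓞 K) - 2 = 1 by norm_num] at this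
    exact hP.ne_top ((Ideal.eq_top_iff_one P).2 h1)
  have h2A : ordP P (2 * A) = ordP P 2 + ordP P A := tc_ordP_mul P h20 hA
  have h3B : ordP P (3 * B) = ordP P 3 + ordP P B := tc_ordP_mul P h30 hB
  have hle : ordP P (2 * A) ≤ ordP P (3 * B) := by
    rw [h2A, h3B]
    omega
  -- (4)
  have hy : -(3 * B) ∈ P ^ ordP P (2 * A) :=
    neg_mem ((hmem (mul_ne_zero h30 hB) _).2 hle)
  obtain ⟨a, ha⟩ := tc_solve hP hP0 (mul_ne_zero h20 hA) hy (ordP P D + ordP P B)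
  set u := 2 * A * a + 3 * B with hu
  have hua : 2 * A * a - -(3 * B) = u := by rw [hu]; ring
  rw [hua] at ha
  obtain ⟨i1, i2⟩ := tc_ident A B a u D hu hDdef
  have hDB : B * D ∈ P ^ (ordP P D + ordP P B) := by
    rw [hmem (mul_ne_zero hB hD), tc_ordP_mul P hB hD]
    omega
  have hf : 8 * A ^ 3 * (a ^ 3 + A * a + B) ∈ P ^ (ordP P D + ordP P B) := by
    rw [i1]
    have e1 : u ^ 3 - 9 * B * u ^ 2 + D * u - B * D =
        (u ^ 2 - 9 * B * u + D) * u - B * D := by ring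
    rw [e1]
    exact sub_mem (Ideal.mul_mem_left _ _ ha) hDB
  have hf' : 4 * A ^ 2 * (3 * a ^ 2 + A) ∈ P ^ ordP P D := by
    rw [i2]
    have e1 : 3 * u ^ 2 - 18 * B * u + D = (3 * u - 18 * B) * u + D := by ring
    rw [e1]
    exact add_mem (Ideal.mul_mem_left _ _ (Ideal.pow_le_pow_right (Nat.le_add_right _ _) ha))
      ((hmem hD _).2 le_rfl)
  have h8A : ordP P (8 * A ^ 3) = 3 * ordP P 2 + 3 * ordP P A := by
    rw [show (8 : 𝓞 K) = 2 ^ 3 by norm_num, tc_ordP_mul P (pow_ne_zero _ h20) (pow_ne_zero _ hA),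
      tc_ordP_pow P h20, tc_ordP_pow P hA]
  have h4A2 : ordP P (4 * A ^ 2) = 2 * ordP P 2 + 2 * ordP P A := by
    rw [show (4 : 𝓞 K) = 2 ^ 2 by norm_num, tc_ordP_mul P (pow_ne_zero _ h20) (pow_ne_zero _ hA),
      tc_ordP_pow P h20, tc_ordP_pow P hA]
  have n8 : (8 : 𝓞 K) * A ^ 3 ≠ 0 := mul_ne_zero (by norm_num) (pow_ne_zero _ hA)
  have n4 : (4 : 𝓞 K) * A ^ 2 ≠ 0 := mul_ne_zero (by norm_num) (pow_ne_zero _ hA)
  refine ⟨(ordP P D - (4 * e + 3 * k)) / 2, a, ?_, ?_, ?_⟩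
  · refine tc_loc_div hP hP0 n8 hf ?_
    rw [h8A]
    omega
  · refine tc_loc_div hP hP0 n4 hf' ?_
    rw [h4A2]
    omega
  · rw [hmem hD]
    omega

end Pool.Agent.Lib.MP_4a0cc8_ntC
end

section

/-!
MP_4a0cc8_nt (C): size of the roots, supports go up.
-/

set_option autoImplicit false

namespace Pool.Agent.Lib.MP_4a0cc8_ntC

open NumberField Module
open Pool.Agent.Lib.FMK60 (InBox Del Hle)

/-- Size of the roots. Proof. If `‖x‖ > 2 T²` then `‖x‖³ > 4 T⁴ ‖x‖ = T⁴ ‖x‖ + 3 T⁴ ‖x‖ > T⁴ ‖x‖ + 6 T⁶`,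
but `‖x‖³ = ‖A x + B‖ ≤ T⁴ ‖x‖ + T⁶`. -/
theorem tc_root_le {T : ℝ} (hT : 1 ≤ T) {A B x : ℂ} (hA : ‖A‖ ≤ T ^ 4) (hB : ‖B‖ ≤ T ^ 6)
    (h : x ^ 3 + A * x + B = 0) : ‖x‖ ≤ 2 * T ^ 2 := by
  by_contra hc
  push Not at hc
  have h1 : x ^ 3 = -(A * x + B) := by linear_combination h
  have h2 : ‖x‖ ^ 3 ≤ T ^ 4 * ‖x‖ + T ^ 6 := by
    calc ‖x‖ ^ 3 = ‖A * x + B‖ := by rw [← norm_pow, h1, norm_neg]
      _ ≤ ‖A * x‖ + ‖B‖ := norm_add_le _ _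
      _ = ‖A‖ * ‖x‖ + ‖B‖ := by rw [norm_mul]
      _ ≤ T ^ 4 * ‖x‖ + T ^ 6 := by gcongr
  have hT2 : 0 < T ^ 2 := by positivity
  have hx : 0 < ‖x‖ := by linarith
  have h3 : 4 * T ^ 4 * ‖x‖ < ‖x‖ ^ 3 := by
    have h4 : 4 * T ^ 4 < ‖x‖ ^ 2 := by nlinarith
    nlinarith
  have h5 : 2 * T ^ 2 * T ^ 4 < ‖x‖ * T ^ 4 := mul_lt_mul_of_pos_right hc (by positivity)
  have h6 : 2 * T ^ 2 * T ^ 4 = 2 * T ^ 6 := by ring
  have h7 : 0 < T ^ 6 := by positivity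
  nlinarith

/-- Supports go up. Proof. Let `γ ∈ P`, `P` prime in `𝓞 L`. `intNorm γ` is in
`P ∩ 𝓞 K = P.comap (algebraMap _ _)` (`γ` divides its norm:
`Ideal.relNorm_le_comap` with `I = span {γ} ≤ P` and `Ideal.relNorm_singleton`), a prime ideal. So
`r ≤ P.comap _`, i.e. `r.map _ ≤ P` (`Ideal.map_le_iff_le_comap`). `γ ≠ 0` since its norm is not `0`. -/
theorem tc_supp_up {K L : Type*} [Field K] [NumberField K] [Field L] [NumberField L] [Algebra K L]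
    {r : Ideal (𝓞 K)} {γ : 𝓞 L} (h : Supp r (Algebra.intNorm (𝓞 K) (𝓞 L) γ)) :
    Supp (r.map (algebraMap (𝓞 K) (𝓞 L))) γ := by
  obtain ⟨h1, h2⟩ := h
  constructor
  · rintro rfl
    exact h1 (by rw [Algebra.intNorm_zero])
  · intro P hP hγ
    rw [Ideal.map_le_iff_le_comap]
    refine h2 (P.comap (algebraMap (𝓞 K) (𝓞 L))) (Ideal.IsPrime.comap _) ?_
    rw [Ideal.mem_comap]
    exact Ideal.mem_of_dvd _ (Algebra.dvd_algebraMap_intNorm_self _ _ γ) hγ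

end Pool.Agent.Lib.MP_4a0cc8_ntC
end
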