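import Mathlib
import Pool.Agent.Lib.MP_4a0cc8_ntC.Defs
import Pool.Agent.Lib.MP_4a0cc8_ntC.IrrA0
import Pool.Agent.Lib.MP_4a0cc8_ntC.SU
import Pool.Agent.Lib.FMK60.LargeK

section

/-!
MP_4a0cc8_nt (C): norm and trace in a cubic extension.
-/

set_option autoImplicit false

namespace Pool.Agent.Lib.MP_4a0cc8_ntC

open Module

/-- The basis `1, t, t²` of a cubic extension generated by `t`.

Proof. `t` is integral over `K` (finite-dimensional, since `finrank = 3`), its minimal polynomial has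
degree `finrank K K⟮t⟯ = finrank K L = 3` (`IntermediateField.adjoin.finrank`,
`IntermediateField.finrank_top'`), so `1, t, t²` are linearly independent
(`linearIndependent_pow` with a cast, or `minpoly.degree_le_of_ne_zero`/`minpoly.min`), and
`basisOfLinearIndependentOfCardEqFinrank`. Or the power basis
`IntermediateField.adjoin.powerBasis` transported along `K⟮t⟯ = ⊤`, reindexed. -/
theorem tc_exists_basis {K L : Type*} [Field K] [Field L] [Algebra K L] (hf : finrank K L = 3)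
    (t : L) (ht : IntermediateField.adjoin K {t} = ⊤) :
    ∃ b : Basis (Fin 3) K L, b 0 = 1 ∧ b 1 = t ∧ b 2 = t ^ 2 := by
  haveI : FiniteDimensional K L := FiniteDimensional.of_finrank_pos (by omega)
  have hint : IsIntegral K t := IsIntegral.of_finite K t
  have hd : (minpoly K t).natDegree = 3 := by
    rw [← IntermediateField.adjoin.finrank hint, ht, IntermediateField.finrank_top', hf]
  have hli := linearIndependent_pow (K := K) t
  rw [hd] at hli
  refine ⟨basisOfLinearIndependentOfCardEqFinrank hli (by rw [Fintype.card_fin, hf]), ?_, ?_, ?_⟩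
  · rw [coe_basisOfLinearIndependentOfCardEqFinrank]
    simp
  · rw [coe_basisOfLinearIndependentOfCardEqFinrank]
    simp
  · rw [coe_basisOfLinearIndependentOfCardEqFinrank]
    simp


/-- Norm and trace of `c₀ + c₁ t + c₂ t²`, where `t³ = e₁ t² - e₂ t + e₃`.

Proof. `Algebra.norm_eq_matrix_det b`, `Algebra.trace_eq_matrix_trace b` with the basis of
`tc_exists_basis`; the entries of `Algebra.leftMulMatrix b x` are the coordinates of `x * b j`
(`Algebra.leftMulMatrix_eq_repr_mul`), computed by expressing `x * b j` as a combination of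
`b 0, b 1, b 2` (`t³` and `t⁴` by the relation), `Matrix.det_fin_three`, `ring`. -/
theorem tc_norm_quadratic {K L : Type*} [Field K] [Field L] [Algebra K L] (hf : finrank K L = 3)
    (t : L) (ht : IntermediateField.adjoin K {t} = ⊤) (e₁ e₂ e₃ : K)
    (h : t ^ 3 - algebraMap K L e₁ * t ^ 2 + algebraMap K L e₂ * t - algebraMap K L e₃ = 0)
    (c₀ c₁ c₂ : K) :
    Algebra.norm K (algebraMap K L c₀ + algebraMap K L c₁ * t + algebraMap K L c₂ * t ^ 2) =
      c₀ ^ 3 + c₀ ^ 2 * (c₁ * e₁ + c₂ * (e₁ ^ 2 - 2 * e₂)) +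
      c₀ * (c₁ ^ 2 * e₂ + c₁ * c₂ * (e₁ * e₂ - 3 * e₃) + c₂ ^ 2 * (e₂ ^ 2 - 2 * e₁ * e₃)) +
      e₃ * (c₁ ^ 3 + c₁ ^ 2 * c₂ * e₁ + c₁ * c₂ ^ 2 * e₂ + c₂ ^ 3 * e₃) ∧
    Algebra.trace K L (algebraMap K L c₀ + algebraMap K L c₁ * t + algebraMap K L c₂ * t ^ 2) =
      3 * c₀ + c₁ * e₁ + c₂ * (e₁ ^ 2 - 2 * e₂) := by
  obtain ⟨b, h0, h1, h2⟩ := tc_exists_basis hf t ht
  have hrepr : ∀ (α β γ : K) (v : L),
      v = algebraMap K L α + algebraMap K L β * t + algebraMap K L γ * t ^ 2 →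
      b.repr v 0 = α ∧ b.repr v 1 = β ∧ b.repr v 2 = γ := by
    intro α β γ v hv
    have hv' : v = α • b 0 + β • b 1 + γ • b 2 := by
      rw [hv, h0, h1, h2, Algebra.smul_def, Algebra.smul_def, Algebra.smul_def, mul_one]
    rw [hv']
    simp [Finsupp.single_apply]
  set x : L := algebraMap K L c₀ + algebraMap K L c₁ * t + algebraMap K L c₂ * t ^ 2 with hx
  have k0 := hrepr c₀ c₁ c₂ (x * b 0) (by rw [h0, mul_one])
  have k1 := hrepr (c₂ * e₃) (c₀ - c₂ * e₂) (c₁ + c₂ * e₁) (x * b 1) (by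
    rw [h1, hx]
    simp only [map_mul, map_add, map_sub]
    linear_combination (algebraMap K L c₂) * h)
  have k2 := hrepr (c₁ * e₃ + c₂ * (e₁ * e₃)) (-(c₁ * e₂) + c₂ * (e₃ - e₁ * e₂))
    (c₀ + c₁ * e₁ + c₂ * (e₁ ^ 2 - e₂)) (x * b 2) (by
    rw [h2, hx]
    simp only [map_mul, map_add, map_sub, map_neg, map_pow]
    linear_combination (algebraMap K L c₁ + algebraMap K L c₂ * (t + algebraMap K L e₁)) * h)
  constructor
  · rw [Algebra.norm_eq_matrix_det b, Matrix.det_fin_three]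
    simp only [Algebra.leftMulMatrix_eq_repr_mul]
    rw [k0.1, k0.2.1, k0.2.2, k1.1, k1.2.1, k1.2.2, k2.1, k2.2.1, k2.2.2]
    ring
  · rw [Algebra.trace_eq_matrix_trace b, Matrix.trace_fin_three]
    simp only [Algebra.leftMulMatrix_eq_repr_mul]
    rw [k0.1, k1.2.1, k2.2.2]
    ring

end Pool.Agent.Lib.MP_4a0cc8_ntC
end

section

/-!
MP_4a0cc8_nt (C): the number of roots of monic integer polynomials with bounded coefficients.
-/

set_option autoImplicit false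

namespace Pool.Agent.Lib.MP_4a0cc8_ntC

open Polynomial

/-- The number of elements of a field of characteristic zero which are roots of a monic polynomial
with integer coefficients of absolute value at most `H` and degree at most `n`.

Proof. The polynomials `p` with `p.natDegree ≤ n` and `|p.coeff i| ≤ H` are determined by the functions
`i ↦ p.coeff i`, `Fin (n + 1) → ℤ`, with values in `Finset.Icc (-⌊H⌋) ⌊H⌋`, which has
`2 * ⌊H⌋ + 1 ≤ 3 * H` elements. So choose for `x ∈ S` such a polynomial `p x`; the image of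
`x ↦ (fun i : Fin (n + 1) => (p x).coeff i)` has at most `(3 * H) ^ (n + 1)` elements
(`Fintype.card_piFinset_const`), and each fibre is contained in the root set of the monic image of one
polynomial in `A[X]`, which has at most `n` roots (`Polynomial.card_roots'`). -/
theorem tc_card_roots_le {A : Type*} [Field A] [CharZero A] (n : ℕ) {H : ℝ} (hH : 1 ≤ H)
    (S : Finset A) (hS : ∀ x ∈ S, ∃ p : ℤ[X], p.Monic ∧ p.natDegree ≤ n ∧
      (∀ i, |(p.coeff i : ℝ)| ≤ H) ∧ aeval x p = 0) :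
    (S.card : ℝ) ≤ n * (3 * H) ^ (n + 1) := by
  classical
  choose! p hp using hS
  have hmaps : ∀ x ∈ S, (fun i : Fin (n + 1) => (p x).coeff i) ∈
      Fintype.piFinset (fun _ : Fin (n + 1) => Finset.Icc (-⌊H⌋) ⌊H⌋) := by
    intro x hx
    rw [Fintype.mem_piFinset]
    intro i
    have h1 := (hp x hx).2.2.1 i
    rw [abs_le] at h1
    rw [Finset.mem_Icc]
    constructor
    · have h2 : -(p x).coeff i ≤ ⌊H⌋ := by
        rw [Int.le_floor]
        push_cast
        linarith [h1.1]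
      linarith
    · rw [Int.le_floor]
      exact h1.2
  have hfib : ∀ f ∈ Fintype.piFinset (fun _ : Fin (n + 1) => Finset.Icc (-⌊H⌋) ⌊H⌋),
      (S.filter (fun x => (fun i : Fin (n + 1) => (p x).coeff i) = f)).card ≤ n := by
    intro f _
    rcases (S.filter (fun x => (fun i : Fin (n + 1) => (p x).coeff i) = f)).eq_empty_or_nonempty
      with h0 | ⟨x₀, hx₀⟩
    · rw [h0]
      exact Nat.zero_le _
    · rw [Finset.mem_filter] at hx₀
      have hq0 : (p x₀).map (Int.castRingHom A) ≠ 0 :=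
        ((hp x₀ hx₀.1).1.map (Int.castRingHom A)).ne_zero
      have hsub : S.filter (fun x => (fun i : Fin (n + 1) => (p x).coeff i) = f) ⊆
          ((p x₀).map (Int.castRingHom A)).roots.toFinset := by
        intro x hx
        rw [Finset.mem_filter] at hx
        have heq : p x = p x₀ := by
          ext i
          by_cases hi : i < n + 1
          · have h1 := congrFun (hx.2.trans hx₀.2.symm) ⟨i, hi⟩
            exact h1
          · rw [Polynomial.coeff_eq_zero_of_natDegree_lt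
                (lt_of_le_of_lt (hp x hx.1).2.1 (by omega)),
              Polynomial.coeff_eq_zero_of_natDegree_lt
                (lt_of_le_of_lt (hp x₀ hx₀.1).2.1 (by omega))]
        rw [Multiset.mem_toFinset, Polynomial.mem_roots hq0, Polynomial.IsRoot.def,
          Polynomial.eval_map, ← heq]
        have h2 := (hp x hx.1).2.2.2
        rw [Polynomial.aeval_def] at h2
        exact h2
      calc (S.filter (fun x => (fun i : Fin (n + 1) => (p x).coeff i) = f)).card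
          ≤ ((p x₀).map (Int.castRingHom A)).roots.toFinset.card := Finset.card_le_card hsub
        _ ≤ ((p x₀).map (Int.castRingHom A)).roots.card := Multiset.toFinset_card_le _
        _ ≤ ((p x₀).map (Int.castRingHom A)).natDegree := Polynomial.card_roots' _
        _ ≤ (p x₀).natDegree := Polynomial.natDegree_map_le
        _ ≤ n := (hp x₀ hx₀.1).2.1
  have hcard := Finset.card_le_mul_card_image_of_maps_to hmaps n hfib
  have hT : (Fintype.piFinset (fun _ : Fin (n + 1) => Finset.Icc (-⌊H⌋) ⌊H⌋)).card =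
      (Finset.Icc (-⌊H⌋) ⌊H⌋).card ^ (n + 1) := by
    rw [Fintype.card_piFinset, Finset.prod_const, Finset.card_univ, Fintype.card_fin]
  have hI : ((Finset.Icc (-⌊H⌋) ⌊H⌋).card : ℝ) ≤ 3 * H := by
    rw [Int.card_Icc]
    have h1 : (0 : ℤ) ≤ ⌊H⌋ := Int.floor_nonneg.2 (by linarith)
    have h2 : ((⌊H⌋ + 1 - -⌊H⌋).toNat : ℤ) = ⌊H⌋ + 1 - -⌊H⌋ := Int.toNat_of_nonneg (by linarith)
    have h3 : ((⌊H⌋ + 1 - -⌊H⌋).toNat : ℝ) = ((⌊H⌋ + 1 - -⌊H⌋ : ℤ) : ℝ) := by
      rw [← h2]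
      push_cast
      rfl
    rw [h3]
    push_cast
    have h4 := Int.floor_le H
    linarith
  calc (S.card : ℝ) ≤ ((n * (Finset.Icc (-⌊H⌋) ⌊H⌋).card ^ (n + 1) : ℕ) : ℝ) := by
        rw [← hT]
        exact_mod_cast hcard
    _ = n * ((Finset.Icc (-⌊H⌋) ⌊H⌋).card : ℝ) ^ (n + 1) := by push_cast; ring
    _ ≤ n * (3 * H) ^ (n + 1) := by gcongr

end Pool.Agent.Lib.MP_4a0cc8_ntC
end

section

/-!
MP_4a0cc8_nt (C): preparations for the conductor.
-/

set_option autoImplicit false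

namespace Pool.Agent.Lib.MP_4a0cc8_ntC

open NumberField Module

section
variable {K L : Type*} [Field K] [NumberField K] [Field L] [NumberField L] [Algebra K L]

/-- The elements of `𝓞_K[θ]` are the `c₀ + c₁ t + c₂ t²`, `t = θ - a`.

Proof. `𝓞_K[θ] = 𝓞_K[t]` (`Algebra.adjoin_induction` or: the right hand side is closed under addition,
multiplication - by the cubic relation `t³ = -3a t² - f'(a) t - f(a)` - and contains `𝓞_K` and
`θ = a + t`). -/
theorem tc_mem_adjoin (θ : 𝓞 L) (A B a : 𝓞 K)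
    (hroot : θ ^ 3 + algebraMap (𝓞 K) (𝓞 L) A * θ + algebraMap (𝓞 K) (𝓞 L) B = 0) (c : 𝓞 L)
    (hc : c ∈ Algebra.adjoin (𝓞 K) {θ}) :
    ∃ c₀ c₁ c₂ : 𝓞 K, c = algebraMap (𝓞 K) (𝓞 L) c₀ +
      algebraMap (𝓞 K) (𝓞 L) c₁ * (θ - algebraMap (𝓞 K) (𝓞 L) a) +
      algebraMap (𝓞 K) (𝓞 L) c₂ * (θ - algebraMap (𝓞 K) (𝓞 L) a) ^ 2 := by
  induction hc using Algebra.adjoin_induction with
  | mem x hx =>
    rw [Set.mem_singleton_iff] at hx
    subst hx
    refine ⟨a, 1, 0, ?_⟩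
    rw [map_one, map_zero]
    ring
  | algebraMap r =>
    refine ⟨r, 0, 0, ?_⟩
    rw [map_zero]
    ring
  | add x y _ _ hx hy =>
    obtain ⟨c₀, c₁, c₂, h1⟩ := hx
    obtain ⟨d₀, d₁, d₂, h2⟩ := hy
    refine ⟨c₀ + d₀, c₁ + d₁, c₂ + d₂, ?_⟩
    rw [h1, h2, map_add, map_add, map_add]
    ring
  | mul x y _ _ hx hy =>
    obtain ⟨c₀, c₁, c₂, h1⟩ := hx
    obtain ⟨d₀, d₁, d₂, h2⟩ := hy
    refine ⟨c₀ * d₀ - (a ^ 3 + A * a + B) * (c₁ * d₂ + c₂ * d₁) +
        3 * a * (a ^ 3 + A * a + B) * (c₂ * d₂),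
      c₀ * d₁ + c₁ * d₀ - (3 * a ^ 2 + A) * (c₁ * d₂ + c₂ * d₁) +
        (3 * a * (3 * a ^ 2 + A) - (a ^ 3 + A * a + B)) * (c₂ * d₂),
      c₀ * d₂ + c₁ * d₁ + c₂ * d₀ - 3 * a * (c₁ * d₂ + c₂ * d₁) +
        ((3 * a) ^ 2 - (3 * a ^ 2 + A)) * (c₂ * d₂), ?_⟩
    rw [h1, h2]
    simp only [map_add, map_sub, map_mul, map_pow, map_ofNat]
    generalize algebraMap (𝓞 K) (𝓞 L) a = a' at *
    generalize algebraMap (𝓞 K) (𝓞 L) A = A' at *
    generalize algebraMap (𝓞 K) (𝓞 L) B = B' at *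
    generalize algebraMap (𝓞 K) (𝓞 L) c₀ = c₀' at *
    generalize algebraMap (𝓞 K) (𝓞 L) c₁ = c₁' at *
    generalize algebraMap (𝓞 K) (𝓞 L) c₂ = c₂' at *
    generalize algebraMap (𝓞 K) (𝓞 L) d₀ = d₀' at *
    generalize algebraMap (𝓞 K) (𝓞 L) d₁ = d₁' at *
    generalize algebraMap (𝓞 K) (𝓞 L) d₂ = d₂' at *
    linear_combination ((c₁' * d₂' + c₂' * d₁') + c₂' * d₂' * ((θ - a') - 3 * a')) * hroot

/-- If `f(a) ∈ s²`, `f'(a) ∈ s`, `y ∈ s⁻¹`, `t = θ - a`, then `y * (t² + 3a t + f'(a))` is an algebraic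
integer.

Proof. `w = t² + 3a t + f'(a)` satisfies `t w = -f(a)` and
`w³ - f'(a) w² + 3a f(a) w - f(a)² = 0`. So `y w` is a root of
`X³ - (y f'(a)) X² + (3a · y² f(a)) X - y³ f(a)²`, whose coefficients are in `𝓞_K`:
`y f'(a)` since `f'(a) ∈ s`; `y² f(a)`, `f(a) ∈ s²` (an element of `s² = s * s` is a sum of products
`u v`, `u, v ∈ s`; `Submodule.mul_induction_on`); `y³ f(a)² = y * (y² f(a)) * f(a)` and `y f(a)` is
integral (`f(a) ∈ s² ≤ s`). Integral over `𝓞 K`, so over `ℤ`. -/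
theorem tc_int_w (θ : 𝓞 L) (A B a : 𝓞 K)
    (hroot : θ ^ 3 + algebraMap (𝓞 K) (𝓞 L) A * θ + algebraMap (𝓞 K) (𝓞 L) B = 0)
    (s : Ideal (𝓞 K)) (h1 : a ^ 3 + A * a + B ∈ s ^ 2) (h2 : 3 * a ^ 2 + A ∈ s) (y : K)
    (hy : ∀ u ∈ s, ∃ z : 𝓞 K, (z : K) = y * (u : K)) :
    ∃ w : 𝓞 L, (w : L) = algebraMap K L y *
      (((θ : L) - algebraMap K L (a : K)) ^ 2 + 3 * algebraMap K L (a : K) *
        ((θ : L) - algebraMap K L (a : K)) + algebraMap K L ((3 * a ^ 2 + A : 𝓞 K) : K)) := by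
  set r : 𝓞 K := a ^ 3 + A * a + B with hr
  set q : 𝓞 K := 3 * a ^ 2 + A with hq
  have hy2 : ∀ u ∈ s ^ 2, ∃ z : 𝓞 K, (z : K) = y ^ 2 * (u : K) := by
    intro u hu
    rw [pow_two] at hu
    refine Submodule.mul_induction_on hu ?_ ?_
    · intro m hm n hn
      obtain ⟨z1, hz1⟩ := hy m hm
      obtain ⟨z2, hz2⟩ := hy n hn
      refine ⟨z1 * z2, ?_⟩
      have e1 : ((z1 * z2 : 𝓞 K) : K) = (z1 : K) * (z2 : K) := map_mul (algebraMap (𝓞 K) K) z1 z2
      have e2 : ((m * n : 𝓞 K) : K) = (m : K) * (n : K) := map_mul (algebraMap (𝓞 K) K) m n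
      rw [e1, e2, hz1, hz2]
      ring
    · rintro u v ⟨z1, hz1⟩ ⟨z2, hz2⟩
      refine ⟨z1 + z2, ?_⟩
      have e1 : ((z1 + z2 : 𝓞 K) : K) = (z1 : K) + (z2 : K) := map_add (algebraMap (𝓞 K) K) z1 z2
      have e2 : ((u + v : 𝓞 K) : K) = (u : K) + (v : K) := map_add (algebraMap (𝓞 K) K) u v
      rw [e1, e2, hz1, hz2]
      ring
  obtain ⟨z1, hz1⟩ := hy q h2
  obtain ⟨z2, hz2⟩ := hy2 r h1
  obtain ⟨z0, hz0⟩ := hy r (Ideal.pow_le_self (by norm_num) h1)
  have hrootL : (θ : L) ^ 3 + algebraMap K L (A : K) * (θ : L) + algebraMap K L (B : K) = 0 := by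
    have h3 := congrArg (algebraMap (𝓞 L) L) hroot
    simp only [map_add, map_mul, map_pow, map_zero] at h3
    rw [← IsScalarTower.algebraMap_apply (𝓞 K) (𝓞 L) L,
      ← IsScalarTower.algebraMap_apply (𝓞 K) (𝓞 L) L,
      IsScalarTower.algebraMap_apply (𝓞 K) K L, IsScalarTower.algebraMap_apply (𝓞 K) K L] at h3
    exact h3
  set t : L := (θ : L) - algebraMap K L (a : K) with ht
  set W : L := t ^ 2 + 3 * algebraMap K L (a : K) * t + algebraMap K L (q : K) with hW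
  set Y : L := algebraMap K L y with hY
  have hint : IsIntegral (𝓞 K) (Y * W) := by
    refine ⟨Polynomial.X ^ 3 - Polynomial.C z1 * Polynomial.X ^ 2 +
      Polynomial.C (3 * a * z2) * Polynomial.X - Polynomial.C (z2 * z0), ?_, ?_⟩
    · have e : (Polynomial.X ^ 3 - Polynomial.C z1 * Polynomial.X ^ 2 +
          Polynomial.C (3 * a * z2) * Polynomial.X - Polynomial.C (z2 * z0) :
          Polynomial (𝓞 K)) = Polynomial.X ^ 3 + (- Polynomial.C z1 * Polynomial.X ^ 2 +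
          Polynomial.C (3 * a * z2) * Polynomial.X - Polynomial.C (z2 * z0)) := by ring
      rw [e]
      refine Polynomial.monic_X_pow_add ?_
      refine lt_of_le_of_lt (b := (2 : WithBot ℕ)) ?_ (by norm_num)
      compute_degree
    · simp only [Polynomial.eval₂_sub, Polynomial.eval₂_add, Polynomial.eval₂_mul,
        Polynomial.eval₂_pow, Polynomial.eval₂_X, Polynomial.eval₂_C]
      have g1 : algebraMap (𝓞 K) L z1 = Y * algebraMap K L (q : K) := by
        rw [IsScalarTower.algebraMap_apply (𝓞 K) K L]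
        show algebraMap K L (z1 : K) = _
        rw [hz1, map_mul]
      have g2 : algebraMap (𝓞 K) L z2 = Y ^ 2 * algebraMap K L (r : K) := by
        rw [IsScalarTower.algebraMap_apply (𝓞 K) K L]
        show algebraMap K L (z2 : K) = _
        rw [hz2, map_mul, map_pow]
      have g0 : algebraMap (𝓞 K) L z0 = Y * algebraMap K L (r : K) := by
        rw [IsScalarTower.algebraMap_apply (𝓞 K) K L]
        show algebraMap K L (z0 : K) = _
        rw [hz0, map_mul]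
      have ga : algebraMap (𝓞 K) L a = algebraMap K L (a : K) :=
        IsScalarTower.algebraMap_apply (𝓞 K) K L a
      rw [map_mul, map_mul, map_mul, map_ofNat, g0, g1, g2, ga]
      have hrv : algebraMap K L (r : K) = (algebraMap K L (a : K)) ^ 3 +
          algebraMap K L (A : K) * algebraMap K L (a : K) + algebraMap K L (B : K) := by
        rw [hr]
        simp only [map_add, map_mul, map_pow]
      have hqv : algebraMap K L (q : K) = 3 * (algebraMap K L (a : K)) ^ 2 +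
          algebraMap K L (A : K) := by
        rw [hq]
        simp only [map_add, map_mul, map_pow, map_ofNat]
      have hg : t ^ 3 + 3 * algebraMap K L (a : K) * t ^ 2 + algebraMap K L (q : K) * t +
          algebraMap K L (r : K) = 0 := by
        rw [hrv, hqv, ht]
        linear_combination hrootL
      rw [hW]
      generalize algebraMap K L (r : K) = r' at *
      generalize algebraMap K L (q : K) = q' at *
      generalize algebraMap K L (a : K) = a' at *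
      linear_combination (Y ^ 3 * ((t ^ 2 + 3 * a' * t + q') * (t + 3 * a') - r')) * hg
  have hint2 : IsIntegral ℤ (Y * W) := isIntegral_trans (A := 𝓞 K) _ hint
  exact ⟨⟨Y * W, hint2⟩, rfl⟩

/-- Double inverse: if `c y` is integral for all `y ∈ s⁻¹`, then `c ∈ s`.

Proof. `(s⁻¹)⁻¹ = s` for the fractional ideal `s`: `FractionalIdeal.mem_inv_iff`, `inv_inv`,
`FractionalIdeal.mem_coeIdeal`. (For `s ≠ ⊥`.) -/
theorem tc_mem_of_inv (s : Ideal (𝓞 K)) (hs : s ≠ ⊥) (c : 𝓞 K)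
    (h : ∀ y : K, (∀ u ∈ s, ∃ z : 𝓞 K, (z : K) = y * (u : K)) → ∃ z : 𝓞 K, (z : K) = y * (c : K)) :
    c ∈ s := by
  have hs' : (s : FractionalIdeal (nonZeroDivisors (𝓞 K)) K) ≠ 0 :=
    FractionalIdeal.coeIdeal_ne_zero.mpr hs
  have hsi : (s : FractionalIdeal (nonZeroDivisors (𝓞 K)) K)⁻¹ ≠ 0 := inv_ne_zero hs'
  have h1 : (c : K) ∈ ((s : FractionalIdeal (nonZeroDivisors (𝓞 K)) K)⁻¹)⁻¹ := by
    rw [FractionalIdeal.mem_inv_iff hsi]
    intro y hy
    rw [FractionalIdeal.mem_inv_iff hs'] at hy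
    have h2 : ∀ u ∈ s, ∃ z : 𝓞 K, (z : K) = y * (u : K) := by
      intro u hu
      have h3 := hy (u : K) (FractionalIdeal.mem_coeIdeal_of_mem _ hu)
      obtain ⟨z, hz⟩ := (FractionalIdeal.mem_one_iff _).1 h3
      exact ⟨z, hz⟩
    obtain ⟨z, hz⟩ := h y h2
    rw [FractionalIdeal.mem_one_iff]
    exact ⟨z, by rw [mul_comm]; exact hz⟩
  rw [inv_inv, FractionalIdeal.mem_coeIdeal] at h1
  obtain ⟨d, hd, hdc⟩ := h1
  have : d = c := by
    apply FaithfulSMul.algebraMap_injective (𝓞 K) K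
    exact hdc
  rwa [← this]

end

end Pool.Agent.Lib.MP_4a0cc8_ntC
end

section

/-!
MP_4a0cc8_nt (C): a small primitive element of a number field.
-/

set_option autoImplicit false

namespace Pool.Agent.Lib.MP_4a0cc8_ntC

open NumberField Module
open Pool.Agent.Lib.FMK60

open NumberField.mixedEmbedding NumberField.InfinitePlace MeasureTheory in
private theorem Prim_minkowski (L : Type*) [Field L] [NumberField L] :
    minkowskiBound L ↑1 <
      ((NNReal.sqrt ‖discr L‖₊ * (2 : NNReal) ^ (finrank ℚ L) + 1 : NNReal) : ENNReal) := by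
  have h0 : NNReal.sqrt ‖discr L‖₊ * (2 : NNReal) ^ (finrank ℚ L)
      < NNReal.sqrt ‖discr L‖₊ * (2 : NNReal) ^ (finrank ℚ L) + 1 :=
    lt_add_of_pos_right _ zero_lt_one
  refine lt_of_le_of_lt ?_ (ENNReal.coe_lt_coe.mpr h0)
  rw [minkowskiBound, volume_fundamentalDomain_fractionalIdealLatticeBasis,
    Units.val_one, FractionalIdeal.absNorm_one, Rat.cast_one,
    ENNReal.ofReal_one, one_mul, mixedEmbedding.finrank, volume_fundamentalDomain_latticeBasis,
    ENNReal.coe_mul, ENNReal.coe_pow, ENNReal.coe_ofNat,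
    show (NNReal.sqrt ‖discr L‖₊ : ENNReal) = (1 : ENNReal) * NNReal.sqrt ‖discr L‖₊ by
      rw [one_mul]]
  gcongr
  · exact pow_le_one₀ (by positivity) (by simp)
  · rw [one_mul]

/-- A number field has a primitive integral element whose conjugates are at most
`2 ^ (n + 1) * |disc|`.

Proof. `mixedEmbedding.exists_primitive_element_lt_of_isReal` (if there is a real place) or
`mixedEmbedding.exists_primitive_element_lt_of_isComplex` (otherwise; see the proof of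
`NumberField.finite_of_discr_bdd` in Mathlib for the case distinction,
`NumberTheory/NumberField/Discriminant/Basic.lean`, line 287 ff.), with
`B = sqrt |disc| * 2 ^ n + 1`: as in the proof of `minkowskiBound_lt_boundOfDiscBdd` there,
`minkowskiBound L ↑1 = vol(fundamental domain) * 2 ^ n ≤ sqrt |disc| * 2 ^ n < B` and the convex body
factors are at least `1` (`one_le_convexBodyLTFactor`, `one_le_convexBodyLT'Factor`). Then
`max B 1 ≤ 2 ^ (n + 1) * |disc|` and `sqrt (1 + B ^ 2) ≤ 1 + B = sqrt |disc| * 2 ^ n + 2 ≤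
2 ^ (n + 1) * |disc|`, since `|disc| ≥ 1` (`discr_ne_zero`) and `n ≥ 1`. Places and embeddings:
`NumberField.InfinitePlace.le_iff_le` or `InfinitePlace.mk`. -/
theorem tc_exists_primitive (L : Type*) [Field L] [NumberField L] :
    ∃ x : 𝓞 L, IntermediateField.adjoin ℚ {(x : L)} = ⊤ ∧
      Hle (x : L) (2 ^ (finrank ℚ L + 1) * |(discr L : ℝ)|) := by
  set B : NNReal := NNReal.sqrt ‖discr L‖₊ * (2 : NNReal) ^ (finrank ℚ L) + 1 with hB
  have hD : (1 : ℝ) ≤ |(discr L : ℝ)| := by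
    have h1 : (1 : ℤ) ≤ |discr L| := Int.one_le_abs (discr_ne_zero L)
    exact_mod_cast h1
  have hBr : (B : ℝ) = Real.sqrt |(discr L : ℝ)| * 2 ^ (finrank ℚ L) + 1 := by
    rw [hB]
    push_cast
    rw [Int.norm_eq_abs]
  have hn : 1 ≤ finrank ℚ L := finrank_pos
  have h2n : (2 : ℝ) ≤ 2 ^ (finrank ℚ L) := by
    calc (2 : ℝ) = 2 ^ 1 := by norm_num
      _ ≤ 2 ^ (finrank ℚ L) := pow_le_pow_right₀ (by norm_num) hn
  have hsq : Real.sqrt |(discr L : ℝ)| ≤ |(discr L : ℝ)| := by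
    rw [Real.sqrt_le_left (by linarith)]
    nlinarith
  have hB1 : 1 + (B : ℝ) ≤ 2 ^ (finrank ℚ L + 1) * |(discr L : ℝ)| := by
    rw [hBr, pow_succ]
    have h3 : Real.sqrt |(discr L : ℝ)| * 2 ^ (finrank ℚ L)
        ≤ |(discr L : ℝ)| * 2 ^ (finrank ℚ L) :=
      mul_le_mul_of_nonneg_right hsq (by positivity)
    have h4 : (2 : ℝ) ≤ |(discr L : ℝ)| * 2 ^ (finrank ℚ L) := by nlinarith
    nlinarith
  have hmink := Prim_minkowski L
  rw [← hB] at hmink
  obtain ⟨w₀⟩ := (inferInstance : Nonempty (InfinitePlace L))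
  by_cases hw₀ : InfinitePlace.IsReal w₀
  · have h5 : mixedEmbedding.minkowskiBound L ↑1 < mixedEmbedding.convexBodyLTFactor L * B :=
      calc mixedEmbedding.minkowskiBound L ↑1 < B := hmink
        _ = 1 * B := by rw [one_mul]
        _ ≤ mixedEmbedding.convexBodyLTFactor L * B := by
            gcongr
            exact mod_cast mixedEmbedding.one_le_convexBodyLTFactor L
    obtain ⟨x, hx1, hx2⟩ := mixedEmbedding.exists_primitive_element_lt_of_isReal L hw₀ h5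
    refine ⟨x, hx1, (InfinitePlace.le_iff_le (x : L) _).mp fun w => (hx2 w).le.trans ?_⟩
    refine le_trans ?_ hB1
    rw [NNReal.coe_max, NNReal.coe_one]
    exact max_le (by linarith) (by linarith [B.coe_nonneg])
  · have h5 : mixedEmbedding.minkowskiBound L ↑1 < mixedEmbedding.convexBodyLT'Factor L * B :=
      calc mixedEmbedding.minkowskiBound L ↑1 < B := hmink
        _ = 1 * B := by rw [one_mul]
        _ ≤ mixedEmbedding.convexBodyLT'Factor L * B := by
            gcongr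
            exact mod_cast mixedEmbedding.one_le_convexBodyLT'Factor L
    obtain ⟨x, hx1, hx2⟩ := mixedEmbedding.exists_primitive_element_lt_of_isComplex L
      (InfinitePlace.not_isReal_iff_isComplex.mp hw₀) h5
    refine ⟨x, hx1, (InfinitePlace.le_iff_le (x : L) _).mp fun w => (hx2 w).le.trans ?_⟩
    refine le_trans ?_ hB1
    rw [Real.sqrt_le_left (by positivity)]
    nlinarith [B.coe_nonneg]

end Pool.Agent.Lib.MP_4a0cc8_ntC
end

section

/-!
MP_4a0cc8_nt (C): norm, trace, minimal polynomial.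
-/

set_option autoImplicit false

namespace Pool.Agent.Lib.MP_4a0cc8_ntC

open NumberField Module

section
variable {K L : Type*} [Field K] [NumberField K] [Field L] [NumberField L] [Algebra K L]

/-- The norm and the trace of `f'(θ) = 3θ² + A`.

Proof. `tc_norm_quadratic` with `t = θ`, `e₁ = 0`, `e₂ = A`, `e₃ = -B`, `c₀ = A`, `c₁ = 0`, `c₂ = 3`:
the norm is `A³ + A² * 3 * (-2A) + A * 9 * A² + (-B) * 27 * (-B) = 4A³ + 27B²`, the trace
`3A + 3 * (-2A) = -3A`. `Algebra.algebraMap_intNorm` for the integral norm. -/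
theorem tc_norm_deriv (hf : finrank K L = 3) (θ : 𝓞 L)
    (hθ : IntermediateField.adjoin K {(θ : L)} = ⊤) (A B : 𝓞 K)
    (hroot : θ ^ 3 + algebraMap (𝓞 K) (𝓞 L) A * θ + algebraMap (𝓞 K) (𝓞 L) B = 0) :
    Algebra.intNorm (𝓞 K) (𝓞 L) (3 * θ ^ 2 + algebraMap (𝓞 K) (𝓞 L) A) =
      4 * A ^ 3 + 27 * B ^ 2 ∧
    Algebra.trace K L ((3 * θ ^ 2 + algebraMap (𝓞 K) (𝓞 L) A : 𝓞 L) : L) = -3 * (A : K) := by
  have hmap : ∀ x : 𝓞 K, algebraMap (𝓞 L) L (algebraMap (𝓞 K) (𝓞 L) x) =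
      algebraMap K L (x : K) := by
    intro x
    rw [← IsScalarTower.algebraMap_apply (𝓞 K) (𝓞 L) L, IsScalarTower.algebraMap_apply (𝓞 K) K L]
  have h0 : (θ : L) ^ 3 - algebraMap K L 0 * (θ : L) ^ 2 + algebraMap K L (A : K) * (θ : L) -
      algebraMap K L (-(B : K)) = 0 := by
    have h1 := congrArg (algebraMap (𝓞 L) L) hroot
    rw [map_add, map_add, map_mul, map_pow, map_zero, hmap, hmap] at h1
    rw [map_zero, map_neg, zero_mul, sub_zero, sub_neg_eq_add]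
    exact h1
  have h2 := tc_norm_quadratic hf (θ : L) hθ 0 (A : K) (-(B : K)) h0 (A : K) 0 3
  have h3 : algebraMap K L (A : K) + algebraMap K L 0 * (θ : L) + algebraMap K L 3 * (θ : L) ^ 2 =
      ((3 * θ ^ 2 + algebraMap (𝓞 K) (𝓞 L) A : 𝓞 L) : L) := by
    change _ = algebraMap (𝓞 L) L (3 * θ ^ 2 + algebraMap (𝓞 K) (𝓞 L) A)
    rw [map_add, map_mul, map_pow, hmap, map_zero, map_ofNat, map_ofNat]
    ring
  rw [h3] at h2
  obtain ⟨h4, h5⟩ := h2
  constructor
  · apply FaithfulSMul.algebraMap_injective (𝓞 K) K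
    rw [Algebra.algebraMap_intNorm (A := 𝓞 K) (K := K) (L := L) (B := 𝓞 L), h4]
    rw [map_add, map_mul, map_mul, map_pow, map_pow, map_ofNat, map_ofNat]
    ring
  · rw [h5]; ring

/-- The minimal polynomial of `θ` over `𝓞 K`.

Proof. `minpoly K (θ : L)` has degree `3` (`IntermediateField.adjoin.finrank`) and divides the monic
polynomial `X³ + A X + B` of degree 3, so they are equal; `minpoly.isIntegrallyClosed_eq_field_fractions`
relates it to `minpoly (𝓞 K) θ`. Or directly: `minpoly (𝓞 K) θ` is unique among monic polynomials of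
the minimal degree (`minpoly.unique'`, `minpoly.IsIntegrallyClosed.minpoly.unique`). -/
theorem tc_minpoly (hf : finrank K L = 3) (θ : 𝓞 L)
    (hθ : IntermediateField.adjoin K {(θ : L)} = ⊤) (A B : 𝓞 K)
    (hroot : θ ^ 3 + algebraMap (𝓞 K) (𝓞 L) A * θ + algebraMap (𝓞 K) (𝓞 L) B = 0) :
    minpoly (𝓞 K) θ = Polynomial.X ^ 3 + Polynomial.C A * Polynomial.X + Polynomial.C B := by
  have hdeg : (Polynomial.X ^ 3 + Polynomial.C A * Polynomial.X + Polynomial.C B :
      Polynomial (𝓞 K)).natDegree = 3 := by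
    compute_degree!
  have hmo : (Polynomial.X ^ 3 + Polynomial.C A * Polynomial.X + Polynomial.C B :
      Polynomial (𝓞 K)).Monic := by
    monicity!
  have hroot' : Polynomial.aeval θ (Polynomial.X ^ 3 + Polynomial.C A * Polynomial.X +
      Polynomial.C B : Polynomial (𝓞 K)) = 0 := by
    simpa [Polynomial.aeval_C] using hroot
  symm
  refine minpoly.IsIntegrallyClosed.unique_of_degree_le_degree_minpoly hmo hroot' ?_
  have hint : IsIntegral (𝓞 K) θ := ⟨_, hmo, hroot'⟩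
  have h1 := minpoly.isIntegrallyClosed_eq_field_fractions K L hint
  have hint' : IsIntegral K (θ : L) := by
    have h2 : IsIntegral (𝓞 K) (θ : L) := hint.algebraMap
    exact h2.tower_top
  have h3 : (minpoly K (θ : L)).natDegree = 3 := by
    rw [← IntermediateField.adjoin.finrank hint', hθ, IntermediateField.finrank_top', hf]
  have h4 : (minpoly (𝓞 K) θ).natDegree = 3 := by
    have h5 : (minpoly K (algebraMap (𝓞 L) L θ)).natDegree = 3 := h3
    rw [h1, (minpoly.monic hint).natDegree_map] at h5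
    exact h5
  rw [Polynomial.degree_eq_natDegree hmo.ne_zero, hdeg,
    Polynomial.degree_eq_natDegree (minpoly.ne_zero hint), h4]

end

end Pool.Agent.Lib.MP_4a0cc8_ntC
end

section

/-!
MP_4a0cc8_nt (C): the norms of the elements of the conductor.
-/

set_option autoImplicit false

namespace Pool.Agent.Lib.MP_4a0cc8_ntC

open NumberField Module

section
variable {K L : Type*} [Field K] [NumberField K] [Field L] [NumberField L] [Algebra K L]

omit [NumberField K] [NumberField L] in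
/-- `t = θ - a` generates the same field as `θ`. -/
theorem tc_cond_adjoin_sub (x : L) (a : K) (hx : IntermediateField.adjoin K {x} = ⊤) :
    IntermediateField.adjoin K {x - algebraMap K L a} = ⊤ := by
  rw [eq_top_iff, ← hx, IntermediateField.adjoin_simple_le_iff]
  have h1 : x - algebraMap K L a ∈ IntermediateField.adjoin K {x - algebraMap K L a} :=
    IntermediateField.mem_adjoin_simple_self K _
  have h2 := add_mem h1 ((IntermediateField.adjoin K {x - algebraMap K L a}).algebraMap_mem a)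
  simpa using h2

omit [NumberField K] [NumberField L] in
/-- `1, t, t²` are linearly independent: comparison of the coefficient of `t²`. -/
theorem tc_cond_coeff (hf : finrank K L = 3) (t : L) (ht : IntermediateField.adjoin K {t} = ⊤)
    (u₀ u₁ u₂ v₀ v₁ v₂ : K)
    (h : algebraMap K L u₀ + algebraMap K L u₁ * t + algebraMap K L u₂ * t ^ 2 =
      algebraMap K L v₀ + algebraMap K L v₁ * t + algebraMap K L v₂ * t ^ 2) : u₂ = v₂ := by
  obtain ⟨b, h0, h1, h2⟩ := tc_exists_basis hf t ht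
  have key : (u₀ - v₀) • b 0 + (u₁ - v₁) • b 1 + (u₂ - v₂) • b 2 = 0 := by
    rw [h0, h1, h2, Algebra.smul_def, Algebra.smul_def, Algebra.smul_def, map_sub, map_sub, map_sub]
    linear_combination h
  have hli := b.linearIndependent
  rw [Fintype.linearIndependent_iff] at hli
  have := hli ![u₀ - v₀, u₁ - v₁, u₂ - v₂] (by
    rw [Fin.sum_univ_three]
    simpa using key) 2
  simpa [sub_eq_zero] using this

/-- The norms of the elements of the conductor are in `s²`.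

Proof. `c ∈ conductor` gives `c ∈ 𝓞_K[θ]` and `c b ∈ 𝓞_K[θ]` for all `b ∈ 𝓞_L` (`mem_conductor_iff`).
By `tc_mem_adjoin`, `c = c₀ + c₁ t + c₂ t²`, `t = θ - a`. Claim `c₀ ∈ s`: by `tc_mem_of_inv` let
`y ∈ s⁻¹`; `b = y w` (`tc_int_w`) is in `𝓞_L`, so `c b ∈ 𝓞_K[θ]`, `c b = d₀ + d₁ t + d₂ t²` with
`dᵢ ∈ 𝓞_K`. On the other hand, since `t w = -f(a)`,
`c w = c₀ w - c₁ f(a) - c₂ f(a) t = c₀ t² + (3 a c₀ - c₂ f(a)) t + (c₀ f'(a) - c₁ f(a))`, and
`1, t, t²` are linearly independent over `K` (`tc_exists_basis`; `adjoin K {t} = adjoin K {θ}`), so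
`y c₀ = d₂ ∈ 𝓞_K`. Now `tc_norm_quadratic` with `e₁ = -3a`, `e₂ = f'(a)`, `e₃ = -f(a)`:
`intNorm c = c₀³ + c₀² (..) + c₀ (c₁² e₂ + c₁ c₂ (e₁ e₂ - 3 e₃) + c₂² (e₂² - 2 e₁ e₃)) + e₃ (..)`
(`Algebra.algebraMap_intNorm`, injectivity of `𝓞 K → K`), and every term is in `s²`, since
`c₀, e₂ ∈ s`, `e₃ ∈ s²`. -/
theorem tc_norm_conductor (hf : finrank K L = 3) (θ : 𝓞 L)
    (hθ : IntermediateField.adjoin K {(θ : L)} = ⊤) (A B a : 𝓞 K)
    (hroot : θ ^ 3 + algebraMap (𝓞 K) (𝓞 L) A * θ + algebraMap (𝓞 K) (𝓞 L) B = 0)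
    (s : Ideal (𝓞 K)) (hs : s ≠ ⊥) (h1 : a ^ 3 + A * a + B ∈ s ^ 2) (h2 : 3 * a ^ 2 + A ∈ s)
    (c : 𝓞 L) (hc : c ∈ conductor (𝓞 K) θ) : Algebra.intNorm (𝓞 K) (𝓞 L) c ∈ s ^ 2 := by
  -- coercions
  have hcomp : ∀ z : 𝓞 K, ((algebraMap (𝓞 K) (𝓞 L) z : 𝓞 L) : L) = algebraMap K L (z : K) := by
    intro z
    rfl
  set t : L := (θ : L) - algebraMap K L (a : K) with htdef
  have ht : IntermediateField.adjoin K {t} = ⊤ := tc_cond_adjoin_sub _ _ hθ
  -- the cubic relation in `L`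
  have hrootL : (θ : L) ^ 3 + algebraMap K L (A : K) * (θ : L) + algebraMap K L (B : K) = 0 := by
    have := congrArg (fun z : 𝓞 L => (z : L)) hroot
    simpa [hcomp] using this
  have hrel : t ^ 3 + 3 * algebraMap K L (a : K) * t ^ 2 +
      (3 * algebraMap K L (a : K) ^ 2 + algebraMap K L (A : K)) * t +
      (algebraMap K L (a : K) ^ 3 + algebraMap K L (A : K) * algebraMap K L (a : K) +
        algebraMap K L (B : K)) = 0 := by
    rw [htdef]
    linear_combination hrootL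
  -- `c = c₀ + c₁ t + c₂ t²`
  have hconv : ∀ x : 𝓞 L, x ∈ Algebra.adjoin (𝓞 K) {θ} → ∃ c₀ c₁ c₂ : 𝓞 K,
      (x : L) = algebraMap K L (c₀ : K) + algebraMap K L (c₁ : K) * t +
        algebraMap K L (c₂ : K) * t ^ 2 := by
    intro x hx
    obtain ⟨c₀, c₁, c₂, h⟩ := tc_mem_adjoin θ A B a hroot x hx
    refine ⟨c₀, c₁, c₂, ?_⟩
    have := congrArg (fun z : 𝓞 L => (z : L)) h
    simpa [hcomp, htdef] using this
  have hcond := mem_conductor_iff.mp hc
  have hcmem : c ∈ Algebra.adjoin (𝓞 K) {θ} := by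
    have := hcond 1
    simpa using this
  obtain ⟨c₀, c₁, c₂, hceq⟩ := hconv c hcmem
  -- `c₀ ∈ s`
  have hc₀ : c₀ ∈ s := by
    refine tc_mem_of_inv s hs c₀ fun y hy => ?_
    obtain ⟨w, hw⟩ := tc_int_w θ A B a hroot s h1 h2 y hy
    obtain ⟨d₀, d₁, d₂, hd⟩ := hconv (c * w) (hcond w)
    refine ⟨d₂, ?_⟩
    refine tc_cond_coeff hf t ht d₀ d₁ d₂
      (y * ((c₀ : K) * (3 * (a : K) ^ 2 + (A : K)) - (c₁ : K) *
        ((a : K) ^ 3 + (A : K) * (a : K) + (B : K))))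
      (y * (3 * (a : K) * (c₀ : K) - (c₂ : K) *
        ((a : K) ^ 3 + (A : K) * (a : K) + (B : K)))) (y * (c₀ : K)) ?_
    rw [← hd]
    have hcw : ((c * w : 𝓞 L) : L) = (c : L) * (w : L) := by simp
    rw [hcw, hceq, hw]
    simp only [map_add, map_mul, map_sub, map_pow, map_ofNat]
    rw [← htdef]
    linear_combination (algebraMap K L y * (algebraMap K L (c₁ : K) +
      algebraMap K L (c₂ : K) * t)) * hrel
  -- the norm
  have hnorm := (tc_norm_quadratic hf t ht (-3 * (a : K)) (3 * (a : K) ^ 2 + (A : K))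
    (-((a : K) ^ 3 + (A : K) * (a : K) + (B : K))) (by
      simp only [map_add, map_mul, map_neg, map_pow, map_ofNat]
      linear_combination hrel) (c₀ : K) (c₁ : K) (c₂ : K)).1
  rw [← hceq] at hnorm
  have hint : ((Algebra.intNorm (𝓞 K) (𝓞 L) c : 𝓞 K) : K) = Algebra.norm K (c : L) :=
    Algebra.algebraMap_intNorm (A := 𝓞 K) (K := K) (L := L) (B := 𝓞 L) c
  have hfin : Algebra.intNorm (𝓞 K) (𝓞 L) c =
      c₀ * c₀ * (c₀ + (c₁ * (-3 * a) + c₂ * ((-3 * a) ^ 2 - 2 * (3 * a ^ 2 + A)))) +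
      c₀ * (3 * a ^ 2 + A) * (c₁ ^ 2 + c₁ * c₂ * (-3 * a) + c₂ ^ 2 * (3 * a ^ 2 + A)) +
      (a ^ 3 + A * a + B) * (c₀ * (3 * (c₁ * c₂) + 2 * (c₂ ^ 2 * (-3 * a))) -
        (c₁ ^ 3 + c₁ ^ 2 * c₂ * (-3 * a) + c₁ * c₂ ^ 2 * (3 * a ^ 2 + A) +
          c₂ ^ 3 * (-(a ^ 3 + A * a + B)))) := by
    apply FaithfulSMul.algebraMap_injective (𝓞 K) K
    refine (hint.trans hnorm).trans ?_
    simp only [map_add, map_mul, map_sub, map_neg, map_pow, map_ofNat]
    ring
  rw [hfin, pow_two]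
  refine add_mem (add_mem ?_ ?_) ?_
  · exact Ideal.mul_mem_right _ _ (Ideal.mul_mem_mul hc₀ hc₀)
  · exact Ideal.mul_mem_right _ _ (Ideal.mul_mem_mul hc₀ h2)
  · exact Ideal.mul_mem_right _ _ (by rw [← pow_two]; exact h1)

end

end Pool.Agent.Lib.MP_4a0cc8_ntC
end

section

/-!
MP_4a0cc8_nt (C): the number of extensions of `K` of bounded degree and discriminant.
-/

set_option autoImplicit false

namespace Pool.Agent.Lib.MP_4a0cc8_ntC

open NumberField Module
open Pool.Agent.Lib.FMK60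

/-- Auxiliary: a primitive element of `L/K` with a small integral equation. -/
theorem tc_fields_aux (K : Type*) [Field K] [NumberField K] (L : Type*) [Field L] [Algebra K L]
    [NumberField L] (m : ℕ) (hm : finrank K L ≤ m) {Z : ℝ} (hZ : 1 ≤ Z)
    (hd : |((discr L : ℤ) : ℝ)| ≤ Z) :
    ∃ x : L, IntermediateField.adjoin K {x} = ⊤ ∧ ∃ p : Polynomial ℤ, p.Monic ∧
      p.natDegree ≤ finrank ℚ K * m ∧
      (∀ i, |(p.coeff i : ℝ)| ≤
        (2 ^ (finrank ℚ K * m + 1) * Z) ^ (finrank ℚ K * m) * 2 ^ (finrank ℚ K * m)) ∧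
      Polynomial.aeval x p = 0 := by
  obtain ⟨x, hx1, hx2⟩ := tc_exists_primitive L
  have hfin : finrank ℚ L ≤ finrank ℚ K * m := by
    rw [← Module.finrank_mul_finrank ℚ K L]
    exact Nat.mul_le_mul_left _ hm
  set n := finrank ℚ K * m with hn
  have hB1 : (1 : ℝ) ≤ 2 ^ (n + 1) * Z := by
    have h2 : (1 : ℝ) ≤ 2 ^ (n + 1) := one_le_pow₀ (by norm_num)
    nlinarith
  refine ⟨(x : L), ?_, minpoly ℤ (x : L), minpoly.monic x.isIntegral_coe, ?_, ?_, ?_⟩
  · rw [eq_top_iff]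
    intro y _
    have h1 : IntermediateField.adjoin ℚ {(x : L)} ≤
        (IntermediateField.adjoin K {(x : L)}).restrictScalars ℚ := by
      rw [IntermediateField.adjoin_le_iff]
      intro z hz
      rw [Set.mem_singleton_iff] at hz
      rw [hz]
      exact IntermediateField.subset_adjoin K _ (Set.mem_singleton _)
    have h2 : y ∈ IntermediateField.adjoin ℚ {(x : L)} := by
      rw [hx1]; trivial
    exact h1 h2
  · rw [← (minpoly.monic x.isIntegral_coe).natDegree_map (algebraMap ℤ ℚ),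
      ← minpoly.isIntegrallyClosed_eq_field_fractions' ℚ x.isIntegral_coe]
    exact (minpoly.natDegree_le (x : L)).trans hfin
  · intro i
    have hx3 : ∀ σ : L →+* ℂ, ‖σ (x : L)‖ ≤ 2 ^ (n + 1) * Z := by
      intro σ
      refine (hx2 σ).trans ?_
      have h3 : (2 : ℝ) ^ (finrank ℚ L + 1) ≤ 2 ^ (n + 1) :=
        pow_le_pow_right₀ (by norm_num) (by omega)
      exact mul_le_mul h3 hd (abs_nonneg _) (by positivity)
    have h4 := Embeddings.coeff_bdd_of_norm_le hx3 i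
    have h5 : ((minpoly ℚ (x : L)).coeff i) = (((minpoly ℤ (x : L)).coeff i : ℤ) : ℚ) := by
      rw [minpoly.isIntegrallyClosed_eq_field_fractions' ℚ x.isIntegral_coe,
        Polynomial.coeff_map, eq_intCast]
    rw [h5, Int.norm_cast_rat, Int.norm_eq_abs, max_eq_left hB1] at h4
    refine h4.trans ?_
    have h6 : ((2 : ℝ) ^ (n + 1) * Z) ^ finrank ℚ L ≤ (2 ^ (n + 1) * Z) ^ n :=
      pow_le_pow_right₀ hB1 hfin
    have h7 : ((finrank ℚ L).choose (finrank ℚ L / 2) : ℝ) ≤ 2 ^ n := by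
      have h8 : (finrank ℚ L).choose (finrank ℚ L / 2) ≤ 2 ^ n :=
        (Nat.choose_le_two_pow _ _).trans (Nat.pow_le_pow_right (by norm_num) hfin)
      exact_mod_cast h8
    exact mul_le_mul h6 h7 (by positivity) (by positivity)
  · exact minpoly.aeval ℤ (x : L)

/-- The number of extensions of `K` of degree at most `m` in a fixed extension field of `K` whose
absolute discriminant is at most `Z`.

Proof. Let `d = finrank ℚ K`, `n = d * m`. For `Λ ∈ S`, `finrank ℚ Λ = d * finrank K Λ ≤ n`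
(`Module.finrank_mul_finrank`). Choose `x ∈ 𝓞 Λ` by `tc_exists_primitive`: `ℚ(x) = Λ` and all
conjugates of `x` are at most `2 ^ (n + 1) * Z =: B`. Then `p = minpoly ℤ (x : Λ)` is monic, of degree
`≤ n`, with `|p.coeff i| ≤ B ^ n * 2 ^ n =: H` (`Embeddings.coeff_bdd_of_norm_le`, and
`minpoly.isIntegrallyClosed_eq_field_fractions'`; see the proof of `finite_of_discr_bdd_of_isReal` in
Mathlib; `Nat.choose_le_two_pow`; `max B 1 = B`). The map `Λ ↦ (x : Ω)` is injective on `S`: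
`Λ = IntermediateField.adjoin K {(x : Ω)}`: `adjoin K {(x : Λ)} = ⊤` since it contains the image of
`ℚ(x) = ⊤`, and `IntermediateField.lift_adjoin_simple`, `IntermediateField.lift_top`. So
`S.card ≤ card of the image ≤ n * (3 * H) ^ (n + 1)` (`tc_card_roots_le`, the field `Ω` has
characteristic zero), which is at most `C * Z ^ C` for a suitable `C` depending on `n` only. -/
theorem tc_card_fields_le (K : Type*) [Field K] [NumberField K] (Ω : Type*) [Field Ω]
    [Algebra K Ω] (m : ℕ) :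
    ∃ C : ℝ, 0 < C ∧ ∀ Z : ℝ, 1 ≤ Z → ∀ S : Finset (IntermediateField K Ω),
      (∀ Λ ∈ S, ∃ h : NumberField Λ, 0 < finrank K Λ ∧ finrank K Λ ≤ m ∧
        |((@discr Λ _ h : ℤ) : ℝ)| ≤ Z) → (S.card : ℝ) ≤ C * Z ^ C := by
  classical
  have hΩ : CharZero Ω := charZero_of_injective_algebraMap (algebraMap K Ω).injective
  set n := finrank ℚ K * m with hn
  set c : ℝ := n * (3 * (2 ^ ((n + 1) * n) * 2 ^ n)) ^ (n + 1) with hc
  have hc0 : 0 ≤ c := by positivity
  refine ⟨1 + c + (n * (n + 1) : ℕ), by positivity, ?_⟩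
  intro Z hZ S hS
  have hkey : ∀ Λ ∈ S, ∃ y : Ω, IntermediateField.adjoin K {y} = Λ ∧
      ∃ p : Polynomial ℤ, p.Monic ∧ p.natDegree ≤ n ∧
      (∀ i, |(p.coeff i : ℝ)| ≤ (2 ^ (n + 1) * Z) ^ n * 2 ^ n) ∧ Polynomial.aeval y p = 0 := by
    intro Λ hΛ
    obtain ⟨h, -, h2, h3⟩ := hS Λ hΛ
    obtain ⟨x, hx1, p, hp1, hp2, hp3, hp4⟩ := tc_fields_aux K Λ m h2 hZ h3
    refine ⟨(x : Ω), ?_, p, hp1, hp2, hp3, ?_⟩
    · have := congrArg IntermediateField.lift hx1
      rwa [IntermediateField.lift_adjoin_simple, IntermediateField.lift_top] at this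
    · have h5 : Polynomial.eval₂ (algebraMap ℤ Λ) x p = 0 := hp4
      have h6 := congrArg (algebraMap Λ Ω) h5
      rw [Polynomial.hom_eval₂, map_zero] at h6
      have h7 : algebraMap ℤ Ω = (algebraMap Λ Ω).comp (algebraMap ℤ Λ) := RingHom.ext_int _ _
      rw [Polynomial.aeval_def, h7]
      exact h6
  choose! f hf1 hf2 using hkey
  have hinj : Set.InjOn f (S : Set (IntermediateField K Ω)) := by
    intro Λ1 h1 Λ2 h2 heq
    rw [← hf1 Λ1 h1, ← hf1 Λ2 h2, heq]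
  have hH : (1 : ℝ) ≤ (2 ^ (n + 1) * Z) ^ n * 2 ^ n := by
    have h2 : (1 : ℝ) ≤ 2 ^ (n + 1) := one_le_pow₀ (by norm_num)
    have h3 : (1 : ℝ) ≤ 2 ^ (n + 1) * Z := by nlinarith
    have h4 : (1 : ℝ) ≤ (2 ^ (n + 1) * Z) ^ n := one_le_pow₀ h3
    have h5 : (1 : ℝ) ≤ 2 ^ n := one_le_pow₀ (by norm_num)
    nlinarith
  have hcard := tc_card_roots_le n hH (S.image f) (by
    intro x hx
    obtain ⟨Λ, hΛ, rfl⟩ := Finset.mem_image.mp hx
    exact hf2 Λ hΛ)
  rw [Finset.card_image_of_injOn hinj] at hcard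
  refine hcard.trans ?_
  have h1 : (n : ℝ) * (3 * ((2 ^ (n + 1) * Z) ^ n * 2 ^ n)) ^ (n + 1) =
      c * Z ^ (n * (n + 1)) := by
    rw [hc, pow_mul Z, pow_mul (2 : ℝ)]
    ring
  rw [h1, ← Real.rpow_natCast Z]
  have hZ0 : (0 : ℝ) ≤ Z := by linarith
  refine mul_le_mul ?_ ?_ (Real.rpow_nonneg hZ0 _) (by positivity)
  · have : (0 : ℝ) ≤ ((n * (n + 1) : ℕ) : ℝ) := Nat.cast_nonneg _
    linarith
  · exact Real.rpow_le_rpow_of_exponent_le hZ (by linarith)

end Pool.Agent.Lib.MP_4a0cc8_ntC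
end

section

/-!
MP_4a0cc8_nt (C): the global choice of the ideal `s` and of `a`.
-/

set_option autoImplicit false

namespace Pool.Agent.Lib.MP_4a0cc8_ntC

open NumberField Module
open Pool.Agent.Lib.FMK60 (InBox Del)

open scoped Classical in
private theorem glob_prod {K : Type*} [Field K] [NumberField K] {D : 𝓞 K} (hD : D ≠ 0) :
    Ideal.span {D} = ∏ P ∈ (UniqueFactorizationMonoid.normalizedFactors
      (Ideal.span {D})).toFinset, P ^ ordP P D := by
  have h0 : Ideal.span {D} ≠ 0 := by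
    rw [Ne, Ideal.zero_eq_bot, Ideal.span_singleton_eq_bot]
    exact hD
  have h1 := UniqueFactorizationMonoid.prod_normalizedFactors_eq h0
  rw [normalize_eq] at h1
  conv_lhs => rw [← h1]
  rw [Finset.prod_multiset_count]
  rfl

private theorem glob_coprime {K : Type*} [Field K] [NumberField K] {P Q : Ideal (𝓞 K)}
    (hP : P.IsPrime) (hP0 : P ≠ ⊥) (hQ : Q.IsPrime) (hQ0 : Q ≠ ⊥) (h : P ≠ Q) (m n : ℕ) :
    IsCoprime (P ^ m) (Q ^ n) := by
  apply IsCoprime.pow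
  have hPm := hP.isMaximal hP0
  have hQm := hQ.isMaximal hQ0
  rw [Ideal.isCoprime_iff_sup_eq]
  exact hPm.coprime_of_ne hQm h

/-- **The ideal `s`.**

Proof. Let `c` be the constant of `tc_exists_local`, `C = c + 1`. Let `F` be the finite set of the prime
ideals dividing `span {D}`, `D = Del z ≠ 0` (`normalizedFactors.toFinset`), for `P ∈ F` choose `s P`,
`a P` (`tc_exists_local`). Let `s = ∏_{P ∈ F} P ^ (s P)`. By the Chinese remainder theorem
(`IsDedekindDomain.exists_forall_sub_mem_ideal`, with the exponents `2 * s P`) there is `a` with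
`a - a P ∈ P ^ (2 * s P)` for all `P ∈ F`. Then `f(a) - f(a P)` is a multiple of `a - a P`, so
`f(a) ∈ P ^ (2 * s P)` for all `P ∈ F` and `f(a) ∈ ∏ P ^ (2 * s P) = s²` (coprime ideals:
`Ideal.prod_eq_iInf` or `Finset.prod_dvd_of_coprime`/`Ideal.dvd_span_singleton`); in the same way
`f'(a) ∈ s`. Norms: `span {D} = ∏_{P ∈ F} P ^ (v P)` with `v P < 2 * s P + c` so
`N(D) = ∏ N(P) ^ (v P) ≤ ∏ N(P) ^ (2 * s P) * (∏_{P ∈ F} N(P)) ^ c = N(s)² * (∏ N(P)) ^ c`, and
`∏_{P ∈ F} P` divides `r` (distinct primes dividing `r`), so `∏ N(P) ≤ N(r)`. -/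
theorem tc_exists_s (K : Type*) [Field K] [NumberField K] (k : ℕ) :
    ∃ C : ℝ, 0 < C ∧ ∀ r : Ideal (𝓞 K), r ≠ ⊥ → ∀ z : 𝓞 K × 𝓞 K, KMin k z → Supp r (Del z) →
      ∃ (s : Ideal (𝓞 K)) (a : 𝓞 K), s ≠ ⊥ ∧ a ^ 3 + z.1 * a + z.2 ∈ s ^ 2 ∧
        3 * a ^ 2 + z.1 ∈ s ∧ (Ideal.absNorm (Ideal.span {Del z}) : ℝ) ≤
          (Ideal.absNorm r : ℝ) ^ C * (Ideal.absNorm s : ℝ) ^ 2 := by
  classical
  obtain ⟨c, hc⟩ := tc_exists_local K k
  refine ⟨(c : ℝ) + 1, by positivity, fun r hr z hz hS => ?_⟩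
  obtain ⟨D, hDdef⟩ : ∃ D, D = Del z := ⟨_, rfl⟩
  rw [← hDdef] at hS ⊢
  have hD : D = 4 * z.1 ^ 3 + 27 * z.2 ^ 2 := hDdef
  have hD0 : D ≠ 0 := hS.1
  have hspan : Ideal.span {D} ≠ 0 := by
    rw [Ne, Ideal.zero_eq_bot, Ideal.span_singleton_eq_bot]
    exact hD0
  set F := (UniqueFactorizationMonoid.normalizedFactors (Ideal.span {D})).toFinset with hF
  have hFp : ∀ P ∈ F, Prime P := fun P hP =>
    UniqueFactorizationMonoid.prime_of_normalized_factor P (Multiset.mem_toFinset.1 hP)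
  have hFd : ∀ P ∈ F, P ∣ Ideal.span {D} := fun P hP =>
    UniqueFactorizationMonoid.dvd_of_mem_normalizedFactors (Multiset.mem_toFinset.1 hP)
  have hFI : ∀ P ∈ F, P.IsPrime := fun P hP => Ideal.isPrime_of_prime (hFp P hP)
  have hF0 : ∀ P ∈ F, P ≠ ⊥ := fun P hP => (hFp P hP).ne_zero
  have hFD : ∀ P ∈ F, D ∈ P := fun P hP => Ideal.dvd_span_singleton.1 (hFd P hP)
  have hloc : ∀ P : Ideal (𝓞 K), ∃ (s : ℕ) (a : 𝓞 K), P ∈ F →
      (a ^ 3 + z.1 * a + z.2 ∈ P ^ (2 * s) ∧ 3 * a ^ 2 + z.1 ∈ P ^ s ∧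
        D ∉ P ^ (2 * s + c)) := by
    intro P
    by_cases hP : P ∈ F
    · obtain ⟨s, a, h1, h2, h3⟩ := hc P (hFI P hP) (hF0 P hP) z.1 z.2
        (by rw [← hD]; exact hD0) (hz P (hFI P hP) (hF0 P hP))
      exact ⟨s, a, fun _ => ⟨h1, h2, by rw [hD]; exact h3⟩⟩
    · exact ⟨0, 0, fun h => absurd h hP⟩
  choose s a hsa using hloc
  obtain ⟨y, hy⟩ := IsDedekindDomain.exists_forall_sub_mem_ideal (s := F) (fun P => P)
    (fun P => 2 * s P) hFp (fun P _ Q _ h => h) (fun P => a P.1)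
  have hy1 : ∀ P ∈ F, y ^ 3 + z.1 * y + z.2 ∈ P ^ (2 * s P) := by
    intro P hP
    have h1 := hy P hP
    have h2 := (hsa P hP).1
    have h3 : y ^ 3 + z.1 * y + z.2 = (y - a P) * (y ^ 2 + y * a P + a P ^ 2 + z.1) +
        (a P ^ 3 + z.1 * a P + z.2) := by ring
    rw [h3]
    exact Ideal.add_mem _ (Ideal.mul_mem_right _ _ h1) h2
  have hy2 : ∀ P ∈ F, 3 * y ^ 2 + z.1 ∈ P ^ s P := by
    intro P hP
    have h1 := Ideal.pow_le_pow_right (I := P) (by omega : s P ≤ 2 * s P) (hy P hP)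
    have h2 := (hsa P hP).2.1
    have h3 : 3 * y ^ 2 + z.1 = (y - a P) * (3 * (y + a P)) +
        (3 * a P ^ 2 + z.1) := by ring
    rw [h3]
    exact Ideal.add_mem _ (Ideal.mul_mem_right _ _ h1) h2
  have hcop : ∀ e : Ideal (𝓞 K) → ℕ,
      ((F : Set (Ideal (𝓞 K))).Pairwise (Function.onFun IsCoprime (fun P => P ^ e P))) := by
    intro e P hP Q hQ h
    exact glob_coprime (hFI P hP) (hF0 P hP) (hFI Q hQ) (hF0 Q hQ) h _ _
  have hne : (∏ P ∈ F, P ^ s P) ≠ 0 :=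
    Finset.prod_ne_zero_iff.2 fun P hP => pow_ne_zero _ (hFp P hP).ne_zero
  refine ⟨∏ P ∈ F, P ^ s P, y, hne, ?_, ?_, ?_⟩
  · have h1 : (∏ P ∈ F, P ^ s P) ^ 2 = ∏ P ∈ F, P ^ (2 * s P) := by
      rw [← Finset.prod_pow]
      refine Finset.prod_congr rfl fun P _ => ?_
      rw [← pow_mul, mul_comm]
    rw [h1, ← Ideal.dvd_span_singleton]
    exact Finset.prod_dvd_of_coprime (hcop fun P => 2 * s P)
      fun P hP => Ideal.dvd_span_singleton.2 (hy1 P hP)
  · rw [← Ideal.dvd_span_singleton]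
    exact Finset.prod_dvd_of_coprime (hcop fun P => s P)
      fun P hP => Ideal.dvd_span_singleton.2 (hy2 P hP)
  · have hN1 : ∀ P ∈ F, 1 ≤ Ideal.absNorm P := fun P hP =>
      Nat.one_le_iff_ne_zero.2 (by rw [Ne, Ideal.absNorm_eq_zero_iff]; exact hF0 P hP)
    have hdvd : (∏ P ∈ F, P) ∣ r := by
      have h2 := Finset.prod_dvd_of_coprime (s := fun P : Ideal (𝓞 K) => P ^ 1) (z := r)
        (hcop fun _ => 1) (fun P hP => by
          rw [pow_one]
          exact Ideal.dvd_iff_le.2 (hS.2 P (hFI P hP) (hFD P hP)))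
      simpa using h2
    have hr1 : 1 ≤ Ideal.absNorm r :=
      Nat.one_le_iff_ne_zero.2 (by rw [Ne, Ideal.absNorm_eq_zero_iff]; exact hr)
    have hprod : ∏ P ∈ F, Ideal.absNorm P ≤ Ideal.absNorm r := by
      rw [← map_prod]
      exact Nat.le_of_dvd (by omega) (map_dvd Ideal.absNorm hdvd)
    have hmain : Ideal.absNorm (Ideal.span {D}) ≤
        Ideal.absNorm r ^ c * Ideal.absNorm (∏ P ∈ F, P ^ s P) ^ 2 := by
      rw [glob_prod hD0, map_prod, map_prod, ← Finset.prod_pow]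
      calc ∏ P ∈ F, Ideal.absNorm (P ^ ordP P D)
          ≤ ∏ P ∈ F, (Ideal.absNorm P ^ c * Ideal.absNorm (P ^ s P) ^ 2) := by
            refine Finset.prod_le_prod' fun P hP => ?_
            rw [map_pow, map_pow, ← pow_mul, ← pow_add]
            refine Nat.pow_le_pow_right (hN1 P hP) ?_
            have h3 := (hsa P hP).2.2
            rw [tc_mem_pow_iff (hFI P hP) (hF0 P hP) hD0] at h3
            omega
        _ = (∏ P ∈ F, Ideal.absNorm P) ^ c * ∏ P ∈ F, Ideal.absNorm (P ^ s P) ^ 2 := by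
            rw [Finset.prod_mul_distrib, Finset.prod_pow]
        _ ≤ _ := Nat.mul_le_mul_right _ (Nat.pow_le_pow_left hprod c)
    have hr1' : (1 : ℝ) ≤ Ideal.absNorm r := by exact_mod_cast hr1
    calc (Ideal.absNorm (Ideal.span {D}) : ℝ) ≤
        (Ideal.absNorm r : ℝ) ^ c * (Ideal.absNorm (∏ P ∈ F, P ^ s P) : ℝ) ^ 2 := by
          exact_mod_cast hmain
      _ ≤ (Ideal.absNorm r : ℝ) ^ ((c : ℝ) + 1) *
          (Ideal.absNorm (∏ P ∈ F, P ^ s P) : ℝ) ^ 2 := by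
          refine mul_le_mul_of_nonneg_right ?_ (by positivity)
          rw [← Real.rpow_natCast]
          exact Real.rpow_le_rpow_of_exponent_le hr1' (by linarith)

end Pool.Agent.Lib.MP_4a0cc8_ntC
end

section

/-!
MP_4a0cc8_nt (C): the discriminant of the cubic extension.
-/

set_option autoImplicit false

namespace Pool.Agent.Lib.MP_4a0cc8_ntC

open NumberField Module

section
variable {K L : Type*} [Field K] [NumberField K] [Field L] [NumberField L] [Algebra K L]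

/-- The bound for the discriminant.

Proof. `conductor (𝓞 K) θ * differentIdeal (𝓞 K) (𝓞 L) = span {3θ² + A}`
(`conductor_mul_differentIdeal (𝓞 K) K L (𝓞 L) θ`, hypothesis: `Algebra.adjoin K {θ} = ⊤`, from `hθ`,
`IntermediateField.adjoin_simple_toSubalgebra_of_integral`; `tc_minpoly`). Apply `Ideal.relNorm (𝓞 K)`
(`map_mul`, `Ideal.relNorm_singleton`) and `tc_norm_deriv`:
`relNorm (conductor) * relNorm (different) = span {D}`, `D = 4A³ + 27B²`. `relNorm (conductor) ≤ s²`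
by `tc_norm_conductor` (`Ideal.relNorm_apply`: the relative norm of an ideal is spanned by the norms of
its elements). So `N(s)²` divides `N(relNorm conductor) = N(conductor)` (`Ideal.absNorm_relNorm`,
`Ideal.absNorm_dvd_absNorm_of_le`) and `N(conductor) * N(different) = N(D) ≠ 0`, so
`N(different) * N(s)² ≤ N(D)`; `natAbs_discr_eq_absNorm_differentIdeal_mul_natAbs_discr_pow K (𝓞 K) L
(𝓞 L)`: `|disc L| = N(different) * |disc K| ^ 3`. -/
theorem tc_discr_le (hf : finrank K L = 3) (θ : 𝓞 L)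
    (hθ : IntermediateField.adjoin K {(θ : L)} = ⊤) (A B a : 𝓞 K)
    (hroot : θ ^ 3 + algebraMap (𝓞 K) (𝓞 L) A * θ + algebraMap (𝓞 K) (𝓞 L) B = 0)
    (hD : 4 * A ^ 3 + 27 * B ^ 2 ≠ 0)
    (s : Ideal (𝓞 K)) (hs : s ≠ ⊥) (h1 : a ^ 3 + A * a + B ∈ s ^ 2) (h2 : 3 * a ^ 2 + A ∈ s) :
    (discr L).natAbs * Ideal.absNorm s ^ 2 ≤
      (discr K).natAbs ^ 3 * Ideal.absNorm (Ideal.span {4 * A ^ 3 + 27 * B ^ 2}) := by
  have hadj : Algebra.adjoin K {algebraMap (𝓞 L) L θ} = ⊤ := by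
    have hint : IsIntegral K (θ : L) := Algebra.IsIntegral.isIntegral _
    have h := IntermediateField.adjoin_simple_toSubalgebra_of_isAlgebraic hint.isAlgebraic
    rw [hθ, IntermediateField.top_toSubalgebra] at h
    exact h.symm
  have hcd := conductor_mul_differentIdeal (𝓞 K) K L θ hadj
  have hder : Polynomial.aeval θ (Polynomial.derivative (minpoly (𝓞 K) θ)) =
      3 * θ ^ 2 + algebraMap (𝓞 K) (𝓞 L) A := by
    rw [tc_minpoly hf θ hθ A B hroot]
    simp only [Polynomial.derivative_X_pow, Polynomial.derivative_mul,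
      Polynomial.derivative_C, Polynomial.derivative_X, map_add, map_mul, map_pow,
      Polynomial.aeval_X, Polynomial.aeval_C, zero_mul, zero_add, mul_one,
      add_zero]
    norm_num
    left
    exact map_ofNat (algebraMap (𝓞 K) (𝓞 L)) 3
  rw [hder] at hcd
  have hrel := congrArg (Ideal.relNorm (𝓞 K)) hcd
  rw [map_mul, Ideal.relNorm_singleton, (tc_norm_deriv hf θ hθ A B hroot).1] at hrel
  have habs := congrArg Ideal.absNorm hrel
  rw [map_mul, Ideal.absNorm_relNorm, Ideal.absNorm_relNorm] at habs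
  have hle : Ideal.relNorm (𝓞 K) (conductor (𝓞 K) θ) ≤ s ^ 2 := by
    rw [Ideal.relNorm_apply, Ideal.span_le]
    rintro _ ⟨c, hc, rfl⟩
    exact tc_norm_conductor hf θ hθ A B a hroot s hs h1 h2 c hc
  have hdvd : Ideal.absNorm s ^ 2 ∣ Ideal.absNorm (conductor (𝓞 K) θ) := by
    rw [← map_pow, ← Ideal.absNorm_relNorm (𝓞 K) (I := conductor (𝓞 K) θ)]
    exact Ideal.absNorm_dvd_absNorm_of_le hle
  have hDne : Ideal.absNorm (Ideal.span {4 * A ^ 3 + 27 * B ^ 2}) ≠ 0 := by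
    rw [Ne, Ideal.absNorm_eq_zero_iff, Ideal.span_singleton_eq_bot]
    exact hD
  have hcne : Ideal.absNorm (conductor (𝓞 K) θ) ≠ 0 := by
    intro h
    rw [h, zero_mul] at habs
    exact hDne habs.symm
  have hle' : Ideal.absNorm s ^ 2 ≤ Ideal.absNorm (conductor (𝓞 K) θ) :=
    Nat.le_of_dvd (Nat.pos_of_ne_zero hcne) hdvd
  have hdisc := natAbs_discr_eq_absNorm_differentIdeal_mul_natAbs_discr_pow K (𝓞 K) L (𝓞 L)
  rw [hf] at hdisc
  calc (discr L).natAbs * Ideal.absNorm s ^ 2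
      ≤ (discr L).natAbs * Ideal.absNorm (conductor (𝓞 K) θ) := Nat.mul_le_mul_left _ hle'
    _ = (discr K).natAbs ^ 3 *
        (Ideal.absNorm (conductor (𝓞 K) θ) * Ideal.absNorm (differentIdeal (𝓞 K) (𝓞 L))) := by
      rw [hdisc]; ring
    _ = (discr K).natAbs ^ 3 * Ideal.absNorm (Ideal.span {4 * A ^ 3 + 27 * B ^ 2}) := by
      rw [habs]

end

end Pool.Agent.Lib.MP_4a0cc8_ntC
end

section

/-!
MP_4a0cc8_nt (C): the cubic field and the integer `γ = f'(θ)` attached to `(A, B)`, `f` irreducible.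
-/

set_option autoImplicit false

namespace Pool.Agent.Lib.MP_4a0cc8_ntC

open NumberField Module
open Pool.Agent.Lib.FMK60 (InBox Del Hle)

/-- **The data of an irreducible `f`.**

Proof. Let `Ω = AlgebraicClosure K`, `θ' ∈ Ω` a root of `f = X³ + A X + B` (`IsAlgClosed`),
`Λ = K(θ')`. `f` has degree 3 and no root in `K`, so it is irreducible
(`Polynomial.Monic.irreducible_iff_roots_eq_zero_of_degree_le_three` or
`irreducible_of_degree_le_three_of_not_isRoot`), it is the minimal polynomial of `θ'`, and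
`finrank K Λ = 3`; `Λ` is a number field. `θ` = the generator, it is an algebraic integer:
`θ : 𝓞 Λ`, `K(θ) = ⊤` (`IntermediateField.adjoin_simple_adjoin_simple` or
`IntermediateField.AdjoinSimple`...). Discriminant: with `s, a` from `tc_exists_s`,
`|disc Λ| N(s)² ≤ |disc K|³ N(D) ≤ |disc K|³ N(r)^C₁ N(s)²` (`tc_discr_le`), so
`|disc Λ| ≤ |disc K|³ N(r)^C₁`; `C = max (|disc K|³) C₁` (`1 ≤ N(r)`).
`γ = 3θ² + A`: `intNorm γ = D` and the trace by `tc_norm_deriv`, so `tc_supp_up` applies;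
`‖σ γ‖ ≤ 3 (2T²)² + T⁴ = 13 T⁴` by `tc_root_le` (for `σ : Λ → ℂ`, `σ ∘ algebraMap K Λ` is an
embedding of `K`). `Algebra.norm K (γ : Λ) = D`: `Algebra.algebraMap_intNorm`. -/
theorem tc_irr_data (K : Type*) [Field K] [NumberField K] (k : ℕ) :
    ∃ C : ℝ, 0 < C ∧ ∀ T : ℝ, 1 ≤ T → ∀ r : Ideal (𝓞 K), r ≠ ⊥ → ∀ z : 𝓞 K × 𝓞 K,
      InBox T z → KMin k z → Supp r (Del z) → (∀ x : K, x ^ 3 + (z.1 : K) * x + (z.2 : K) ≠ 0) →
      ∃ (Λ : IntermediateField K (AlgebraicClosure K)) (h : NumberField Λ), finrank K Λ = 3 ∧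
        |((@discr Λ _ h : ℤ) : ℝ)| ≤ C * (Ideal.absNorm r : ℝ) ^ C ∧
        ∃ γ : 𝓞 Λ, Supp (r.map (algebraMap (𝓞 K) (𝓞 Λ))) γ ∧ Hle (γ : Λ) (13 * T ^ 4) ∧
          Algebra.trace K Λ (γ : Λ) = -3 * (z.1 : K) ∧
          Algebra.norm K (γ : Λ) = ((Del z : 𝓞 K) : K) := by
  classical
  obtain ⟨C₁, hC₁, hs⟩ := tc_exists_s K k
  refine ⟨max (((discr K).natAbs : ℝ) ^ 3) C₁, lt_max_of_lt_right hC₁, ?_⟩
  intro T hT r hr z hbox hmin hsupp hirr
  obtain ⟨s, a, hs0, h1, h2, hN⟩ := hs r hr z hmin hsupp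
  obtain ⟨A, B⟩ := z
  simp only at h1 h2 hirr
  obtain ⟨f, hf⟩ : ∃ f : Polynomial K, f = Polynomial.X ^ 3 + Polynomial.C (A : K) *
    Polynomial.X + Polynomial.C (B : K) := ⟨_, rfl⟩
  have hfd : f.natDegree = 3 := by rw [hf]; compute_degree!
  have hfm : f.Monic := by rw [hf]; monicity!
  have hfirr : Irreducible f := by
    refine Polynomial.irreducible_of_degree_le_three_of_not_isRoot ?_ ?_
    · rw [hfd, Finset.mem_Icc]; omega
    · intro x hx
      apply hirr x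
      rw [hf, Polynomial.IsRoot.def] at hx
      simpa using hx
  obtain ⟨θ', hθ'⟩ := IsAlgClosed.exists_aeval_eq_zero (AlgebraicClosure K) f (by
    rw [Polynomial.degree_eq_natDegree hfm.ne_zero, hfd]
    norm_num)
  have hmp : minpoly K θ' = f := (minpoly.eq_of_irreducible_of_monic hfirr hθ' hfm).symm
  have hint : IsIntegral K θ' := ⟨f, hfm, hθ'⟩
  have hfin : finrank K (IntermediateField.adjoin K {θ'}) = 3 := by
    rw [IntermediateField.adjoin.finrank hint, hmp, hfd]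
  have hFD : FiniteDimensional K (IntermediateField.adjoin K {θ'}) :=
    FiniteDimensional.of_finrank_pos (by omega)
  have hNF : NumberField (IntermediateField.adjoin K {θ'}) := NumberField.of_module_finite K _
  obtain ⟨Λ, hΛ⟩ : ∃ Λ : IntermediateField K (AlgebraicClosure K),
    Λ = IntermediateField.adjoin K {θ'} := ⟨_, rfl⟩
  have hgenmem : θ' ∈ Λ := by
    rw [hΛ]
    exact IntermediateField.mem_adjoin_simple_self K θ'
  rw [← hΛ] at hfin hFD hNF
  obtain ⟨t, ht⟩ : ∃ t : Λ, (t : AlgebraicClosure K) = θ' := ⟨⟨θ', hgenmem⟩, rfl⟩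
  have htmp : minpoly K t = f := by
    rw [← hmp, ← ht]
    exact (minpoly.algebraMap_eq (algebraMap Λ (AlgebraicClosure K)).injective t).symm
  have htop : IntermediateField.adjoin K {t} = ⊤ := by
    rw [Field.primitive_element_iff_minpoly_natDegree_eq, htmp, hfd, hfin]
  have hroott : t ^ 3 + algebraMap K Λ (A : K) * t + algebraMap K Λ (B : K) = 0 := by
    have h3 := minpoly.aeval K t
    rw [htmp, hf] at h3
    simpa using h3
  have htint : IsIntegral ℤ t := by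
    have h4 : IsIntegral (𝓞 K) t := by
      refine ⟨Polynomial.X ^ 3 + Polynomial.C A * Polynomial.X + Polynomial.C B,
        by monicity!, ?_⟩
      rw [← Polynomial.aeval_def]
      simp only [map_add, map_mul, map_pow, Polynomial.aeval_X, Polynomial.aeval_C]
      exact hroott
    have hst : IsScalarTower ℤ (𝓞 K) Λ :=
      IsScalarTower.of_algebraMap_eq fun x => by simp
    exact isIntegral_trans t h4
  obtain ⟨θ, hθ⟩ : ∃ θ : 𝓞 Λ, (θ : Λ) = t := ⟨⟨t, htint⟩, rfl⟩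
  have hθtop : IntermediateField.adjoin K {(θ : Λ)} = ⊤ := by rw [hθ]; exact htop
  have hroot : θ ^ 3 + algebraMap (𝓞 K) (𝓞 Λ) A * θ + algebraMap (𝓞 K) (𝓞 Λ) B = 0 := by
    apply RingOfIntegers.ext
    have h6 : algebraMap (𝓞 Λ) Λ (θ ^ 3 + algebraMap (𝓞 K) (𝓞 Λ) A * θ +
        algebraMap (𝓞 K) (𝓞 Λ) B) = 0 := by
      rw [map_add, map_add, map_mul, map_pow]
      have h7 : algebraMap (𝓞 Λ) Λ θ = t := hθ
      rw [h7]
      exact hroott
    exact h6.trans (map_zero (algebraMap (𝓞 Λ) Λ)).symm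
  have hD0 : 4 * A ^ 3 + 27 * B ^ 2 ≠ 0 := hsupp.1
  have hnd := tc_norm_deriv hfin θ hθtop A B hroot
  have hdle := tc_discr_le hfin θ hθtop A B a hroot hD0 s hs0 h1 h2
  refine ⟨Λ, hNF, hfin, ?_, 3 * θ ^ 2 + algebraMap (𝓞 K) (𝓞 Λ) A, ?_, ?_, hnd.2, ?_⟩
  · have hNs : 0 < (Ideal.absNorm s : ℝ) := by
      have : Ideal.absNorm s ≠ 0 := fun h => hs0 (Ideal.absNorm_eq_zero_iff.1 h)
      exact_mod_cast Nat.pos_of_ne_zero this
    have hNr : 1 ≤ (Ideal.absNorm r : ℝ) := by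
      have : Ideal.absNorm r ≠ 0 := fun h => hr (Ideal.absNorm_eq_zero_iff.1 h)
      exact_mod_cast Nat.one_le_iff_ne_zero.2 this
    have hdle' : ((discr Λ).natAbs : ℝ) * (Ideal.absNorm s : ℝ) ^ 2 ≤
        ((discr K).natAbs : ℝ) ^ 3 *
          (Ideal.absNorm (Ideal.span {4 * A ^ 3 + 27 * B ^ 2}) : ℝ) := by
      exact_mod_cast hdle
    have hN' : (Ideal.absNorm (Ideal.span {4 * A ^ 3 + 27 * B ^ 2}) : ℝ) ≤
        (Ideal.absNorm r : ℝ) ^ C₁ * (Ideal.absNorm s : ℝ) ^ 2 := hN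
    have h5 : ((discr Λ).natAbs : ℝ) ≤ ((discr K).natAbs : ℝ) ^ 3 * (Ideal.absNorm r : ℝ) ^ C₁ := by
      have h6 : ((discr Λ).natAbs : ℝ) * (Ideal.absNorm s : ℝ) ^ 2 ≤
          (((discr K).natAbs : ℝ) ^ 3 * (Ideal.absNorm r : ℝ) ^ C₁) *
            (Ideal.absNorm s : ℝ) ^ 2 := by
        calc _ ≤ _ := hdle'
          _ ≤ ((discr K).natAbs : ℝ) ^ 3 *
              ((Ideal.absNorm r : ℝ) ^ C₁ * (Ideal.absNorm s : ℝ) ^ 2) :=
            mul_le_mul_of_nonneg_left hN' (by positivity)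
          _ = _ := by ring
      exact le_of_mul_le_mul_right h6 (by positivity)
    have h7 : |((discr Λ : ℤ) : ℝ)| = ((discr Λ).natAbs : ℝ) := by
      rw [Nat.cast_natAbs, Int.cast_abs]
    rw [h7]
    refine h5.trans (mul_le_mul (le_max_left _ _)
      (Real.rpow_le_rpow_of_exponent_le hNr (le_max_right _ _)) (by positivity)
      (le_max_of_le_right hC₁.le))
  · apply tc_supp_up
    rw [hnd.1]
    exact hsupp
  · intro σ
    have hA := hbox.1 (σ.comp (algebraMap K Λ))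
    have hB := hbox.2 (σ.comp (algebraMap K Λ))
    have hσ := congrArg σ hroott
    rw [map_add, map_add, map_mul, map_pow, map_zero] at hσ
    have hle := tc_root_le hT hA hB hσ
    have e1 : ((3 * θ ^ 2 + algebraMap (𝓞 K) (𝓞 Λ) A : 𝓞 Λ) : Λ) =
        3 * t ^ 2 + algebraMap K Λ (A : K) := by
      have h7 : algebraMap (𝓞 Λ) Λ θ = t := hθ
      have h8 : algebraMap (𝓞 Λ) Λ (3 * θ ^ 2 + algebraMap (𝓞 K) (𝓞 Λ) A) =
          3 * t ^ 2 + algebraMap K Λ (A : K) := by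
        rw [map_add, map_mul, map_pow, h7, map_ofNat]
        rfl
      exact h8
    rw [e1, map_add, map_mul, map_pow, map_ofNat]
    have h8 : ‖(3 : ℂ) * σ t ^ 2‖ ≤ 12 * T ^ 4 := by
      rw [norm_mul, norm_pow]
      have : ‖σ t‖ ^ 2 ≤ (2 * T ^ 2) ^ 2 := pow_le_pow_left₀ (norm_nonneg _) hle 2
      have h9 : ‖(3 : ℂ)‖ = 3 := by norm_num
      rw [h9]
      nlinarith
    calc ‖(3 : ℂ) * σ t ^ 2 + σ (algebraMap K Λ (A : K))‖
        ≤ ‖(3 : ℂ) * σ t ^ 2‖ + ‖σ (algebraMap K Λ (A : K))‖ := norm_add_le _ _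
      _ ≤ 12 * T ^ 4 + T ^ 4 := add_le_add h8 hA
      _ = 13 * T ^ 4 := by ring
  · rw [← Algebra.algebraMap_intNorm (A := 𝓞 K) (B := 𝓞 Λ) (K := K) (L := Λ), hnd.1]
    rfl

end Pool.Agent.Lib.MP_4a0cc8_ntC
end

section

/-!
MP_4a0cc8_nt (C): the number of pairs with `f` irreducible.
-/

set_option autoImplicit false

namespace Pool.Agent.Lib.MP_4a0cc8_ntC

open NumberField Module
open Pool.Agent.Lib.FMK60 (InBox Del Hle)
open Pool.Agent.Lib.FMK60.SmallNorm (card_le_image_mul)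

/-- the data of one pair: the field `Λ` and the element `y` of `Ω` -/
def IrrDat (K : Type*) [Field K] [NumberField K] (r : Ideal (𝓞 K)) (H Z : ℝ) (z : 𝓞 K × 𝓞 K)
    (Λ : IntermediateField K (AlgebraicClosure K)) (y : AlgebraicClosure K) : Prop :=
  ∃ h : NumberField Λ, finrank K Λ = 3 ∧ |((@discr Λ _ h : ℤ) : ℝ)| ≤ Z ∧
    ∃ γ : 𝓞 Λ, Supp (r.map (algebraMap (𝓞 K) (𝓞 Λ))) γ ∧ Hle (γ : Λ) H ∧
      Algebra.trace K Λ (γ : Λ) = -3 * (z.1 : K) ∧
      Algebra.norm K (γ : Λ) = ((Del z : 𝓞 K) : K) ∧ ((γ : Λ) : AlgebraicClosure K) = y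

/-- the fibre of the map to `(Λ, y)` -/
theorem tc_irr_fibre (K : Type*) [Field K] [NumberField K] {r : Ideal (𝓞 K)} {H Z : ℝ}
    {Λ : IntermediateField K (AlgebraicClosure K)} {y : AlgebraicClosure K}
    (S : Finset (𝓞 K × 𝓞 K)) (hS : ∀ z ∈ S, IrrDat K r H Z z Λ y) : S.card ≤ 2 := by
  classical
  rcases S.eq_empty_or_nonempty with rfl | ⟨z₀, hz₀⟩
  · simp
  obtain ⟨h₀, hf₀, hd₀, γ₀, h1, h2, h3, h4, h5⟩ := hS z₀ hz₀
  have hsub : S ⊆ {z₀, (z₀.1, -z₀.2)} := by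
    intro z hz
    obtain ⟨h', hf', hd', γ, g1, g2, g3, g4, g5⟩ := hS z hz
    have hγ : (γ : Λ) = (γ₀ : Λ) := by
      apply Subtype.ext
      exact g5.trans h5.symm
    rw [hγ] at g3 g4
    have e1 : z.1 = z₀.1 := by
      apply RingOfIntegers.ext
      have : (-3 : K) * (z.1 : K) = -3 * (z₀.1 : K) := by rw [← g3, ← h3]
      exact mul_left_cancel₀ (by norm_num) this
    have e2 : Del z = Del z₀ := by
      apply RingOfIntegers.ext
      rw [← g4, ← h4]
    have e3 : z.2 ^ 2 = z₀.2 ^ 2 := by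
      unfold Del at e2
      rw [e1] at e2
      have e4 := add_left_cancel e2
      exact mul_left_cancel₀ (by norm_num) e4
    rcases sq_eq_sq_iff_eq_or_eq_neg.mp e3 with e4 | e4
    · rw [Finset.mem_insert]
      left
      exact Prod.ext e1 e4
    · rw [Finset.mem_insert, Finset.mem_singleton]
      right
      exact Prod.ext e1 e4
  exact (Finset.card_le_card hsub).trans (Finset.card_le_two)

/-- the number of elements for one field -/
theorem tc_irr_one.{u} (K : Type u) [Field K] [NumberField K] {ε C₂ : ℝ} (hC₂ : 0 < C₂)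
    (h2 : ∀ (L : Type u) [Field L] [NumberField L], finrank ℚ L ≤ 3 * finrank ℚ K →
      ∀ r : Ideal (𝓞 L), r ≠ ⊥ → ∀ H : ℝ, 1 ≤ H → ∀ S : Finset (𝓞 L),
        (∀ x ∈ S, Supp r x ∧ Hle (x : L) H) →
        (S.card : ℝ) ≤ C₂ * (Ideal.absNorm r : ℝ) ^ C₂ * H ^ ε)
    {r : Ideal (𝓞 K)} (hr : r ≠ ⊥) {H Z : ℝ} (hH : 1 ≤ H)
    {Λ : IntermediateField K (AlgebraicClosure K)} (y : 𝓞 K × 𝓞 K → AlgebraicClosure K)
    (S : Finset (𝓞 K × 𝓞 K)) (hS : ∀ z ∈ S, IrrDat K r H Z z Λ (y z)) :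
    (S.card : ℝ) ≤ C₂ * ((Ideal.absNorm r : ℝ) ^ 3) ^ C₂ * H ^ ε * 2 := by
  classical
  rcases S.eq_empty_or_nonempty with rfl | ⟨z₀, hz₀⟩
  · simp only [Finset.card_empty, Nat.cast_zero]
    have : (0 : ℝ) ≤ (Ideal.absNorm r : ℝ) := Nat.cast_nonneg _
    positivity
  obtain ⟨hN, hf₀, hd₀, -⟩ := hS z₀ hz₀
  refine (card_le_image_mul S y 2 ?_).trans ?_
  · intro y₀ _
    have := tc_irr_fibre K (r := r) (H := H) (Z := Z) (Λ := Λ) (y := y₀)
      (S.filter fun z => y z = y₀) (by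
        intro z hz
        rw [Finset.mem_filter] at hz
        have := hS z hz.1
        rwa [hz.2] at this)
    exact_mod_cast this
  · apply mul_le_mul_of_nonneg_right _ (by norm_num)
    have hex : ∀ z ∈ S, ∃ γ : 𝓞 Λ, Supp (r.map (algebraMap (𝓞 K) (𝓞 Λ))) γ ∧ Hle (γ : Λ) H ∧
        ((γ : Λ) : AlgebraicClosure K) = y z := by
      intro z hz
      obtain ⟨_, _, _, γ, g1, g2, g3, g4, g5⟩ := hS z hz
      exact ⟨γ, g1, g2, g5⟩
    choose! γ hγ using hex
    have himg : S.image y = (S.image γ).image (fun x : 𝓞 Λ => ((x : Λ) : AlgebraicClosure K)) := by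
      rw [Finset.image_image]
      apply Finset.image_congr
      intro z hz
      exact (hγ z hz).2.2.symm
    have hfin : finrank ℚ Λ ≤ 3 * finrank ℚ K := by
      rw [← Module.finrank_mul_finrank ℚ K Λ, hf₀, mul_comm]
    have hrne : r.map (algebraMap (𝓞 K) (𝓞 Λ)) ≠ ⊥ := by
      intro h0
      apply hr
      exact (Ideal.map_eq_bot_iff_of_injective
        (FaithfulSMul.algebraMap_injective (𝓞 K) (𝓞 Λ))).mp h0
    have h3 := h2 Λ hfin (r.map (algebraMap (𝓞 K) (𝓞 Λ))) hrne H hH (S.image γ) (by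
      intro x hx
      obtain ⟨z, hz, rfl⟩ := Finset.mem_image.mp hx
      exact ⟨(hγ z hz).1, (hγ z hz).2.1⟩)
    have hnorm : Ideal.absNorm (r.map (algebraMap (𝓞 K) (𝓞 Λ))) = Ideal.absNorm r ^ 3 := by
      rw [Ideal.absNorm_algebraMap]
      congr 1
      rw [← hf₀]
      exact (IsFractionRing.finrank_eq (𝓞 K) K (𝓞 Λ) Λ).symm
    rw [hnorm] at h3
    push_cast at h3
    rw [himg]
    exact (Nat.cast_le.mpr Finset.card_image_le).trans h3

/-- **The pairs with `f` irreducible.**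

Proof. Let `C₀` be the constant of `tc_irr_data`, `C₁` that of `tc_card_fields_le` (`m = 3`,
`Ω = AlgebraicClosure K`), `C₂` that of `tc_card_supp_le` for `n = 3 * finrank ℚ K` and `ε / 4`.
Choose for `z ∈ S` the `Λ z`, `γ z` of `tc_irr_data`. Let `Z = max 1 (C₀ N(r)^C₀)`. The image `S₁` of
`Λ` has at most `C₁ Z ^ C₁` elements. For `Λ₀ ∈ S₁` consider the set of the `z ∈ S` with `Λ z = Λ₀` and
the map `z ↦ (γ z : AlgebraicClosure K)` on it. Its image is the image of a finite set of `γ ∈ 𝓞 Λ₀` with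
`Supp (r 𝓞 Λ₀) γ` and `Hle γ (13 T⁴)`, so it has at most
`C₂ (N(r)³)^C₂ (13 T⁴)^(ε/4)` elements (`Ideal.absNorm_algebraMap`: `N(r 𝓞_Λ) = N(r)³`; `r 𝓞_Λ ≠ ⊥`;
`finrank ℚ Λ = 3 finrank ℚ K`). The fibres have at most two elements: `A = -trace/3` and
`4A³ + 27B² = norm` are determined by `γ`, so `A` and `B²` are determined. (It is convenient to use the
map `z ↦ (Λ z, (γ z : AlgebraicClosure K))`, or to prove it as a chain of
`SmallNorm.card_le_image_mul` in FMK60/SmallNorm.lean.) Hence `S.card ≤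
C₁ Z^C₁ * C₂ N(r)^(3 C₂) * 13^(ε/4) T^ε * 2 ≤ C N(r)^C T^ε` with `1 ≤ N(r)`. -/
theorem tc_card_irr_le (K : Type*) [Field K] [NumberField K] (k : ℕ) (ε : ℝ) (hε : 0 < ε) :
    ∃ C : ℝ, 0 < C ∧ ∀ T : ℝ, 1 ≤ T → ∀ r : Ideal (𝓞 K), r ≠ ⊥ → ∀ S : Finset (𝓞 K × 𝓞 K),
      (∀ z ∈ S, InBox T z ∧ KMin k z ∧ Supp r (Del z) ∧
        ∀ x : K, x ^ 3 + (z.1 : K) * x + (z.2 : K) ≠ 0) →
      (S.card : ℝ) ≤ C * (Ideal.absNorm r : ℝ) ^ C * T ^ ε := by
  classical
  obtain ⟨C₀, hC₀, h0⟩ := tc_irr_data K k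
  obtain ⟨C₁, hC₁, h1⟩ := tc_card_fields_le K (AlgebraicClosure K) 3
  obtain ⟨C₂, hC₂, h2⟩ := tc_card_supp_le (3 * finrank ℚ K) (ε / 4) (by positivity)
  -- the constant
  obtain ⟨c, hc⟩ : ∃ c : ℝ, c = C₁ * (1 + C₀) ^ C₁ * (C₂ * (13 ^ (ε / 4)) * 2) := ⟨_, rfl⟩
  have hc0 : 0 < c := by rw [hc]; positivity
  refine ⟨c + (C₀ * C₁ + 3 * C₂), by positivity, ?_⟩
  intro T hT r hr S hS
  have hT0 : 0 < T := by linarith
  have hN1 : (1 : ℝ) ≤ (Ideal.absNorm r : ℝ) := by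
    have : 0 < Ideal.absNorm r := Nat.pos_of_ne_zero (by
      rw [Ne, Ideal.absNorm_eq_zero_iff]; exact hr)
    exact_mod_cast this
  have hN0 : (0 : ℝ) < (Ideal.absNorm r : ℝ) := by linarith
  set N : ℝ := (Ideal.absNorm r : ℝ) with hNdef
  obtain ⟨Z, hZ⟩ : ∃ Z : ℝ, Z = (1 + C₀) * N ^ C₀ := ⟨_, rfl⟩
  have hNC : (1 : ℝ) ≤ N ^ C₀ := Real.one_le_rpow hN1 hC₀.le
  have hZ1 : 1 ≤ Z := by rw [hZ]; nlinarith
  have hZ2 : C₀ * N ^ C₀ ≤ Z := by rw [hZ]; nlinarith
  have hH : (1 : ℝ) ≤ 13 * T ^ 4 := by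
    have : (1 : ℝ) ≤ T ^ 4 := one_le_pow₀ hT
    linarith
  have key : ∀ z ∈ S, ∃ (Λ : IntermediateField K (AlgebraicClosure K)) (y : AlgebraicClosure K),
      IrrDat K r (13 * T ^ 4) Z z Λ y := by
    intro z hz
    obtain ⟨g1, g2, g3, g4⟩ := hS z hz
    obtain ⟨Λ, h, f1, f2, γ, f3, f4, f5, f6⟩ := h0 T hT r hr z g1 g2 g3 g4
    exact ⟨Λ, ((γ : Λ) : AlgebraicClosure K), h, f1, f2.trans hZ2, γ, f3, f4, f5, f6, rfl⟩
  choose! Λ y hd using key
  have hB : ∀ Λ₀ ∈ S.image Λ, ((S.filter fun z => Λ z = Λ₀).card : ℝ) ≤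
      C₂ * (N ^ 3) ^ C₂ * (13 * T ^ 4) ^ (ε / 4) * 2 := by
    intro Λ₀ _
    refine tc_irr_one K hC₂ h2 hr hH (Z := Z) (Λ := Λ₀) y _ ?_
    intro z hz
    rw [Finset.mem_filter] at hz
    have := hd z hz.1
    rwa [hz.2] at this
  have hI : ((S.image Λ).card : ℝ) ≤ C₁ * Z ^ C₁ := by
    apply h1 Z hZ1
    intro Λ₀ hΛ₀
    obtain ⟨z, hz, rfl⟩ := Finset.mem_image.mp hΛ₀
    obtain ⟨h, f1, f2, -⟩ := hd z hz
    exact ⟨h, by omega, by omega, f2⟩
  have hB0 : (0 : ℝ) ≤ C₂ * (N ^ 3) ^ C₂ * (13 * T ^ 4) ^ (ε / 4) * 2 := by positivity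
  refine (card_le_image_mul S Λ _ hB).trans ((mul_le_mul_of_nonneg_right hI hB0).trans ?_)
  have e1 : Z ^ C₁ = (1 + C₀) ^ C₁ * N ^ (C₀ * C₁) := by
    rw [hZ, Real.mul_rpow (by positivity) (by positivity), ← Real.rpow_mul hN0.le]
  have e2 : (N ^ 3) ^ C₂ = N ^ (3 * C₂) := by
    rw [← Real.rpow_natCast N 3, ← Real.rpow_mul hN0.le]
    norm_num
  have e3 : (13 * T ^ 4 : ℝ) ^ (ε / 4) = 13 ^ (ε / 4) * T ^ ε := by
    rw [Real.mul_rpow (by norm_num) (by positivity), ← Real.rpow_natCast T 4, ← Real.rpow_mul hT0.le]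
    congr 2
    push_cast
    ring
  have e4 : C₁ * Z ^ C₁ * (C₂ * (N ^ 3) ^ C₂ * (13 * T ^ 4) ^ (ε / 4) * 2) =
      c * N ^ (C₀ * C₁ + 3 * C₂) * T ^ ε := by
    rw [e1, e2, e3, hc, Real.rpow_add hN0]
    ring
  rw [e4]
  have hTε : (0 : ℝ) ≤ T ^ ε := by positivity
  apply mul_le_mul_of_nonneg_right _ hTε
  apply mul_le_mul
  · have : 0 < C₀ * C₁ + 3 * C₂ := by positivity
    linarith
  · apply Real.rpow_le_rpow_of_exponent_le hN1
    linarith
  · positivity
  · positivity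

end Pool.Agent.Lib.MP_4a0cc8_ntC
end
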