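import Pool.Agent.Lib.MP_4a0cc8_ntC.Ord
import Pool.Agent.Lib.MP_4a0cc8_ntC.NearA

/-!
MP_4a0cc8_nt (C): every curve has a nearly minimal model in a slightly larger box.
-/

set_option autoImplicit false

namespace Pool.Agent.Lib.MP_4a0cc8_ntC

open NumberField Module
open Pool.Agent.Lib.FMK60 (InBox Del Hle)

section aux
variable {K : Type*} [Field K] [NumberField K]

/-- `x m = c` as fractional ideals -/
private def tcRel (x : K) (m c : Ideal (𝓞 K)) : Prop :=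
  (∀ u ∈ m, ∃ v ∈ c, algebraMap (𝓞 K) K v = x * algebraMap (𝓞 K) K u) ∧
    (∀ v ∈ c, ∃ u ∈ m, algebraMap (𝓞 K) K v = x * algebraMap (𝓞 K) K u)

omit [NumberField K] in
private lemma tcRel_one (m : Ideal (𝓞 K)) : tcRel (1 : K) m m :=
  ⟨fun u hu => ⟨u, hu, by simp⟩, fun u hu => ⟨u, hu, by simp⟩⟩

omit [NumberField K] in
private lemma tcRel_mul_aux {x y : K} {m c m' c' : Ideal (𝓞 K)}
    (h : ∀ u ∈ m, ∃ v ∈ c, algebraMap (𝓞 K) K v = x * algebraMap (𝓞 K) K u)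
    (h' : ∀ u ∈ m', ∃ v ∈ c', algebraMap (𝓞 K) K v = y * algebraMap (𝓞 K) K u) :
    ∀ u ∈ m * m', ∃ v ∈ c * c', algebraMap (𝓞 K) K v = (x * y) * algebraMap (𝓞 K) K u := by
  intro u hu
  refine Submodule.mul_induction_on hu ?_ ?_
  · intro a ha b hb
    obtain ⟨v, hv, hve⟩ := h a ha
    obtain ⟨w, hw, hwe⟩ := h' b hb
    refine ⟨v * w, Ideal.mul_mem_mul hv hw, ?_⟩
    rw [map_mul, hve, hwe, map_mul]
    ring
  · intro a b ha hb
    obtain ⟨v, hv, hve⟩ := ha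
    obtain ⟨w, hw, hwe⟩ := hb
    refine ⟨v + w, Ideal.add_mem _ hv hw, ?_⟩
    rw [map_add, hve, hwe, map_add]
    ring

omit [NumberField K] in
private lemma tcRel_mul_aux' {x y : K} {m c m' c' : Ideal (𝓞 K)}
    (h : ∀ v ∈ c, ∃ u ∈ m, algebraMap (𝓞 K) K v = x * algebraMap (𝓞 K) K u)
    (h' : ∀ v ∈ c', ∃ u ∈ m', algebraMap (𝓞 K) K v = y * algebraMap (𝓞 K) K u) :
    ∀ v ∈ c * c', ∃ u ∈ m * m', algebraMap (𝓞 K) K v = (x * y) * algebraMap (𝓞 K) K u := by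
  intro u hu
  refine Submodule.mul_induction_on hu ?_ ?_
  · intro a ha b hb
    obtain ⟨v, hv, hve⟩ := h a ha
    obtain ⟨w, hw, hwe⟩ := h' b hb
    refine ⟨v * w, Ideal.mul_mem_mul hv hw, ?_⟩
    rw [map_mul, map_mul, hve, hwe]
    ring
  · intro a b ha hb
    obtain ⟨v, hv, hve⟩ := ha
    obtain ⟨w, hw, hwe⟩ := hb
    refine ⟨v + w, Ideal.add_mem _ hv hw, ?_⟩
    rw [map_add, hve, hwe, map_add]
    ring

omit [NumberField K] in
private lemma tcRel_mul {x y : K} {m c m' c' : Ideal (𝓞 K)} (h : tcRel x m c)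
    (h' : tcRel y m' c') : tcRel (x * y) (m * m') (c * c') :=
  ⟨tcRel_mul_aux h.1 h'.1, tcRel_mul_aux' h.2 h'.2⟩

omit [NumberField K] in
private lemma tcRel_pow {x : K} {m c : Ideal (𝓞 K)} (h : tcRel x m c) (n : ℕ) :
    tcRel (x ^ n) (m ^ n) (c ^ n) := by
  induction n with
  | zero => simpa using tcRel_one (1 : Ideal (𝓞 K))
  | succ n ih => rw [pow_succ, pow_succ, pow_succ]; exact tcRel_mul ih h

private lemma two_le_absNorm {P : Ideal (𝓞 K)} (hP : P.IsPrime) (hP0 : P ≠ ⊥) :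
    2 ≤ Ideal.absNorm P := by
  have h0 : Ideal.absNorm P ≠ 0 := by
    rw [Ne, Ideal.absNorm_eq_zero_iff]; exact hP0
  have h1 : Ideal.absNorm P ≠ 1 := by
    rw [Ne, Ideal.absNorm_eq_one_iff]; exact hP.ne_top
  omega

private lemma pow_le_absNorm {P c : Ideal (𝓞 K)} (hP : P.IsPrime) (hP0 : P ≠ ⊥) (hc : c ≠ ⊥)
    {v : ℕ} (h : P ^ v ∣ c) : 2 ^ v ≤ Ideal.absNorm c := by
  have h1 : Ideal.absNorm (P ^ v) ∣ Ideal.absNorm c :=
    Ideal.absNorm_dvd_absNorm_of_le (Ideal.dvd_iff_le.1 h)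
  have h0 : Ideal.absNorm c ≠ 0 := by
    rw [Ne, Ideal.absNorm_eq_zero_iff]; exact hc
  have h2 := Nat.le_of_dvd (Nat.pos_of_ne_zero h0) h1
  rw [map_pow] at h2
  exact (Nat.pow_le_pow_left (two_le_absNorm hP hP0) v).trans h2

private lemma exists_mult {P c : Ideal (𝓞 K)} (hP : P.IsPrime) (hP0 : P ≠ ⊥) (hc : c ≠ ⊥) :
    ∃ v : ℕ, P ^ v ∣ c ∧ ¬ P ^ (v + 1) ∣ c := by
  by_contra hcon
  push Not at hcon
  have hall : ∀ v : ℕ, P ^ v ∣ c := by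
    intro v
    induction v with
    | zero => simp
    | succ v ih => exact hcon v ih
  have h := pow_le_absNorm hP hP0 hc (hall (Ideal.absNorm c))
  exact absurd h (not_le.2 Nat.lt_two_pow_self)

private lemma mem_mul_pow {P c : Ideal (𝓞 K)} (hP : P.IsPrime) (hP0 : P ≠ ⊥) {v : ℕ}
    (h1 : P ^ v ∣ c) (h2 : ¬ P ^ (v + 1) ∣ c) (n : ℕ) {y : 𝓞 K} (hy : y ∈ c ^ n)
    (hyP : y ∈ P ^ (n + n * v)) : y ∈ (P * c) ^ n := by
  obtain ⟨c', rfl⟩ := h1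
  have hnd : ¬ P ∣ c' := by
    intro hd
    apply h2
    rw [pow_succ]
    exact mul_dvd_mul_left _ hd
  have hmax : P.IsMaximal := hP.isMaximal hP0
  have hcop : IsCoprime P c' := by
    rw [Ideal.isCoprime_iff_sup_eq]
    have hlt : P < P ⊔ c' := by
      refine lt_of_le_of_ne le_sup_left ?_
      intro he
      apply hnd
      rw [Ideal.dvd_iff_le]
      rw [he]
      exact le_sup_right
    exact hmax.1.2 _ hlt
  have hcop' : IsCoprime (P ^ (n + n * v)) (c' ^ n) := hcop.pow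
  have hy' : y ∈ c' ^ n := by
    have : (P ^ v * c') ^ n ≤ c' ^ n := by
      rw [mul_pow]
      exact Ideal.mul_le_right (I := (P ^ v) ^ n) (J := c' ^ n)
    exact this hy
  have h3 : y ∈ P ^ (n + n * v) * c' ^ n := by
    rw [Ideal.mul_eq_inf_of_isCoprime hcop']
    exact ⟨hyP, hy'⟩
  have h4 : (P * (P ^ v * c')) ^ n = P ^ (n + n * v) * c' ^ n := by
    rw [mul_pow, mul_pow, ← pow_mul, ← mul_assoc, ← pow_add, mul_comm v n]
  rw [h4]
  exact h3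

/-- a maximal ideal `m` with `A ∈ m ^ 4`, `B ∈ m ^ 6` -/
private lemma exists_max_ideal (A B : 𝓞 K) (h : A ≠ 0 ∨ B ≠ 0) :
    ∃ m : Ideal (𝓞 K), m ≠ ⊥ ∧ A ∈ m ^ 4 ∧ B ∈ m ^ 6 ∧
      ∀ P : Ideal (𝓞 K), P.IsPrime → P ≠ ⊥ → ¬ (A ∈ (P * m) ^ 4 ∧ B ∈ (P * m) ^ 6) := by
  classical
  let Q : ℕ → Prop := fun n => ∃ m : Ideal (𝓞 K), m ≠ ⊥ ∧ A ∈ m ^ 4 ∧ B ∈ m ^ 6 ∧
    Ideal.absNorm m = n
  set N := Ideal.absNorm (Ideal.span {A}) + Ideal.absNorm (Ideal.span {B}) with hN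
  have hbd : ∀ m : Ideal (𝓞 K), m ≠ ⊥ → A ∈ m ^ 4 → B ∈ m ^ 6 → Ideal.absNorm m ≤ N := by
    intro m hm hA hB
    have hpos : Ideal.absNorm m ≠ 0 := by
      rw [Ne, Ideal.absNorm_eq_zero_iff]; exact hm
    have key : ∀ (y : 𝓞 K) (e : ℕ), e ≠ 0 → y ≠ 0 → y ∈ m ^ e →
        Ideal.absNorm m ≤ Ideal.absNorm (Ideal.span {y}) := by
      intro y e he hy0 hy
      have h1 : Ideal.span {y} ≤ m ^ e := by
        rw [Ideal.span_singleton_le_iff_mem]; exact hy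
      have h2 := Ideal.absNorm_dvd_absNorm_of_le h1
      have h3 : Ideal.absNorm (Ideal.span {y}) ≠ 0 := by
        rw [Ne, Ideal.absNorm_eq_zero_iff, Ideal.span_singleton_eq_bot]; exact hy0
      have h4 := Nat.le_of_dvd (Nat.pos_of_ne_zero h3) h2
      rw [map_pow] at h4
      exact (Nat.le_self_pow he _).trans h4
    rcases h with h | h
    · have := key A 4 (by norm_num) h hA
      omega
    · have := key B 6 (by norm_num) h hB
      omega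
  have hQ1 : Q 1 := ⟨⊤, by simp, by simp [Ideal.top_pow], by simp [Ideal.top_pow],
    by simp⟩
  have hN1 : 1 ≤ N := by
    obtain ⟨m, hm, hA, hB, he⟩ := hQ1
    have := hbd m hm hA hB
    omega
  have hspec : Q (Nat.findGreatest Q N) := Nat.findGreatest_spec hN1 hQ1
  obtain ⟨m, hm, hA, hB, he⟩ := hspec
  refine ⟨m, hm, hA, hB, ?_⟩
  rintro P hP hP0 ⟨hA', hB'⟩
  have hPm : P * m ≠ ⊥ := by
    intro h0
    rcases Ideal.mul_eq_bot.1 h0 with h1 | h1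
    · exact hP0 h1
    · exact hm h1
  have hle := hbd (P * m) hPm hA' hB'
  have hgr : Ideal.absNorm (P * m) ≤ Nat.findGreatest Q N :=
    Nat.le_findGreatest hle ⟨P * m, hPm, hA', hB', rfl⟩
  rw [← he, map_mul] at hgr
  have h2 := two_le_absNorm hP hP0
  have hpos : 0 < Ideal.absNorm m := by
    rw [Nat.pos_iff_ne_zero, Ne, Ideal.absNorm_eq_zero_iff]; exact hm
  nlinarith

end aux

/-- **Nearly minimal models.**

Proof. Let `m` be the product of the `P ^ (j P)`, `j P = min (⌊v_P(A)/4⌋) (⌊v_P(B)/6⌋)` (with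
`v_P(0) = ∞`) over the prime ideals `P` (`(A, B) ≠ (0, 0)` since `Del ≠ 0`; finitely many primes), the
largest ideal with `A ∈ m ^ 4`, `B ∈ m ^ 6`. (Or: among the ideals `m` with `A ∈ m ^ 4`, `B ∈ m ^ 6` take
one with maximal norm - the norms are bounded by `N(A) + N(B)`; maximality gives: there is no prime
ideal `P` with `A ∈ (P m) ^ 4` and `B ∈ (P m) ^ 6`.) Let `x`, `c` be as in `tc_exists_small`,
`A' = x⁴ A`, `B' = x⁶ B`, `ρ = x⁻¹`. Since `A ∈ m ^ 4`, `A' ∈ c ^ 4` is an algebraic integer (`x⁴ m⁴ = c⁴`,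
elements of `m ^ 4` are sums of products), same for `B'`, conjugates `≤ C⁴ T⁴ ≤ (C T) ^ 4`. For a prime
`P`: `v_P(A') = v_P(A) - 4 v_P(m) + 4 v_P(c)`: if `A' ∈ P ^ (4 + 4 v)` and `B' ∈ P ^ (6 + 6 v)`,
`v = v_P(c)`, then `A ∈ (P m) ^ 4`, `B ∈ (P m) ^ 6`, a contradiction. Since `2 ^ v ≤ N(c) ≤ C`,
`v ≤ C`; so `KMin k` holds with `k = 6 + 6 ⌈C⌉₊`, and if `P` does not divide `c` then not both
`A' ∈ P ^ 4` and `B' ∈ P ^ 6`. So let `M` be the product of all the ideals `≠ ⊥` of norm at most `C`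
(finitely many: `Ideal.finite_setOf_absNorm_le`): `A' ∈ P ^ 4`, `B' ∈ P ^ 6` implies `c ≤ P`, so
`M ≤ P`. -/
theorem tc_near_minimal (K : Type*) [Field K] [NumberField K] :
    ∃ (k : ℕ) (C : ℝ) (M : Ideal (𝓞 K)), 1 ≤ C ∧ M ≠ ⊥ ∧ ∀ T : ℝ, 1 ≤ T → ∀ z : 𝓞 K × 𝓞 K,
      InBox T z → Del z ≠ 0 → ∃ (ρ : K) (z' : 𝓞 K × 𝓞 K), ρ ≠ 0 ∧
        (z.1 : K) = ρ ^ 4 * (z'.1 : K) ∧ (z.2 : K) = ρ ^ 6 * (z'.2 : K) ∧ InBox (C * T) z' ∧
        Del z' ≠ 0 ∧ KMin k z' ∧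
        ∀ P : Ideal (𝓞 K), P.IsPrime → P ≠ ⊥ → z'.1 ∈ P ^ 4 → z'.2 ∈ P ^ 6 → M ≤ P := by
  classical
  obtain ⟨C, hC1, hC⟩ := tc_exists_small K
  have hfin : {I : Ideal (𝓞 K) | Ideal.absNorm I ≤ ⌊C⌋₊}.Finite :=
    Ideal.finite_setOfPred_absNorm_le ⌊C⌋₊
  let S : Finset (Ideal (𝓞 K)) := hfin.toFinset.filter (fun I => I ≠ ⊥)
  refine ⟨6 + 6 * ⌈C⌉₊, C, ∏ I ∈ S, I, hC1, ?_, ?_⟩
  · have h0 : (∏ I ∈ S, I) ≠ 0 := by
      rw [Finset.prod_ne_zero_iff]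
      intro I hI
      exact (Finset.mem_filter.1 hI).2
    exact h0
  intro T hT z hz hD
  have hAB : z.1 ≠ 0 ∨ z.2 ≠ 0 := by
    by_contra hcon
    push Not at hcon
    apply hD
    simp [Del, hcon.1, hcon.2]
  obtain ⟨m, hm, hA, hB, hmax⟩ := exists_max_ideal z.1 z.2 hAB
  obtain ⟨x, c, hx, hxC, hc0, hcC, hr1, hr2⟩ := hC m hm
  have hrel : tcRel x m c := ⟨hr1, hr2⟩
  obtain ⟨A', hA'c, hA'⟩ := (tcRel_pow hrel 4).1 z.1 hA
  obtain ⟨B', hB'c, hB'⟩ := (tcRel_pow hrel 6).1 z.2 hB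
  have hCpos : (0 : ℝ) ≤ C := by linarith
  -- the key contradiction
  have hkey : ∀ P : Ideal (𝓞 K), P.IsPrime → P ≠ ⊥ → ∀ v : ℕ, P ^ v ∣ c → ¬ P ^ (v + 1) ∣ c →
      A' ∈ P ^ (4 + 4 * v) → B' ∈ P ^ (6 + 6 * v) → False := by
    intro P hP hP0 v h1 h2 hAP hBP
    have hA4 := mem_mul_pow hP hP0 h1 h2 4 hA'c hAP
    have hB6 := mem_mul_pow hP hP0 h1 h2 6 hB'c hBP
    have hrelP : tcRel x (P * m) (P * c) := by
      have := tcRel_mul (tcRel_one P) hrel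
      rwa [one_mul] at this
    obtain ⟨u, hu, hue⟩ := (tcRel_pow hrelP 4).2 A' hA4
    obtain ⟨w, hw, hwe⟩ := (tcRel_pow hrelP 6).2 B' hB6
    have hu' : u = z.1 := by
      apply RingOfIntegers.ext
      have h3 : x ^ 4 * (u : K) = x ^ 4 * (z.1 : K) := by rw [← hue, ← hA']
      exact mul_left_cancel₀ (pow_ne_zero 4 hx) h3
    have hw' : w = z.2 := by
      apply RingOfIntegers.ext
      have h3 : x ^ 6 * (w : K) = x ^ 6 * (z.2 : K) := by rw [← hwe, ← hB']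
      exact mul_left_cancel₀ (pow_ne_zero 6 hx) h3
    exact hmax P hP hP0 ⟨hu' ▸ hu, hw' ▸ hw⟩
  refine ⟨x⁻¹, (A', B'), inv_ne_zero hx, ?_, ?_, ⟨?_, ?_⟩, ?_, ?_, ?_⟩
  · simp only [hA']
    field_simp
  · simp only [hB']
    field_simp
  · intro σ
    simp only [hA', map_mul, map_pow, norm_mul, norm_pow]
    rw [mul_pow]
    exact mul_le_mul (pow_le_pow_left₀ (norm_nonneg _) (hxC σ) 4) (hz.1 σ) (norm_nonneg _)
      (by positivity)
  · intro σ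
    simp only [hB', map_mul, map_pow, norm_mul, norm_pow]
    rw [mul_pow]
    exact mul_le_mul (pow_le_pow_left₀ (norm_nonneg _) (hxC σ) 6) (hz.2 σ) (norm_nonneg _)
      (by positivity)
  · intro h0
    apply hD
    have h1 : ((Del (A', B') : 𝓞 K) : K) = x ^ 12 * ((Del z : 𝓞 K) : K) := by
      simp only [Del, map_add, map_mul, map_pow, hA', hB']
      have e4 : algebraMap (𝓞 K) K 4 = 4 := map_ofNat _ 4
      have e27 : algebraMap (𝓞 K) K 27 = 27 := map_ofNat _ 27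
      rw [e4, e27]
      ring
    rw [h0] at h1
    have h2 : x ^ 12 * ((Del z : 𝓞 K) : K) = 0 := by rw [← h1]; simp
    rcases mul_eq_zero.1 h2 with h3 | h3
    · exact absurd h3 (pow_ne_zero 12 hx)
    · exact RingOfIntegers.ext (by rw [h3]; simp)
  · rintro P hP hP0 ⟨hAP, hBP⟩
    obtain ⟨v, h1, h2⟩ := exists_mult hP hP0 hc0
    have hv : v ≤ ⌈C⌉₊ := by
      have h3 := pow_le_absNorm hP hP0 hc0 h1
      have h4 : v < 2 ^ v := Nat.lt_two_pow_self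
      have h5 : (v : ℝ) ≤ C := by
        have h6 : (v : ℝ) ≤ (Ideal.absNorm c : ℝ) := by exact_mod_cast (h4.le.trans h3)
        linarith
      have h7 : (v : ℝ) ≤ (⌈C⌉₊ : ℝ) := h5.trans (Nat.le_ceil C)
      exact_mod_cast h7
    refine hkey P hP hP0 v h1 h2 ?_ ?_
    · exact Ideal.pow_le_pow_right (by omega) hAP
    · exact Ideal.pow_le_pow_right (by omega) hBP
  · intro P hP hP0 hAP hBP
    by_cases hcP : P ∣ c
    · have hcS : c ∈ S := by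
        rw [Finset.mem_filter, Set.Finite.mem_toFinset]
        exact ⟨Nat.le_floor hcC, hc0⟩
      have h1 : c ∣ ∏ I ∈ S, I := Finset.dvd_prod_of_mem _ hcS
      exact Ideal.dvd_iff_le.1 (hcP.trans h1)
    · exfalso
      refine hkey P hP hP0 0 (by simp) (by simpa using hcP) ?_ ?_
      · simpa using hAP
      · simpa using hBP

end Pool.Agent.Lib.MP_4a0cc8_ntC
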