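import Pool.Agent.Lib.MP_4a0cc8_ntC.Ord
import Pool.Agent.Lib.MP_4a0cc8_ntC.Defs

section

/-!
MP_4a0cc8_nt (C): a nonzero ideal is a square times a squarefree ideal, and other facts on ideals.
-/

set_option autoImplicit false

namespace Pool.Agent.Lib.MP_4a0cc8_ntC

open NumberField Module

private theorem sqdec_two_le {K : Type*} [Field K] [NumberField K] {P : Ideal (𝓞 K)} (hP : P ≠ ⊤)
    (hP0 : P ≠ ⊥) : 2 ≤ Ideal.absNorm P := by
  have h1 : Ideal.absNorm P ≠ 0 := fun h => hP0 (Ideal.absNorm_eq_zero_iff.1 h)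
  have h2 : Ideal.absNorm P ≠ 1 := fun h => hP (Ideal.absNorm_eq_one_iff.1 h)
  omega

/-- Proof. Among the ideals `j` with `j ^ 2 ∣ I` take one with maximal norm (`N(j) ≤ N(I)`), or
induction on the number of prime factors. -/
theorem tc_sq_dec {K : Type*} [Field K] [NumberField K] {I : Ideal (𝓞 K)} (hI : I ≠ ⊥) :
    ∃ j l : Ideal (𝓞 K), I = j ^ 2 * l ∧ j ≠ ⊥ ∧ l ≠ ⊥ ∧
      ∀ P : Ideal (𝓞 K), P.IsPrime → P ≠ ⊥ → ¬ l ≤ P ^ 2 := by
  induction hn : Ideal.absNorm I using Nat.strong_induction_on generalizing I with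
  | _ n ih =>
    by_cases h : ∃ P : Ideal (𝓞 K), P.IsPrime ∧ P ≠ ⊥ ∧ I ≤ P ^ 2
    · obtain ⟨P, hP, hP0, hle⟩ := h
      obtain ⟨I', rfl⟩ := Ideal.dvd_iff_le.2 hle
      have hI' : I' ≠ ⊥ := by
        rintro rfl
        exact hI (by simp)
      have hN : Ideal.absNorm I' < n := by
        rw [← hn, map_mul, map_pow]
        have h1 := sqdec_two_le hP.ne_top hP0
        have h2 : 0 < Ideal.absNorm I' := Nat.pos_of_ne_zero fun h => hI' (Ideal.absNorm_eq_zero_iff.1 h)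
        have h3 : 2 ^ 2 ≤ Ideal.absNorm P ^ 2 := Nat.pow_le_pow_left h1 2
        nlinarith
      obtain ⟨j, l, h1, h2, h3, h4⟩ := ih _ hN hI' rfl
      refine ⟨P * j, l, ?_, mul_ne_zero hP0 h2, h3, h4⟩
      rw [h1]
      ring
    · push Not at h
      exact ⟨1, I, by rw [one_pow, one_mul], one_ne_zero, hI, fun P hP hP0 => h P hP hP0⟩

/-- A squarefree ideal all of whose prime divisors divide `b` divides `b`.

Proof. `UniqueFactorizationMonoid.dvd_iff_normalizedFactors_le_normalizedFactors`, all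
multiplicities in `l` are at most `1`. -/
theorem tc_sqfree_dvd {K : Type*} [Field K] [NumberField K] {l b : Ideal (𝓞 K)} (hl : l ≠ ⊥)
    (h1 : ∀ P : Ideal (𝓞 K), P.IsPrime → P ≠ ⊥ → ¬ l ≤ P ^ 2)
    (h2 : ∀ P : Ideal (𝓞 K), P.IsPrime → P ≠ ⊥ → l ≤ P → b ≤ P) : b ≤ l := by
  induction hn : Ideal.absNorm l using Nat.strong_induction_on generalizing l with
  | _ n ih =>
    by_cases ht : l = ⊤
    · rw [ht]
      exact le_top
    · obtain ⟨P, hPm, hle⟩ := Ideal.exists_le_maximal l ht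
      have hP0 : P ≠ ⊥ := by
        rintro rfl
        exact hl (le_bot_iff.1 hle)
      obtain ⟨l', rfl⟩ := Ideal.dvd_iff_le.2 hle
      have hl' : l' ≠ ⊥ := by
        rintro rfl
        exact hl (by simp)
      have hle' : P * l' ≤ l' := Ideal.mul_le_right
      have hN : Ideal.absNorm l' < n := by
        rw [← hn, map_mul]
        have h3 := sqdec_two_le hPm.ne_top hP0
        have h4 : 0 < Ideal.absNorm l' := Nat.pos_of_ne_zero fun h => hl' (Ideal.absNorm_eq_zero_iff.1 h)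
        nlinarith
      have h5 : b ≤ l' := ih _ hN hl' (fun Q hQ hQ0 h => h1 Q hQ hQ0 (hle'.trans h))
        (fun Q hQ hQ0 h => h2 Q hQ hQ0 (hle'.trans h)) rfl
      have h6 : b ≤ P := h2 P hPm.isPrime hP0 hle
      have h7 : ¬ l' ≤ P := by
        intro h
        apply h1 P hPm.isPrime hP0
        rw [pow_two]
        exact Ideal.mul_mono le_rfl h
      have h8 : IsCoprime P l' := by
        rw [Ideal.isCoprime_iff_sup_eq]
        refine hPm.out.2 _ (lt_of_le_of_ne le_sup_left fun h => h7 ?_)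
        have h9 : l' ≤ P ⊔ l' := le_sup_right
        rwa [← h] at h9
      rw [Ideal.mul_eq_inf_of_isCoprime h8]
      exact le_inf h6 h5

/-- The multiplicity of a prime in an ideal of norm at most `C` is bounded.

Proof. `c ≤ P ^ v`, so `2 ^ v ≤ N(P) ^ v ≤ N(c) ≤ C` and `v < 2 ^ v`. -/
theorem tc_mult_le {K : Type*} [Field K] [NumberField K] {c P : Ideal (𝓞 K)} (hc : c ≠ ⊥)
    (hP : P.IsPrime) (hP0 : P ≠ ⊥) {C : ℝ} (hC : (Ideal.absNorm c : ℝ) ≤ C) {v : ℕ}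
    (h : c ≤ P ^ v) : (v : ℝ) ≤ C := by
  have h1 : P ^ v ∣ c := Ideal.dvd_iff_le.2 h
  have h2 : Ideal.absNorm (P ^ v) ∣ Ideal.absNorm c := map_dvd Ideal.absNorm h1
  have h3 : 0 < Ideal.absNorm c := Nat.pos_of_ne_zero fun h => hc (Ideal.absNorm_eq_zero_iff.1 h)
  have h4 := Nat.le_of_dvd h3 h2
  rw [map_pow] at h4
  have h5 : v ≤ Ideal.absNorm c :=
    (Nat.lt_two_pow_self.le.trans (Nat.pow_le_pow_left (sqdec_two_le hP.ne_top hP0) v)).trans h4
  exact le_trans (by exact_mod_cast h5) hC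

end Pool.Agent.Lib.MP_4a0cc8_ntC
end

section

/-!
MP_4a0cc8_nt (C): an element of the inverse of an ideal with prescribed sizes.
-/

set_option autoImplicit false

namespace Pool.Agent.Lib.MP_4a0cc8_ntC

open NumberField Module
open Pool.Agent.Lib.FMK60 (InBox Del Hle)

open MeasureTheory NumberField.mixedEmbedding in
open scoped ENNReal NNReal nonZeroDivisors in
/-- Minkowski for an integral ideal. -/
private lemma tc_an_mink (K : Type*) [Field K] [NumberField K] :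
    ∃ C : ℝ, 1 ≤ C ∧ ∀ J : Ideal (𝓞 K), J ≠ ⊥ → ∀ h : InfinitePlace K → ℝ, (∀ w, 0 < h w) →
      (∏ w, h w ^ w.mult) = (Ideal.absNorm J : ℝ) →
      ∃ y : 𝓞 K, y ∈ J ∧ y ≠ 0 ∧ ∀ w : InfinitePlace K, w (y : K) ≤ C * h w := by
  classical
  obtain ⟨B, hB⟩ : ∃ B : ℝ≥0∞, B = minkowskiBound K (1 : (FractionalIdeal (𝓞 K)⁰ K)ˣ) := ⟨_, rfl⟩
  have hBtop : B < ⊤ := by
    rw [hB]
    exact minkowskiBound_lt_top K _
  obtain ⟨C, hC⟩ : ∃ C : ℝ≥0, C = B.toNNReal + 1 := ⟨_, rfl⟩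
  have hC1 : 1 ≤ C := by
    rw [hC]
    exact le_add_self
  have hBC : B < (C : ℝ≥0∞) := by
    rw [hC, ← ENNReal.coe_toNNReal hBtop.ne]
    exact_mod_cast lt_add_one _
  refine ⟨(C : ℝ), by exact_mod_cast hC1, ?_⟩
  intro J hJ h hh hprod
  have hNJ : Ideal.absNorm J ≠ 0 := by rwa [Ne, Ideal.absNorm_eq_zero_iff]
  have hJ' : (J : FractionalIdeal (𝓞 K)⁰ K) ≠ 0 := by
    rwa [Ne, FractionalIdeal.coeIdeal_eq_zero]
  obtain ⟨I, hI⟩ : ∃ I : (FractionalIdeal (𝓞 K)⁰ K)ˣ, (I : FractionalIdeal (𝓞 K)⁰ K) = J :=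
    ⟨Units.mk0 _ hJ', rfl⟩
  obtain ⟨f, hf⟩ : ∃ f : InfinitePlace K → ℝ≥0, ∀ w, (f w : ℝ) = C * h w :=
    ⟨fun w => C * ⟨h w, (hh w).le⟩, fun w => by push_cast; rfl⟩
  have hlt : minkowskiBound K I < volume (convexBodyLT K f) := by
    rw [convexBodyLT_volume]
    have hmb : minkowskiBound K I = ENNReal.ofReal (Ideal.absNorm J : ℝ) * B := by
      rw [hB, minkowskiBound, minkowskiBound, volume_fundamentalDomain_fractionalIdealLatticeBasis,
        volume_fundamentalDomain_fractionalIdealLatticeBasis, hI, FractionalIdeal.coeIdeal_absNorm,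
        Units.val_one, FractionalIdeal.absNorm_one, Rat.cast_one, ENNReal.ofReal_one, one_mul,
        Rat.cast_natCast, mul_assoc]
    rw [hmb]
    have hprodf : ((∏ w, (f w) ^ (w.mult) : ℝ≥0) : ℝ≥0∞) =
        (C : ℝ≥0∞) ^ finrank ℚ K * ENNReal.ofReal (Ideal.absNorm J : ℝ) := by
      have h1 : ((∏ w, (f w) ^ (w.mult) : ℝ≥0) : ℝ) = (C : ℝ) ^ finrank ℚ K * (Ideal.absNorm J : ℝ) := by
        push_cast
        rw [← hprod, ← InfinitePlace.sum_mult_eq, ← Finset.prod_pow_eq_pow_sum,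
          ← Finset.prod_mul_distrib]
        apply Finset.prod_congr rfl
        intro w _
        rw [hf w, mul_pow]
      have h2 : ((∏ w, (f w) ^ (w.mult) : ℝ≥0) : ℝ≥0∞) =
          ENNReal.ofReal ((∏ w, (f w) ^ (w.mult) : ℝ≥0) : ℝ) := by
        rw [ENNReal.ofReal_coe_nnreal]
      rw [h2, h1, ENNReal.ofReal_mul (by positivity), ENNReal.ofReal_pow (by positivity),
        ENNReal.ofReal_coe_nnreal]
    rw [hprodf]
    have hN0 : ENNReal.ofReal (Ideal.absNorm J : ℝ) ≠ 0 := by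
      rw [Ne, ENNReal.ofReal_eq_zero, not_le]
      exact_mod_cast Nat.pos_of_ne_zero hNJ
    have hd0 : finrank ℚ K ≠ 0 := finrank_pos.ne'
    have hC1' : (1 : ℝ≥0∞) ≤ (C : ℝ≥0∞) := by exact_mod_cast hC1
    have hfac : (1 : ℝ≥0∞) ≤ (convexBodyLTFactor K : ℝ≥0∞) := by
      exact_mod_cast one_le_convexBodyLTFactor K
    calc ENNReal.ofReal (Ideal.absNorm J : ℝ) * B
        < ENNReal.ofReal (Ideal.absNorm J : ℝ) * C :=
          ENNReal.mul_lt_mul_right hN0 ENNReal.ofReal_ne_top hBC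
      _ = 1 * ((C : ℝ≥0∞) * ENNReal.ofReal (Ideal.absNorm J : ℝ)) := by
          rw [one_mul, mul_comm]
      _ ≤ (convexBodyLTFactor K : ℝ≥0∞) * ((C : ℝ≥0∞) ^ finrank ℚ K *
          ENNReal.ofReal (Ideal.absNorm J : ℝ)) := by
          gcongr
          exact le_self_pow₀ hC1' hd0
  obtain ⟨a, ha, ha0, haw⟩ := exists_ne_zero_mem_ideal_lt K I hlt
  rw [hI, FractionalIdeal.mem_coeIdeal] at ha
  obtain ⟨y, hyJ, rfl⟩ := ha
  refine ⟨y, hyJ, ?_, ?_⟩
  · rintro rfl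
    exact ha0 (map_zero _)
  · intro w
    rw [← hf w]
    exact (haw w).le

/-- **Minkowski.** Let `m` be a nonzero ideal and `h w > 0` with `∏ h w ^ mult w * N(m) = 1`. There are
`x ≠ 0` in `K` with `w x ≤ C * h w` for all infinite places, and an ideal `c` of norm at most `C` with
`x m = c` as ideals.

Proof. Let `I` be the fractional ideal `m⁻¹` (a unit), `N(I) = N(m)⁻¹`. By
`NumberField.mixedEmbedding.exists_ne_zero_mem_ideal_lt` with `f w = C₁ h w`: the volume of the convex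
body is `convexBodyLTFactor * ∏ (f w) ^ mult w = convexBodyLTFactor * C₁ ^ d * N(m)⁻¹`
(`convexBodyLT_volume`, `∑ mult w = d`: `InfinitePlace.sum_mult_eq`) and `minkowskiBound K I =
N(I) * minkowskiBound K 1` (`minkowskiBound`, `volume_fundamentalDomain_fractionalIdealLatticeBasis`),
so it is enough that `C₁ ^ d * convexBodyLTFactor > minkowskiBound K 1` (finite,
`minkowskiBound_lt_top`). So there is `0 ≠ x ∈ m⁻¹` with `w x < C₁ h w`. The fractional ideal `x m` is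
contained in `m⁻¹ m = 1`, so it is an integral ideal `c = {v : v ∈ x m}`; its norm is
`|Norm x| * N(m) = ∏ (w x) ^ mult w * N(m) ≤ C₁ ^ d` (`InfinitePlace.prod_eq_abs_norm`,
`FractionalIdeal.absNorm_span_singleton`, multiplicativity of `FractionalIdeal.absNorm`). -/
theorem tc_exists_small_aniso (K : Type*) [Field K] [NumberField K] :
    ∃ C : ℝ, 1 ≤ C ∧ ∀ m : Ideal (𝓞 K), m ≠ ⊥ → ∀ h : InfinitePlace K → ℝ, (∀ w, 0 < h w) →
      (∏ w, h w ^ w.mult) * (Ideal.absNorm m : ℝ) = 1 →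
      ∃ (x : K) (c : Ideal (𝓞 K)), x ≠ 0 ∧ (∀ w : InfinitePlace K, w x ≤ C * h w) ∧
      c ≠ ⊥ ∧ (Ideal.absNorm c : ℝ) ≤ C ∧ (∀ u ∈ m, ∃ v ∈ c, (v : K) = x * (u : K)) ∧
      (∀ v ∈ c, ∃ u ∈ m, (v : K) = x * (u : K)) := by
  classical
  obtain ⟨C₁, hC₁, hsm⟩ := tc_an_mink K
  have hd0 : 0 < finrank ℚ K := finrank_pos
  have hC₁0 : 0 < C₁ := by linarith
  have hC₁d : C₁ ≤ C₁ ^ finrank ℚ K := le_self_pow₀ hC₁ hd0.ne'
  refine ⟨C₁ ^ finrank ℚ K, one_le_pow₀ hC₁, fun m hm h hh hprod => ?_⟩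
  have hn0 : Ideal.absNorm m ≠ 0 := by rwa [Ne, Ideal.absNorm_eq_zero_iff]
  set n : ℕ := Ideal.absNorm m with hn
  have hn0' : (0 : ℝ) < (n : ℝ) := by exact_mod_cast Nat.pos_of_ne_zero hn0
  have hnm : ((n : ℕ) : 𝓞 K) ∈ m := Ideal.absNorm_mem m
  have hnK : ((n : ℕ) : K) ≠ 0 := by exact_mod_cast hn0
  have hnO : ((n : ℕ) : 𝓞 K) ≠ 0 := by exact_mod_cast hn0
  obtain ⟨J, hJ⟩ : m ∣ Ideal.span {((n : ℕ) : 𝓞 K)} :=
    Ideal.dvd_iff_le.mpr ((Ideal.span_singleton_le_iff_mem m).mpr hnm)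
  have hspan0 : Ideal.span {((n : ℕ) : 𝓞 K)} ≠ ⊥ := by
    rw [Ne, Ideal.span_singleton_eq_bot]
    exact hnO
  have hJ0 : J ≠ ⊥ := by
    rintro rfl
    apply hspan0
    rw [hJ, Ideal.mul_bot]
  have hNJ0 : Ideal.absNorm J ≠ 0 := by rwa [Ne, Ideal.absNorm_eq_zero_iff]
  have hNJ0' : (0 : ℝ) < (Ideal.absNorm J : ℝ) := by exact_mod_cast Nat.pos_of_ne_zero hNJ0
  have hwn : ∀ w : InfinitePlace K, w ((n : ℕ) : K) = (n : ℝ) := by
    intro w
    rw [← w.norm_embedding_eq, map_natCast, Complex.norm_natCast]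
  -- norms of principal ideals
  have hspan : ∀ y : 𝓞 K, (Ideal.absNorm (Ideal.span {y}) : ℝ) =
      ∏ w : InfinitePlace K, w (y : K) ^ w.mult := by
    intro y
    rw [InfinitePlace.prod_eq_abs_norm, Ideal.absNorm_span_singleton, Nat.cast_natAbs,
      ← Algebra.coe_norm_int]
    push_cast
    rfl
  have hmJ : (n : ℝ) * (Ideal.absNorm J : ℝ) = (n : ℝ) ^ finrank ℚ K := by
    have h1 := hspan ((n : ℕ) : 𝓞 K)
    rw [hJ, map_mul] at h1
    have h2 : (((n : ℕ) : 𝓞 K) : K) = ((n : ℕ) : K) := by simp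
    rw [h2] at h1
    push_cast at h1
    rw [← hn] at h1
    rw [h1, ← InfinitePlace.sum_mult_eq, ← Finset.prod_pow_eq_pow_sum]
    apply Finset.prod_congr rfl
    intro w _
    rw [hwn w]
  have hprod2 : (∏ w : InfinitePlace K, ((n : ℝ) * h w) ^ w.mult) = (Ideal.absNorm J : ℝ) := by
    have h1 : (∏ w : InfinitePlace K, ((n : ℝ) * h w) ^ w.mult) =
        (n : ℝ) ^ finrank ℚ K * ∏ w, h w ^ w.mult := by
      rw [← InfinitePlace.sum_mult_eq, ← Finset.prod_pow_eq_pow_sum, ← Finset.prod_mul_distrib]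
      apply Finset.prod_congr rfl
      intro w _
      rw [mul_pow]
    rw [h1, ← hmJ]
    calc (n : ℝ) * (Ideal.absNorm J : ℝ) * ∏ w, h w ^ w.mult =
        (Ideal.absNorm J : ℝ) * ((∏ w, h w ^ w.mult) * n) := by ring
      _ = (Ideal.absNorm J : ℝ) := by rw [hprod, mul_one]
  obtain ⟨y, hyJ, hy0, hyw⟩ := hsm J hJ0 (fun w => (n : ℝ) * h w)
    (fun w => mul_pos hn0' (hh w)) hprod2
  have hyK : (y : K) ≠ 0 := by
    have := NumberField.RingOfIntegers.coe_ne_zero_iff.mpr hy0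
    exact this
  obtain ⟨c, hc⟩ : J ∣ Ideal.span {y} :=
    Ideal.dvd_iff_le.mpr ((Ideal.span_singleton_le_iff_mem J).mpr hyJ)
  have hspany : Ideal.span {y} ≠ ⊥ := by
    rw [Ne, Ideal.span_singleton_eq_bot]
    exact hy0
  have hc0 : c ≠ ⊥ := by
    rintro rfl
    apply hspany
    rw [hc, Ideal.mul_bot]
  have hkey : Ideal.span {y} * m = Ideal.span {((n : ℕ) : 𝓞 K)} * c := by
    rw [hc, hJ]
    ring
  refine ⟨(y : K) / (n : K), c, div_ne_zero hyK hnK, ?_, hc0, ?_, ?_, ?_⟩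
  · intro w
    rw [map_div₀, hwn w, div_le_iff₀ hn0']
    refine (hyw w).trans ?_
    have h1 : 0 ≤ (n : ℝ) * h w := (mul_pos hn0' (hh w)).le
    calc C₁ * ((n : ℝ) * h w) ≤ C₁ ^ finrank ℚ K * ((n : ℝ) * h w) :=
          mul_le_mul_of_nonneg_right hC₁d h1
      _ = C₁ ^ finrank ℚ K * h w * n := by ring
  · have h1 : (Ideal.absNorm (Ideal.span {y}) : ℝ) ≤
        C₁ ^ finrank ℚ K * (Ideal.absNorm J : ℝ) := by
      rw [hspan y, ← hprod2, ← InfinitePlace.sum_mult_eq, ← Finset.prod_pow_eq_pow_sum,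
        ← Finset.prod_mul_distrib]
      apply Finset.prod_le_prod
      · intro w _
        exact pow_nonneg (apply_nonneg w _) _
      · intro w _
        rw [← mul_pow]
        exact pow_le_pow_left₀ (apply_nonneg w _) (hyw w) _
    rw [hc, map_mul] at h1
    push_cast at h1
    have h2 : (Ideal.absNorm J : ℝ) * (Ideal.absNorm c : ℝ) ≤
        (Ideal.absNorm J : ℝ) * C₁ ^ finrank ℚ K := by linarith
    exact le_of_mul_le_mul_left h2 hNJ0'
  · intro u hu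
    have h1 : y * u ∈ Ideal.span {((n : ℕ) : 𝓞 K)} * c := by
      rw [← hkey]
      exact Ideal.mul_mem_mul (Ideal.mem_span_singleton_self y) hu
    obtain ⟨v, hv, hvy⟩ := Ideal.mem_span_singleton_mul.mp h1
    refine ⟨v, hv, ?_⟩
    have h2 := congrArg (algebraMap (𝓞 K) K) hvy
    rw [map_mul, map_mul, map_natCast] at h2
    rw [div_mul_eq_mul_div, eq_div_iff hnK, mul_comm]
    exact h2
  · intro v hv
    have h1 : ((n : ℕ) : 𝓞 K) * v ∈ Ideal.span {y} * m := by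
      rw [hkey]
      exact Ideal.mul_mem_mul (Ideal.mem_span_singleton_self _) hv
    obtain ⟨u, hu, huy⟩ := Ideal.mem_span_singleton_mul.mp h1
    refine ⟨u, hu, ?_⟩
    have h2 := congrArg (algebraMap (𝓞 K) K) huy
    rw [map_mul, map_mul, map_natCast] at h2
    rw [div_mul_eq_mul_div, eq_div_iff hnK, mul_comm]
    exact h2.symm

end Pool.Agent.Lib.MP_4a0cc8_ntC
end
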